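import Pool.Agent.LT.TOne

/-!
# Covering the middle of a square: final form
-/

open MeasureTheory ProbabilityTheory Filter Topology
open scoped NNReal ENNReal

namespace Pool.Agent.LT

lemma log_cube {m : ℕ} (hm : 1 ≤ m) : (1 + Real.log m) ^ 3 ≤ 216 * Real.sqrt m := by
  have hm' : (1 : ℝ) ≤ m := by exact_mod_cast hm
  have hm0 : (0 : ℝ) < m := by linarith
  set z : ℝ := (m : ℝ) ^ ((1 : ℝ) / 6) with hz
  have hz0 : 0 < z := Real.rpow_pos_of_pos hm0 _
  have h1 : Real.log m = 6 * Real.log z := by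
    rw [hz, Real.log_rpow hm0]; ring
  have h2 : Real.log z ≤ z - 1 := Real.log_le_sub_one_of_pos hz0
  have h3 : 1 + Real.log m ≤ 6 * z := by rw [h1]; linarith
  have h4 : 0 ≤ 1 + Real.log m := by have := Real.log_natCast_nonneg m; linarith
  have h5 : z ^ 3 = Real.sqrt m := by
    rw [hz, ← Real.rpow_natCast, ← Real.rpow_mul hm0.le, Real.sqrt_eq_rpow]
    norm_num
  calc (1 + Real.log m) ^ 3 ≤ (6 * z) ^ 3 := by gcongr
    _ = 216 * z ^ 3 := by ring
    _ = 216 * Real.sqrt m := by rw [h5]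

/-- Covering the middle of a square. -/
theorem cov_mid : ∃ C : ℝ, 1 ≤ C ∧ ∀ m : ℕ, 1 ≤ m → ∀ β : ℝ, 1 ≤ β → ∀ x ∈ sq m, ∀ z ∈ sq m,
    Cov (sq m) (mid m) β (C * β * (m ^ 2 * Real.sqrt m)) x z (C * β * Real.sqrt m) := by
  have hcc := cc_pos
  have hcc1 := cc_le_one
  set c1 : ℝ := cc * (1 / 256) * Real.exp (-20) * (2 / 5) with hc1
  have hc1pos : 0 < c1 := by positivity
  have hc1le : c1 ≤ 1 := by
    have h3 : Real.exp (-20) ≤ 1 := Real.exp_le_one_iff.2 (by norm_num)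
    calc c1 ≤ 1 * (1 / 256) * 1 * (2 / 5) := by rw [hc1]; gcongr
      _ ≤ 1 := by norm_num
  set C1 : ℝ := 8640 / c1 with hC1
  have hC1pos : 0 < C1 := by positivity
  refine ⟨6000 + 48 * C1, by linarith, ?_⟩
  intro m hm β hβ x hx z hz
  set L : ℝ := 1 + Real.log m with hL
  have hL1 : 1 ≤ L := by have := Real.log_natCast_nonneg m; linarith
  have hm' : (1 : ℝ) ≤ m := by exact_mod_cast hm
  have hcube := log_cube hm
  rw [← hL] at hcube
  have hsq1 : 1 ≤ Real.sqrt m := by rw [Real.one_le_sqrt]; exact hm'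
  have hq : c1 / L ^ 2 ≤ q0 m := by
    unfold q0
    rw [← hL, div_le_div_iff₀ (by positivity) (by positivity), hc1]
    have h2 : 1 + cc * (1 + L ^ 2 / 2) ≤ 5 / 2 * L ^ 2 := by
      have h3 : (1 : ℝ) ≤ L ^ 2 := one_le_pow₀ hL1
      nlinarith
    have h4 : 0 ≤ cc * (1 / 256) * Real.exp (-20) := by positivity
    nlinarith
  have hq0 := q0_pos m
  have hlogN : Real.log ((m : ℝ) + 1) ≤ L := by
    have h1 : (m : ℝ) + 1 ≤ Real.exp 1 * m := by
      have := Real.exp_one_gt_d9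
      nlinarith
    calc Real.log ((m : ℝ) + 1) ≤ Real.log (Real.exp 1 * m) := Real.log_le_log (by positivity) h1
      _ = L := by rw [Real.log_mul (Real.exp_pos 1).ne' (by positivity), Real.log_exp]
  set B : ℝ := β + 8 * Real.log ((m : ℝ) + 1) + 30 with hB
  have hBle : B ≤ 39 * (β * L) := by
    have h1 : 1 ≤ β * L := by nlinarith
    have h2 : β ≤ β * L := by nlinarith
    have h3 : L ≤ β * L := by nlinarith
    linarith
  have hB0 : 0 ≤ B := by
    have : 0 ≤ Real.log ((m : ℝ) + 1) := Real.log_nonneg (by linarith)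
    positivity
  set k : ℕ := ⌈B / q0 m⌉₊ with hk
  have hk1 : B ≤ q0 m * k := by
    have h1 := Nat.le_ceil (B / q0 m)
    rw [div_le_iff₀ hq0] at h1
    linarith
  have hL3 : 1 ≤ L ^ 3 := one_le_pow₀ hL1
  have hk2 : (k : ℝ) ≤ C1 * β * Real.sqrt m := by
    have h1 : (k : ℝ) < B / q0 m + 1 := Nat.ceil_lt_add_one (by positivity)
    have h2 : B / q0 m ≤ 39 * (β * L) / (c1 / L ^ 2) := by
      gcongr
    have h3 : 39 * (β * L) / (c1 / L ^ 2) = 39 * (β * L ^ 3) / c1 := by field_simp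
    have h4 : 1 ≤ β * L ^ 3 / c1 := by
      rw [le_div_iff₀ hc1pos]
      nlinarith
    have h5 : 39 * (β * L ^ 3) / c1 = 39 * (β * L ^ 3 / c1) := by ring
    have h6 : (k : ℝ) ≤ 40 * (β * L ^ 3 / c1) := by linarith
    refine h6.trans ?_
    calc 40 * (β * L ^ 3 / c1) ≤ 40 * (β * (216 * Real.sqrt m) / c1) := by gcongr
      _ = C1 * β * Real.sqrt m := by rw [hC1]; ring
  have hcov := cov_mid_aux hm hk1 hx hz
  have hβm : 1 ≤ β * Real.sqrt m := by nlinarith
  refine ⟨_, ?_, hcov.mono (le_refl _) (le_refl _) le_rfl ?_⟩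
  · push_cast
    have h1 : (m : ℝ) + 1 ≤ 2 * m := by linarith
    have h2 : ((m : ℝ) + 1) ^ 2 ≤ (2 * m) ^ 2 := by gcongr
    calc (2 * (k : ℝ) + 1) * ((m : ℝ) + 1) ^ 2
        ≤ (2 * (C1 * β * Real.sqrt m) + β * Real.sqrt m) * (2 * m) ^ 2 := by gcongr
      _ = (8 * C1 + 4) * (β * (m ^ 2 * Real.sqrt m)) := by ring
      _ ≤ (6000 + 48 * C1) * (β * (m ^ 2 * Real.sqrt m)) := by
          apply mul_le_mul_of_nonneg_right _ (by positivity)
          linarith
      _ = _ := by ring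
  · have h1 : L ≤ 216 * (β * Real.sqrt m) := by
      have h2 : L ≤ L ^ 3 := by
        have : L ^ 3 = L * L ^ 2 := by ring
        rw [this]
        have : (1 : ℝ) ≤ L ^ 2 := one_le_pow₀ hL1
        nlinarith
      have h3 : Real.sqrt m ≤ β * Real.sqrt m := by nlinarith [Real.sqrt_nonneg (m : ℝ)]
      linarith
    have h4 : 40 * (k : ℝ) ≤ 40 * (C1 * β * Real.sqrt m) := by linarith
    calc 6 * Real.log ((m : ℝ) + 1) + 20 + 40 * k
        ≤ 6 * L + 20 * L + 40 * (C1 * β * Real.sqrt m) := by linarith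
      _ ≤ 26 * (216 * (β * Real.sqrt m)) + 40 * (C1 * β * Real.sqrt m) := by linarith
      _ = (5616 + 40 * C1) * (β * Real.sqrt m) := by ring
      _ ≤ (6000 + 48 * C1) * (β * Real.sqrt m) := by
          apply mul_le_mul_of_nonneg_right _ (by positivity)
          linarith
      _ = _ := by ring

end Pool.Agent.LT
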