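import Pool.Agent.LT.Fill

/-!
# The kernel of the walk killed outside a square
-/

open MeasureTheory ProbabilityTheory Filter Topology
open scoped NNReal ENNReal

namespace Pool.Agent.LT

lemma sum_units (g : Site → ℝ) :
    ∑ e ∈ units, g e = g (1, 0) + g (-1, 0) + g (0, 1) + g (0, -1) := by
  unfold units
  rw [Finset.sum_insert (by decide), Finset.sum_insert (by decide), Finset.sum_insert (by decide),
    Finset.sum_singleton]
  ring

/-- The sine functions. -/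
noncomputable def sn (m k : ℕ) (i : ℤ) : ℝ := Real.sin (Real.pi * k * (i + 1) / (m + 1))

/-- One-dimensional eigenvalues. -/
noncomputable def lm (m k : ℕ) : ℝ := 2 * (1 - Real.cos (Real.pi * k / (m + 1)))

lemma sn_neg_one (m k : ℕ) : sn m k (-1) = 0 := by
  unfold sn; simp

lemma sn_top (m k : ℕ) : sn m k m = 0 := by
  unfold sn
  have : Real.pi * k * (((m : ℤ) : ℝ) + 1) / (m + 1) = k * Real.pi := by
    have : (m : ℝ) + 1 ≠ 0 := by positivity
    push_cast
    field_simp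
  rw [this, Real.sin_nat_mul_pi]

lemma sn_lap (m k : ℕ) (i : ℤ) : sn m k (i + 1) + sn m k (i - 1) = (2 - lm m k) * sn m k i := by
  unfold sn lm
  have e1 : Real.pi * k * (((i + 1 : ℤ) : ℝ) + 1) / (m + 1)
      = Real.pi * k * (i + 1) / (m + 1) + Real.pi * k / (m + 1) := by push_cast; ring
  have e2 : Real.pi * k * (((i - 1 : ℤ) : ℝ) + 1) / (m + 1)
      = Real.pi * k * (i + 1) / (m + 1) - Real.pi * k / (m + 1) := by push_cast; ring
  rw [e1, e2, Real.sin_add, Real.sin_sub]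
  ring

lemma tele_cos (θ : ℝ) (n : ℕ) :
    ∑ k ∈ Finset.range n, 2 * Real.sin (θ / 2) * Real.cos (k * θ)
      = Real.sin ((n - 1 / 2) * θ) + Real.sin (θ / 2) := by
  induction n with
  | zero =>
    simp only [Finset.range_zero, Finset.sum_empty, Nat.cast_zero]
    have : ((0 : ℝ) - 1 / 2) * θ = -(θ / 2) := by ring
    rw [this, Real.sin_neg]
    ring
  | succ n ih =>
    rw [Finset.sum_range_succ, ih]
    have e1 : (((n + 1 : ℕ) : ℝ) - 1 / 2) * θ = n * θ + θ / 2 := by push_cast; ring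
    have e2 : ((n : ℝ) - 1 / 2) * θ = n * θ - θ / 2 := by ring
    rw [e1, e2, Real.sin_add, Real.sin_sub]
    ring

lemma cos_sum (m : ℕ) (d : ℤ) (hd : Real.sin (Real.pi * d / (m + 1) / 2) ≠ 0) :
    ∑ k ∈ Finset.range (m + 1), Real.cos (k * (Real.pi * d / (m + 1)))
      = (1 - Real.cos (d * Real.pi)) / 2 := by
  have h1 := tele_cos (Real.pi * d / (m + 1)) (m + 1)
  rw [← Finset.mul_sum] at h1
  have h2 : (((m + 1 : ℕ) : ℝ) - 1 / 2) * (Real.pi * d / (m + 1))
      = d * Real.pi - Real.pi * d / (m + 1) / 2 := by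
    have : (m : ℝ) + 1 ≠ 0 := by positivity
    push_cast
    field_simp
  rw [h2, Real.sin_sub, Real.sin_int_mul_pi] at h1
  have h3 : Real.sin (Real.pi * d / (m + 1) / 2) *
      (2 * ∑ k ∈ Finset.range (m + 1), Real.cos (k * (Real.pi * d / (m + 1)))
        - (1 - Real.cos (d * Real.pi))) = 0 := by linarith
  rcases mul_eq_zero.1 h3 with h4 | h4
  · exact absurd h4 hd
  · linarith

lemma sn_orth (m : ℕ) {i j : ℤ} (hi0 : 0 ≤ i) (hi1 : i < m) (hj0 : 0 ≤ j) (hj1 : j < m) :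
    ∑ k ∈ Finset.range (m + 1), sn m k i * sn m k j = if i = j then ((m : ℝ) + 1) / 2 else 0 := by
  have hN : (0 : ℝ) < (m : ℝ) + 1 := by positivity
  have hi1' : (i : ℝ) < m := by exact_mod_cast hi1
  have hj1' : (j : ℝ) < m := by exact_mod_cast hj1
  have hi0' : (0 : ℝ) ≤ i := by exact_mod_cast hi0
  have hj0' : (0 : ℝ) ≤ j := by exact_mod_cast hj0
  have hprod : ∀ k ∈ Finset.range (m + 1), sn m k i * sn m k j
      = (Real.cos (k * (Real.pi * ((i - j : ℤ) : ℝ) / (m + 1)))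
        - Real.cos (k * (Real.pi * ((i + j + 2 : ℤ) : ℝ) / (m + 1)))) / 2 := by
    intro k _
    unfold sn
    have e1 : (k : ℝ) * (Real.pi * ((i - j : ℤ) : ℝ) / (m + 1))
        = Real.pi * k * (i + 1) / (m + 1) - Real.pi * k * (j + 1) / (m + 1) := by
      push_cast; ring
    have e2 : (k : ℝ) * (Real.pi * ((i + j + 2 : ℤ) : ℝ) / (m + 1))
        = Real.pi * k * (i + 1) / (m + 1) + Real.pi * k * (j + 1) / (m + 1) := by
      push_cast; ring
    rw [e1, e2, Real.cos_sub, Real.cos_add]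
    ring
  rw [Finset.sum_congr rfl hprod, ← Finset.sum_div, Finset.sum_sub_distrib]
  have hs2 : ∑ k ∈ Finset.range (m + 1), Real.cos (k * (Real.pi * ((i + j + 2 : ℤ) : ℝ) / (m + 1)))
      = (1 - Real.cos (((i + j + 2 : ℤ) : ℝ) * Real.pi)) / 2 := by
    apply cos_sum
    apply ne_of_gt
    apply Real.sin_pos_of_pos_of_lt_pi
    · push_cast; positivity
    · rw [div_div, div_lt_iff₀ (by positivity)]
      have := Real.pi_pos
      push_cast
      nlinarith
  rw [hs2]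
  by_cases hij : i = j
  · subst hij
    rw [if_pos rfl]
    have e3 : ∑ k ∈ Finset.range (m + 1), Real.cos (k * (Real.pi * ((i - i : ℤ) : ℝ) / (m + 1)))
        = (m : ℝ) + 1 := by
      simp
    have e4 : Real.cos (((i + i + 2 : ℤ) : ℝ) * Real.pi) = 1 := by
      have : ((i + i + 2 : ℤ) : ℝ) * Real.pi = ((i + 1 : ℤ) : ℝ) * (2 * Real.pi) := by
        push_cast; ring
      rw [this, Real.cos_int_mul_two_pi]
    rw [e3, e4]
    ring
  · rw [if_neg hij]
    have hs1 : ∑ k ∈ Finset.range (m + 1), Real.cos (k * (Real.pi * ((i - j : ℤ) : ℝ) / (m + 1)))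
      = (1 - Real.cos (((i - j : ℤ) : ℝ) * Real.pi)) / 2 := by
      apply cos_sum
      have hpi := Real.pi_pos
      rcases lt_or_gt_of_ne hij with h | h
      · apply ne_of_lt
        have h' : (i : ℝ) < j := by exact_mod_cast h
        have hlt : Real.pi * ((i - j : ℤ) : ℝ) / (m + 1) / 2 < 0 := by
          rw [div_div, div_lt_iff₀ (by positivity), zero_mul]
          push_cast
          nlinarith
        apply Real.sin_neg_of_neg_of_neg_pi_lt hlt
        rw [div_div, lt_div_iff₀ (by positivity)]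
        push_cast
        nlinarith
      · apply ne_of_gt
        have h' : (j : ℝ) < i := by exact_mod_cast h
        apply Real.sin_pos_of_pos_of_lt_pi
        · apply div_pos _ (by norm_num)
          apply div_pos _ hN
          apply mul_pos hpi
          push_cast; linarith
        · rw [div_div, div_lt_iff₀ (by positivity)]
          push_cast
          nlinarith
    rw [hs1]
    have e4 : Real.cos (((i + j + 2 : ℤ) : ℝ) * Real.pi) = Real.cos (((i - j : ℤ) : ℝ) * Real.pi) := by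
      have : ((i + j + 2 : ℤ) : ℝ) * Real.pi = ((i - j : ℤ) : ℝ) * Real.pi
          + ((j + 1 : ℤ) : ℝ) * (2 * Real.pi) := by
        push_cast; ring
      rw [this, Real.cos_add_int_mul_two_pi]
    rw [e4]
    ring

/-- The `m × m` square `[0, m)²`. -/
noncomputable def sq (m : ℕ) : Finset Site := boxF (-1) (-1) m m

lemma mem_sq {m : ℕ} {x : Site} : x ∈ sq m ↔ 0 ≤ x.1 ∧ x.1 < m ∧ 0 ≤ x.2 ∧ x.2 < m := by
  unfold sq
  rw [mem_boxF]
  unfold InBox
  constructor <;> intro h <;> omega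

/-- Two-dimensional eigenfunctions. -/
noncomputable def sn2 (m k l : ℕ) (x : Site) : ℝ := sn m k x.1 * sn m l x.2

lemma ext0_sn2 (m k l : ℕ) {z : Site} (h1 : -1 ≤ z.1) (h2 : z.1 ≤ m) (h3 : -1 ≤ z.2)
    (h4 : z.2 ≤ m) : ext0 (sq m) (fun x => sn2 m k l x.1) z = sn2 m k l z := by
  by_cases hz : z ∈ sq m
  · exact ext0_mem (sq m) (fun x => sn2 m k l x.1) ⟨z, hz⟩
  · rw [ext0_not_mem _ _ hz]
    rw [mem_sq] at hz
    have h5 : z.1 = -1 ∨ z.1 = m ∨ z.2 = -1 ∨ z.2 = m := by omega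
    unfold sn2
    rcases h5 with h5 | h5 | h5 | h5 <;> rw [h5] <;> simp [sn_neg_one, sn_top]

lemma gen_sn2 (m k l : ℕ) :
    (gen (sq m) (fun _ => 0)).mulVec (fun x => sn2 m k l x.1)
      = (-(lm m k + lm m l)) • (fun x : sq m => sn2 m k l x.1) := by
  funext x
  rw [gen_mulVec, sum_units]
  have hx := mem_sq.1 x.2
  rw [ext0_sn2 m k l, ext0_sn2 m k l, ext0_sn2 m k l, ext0_sn2 m k l]
  · simp only [sn2, Prod.fst_add, Prod.snd_add, add_zero, Pi.smul_apply, smul_eq_mul]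
    have h1 := sn_lap m k x.1.1
    have h2 := sn_lap m l x.1.2
    have e1 : x.1.1 + -1 = x.1.1 - 1 := by ring
    have e2 : x.1.2 + -1 = x.1.2 - 1 := by ring
    rw [e1, e2]
    linear_combination sn m l x.1.2 * h1 + sn m k x.1.1 * h2
  all_goals simp only [Prod.fst_add, Prod.snd_add] <;> omega

/-- The one-dimensional kernel. -/
noncomputable def ker1 (m : ℕ) (s : ℝ) (i j : ℤ) : ℝ :=
  2 / (m + 1) * ∑ k ∈ Finset.range (m + 1), sn m k i * sn m k j * Real.exp (-(s * lm m k))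

/-- The kernel of the killed walk in the square. -/
theorem kernel_sq (m : ℕ) (s : ℝ) (x y : sq m) :
    NormedSpace.exp (s • gen (sq m) (fun _ => 0)) x y
      = ker1 m s x.1.1 y.1.1 * ker1 m s x.1.2 y.1.2 := by
  set Q := gen (sq m) (fun _ => 0) with hQ
  have hN : (0 : ℝ) < (m : ℝ) + 1 := by positivity
  have hx := mem_sq.1 x.2
  have hy := mem_sq.1 y.2
  have hδ : (Pi.single y (1 : ℝ) : sq m → ℝ) = ∑ k ∈ Finset.range (m + 1),
      ∑ l ∈ Finset.range (m + 1), ((2 / (m + 1)) ^ 2 * sn2 m k l y.1) •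
        (fun x : sq m => sn2 m k l x.1) := by
    funext z
    have hz := mem_sq.1 z.2
    rw [Finset.sum_apply]
    simp only [Finset.sum_apply, Pi.smul_apply, smul_eq_mul]
    have h1 : ∑ k ∈ Finset.range (m + 1), ∑ l ∈ Finset.range (m + 1),
        (2 / ((m : ℝ) + 1)) ^ 2 * sn2 m k l y.1 * sn2 m k l z.1
        = (2 / (m + 1)) ^ 2 * ((∑ k ∈ Finset.range (m + 1), sn m k y.1.1 * sn m k z.1.1)
          * ∑ l ∈ Finset.range (m + 1), sn m l y.1.2 * sn m l z.1.2) := by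
      rw [Finset.sum_mul_sum, Finset.mul_sum]
      apply Finset.sum_congr rfl
      intro k _
      rw [Finset.mul_sum]
      apply Finset.sum_congr rfl
      intro l _
      simp only [sn2]
      ring
    rw [h1, sn_orth m hy.1 hy.2.1 hz.1 hz.2.1, sn_orth m hy.2.2.1 hy.2.2.2 hz.2.2.1 hz.2.2.2]
    by_cases hyz : z = y
    · subst hyz
      simp only [Pi.single_eq_same, if_true]
      field_simp
    · rw [Pi.single_eq_of_ne hyz]
      have : ¬ (y.1.1 = z.1.1) ∨ ¬ (y.1.2 = z.1.2) := by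
        by_contra hc
        push Not at hc
        apply hyz
        exact Subtype.ext (Prod.ext hc.1.symm hc.2.symm)
      rcases this with h2 | h2 <;> rw [if_neg h2] <;> ring
  have h2 : NormedSpace.exp (s • Q) x y = (NormedSpace.exp (s • Q)).mulVec (Pi.single y 1) x := by
    rw [Matrix.mulVec_single_one]
    rfl
  rw [h2, hδ, Matrix.mulVec_sum, Finset.sum_apply]
  simp only [Matrix.mulVec_sum, Finset.sum_apply, Matrix.mulVec_smul]
  simp only [exp_eigen Q _ _ (gen_sn2 m _ _), Pi.smul_apply, smul_eq_mul]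
  unfold ker1
  have h3 : 2 / ((m : ℝ) + 1) * (∑ k ∈ Finset.range (m + 1), sn m k x.1.1 * sn m k y.1.1 *
      Real.exp (-(s * lm m k))) * (2 / (m + 1) * ∑ k ∈ Finset.range (m + 1),
      sn m k x.1.2 * sn m k y.1.2 * Real.exp (-(s * lm m k)))
      = (2 / (m + 1)) ^ 2 * ((∑ k ∈ Finset.range (m + 1), sn m k x.1.1 * sn m k y.1.1 *
      Real.exp (-(s * lm m k))) * ∑ k ∈ Finset.range (m + 1),
      sn m k x.1.2 * sn m k y.1.2 * Real.exp (-(s * lm m k))) := by ring
  rw [h3, Finset.sum_mul_sum, Finset.mul_sum]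
  apply Finset.sum_congr rfl
  intro k _
  rw [Finset.mul_sum]
  apply Finset.sum_congr rfl
  intro l _
  have h4 : Real.exp (-(lm m k + lm m l) * s) = Real.exp (-(s * lm m k)) * Real.exp (-(s * lm m l)) := by
    rw [← Real.exp_add]; ring_nf
  rw [h4]
  simp only [sn2]
  ring

/-! ### Bounds -/

lemma abs_sin_nat_mul (θ : ℝ) (k : ℕ) : |Real.sin (k * θ)| ≤ k * |Real.sin θ| := by
  induction k with
  | zero => simp
  | succ k ih =>
    have e : ((k + 1 : ℕ) : ℝ) * θ = k * θ + θ := by push_cast; ring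
    rw [e, Real.sin_add]
    calc |Real.sin (k * θ) * Real.cos θ + Real.cos (k * θ) * Real.sin θ|
        ≤ |Real.sin (k * θ)| * |Real.cos θ| + |Real.cos (k * θ)| * |Real.sin θ| := by
          rw [← abs_mul, ← abs_mul]; exact abs_add_le _ _
      _ ≤ (k * |Real.sin θ|) * 1 + 1 * |Real.sin θ| := by
          gcongr
          · exact Real.abs_cos_le_one _
          · exact Real.abs_cos_le_one _
      _ = _ := by push_cast; ring

lemma sn_one_pos {m : ℕ} {i : ℤ} (h0 : 0 ≤ i) (h1 : i < m) : 0 < sn m 1 i := by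
  unfold sn
  have h0' : (0 : ℝ) ≤ i := by exact_mod_cast h0
  have h1' : (i : ℝ) < m := by exact_mod_cast h1
  have hpi := Real.pi_pos
  apply Real.sin_pos_of_pos_of_lt_pi
  · positivity
  · rw [div_lt_iff₀ (by positivity)]
    push_cast
    nlinarith

lemma abs_sn_le {m k : ℕ} {i : ℤ} (h0 : 0 ≤ i) (h1 : i < m) : |sn m k i| ≤ k * sn m 1 i := by
  have h2 := abs_sin_nat_mul (Real.pi * (1 : ℕ) * (i + 1) / (m + 1)) k
  have h3 : (k : ℝ) * (Real.pi * (1 : ℕ) * (i + 1) / (m + 1)) = Real.pi * k * (i + 1) / (m + 1) := by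
    push_cast; ring
  rw [h3] at h2
  have h4 : |Real.sin (Real.pi * (1 : ℕ) * (i + 1) / (m + 1))| = sn m 1 i := by
    rw [abs_of_pos]
    · rfl
    · exact sn_one_pos h0 h1
  rw [h4] at h2
  exact h2

lemma lm_diff_ge {m k : ℕ} (hk1 : 1 ≤ k) (hkm : k ≤ m) :
    4 * ((k : ℝ) ^ 2 - 1) / (m + 1) ^ 2 ≤ lm m k - lm m 1 := by
  unfold lm
  have hN : (0 : ℝ) < (m : ℝ) + 1 := by positivity
  have hk1' : (1 : ℝ) ≤ k := by exact_mod_cast hk1
  have hkm' : (k : ℝ) ≤ m := by exact_mod_cast hkm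
  have hpi := Real.pi_pos
  have h1 : 2 * (1 - Real.cos (Real.pi * k / (m + 1))) - 2 * (1 - Real.cos (Real.pi * (1 : ℕ) / (m + 1)))
      = 2 * (Real.cos (Real.pi * (1 : ℕ) / (m + 1)) - Real.cos (Real.pi * k / (m + 1))) := by ring
  rw [h1, Real.cos_sub_cos]
  have e1 : (Real.pi * (1 : ℕ) / ((m : ℝ) + 1) + Real.pi * k / (m + 1)) / 2
      = Real.pi * (k + 1) / (2 * (m + 1)) := by push_cast; field_simp; ring
  have e2 : (Real.pi * (1 : ℕ) / ((m : ℝ) + 1) - Real.pi * k / (m + 1)) / 2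
      = -(Real.pi * (k - 1) / (2 * (m + 1))) := by push_cast; field_simp; ring
  rw [e1, e2, Real.sin_neg]
  have h2 : 2 / Real.pi * (Real.pi * (k + 1) / (2 * (m + 1))) ≤ Real.sin (Real.pi * (k + 1) / (2 * (m + 1))) := by
    apply Real.mul_le_sin (by positivity)
    rw [div_le_div_iff₀ (by positivity) (by norm_num)]
    nlinarith
  have h3 : 2 / Real.pi * (Real.pi * (k - 1) / (2 * (m + 1))) ≤ Real.sin (Real.pi * (k - 1) / (2 * (m + 1))) := by
    apply Real.mul_le_sin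
    · apply div_nonneg _ (by positivity)
      apply mul_nonneg hpi.le
      linarith
    · rw [div_le_div_iff₀ (by positivity) (by norm_num)]
      nlinarith
  have e3 : 2 / Real.pi * (Real.pi * (k + 1) / (2 * (m + 1))) = (k + 1) / ((m : ℝ) + 1) := by
    field_simp
  have e4 : 2 / Real.pi * (Real.pi * (k - 1) / (2 * (m + 1))) = (k - 1) / ((m : ℝ) + 1) := by
    field_simp
  rw [e3] at h2
  rw [e4] at h3
  have h5 : 0 ≤ (k - 1) / ((m : ℝ) + 1) := div_nonneg (by linarith) hN.le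
  have h6 : 0 ≤ (k + 1) / ((m : ℝ) + 1) := by positivity
  have h7 := mul_le_mul h2 h3 h5 (h6.trans h2)
  have e5 : 4 * ((k : ℝ) ^ 2 - 1) / (m + 1) ^ 2
      = 4 * ((k + 1) / ((m : ℝ) + 1) * ((k - 1) / ((m : ℝ) + 1))) := by
    field_simp
    ring
  rw [e5]
  linarith

lemma lm_ge {m k : ℕ} (hkm : k ≤ m) : 4 * (k : ℝ) ^ 2 / (m + 1) ^ 2 ≤ lm m k := by
  unfold lm
  have hN : (0 : ℝ) < (m : ℝ) + 1 := by positivity
  have hkm' : (k : ℝ) ≤ m := by exact_mod_cast hkm
  have hpi := Real.pi_pos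
  have h1 : 2 * (1 - Real.cos (Real.pi * k / (m + 1))) = 4 * Real.sin (Real.pi * k / (2 * (m + 1))) ^ 2 := by
    have e1 : Real.pi * k / ((m : ℝ) + 1) = 2 * (Real.pi * k / (2 * (m + 1))) := by field_simp
    rw [e1, Real.cos_two_mul]
    have := Real.sin_sq_add_cos_sq (Real.pi * k / (2 * (m + 1)))
    linarith
  rw [h1]
  have h2 : 2 / Real.pi * (Real.pi * k / (2 * (m + 1))) ≤ Real.sin (Real.pi * k / (2 * (m + 1))) := by
    apply Real.mul_le_sin (by positivity)
    rw [div_le_div_iff₀ (by positivity) (by norm_num)]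
    nlinarith
  have e3 : 2 / Real.pi * (Real.pi * k / (2 * (m + 1))) = k / ((m : ℝ) + 1) := by
    field_simp
  rw [e3] at h2
  have h4 : 0 ≤ k / ((m : ℝ) + 1) := by positivity
  have h5 := pow_le_pow_left₀ h4 h2 2
  have e5 : 4 * (k : ℝ) ^ 2 / (m + 1) ^ 2 = 4 * (k / ((m : ℝ) + 1)) ^ 2 := by
    field_simp
  rw [e5]
  linarith

lemma lm_nonneg (m k : ℕ) : 0 ≤ lm m k := by
  unfold lm
  have := Real.cos_le_one (Real.pi * k / (m + 1))
  linarith

lemma lm_one_le (m : ℕ) : lm m 1 ≤ Real.pi ^ 2 / (m + 1) ^ 2 := by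
  unfold lm
  have h := Real.one_sub_sq_div_two_le_cos (x := Real.pi * (1 : ℕ) / (m + 1))
  have e : (Real.pi * (1 : ℕ) / ((m : ℝ) + 1)) ^ 2 = Real.pi ^ 2 / (m + 1) ^ 2 := by
    push_cast; rw [mul_one, div_pow]
  rw [e] at h
  linarith

lemma quarter_sum (n : ℕ) : ∑ k ∈ Finset.range n, ((1 : ℝ) / 4) ^ (k + 1) ≤ 1 / 3 := by
  have : ∑ k ∈ Finset.range n, ((1 : ℝ) / 4) ^ (k + 1) = (1 - (1 / 4) ^ n) / 3 := by
    induction n with
    | zero => simp
    | succ n ih => rw [Finset.sum_range_succ, ih]; ring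
  rw [this]
  have : (0 : ℝ) ≤ (1 / 4) ^ n := by positivity
  linarith

lemma ker1_lower {m : ℕ} (hm : 1 ≤ m) {s : ℝ} (hs : ((m : ℝ) + 1) ^ 2 ≤ s) {i j : ℤ}
    (hi0 : 0 ≤ i) (hi1 : i < m) (hj0 : 0 ≤ j) (hj1 : j < m) :
    1 / (m + 1) * (sn m 1 i * sn m 1 j) * Real.exp (-(s * lm m 1)) ≤ ker1 m s i j := by
  obtain ⟨n, rfl⟩ : ∃ n, m = n + 1 := ⟨m - 1, by omega⟩
  set m := n + 1 with hmdef
  have hN : (0 : ℝ) < (m : ℝ) + 1 := by positivity
  unfold ker1
  have h0 : sn m 0 i = 0 := by unfold sn; simp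
  rw [hmdef, Finset.sum_range_succ', Finset.sum_range_succ']
  simp only [← hmdef]
  have e0 : sn m 0 i * sn m 0 j * Real.exp (-(s * lm m 0)) = 0 := by rw [h0]; ring
  rw [e0, add_zero]
  set P := sn m 1 i * sn m 1 j * Real.exp (-(s * lm m 1)) with hP
  have hi := sn_one_pos hi0 hi1
  have hj := sn_one_pos hj0 hj1
  have hP0 : 0 < P := by positivity
  have hterm : ∀ k ∈ Finset.range n, -(P * (1 / 4) ^ (k + 1))
      ≤ sn m (k + 1 + 1) i * sn m (k + 1 + 1) j * Real.exp (-(s * lm m (k + 1 + 1))) := by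
    intro k hk
    rw [Finset.mem_range] at hk
    have hkm : k + 1 + 1 ≤ m := by omega
    have a1 := abs_sn_le (m := m) (k := k + 1 + 1) hi0 hi1
    have a2 := abs_sn_le (m := m) (k := k + 1 + 1) hj0 hj1
    have hd := lm_diff_ge (m := m) (k := k + 1 + 1) (by omega) hkm
    set c : ℝ := ((k + 1 + 1 : ℕ) : ℝ) with hc
    have hc2 : 2 ≤ c := by rw [hc]; push_cast; have : (0 : ℝ) ≤ k := Nat.cast_nonneg _; linarith
    have a3 : |sn m (k + 1 + 1) i * sn m (k + 1 + 1) j| ≤ c ^ 2 * (sn m 1 i * sn m 1 j) := by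
      rw [abs_mul]
      calc _ ≤ (c * sn m 1 i) * (c * sn m 1 j) := by gcongr
        _ = _ := by ring
    have a4 : Real.exp (-(s * lm m (k + 1 + 1))) ≤
        Real.exp (-(s * lm m 1)) * Real.exp (-(4 * (c ^ 2 - 1))) := by
      rw [← Real.exp_add]
      apply Real.exp_le_exp.2
      have hs' : 4 * (c ^ 2 - 1) ≤ s * (lm m (k + 1 + 1) - lm m 1) := by
        calc 4 * (c ^ 2 - 1) = ((m : ℝ) + 1) ^ 2 * (4 * (c ^ 2 - 1) / (m + 1) ^ 2) := by
              field_simp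
          _ ≤ s * (lm m (k + 1 + 1) - lm m 1) := by
              apply mul_le_mul hs hd _ ((sq_nonneg _).trans hs)
              apply div_nonneg _ (by positivity)
              nlinarith
      linarith
    have a5 : c ^ 2 * Real.exp (-(4 * (c ^ 2 - 1))) ≤ (1 / 4) ^ (k + 1) := by
      have b1 : c ^ 2 ≤ Real.exp (c ^ 2 - 1) := by
        have := Real.add_one_le_exp (c ^ 2 - 1)
        linarith
      have b2 : 9 * ((k : ℝ) + 1) ≤ 3 * (c ^ 2 - 1) := by
        have : c = (k : ℝ) + 2 := by rw [hc]; push_cast; ring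
        rw [this]
        have : (0 : ℝ) ≤ k := Nat.cast_nonneg _
        nlinarith
      calc c ^ 2 * Real.exp (-(4 * (c ^ 2 - 1)))
          ≤ Real.exp (c ^ 2 - 1) * Real.exp (-(4 * (c ^ 2 - 1))) := by gcongr
        _ = Real.exp (-(3 * (c ^ 2 - 1))) := by rw [← Real.exp_add]; ring_nf
        _ ≤ Real.exp (((k + 1 : ℕ) : ℝ) * (-9)) := by
            apply Real.exp_le_exp.2
            push_cast
            linarith
        _ = Real.exp (-9) ^ (k + 1) := by rw [Real.exp_nat_mul]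
        _ ≤ (1 / 4) ^ (k + 1) := by
            gcongr
            have b3 : Real.exp (-9) ≤ Real.exp (-8) := Real.exp_le_exp.2 (by norm_num)
            have b4 : Real.exp (-8) ≤ 1 / 4 := by
              have h1 := Real.exp_one_gt_d9
              have h2 : (4 : ℝ) ≤ Real.exp 8 := by
                have : Real.exp 8 = Real.exp 1 ^ 8 := by rw [← Real.exp_nat_mul]; norm_num
                rw [this]
                calc (4 : ℝ) ≤ (2.7182818283 : ℝ) ^ 8 := by norm_num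
                  _ ≤ Real.exp 1 ^ 8 := by gcongr
              rw [Real.exp_neg, inv_eq_one_div]
              exact one_div_le_one_div_of_le (by norm_num) h2
            linarith
    have a6 : |sn m (k + 1 + 1) i * sn m (k + 1 + 1) j * Real.exp (-(s * lm m (k + 1 + 1)))|
        ≤ P * (1 / 4) ^ (k + 1) := by
      rw [abs_mul, abs_of_pos (Real.exp_pos _)]
      calc |sn m (k + 1 + 1) i * sn m (k + 1 + 1) j| * Real.exp (-(s * lm m (k + 1 + 1)))
          ≤ (c ^ 2 * (sn m 1 i * sn m 1 j)) *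
            (Real.exp (-(s * lm m 1)) * Real.exp (-(4 * (c ^ 2 - 1)))) := by gcongr
        _ = P * (c ^ 2 * Real.exp (-(4 * (c ^ 2 - 1)))) := by rw [hP]; ring
        _ ≤ P * (1 / 4) ^ (k + 1) := by gcongr
    exact (abs_le.1 a6).1
  have hsum := Finset.sum_le_sum hterm
  rw [Finset.sum_neg_distrib, ← Finset.mul_sum] at hsum
  have hq := quarter_sum n
  have h5 : P * ∑ k ∈ Finset.range n, ((1 : ℝ) / 4) ^ (k + 1) ≤ P * (1 / 3) := by gcongr
  set S := ∑ k ∈ Finset.range n,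
    sn m (k + 1 + 1) i * sn m (k + 1 + 1) j * Real.exp (-(s * lm m (k + 1 + 1)))
  have h6 : P / 2 ≤ S + P := by linarith
  calc 1 / ((m : ℝ) + 1) * (sn m 1 i * sn m 1 j) * Real.exp (-(s * lm m 1))
      = 2 / (m + 1) * (P / 2) := by rw [hP]; field_simp
    _ ≤ 2 / (m + 1) * (S + P) := by gcongr

lemma geo_sum {a : ℝ} (ha : 0 < a) (n : ℕ) :
    ∑ j ∈ Finset.range n, Real.exp (-(((j + 1 : ℕ) : ℝ) * a)) ≤ 1 / a := by
  have h : ∑ j ∈ Finset.range n, Real.exp (-(((j + 1 : ℕ) : ℝ) * a))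
      ≤ (1 - Real.exp (-((n : ℝ) * a))) / a := by
    induction n with
    | zero => simp
    | succ n ih =>
      rw [Finset.sum_range_succ]
      have h1 : Real.exp (-((n : ℝ) * a)) = Real.exp a * Real.exp (-(((n + 1 : ℕ) : ℝ) * a)) := by
        rw [← Real.exp_add]; push_cast; ring_nf
      have h2 := Real.add_one_le_exp a
      have h3 := Real.exp_pos (-(((n + 1 : ℕ) : ℝ) * a))
      rw [le_div_iff₀ ha]
      rw [le_div_iff₀ ha] at ih
      rw [h1] at ih
      nlinarith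
  refine h.trans ?_
  apply div_le_div_of_nonneg_right _ ha.le
  have := Real.exp_pos (-((n : ℝ) * a))
  linarith

lemma abs_sn_le_one (m k : ℕ) (i : ℤ) : |sn m k i| ≤ 1 := Real.abs_sin_le_one _

lemma ker1_diag_nonneg (m : ℕ) (s : ℝ) (i : ℤ) : 0 ≤ ker1 m s i i := by
  unfold ker1
  apply mul_nonneg (by positivity)
  apply Finset.sum_nonneg
  intro k _
  apply mul_nonneg (mul_self_nonneg _) (Real.exp_pos _).le

lemma ker1_diag_le (m : ℕ) (s : ℝ) (i : ℤ) :
    ker1 m s i i ≤ 2 / (m + 1) * ∑ k ∈ Finset.range m, Real.exp (-(s * lm m (k + 1))) := by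
  unfold ker1
  rw [Finset.sum_range_succ']
  have h0 : sn m 0 i = 0 := by unfold sn; simp
  rw [h0]
  simp only [mul_zero, zero_mul, add_zero]
  apply mul_le_mul_of_nonneg_left _ (by positivity)
  apply Finset.sum_le_sum
  intro k _
  have h1 := abs_sn_le_one m (k + 1) i
  have h2 : sn m (k + 1) i * sn m (k + 1) i ≤ 1 := by
    rw [abs_le] at h1
    nlinarith
  have h3 := Real.exp_pos (-(s * lm m (k + 1)))
  nlinarith

/-- The Green function bound. -/
lemma green_bound {m : ℕ} (y : sq m) (n : ℕ) :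
    ∑ j ∈ Finset.range n, NormedSpace.exp ((((j + 1 : ℕ) : ℝ)) • gen (sq m) (fun _ => 0)) y y
      ≤ (1 + Real.log m) ^ 2 / 2 := by
  have hN : (0 : ℝ) < (m : ℝ) + 1 := by positivity
  have h1 : ∀ j ∈ Finset.range n, NormedSpace.exp ((((j + 1 : ℕ) : ℝ)) • gen (sq m) (fun _ => 0)) y y
      ≤ (2 / (m + 1)) ^ 2 * ∑ k ∈ Finset.range m, ∑ l ∈ Finset.range m,
        Real.exp (-(((j + 1 : ℕ) : ℝ) * (lm m (k + 1) + lm m (l + 1)))) := by
    intro j _
    rw [kernel_sq]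
    have a1 := ker1_diag_le m ((j + 1 : ℕ) : ℝ) y.1.1
    have a2 := ker1_diag_le m ((j + 1 : ℕ) : ℝ) y.1.2
    have a3 := ker1_diag_nonneg m ((j + 1 : ℕ) : ℝ) y.1.1
    have a4 := ker1_diag_nonneg m ((j + 1 : ℕ) : ℝ) y.1.2
    refine (mul_le_mul a1 a2 a4 (a3.trans a1)).trans (le_of_eq ?_)
    have : ∀ u v c : ℝ, c * u * (c * v) = c ^ 2 * (u * v) := by intros; ring
    rw [this, Finset.sum_mul_sum]
    congr 1
    apply Finset.sum_congr rfl
    intro k _
    apply Finset.sum_congr rfl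
    intro l _
    rw [← Real.exp_add]
    ring_nf
  refine (Finset.sum_le_sum h1).trans ?_
  rw [← Finset.mul_sum, Finset.sum_comm]
  have h2 : ∀ k ∈ Finset.range m, ∑ j ∈ Finset.range n, ∑ l ∈ Finset.range m,
      Real.exp (-(((j + 1 : ℕ) : ℝ) * (lm m (k + 1) + lm m (l + 1))))
      ≤ ∑ l ∈ Finset.range m, ((m : ℝ) + 1) ^ 2 / 8 * ((1 / (k + 1)) * (1 / (l + 1))) := by
    intro k hk
    rw [Finset.mem_range] at hk
    rw [Finset.sum_comm]
    apply Finset.sum_le_sum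
    intro l hl
    rw [Finset.mem_range] at hl
    have b1 := lm_ge (m := m) (k := k + 1) (by omega)
    have b2 := lm_ge (m := m) (k := l + 1) (by omega)
    have hk0 : (0 : ℝ) ≤ k := Nat.cast_nonneg _
    have hl0 : (0 : ℝ) ≤ l := Nat.cast_nonneg _
    have b3 : 8 * ((k + 1) * (l + 1)) / ((m : ℝ) + 1) ^ 2 ≤ lm m (k + 1) + lm m (l + 1) := by
      refine le_trans ?_ (add_le_add b1 b2)
      rw [← add_div]
      apply div_le_div_of_nonneg_right _ (by positivity)
      push_cast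
      nlinarith [sq_nonneg ((k : ℝ) - l)]
    have b4 : 0 < 8 * (((k : ℝ) + 1) * (l + 1)) / ((m : ℝ) + 1) ^ 2 := by positivity
    refine (geo_sum (lt_of_lt_of_le b4 b3) n).trans ?_
    refine (one_div_le_one_div_of_le b4 b3).trans (le_of_eq ?_)
    field_simp
  refine (mul_le_mul_of_nonneg_left (Finset.sum_le_sum h2) (by positivity)).trans ?_
  have h3 : ∑ k ∈ Finset.range m, ∑ l ∈ Finset.range m,
      ((m : ℝ) + 1) ^ 2 / 8 * ((1 / ((k : ℝ) + 1)) * (1 / (l + 1)))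
      = (m + 1) ^ 2 / 8 * ((∑ k ∈ Finset.range m, 1 / ((k : ℝ) + 1)) ^ 2) := by
    rw [pow_two (∑ k ∈ Finset.range m, 1 / ((k : ℝ) + 1)), Finset.sum_mul_sum, Finset.mul_sum]
    apply Finset.sum_congr rfl
    intro k _
    rw [Finset.mul_sum]
  rw [h3]
  have h4 : ∑ k ∈ Finset.range m, 1 / ((k : ℝ) + 1) ≤ 1 + Real.log m := by
    have := harmonic_le_one_add_log m
    have e : ((harmonic m : ℚ) : ℝ) = ∑ k ∈ Finset.range m, 1 / ((k : ℝ) + 1) := by
      unfold harmonic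
      push_cast
      apply Finset.sum_congr rfl
      intro k _
      rw [one_div]
    rwa [e] at this
  have h5 : 0 ≤ ∑ k ∈ Finset.range m, 1 / ((k : ℝ) + 1) := by positivity
  have h6 := pow_le_pow_left₀ h5 h4 2
  calc (2 / ((m : ℝ) + 1)) ^ 2 * ((m + 1) ^ 2 / 8 * ((∑ k ∈ Finset.range m, 1 / ((k : ℝ) + 1)) ^ 2))
      = (∑ k ∈ Finset.range m, 1 / ((k : ℝ) + 1)) ^ 2 / 2 := by field_simp; ring
    _ ≤ _ := by linarith

/-- Ground state of the square. -/
noncomputable def ph (m : ℕ) (x : Site) : ℝ := sn2 m 1 1 x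

/-- Principal eigenvalue of the square. -/
noncomputable def lam1 (m : ℕ) : ℝ := 2 * lm m 1

lemma ph_pos {m : ℕ} {x : Site} (hx : x ∈ sq m) : 0 < ph m x := by
  rw [mem_sq] at hx
  exact mul_pos (sn_one_pos hx.1 hx.2.1) (sn_one_pos hx.2.2.1 hx.2.2.2)

lemma ph_le_one {m : ℕ} (x : Site) : ph m x ≤ 1 := by
  unfold ph sn2
  have h1 := abs_le.1 (abs_sn_le_one m 1 x.1)
  have h2 := abs_le.1 (abs_sn_le_one m 1 x.2)
  nlinarith

lemma kernel_lower {m : ℕ} (hm : 1 ≤ m) {s : ℝ} (hs : ((m : ℝ) + 1) ^ 2 ≤ s) (x y : sq m) :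
    1 / (m + 1) ^ 2 * (ph m x.1 * ph m y.1) * Real.exp (-(s * lam1 m))
      ≤ NormedSpace.exp (s • gen (sq m) (fun _ => 0)) x y := by
  rw [kernel_sq]
  have hx := mem_sq.1 x.2
  have hy := mem_sq.1 y.2
  have h1 := ker1_lower hm hs hx.1 hx.2.1 hy.1 hy.2.1
  have h2 := ker1_lower hm hs hx.2.2.1 hx.2.2.2 hy.2.2.1 hy.2.2.2
  have p1 := sn_one_pos hx.1 hx.2.1
  have p2 := sn_one_pos hx.2.2.1 hx.2.2.2
  have p3 := sn_one_pos hy.1 hy.2.1
  have p4 := sn_one_pos hy.2.2.1 hy.2.2.2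
  have h3 : 0 ≤ 1 / ((m : ℝ) + 1) * (sn m 1 x.1.2 * sn m 1 y.1.2) * Real.exp (-(s * lm m 1)) := by
    positivity
  have h4 : 0 ≤ 1 / ((m : ℝ) + 1) * (sn m 1 x.1.1 * sn m 1 y.1.1) * Real.exp (-(s * lm m 1)) := by
    positivity
  refine le_trans (le_of_eq ?_) (mul_le_mul h1 h2 h3 (h4.trans h1))
  have : Real.exp (-(s * lam1 m)) = Real.exp (-(s * lm m 1)) * Real.exp (-(s * lm m 1)) := by
    rw [← Real.exp_add]; unfold lam1; ring_nf
  rw [this]
  unfold ph sn2
  field_simp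

lemma gen_ph (m : ℕ) :
    (gen (sq m) (fun _ => 0)).mulVec (fun x => ph m x.1)
      = (-(lam1 m)) • (fun x : sq m => ph m x.1) := by
  have := gen_sn2 m 1 1
  unfold ph lam1
  rw [this]
  congr 1
  ring

lemma sn_one_ge {m : ℕ} {i : ℤ} (h0 : 0 ≤ i) (h1 : i < m) : 2 / ((m : ℝ) + 1) ≤ sn m 1 i := by
  have h0' : (0 : ℝ) ≤ i := by exact_mod_cast h0
  have h1' : (i : ℝ) + 1 ≤ m := by exact_mod_cast h1
  have hN : (0 : ℝ) < (m : ℝ) + 1 := by positivity
  have hpi := Real.pi_pos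
  unfold sn
  push_cast
  rw [mul_one]
  rcases le_total (Real.pi * ((i : ℝ) + 1) / (m + 1)) (Real.pi / 2) with h | h
  · refine le_trans ?_ (Real.mul_le_sin (by positivity) h)
    have e : 2 / Real.pi * (Real.pi * ((i : ℝ) + 1) / (m + 1)) = 2 * (i + 1) / (m + 1) := by
      field_simp
    rw [e]
    apply div_le_div_of_nonneg_right _ hN.le
    linarith
  · rw [← Real.sin_pi_sub]
    have hu : Real.pi - Real.pi * ((i : ℝ) + 1) / (m + 1) = Real.pi * (m - i) / (m + 1) := by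
      field_simp; ring
    rw [hu]
    have hu0 : 0 ≤ Real.pi * ((m : ℝ) - i) / (m + 1) := by
      apply div_nonneg _ hN.le
      apply mul_nonneg hpi.le; linarith
    refine le_trans ?_ (Real.mul_le_sin hu0 (by rw [← hu]; linarith))
    have e : 2 / Real.pi * (Real.pi * ((m : ℝ) - i) / (m + 1)) = 2 * (m - i) / (m + 1) := by
      field_simp
    rw [e]
    apply div_le_div_of_nonneg_right _ hN.le
    linarith

lemma ph_ge {m : ℕ} {x : Site} (hx : x ∈ sq m) : 4 / ((m : ℝ) + 1) ^ 2 ≤ ph m x := by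
  rw [mem_sq] at hx
  have h1 := sn_one_ge hx.1 hx.2.1
  have h2 := sn_one_ge hx.2.2.1 hx.2.2.2
  have h3 : 0 ≤ 2 / ((m : ℝ) + 1) := by positivity
  calc 4 / ((m : ℝ) + 1) ^ 2 = 2 / (m + 1) * (2 / (m + 1)) := by field_simp; norm_num
    _ ≤ ph m x := mul_le_mul h1 h2 h3 (h3.trans h1)

/-- The middle part of the square. -/
noncomputable def mid (m : ℕ) : Finset Site :=
  (sq m).filter (fun x => (m : ℤ) + 1 ≤ 8 * (x.1 + 1) ∧ 8 * (x.1 + 1) ≤ 7 * (m + 1) ∧
    (m : ℤ) + 1 ≤ 8 * (x.2 + 1) ∧ 8 * (x.2 + 1) ≤ 7 * (m + 1))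

lemma sn_one_mid {m : ℕ} {i : ℤ} (h1 : (m : ℤ) + 1 ≤ 8 * (i + 1))
    (h2 : 8 * (i + 1) ≤ 7 * ((m : ℤ) + 1)) : 1 / 4 ≤ sn m 1 i := by
  have h1' : (m : ℝ) + 1 ≤ 8 * (i + 1) := by exact_mod_cast h1
  have h2' : 8 * ((i : ℝ) + 1) ≤ 7 * (m + 1) := by exact_mod_cast h2
  have hN : (0 : ℝ) < (m : ℝ) + 1 := by positivity
  have hpi := Real.pi_pos
  unfold sn
  push_cast
  rw [mul_one]
  rcases le_total (Real.pi * ((i : ℝ) + 1) / (m + 1)) (Real.pi / 2) with h | h
  · have hu0 : 0 ≤ Real.pi * ((i : ℝ) + 1) / (m + 1) := by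
      apply div_nonneg _ hN.le
      apply mul_nonneg hpi.le; linarith
    refine le_trans ?_ (Real.mul_le_sin hu0 h)
    have e : 2 / Real.pi * (Real.pi * ((i : ℝ) + 1) / (m + 1)) = 2 * (i + 1) / (m + 1) := by
      field_simp
    rw [e, le_div_iff₀ hN]
    linarith
  · rw [← Real.sin_pi_sub]
    have hu : Real.pi - Real.pi * ((i : ℝ) + 1) / (m + 1) = Real.pi * (m - i) / (m + 1) := by
      field_simp; ring
    rw [hu]
    have hu0 : 0 ≤ Real.pi * ((m : ℝ) - i) / (m + 1) := by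
      apply div_nonneg _ hN.le
      apply mul_nonneg hpi.le; linarith
    refine le_trans ?_ (Real.mul_le_sin hu0 (by rw [← hu]; linarith))
    have e : 2 / Real.pi * (Real.pi * ((m : ℝ) - i) / (m + 1)) = 2 * (m - i) / (m + 1) := by
      field_simp
    rw [e, le_div_iff₀ hN]
    linarith

lemma ph_mid {m : ℕ} {x : Site} (hx : x ∈ mid m) : 1 / 16 ≤ ph m x := by
  unfold mid at hx
  obtain ⟨_, h1, h2, h3, h4⟩ := Finset.mem_filter.1 hx
  have a1 := sn_one_mid h1 h2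
  have a2 := sn_one_mid h3 h4
  calc (1 : ℝ) / 16 = 1 / 4 * (1 / 4) := by norm_num
    _ ≤ ph m x := mul_le_mul a1 a2 (by norm_num) (le_trans (by norm_num) a1)

end Pool.Agent.LT
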