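import Pool.Agent.LT.Cov
import Pool.Agent.LT.Sine

/-!
# Rows of blocks and loops around the square
-/

open MeasureTheory ProbabilityTheory Filter Topology
open scoped NNReal ENNReal

namespace Pool.Agent.LT

/-- Half-open rectangles. -/
noncomputable def rectF (a b c d : ℤ) : Finset Site := Finset.Ico a b ×ˢ Finset.Ico c d

lemma mem_rectF {a b c d : ℤ} {x : Site} :
    x ∈ rectF a b c d ↔ a ≤ x.1 ∧ x.1 < b ∧ c ≤ x.2 ∧ x.2 < d := by
  unfold rectF
  rw [Finset.mem_product, Finset.mem_Ico, Finset.mem_Ico]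
  tauto

lemma Cov.shift_by (v : Site) {A R : Finset Site} {β τ : ℝ} {x y : Site} {c : ℝ}
    (h : Cov A R β τ x y c) {A' R' : Finset Site} (hA : ∀ z ∈ A, v + z ∈ A')
    (hR : ∀ z ∈ R', ∃ w ∈ R, v + w = z) :
    Cov A' R' β τ (v + x) (v + y) c := by
  have := h.sym symId v hA hR
  simpa using this

lemma cov_refl {A : Finset Site} {x : Site} (hx : x ∈ A) (β : ℝ) : Cov A ∅ β 0 x x 0 := by
  refine ⟨0, by simp, ?_⟩
  have := covAt_wait hx β 0
  simpa using this

lemma row_aux {A R Q : Finset Site} {β τ c : ℝ} {S p p' q q' : ℤ}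
    (h0A : (0, 0) ∈ A)
    (hblk : ∀ a : ℤ, 0 ≤ a → a ≤ S → Cov A R β τ (0, 0) (a, 0) c)
    (hR : ∀ x : Site, p ≤ x.1 → x.1 < p' → q ≤ x.2 → x.2 < q' → x ∈ R)
    (hS : 0 < S) (hSp : S ≤ p' - p) {u0 U : ℤ}
    (hQ : ∀ u : ℤ, u0 ≤ u → u ≤ U → ∀ z ∈ A, ((u, 0) : Site) + z ∈ Q) (I : ℕ) :
    ∀ u1 : ℤ, u0 ≤ u1 → u1 ≤ U → u1 - u0 ≤ I * S →
    Cov Q (rectF (u0 + p) (u1 + p) q q') β (I * τ) (u0, 0) (u1, 0) (I * c) := by
  induction I with
  | zero =>
    intro u1 h1 h2 h3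
    have : u1 = u0 := by push_cast at h3; omega
    subst this
    have hmem : ((u1, 0) : Site) ∈ Q := by
      have := hQ u1 le_rfl h2 _ h0A
      simpa using this
    refine (cov_refl hmem β).mono (le_refl _) ?_ le_rfl (by simp) (by simp)
    intro x hx
    rw [mem_rectF] at hx
    omega
  | succ I ih =>
    intro u1 h1 h2 h3
    set u' := max u0 (u1 - S) with hu'
    have hI : (0 : ℤ) ≤ I * S := by positivity
    have h3' : u1 - u0 ≤ I * S + S := by
      push_cast at h3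
      linarith
    have a1 : u0 ≤ u' := le_max_left _ _
    have a2 : u' ≤ u1 := by rw [hu']; omega
    have a3 : u' - u0 ≤ I * S := by
      rw [hu']
      rcases le_total u0 (u1 - S) with h | h
      · rw [max_eq_right h]; linarith
      · rw [max_eq_left h]; simpa using hI
    have a4 : u1 - u' ≤ S := by rw [hu']; omega
    have c1 := ih u' a1 (a2.trans h2) a3
    have c2 := (hblk (u1 - u') (by omega) a4).shift_by (u', 0) (A' := Q)
      (R' := rectF (u' + p) (u1 + p) q q') (hQ u' a1 (a2.trans h2)) (by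
        intro z hz
        rw [mem_rectF] at hz
        refine ⟨z - (u', 0), hR _ ?_ ?_ ?_ ?_, by abel⟩
        · simp only [Prod.fst_sub]; omega
        · simp only [Prod.fst_sub]; omega
        · simp only [Prod.snd_sub]; omega
        · simp only [Prod.snd_sub]; omega)
    have e1 : ((u', 0) : Site) + (0, 0) = (u', 0) := by ext <;> simp
    have e2 : ((u', 0) : Site) + (u1 - u', 0) = (u1, 0) := by ext <;> simp
    rw [e1, e2] at c2
    refine (c1.comp c2).mono (le_refl _) ?_ le_rfl ?_ ?_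
    · intro x hx
      rw [Finset.mem_union, mem_rectF, mem_rectF]
      rw [mem_rectF] at hx
      omega
    · push_cast; linarith
    · push_cast; linarith

/-- A row of blocks. -/
theorem row {A R Q : Finset Site} {β τ c : ℝ} {S p p' q q' e : ℤ}
    (h0A : (0, 0) ∈ A)
    (hblk : ∀ a : ℤ, 0 ≤ a → a ≤ S → Cov A R β τ (0, 0) (a, 0) c)
    (hend : Cov A R β τ (0, 0) (e, 0) c)
    (hR : ∀ x : Site, p ≤ x.1 → x.1 < p' → q ≤ x.2 → x.2 < q' → x ∈ R)
    (hS : 0 < S) (hSp : S ≤ p' - p) {u0 u1 : ℤ} (hu : u0 ≤ u1)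
    (hQ : ∀ u : ℤ, u0 ≤ u → u ≤ u1 → ∀ z ∈ A, ((u, 0) : Site) + z ∈ Q) (I : ℕ)
    (hI : u1 - u0 ≤ I * S) :
    Cov Q (rectF (u0 + p) (u1 + p') q q') β ((I + 1) * τ) (u0, 0) (u1 + e, 0) ((I + 1) * c) := by
  have c1 := row_aux h0A hblk hR hS hSp hQ I u1 hu le_rfl hI
  have c2 := hend.shift_by (u1, 0) (A' := Q)
      (R' := rectF (u1 + p) (u1 + p') q q') (hQ u1 hu le_rfl) (by
        intro z hz
        rw [mem_rectF] at hz
        refine ⟨z - (u1, 0), hR _ ?_ ?_ ?_ ?_, by abel⟩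
        · simp only [Prod.fst_sub]; omega
        · simp only [Prod.fst_sub]; omega
        · simp only [Prod.snd_sub]; omega
        · simp only [Prod.snd_sub]; omega)
  have e1 : ((u1, 0) : Site) + (0, 0) = (u1, 0) := by ext <;> simp
  have e2 : ((u1, 0) : Site) + (e, 0) = (u1 + e, 0) := by ext <;> simp
  rw [e1, e2] at c2
  refine (c1.comp c2).mono (le_refl _) ?_ le_rfl ?_ ?_
  · intro x hx
    rw [Finset.mem_union, mem_rectF, mem_rectF]
    rw [mem_rectF] at hx
    omega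
  · linarith
  · linarith

/-- The inverse rotation of the square `[0,n)²`. -/
def rin (n : ℕ) (y : Site) : Site := (y.2, (n : ℤ) - 1 - y.1)

/-- The region covered by a loop. -/
noncomputable def loopF (n : ℕ) (B : Finset Site) : Finset Site := by
  classical
  exact (sq n).filter (fun x => x ∈ B ∨ rin n x ∈ B ∨ rin n (rin n x) ∈ B ∨
    rin n (rin n (rin n x)) ∈ B)

lemma mem_loopF {n : ℕ} {B : Finset Site} {x : Site} : x ∈ loopF n B ↔ x ∈ sq n ∧ (x ∈ B ∨
    rin n x ∈ B ∨ rin n (rin n x) ∈ B ∨ rin n (rin n (rin n x)) ∈ B) := by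
  classical
  unfold loopF
  rw [Finset.mem_filter]

lemma Cov.rot {n : ℕ} {B : Finset Site} {β τ : ℝ} {x y : Site} {c : ℝ}
    (h : Cov (sq n) B β τ x y c) {B' : Finset Site} (hB : ∀ z ∈ B', rin n z ∈ B) :
    Cov (sq n) B' β τ ((n : ℤ) - 1 - x.2, x.1) ((n : ℤ) - 1 - y.2, y.1) c := by
  have h1 := h.sym symRot ((n : ℤ) - 1, 0) (A' := sq n) (R' := B') (by
    intro z hz
    rw [mem_sq] at hz ⊢
    simp only [symRot_g, Prod.mk_add_mk]
    omega) (by
    intro z hz
    refine ⟨rin n z, hB z hz, ?_⟩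
    simp only [symRot_g, rin, Prod.mk_add_mk]
    ext <;> simp)
  have e : ∀ z : Site, (((n : ℤ) - 1, 0) : Site) + symRot.g z = ((n : ℤ) - 1 - z.2, z.1) := by
    intro z
    simp only [symRot_g, Prod.mk_add_mk]
    ext <;> simp
    ring
  rwa [e, e] at h1

lemma rin_mem {n : ℕ} {x : Site} (hx : x ∈ sq n) : rin n x ∈ sq n := by
  rw [mem_sq] at hx ⊢
  unfold rin
  simp only
  omega

lemma rin_four {n : ℕ} (x : Site) : rin n (rin n (rin n (rin n x))) = x := by
  unfold rin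
  ext <;> simp

/-- Going around the square. -/
theorem loop {n : ℕ} {B : Finset Site} {β τ c : ℝ}
    (h : Cov (sq n) B β τ (0, 0) ((n : ℤ) - 1, 0) c) :
    Cov (sq n) (loopF n B) β (4 * τ) (0, 0) (0, 0) (4 * c) := by
  classical
  set B1 := (sq n).filter (fun x => rin n x ∈ B) with hB1
  set B2 := (sq n).filter (fun x => rin n x ∈ B1) with hB2
  set B3 := (sq n).filter (fun x => rin n x ∈ B2) with hB3
  have h1 := h.rot (B' := B1) (fun z hz => (Finset.mem_filter.1 hz).2)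
  have h2 := h1.rot (B' := B2) (fun z hz => (Finset.mem_filter.1 hz).2)
  have h3 := h2.rot (B' := B3) (fun z hz => (Finset.mem_filter.1 hz).2)
  simp only at h1 h2 h3
  have e1 : (((n : ℤ) - 1 - 0, 0) : Site) = ((n : ℤ) - 1, 0) := by simp
  have e2 : (((n : ℤ) - 1 - 0, (n : ℤ) - 1) : Site) = ((n : ℤ) - 1, (n : ℤ) - 1) := by simp
  have e3 : (((n : ℤ) - 1 - ((n : ℤ) - 1), (n : ℤ) - 1 - 0) : Site) = (0, (n : ℤ) - 1) := by simp
  have h12 := h.comp (R' := B1) (z := ((n : ℤ) - 1, (n : ℤ) - 1)) (by simpa using h1)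
  have h123 := h12.comp (R' := B2) (z := (0, (n : ℤ) - 1)) (by simpa using h2)
  have h1234 := h123.comp (R' := B3) (z := (0, 0)) (by simpa using h3)
  refine h1234.mono (le_refl _) ?_ le_rfl (by linarith) (by linarith)
  intro x hx
  rw [mem_loopF] at hx
  obtain ⟨hxs, hx⟩ := hx
  simp only [Finset.mem_union]
  rcases hx with hx | hx | hx | hx
  · left; left; left; exact hx
  · left; left; right; exact Finset.mem_filter.2 ⟨hxs, hx⟩
  · left; right
    exact Finset.mem_filter.2 ⟨hxs, Finset.mem_filter.2 ⟨rin_mem hxs, hx⟩⟩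
  · right
    exact Finset.mem_filter.2 ⟨hxs, Finset.mem_filter.2 ⟨rin_mem hxs,
      Finset.mem_filter.2 ⟨rin_mem (rin_mem hxs), hx⟩⟩⟩

/-- Depth of a site in the square `[0,n)²`. -/
def dep (n : ℕ) (x : Site) : ℤ := min (min x.1 x.2) (min ((n : ℤ) - 1 - x.1) ((n : ℤ) - 1 - x.2))

/-- Every site has a rotation whose second coordinate is the depth. -/
lemma dep_cases {n : ℕ} {x : Site} {B : Finset Site} (hx : x ∈ sq n)
    (hB : ∀ y : Site, y.2 = dep n x → dep n x ≤ y.1 → y.1 ≤ (n : ℤ) - 1 - dep n x →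
      y ∈ B ∨ rin n y ∈ B) : x ∈ loopF n B := by
  rw [mem_loopF]
  refine ⟨hx, ?_⟩
  have hcyc : ∀ y : Site, (y = x ∨ y = rin n x ∨ y = rin n (rin n x) ∨ y = rin n (rin n (rin n x))) →
      (y ∈ B ∨ rin n y ∈ B) → (x ∈ B ∨ rin n x ∈ B ∨ rin n (rin n x) ∈ B ∨
        rin n (rin n (rin n x)) ∈ B) := by
    intro y hy h
    have h4 := rin_four (n := n) x
    rcases hy with rfl | rfl | rfl | rfl
    · tauto
    · tauto
    · tauto
    · rw [h4] at h; tauto
  have hd : dep n x = x.2 ∨ dep n x = (n : ℤ) - 1 - x.1 ∨ dep n x = (n : ℤ) - 1 - x.2 ∨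
      dep n x = x.1 := by unfold dep; omega
  have hle : dep n x ≤ x.1 ∧ dep n x ≤ x.2 ∧ dep n x ≤ (n : ℤ) - 1 - x.1 ∧
      dep n x ≤ (n : ℤ) - 1 - x.2 := by unfold dep; omega
  rcases hd with h | h | h | h
  · exact hcyc x (Or.inl rfl) (hB x h.symm (by omega) (by omega))
  · refine hcyc (rin n x) (Or.inr (Or.inl rfl)) (hB _ ?_ ?_ ?_) <;> unfold rin <;> simp only <;> omega
  · refine hcyc (rin n (rin n x)) (Or.inr (Or.inr (Or.inl rfl))) (hB _ ?_ ?_ ?_) <;>
      unfold rin <;> simp only <;> omega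
  · refine hcyc (rin n (rin n (rin n x))) (Or.inr (Or.inr (Or.inr rfl))) (hB _ ?_ ?_ ?_) <;>
      unfold rin <;> simp only <;> omega

end Pool.Agent.LT
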