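import Pool.Agent.LT.Basic

/-! # The plane (split off from Shape.lean) -/

namespace Pool.Agent.LT

abbrev Plane : Type := EuclideanSpace ℝ (Fin 2)

end Pool.Agent.LT
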