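import Pool.Agent.LT.Path

/-!
# Occupation times and confinement along step paths
-/

open MeasureTheory ProbabilityTheory Filter Topology
open scoped NNReal ENNReal

namespace Pool.Agent.LT

/-- The grid point just to the right of `u`. -/
noncomputable def gp (δ u : ℝ≥0) : ℝ≥0 := (⌊u / δ⌋₊ + 1 : ℕ) * δ

lemma lt_gp {δ u : ℝ≥0} (hδ : 0 < δ) : u < gp δ u := by
  have h := Nat.lt_floor_add_one (u / δ)
  have h2 : u / δ < ((⌊u / δ⌋₊ + 1 : ℕ) : ℝ≥0) := by push_cast; exact h
  rw [div_lt_iff₀ hδ] at h2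
  exact h2

lemma gp_le {δ u : ℝ≥0} (hδ : 0 < δ) : gp δ u ≤ u + δ := by
  have h := Nat.floor_le (show 0 ≤ u / δ from zero_le)
  unfold gp
  push_cast
  rw [add_mul, one_mul]
  gcongr
  calc (⌊u / δ⌋₊ : ℝ≥0) * δ ≤ (u / δ) * δ := by gcongr
    _ = u := div_mul_cancel₀ _ hδ.ne'

lemma gp_tendsto (f : WP) (u : ℝ≥0) {δ : ℕ → ℝ≥0} (hδ : ∀ N, 0 < δ N)
    (hlim : Tendsto δ atTop (𝓝 0)) : ∀ᶠ N in atTop, f.1 (gp (δ N) u) = f.1 u := by
  obtain ⟨η, hη, h⟩ := f.2.right u
  have : ∀ᶠ N in atTop, δ N < η := hlim.eventually (gt_mem_nhds hη)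
  filter_upwards [this] with N hN
  apply h _ (lt_gp (hδ N)).le
  calc gp (δ N) u ≤ u + δ N := gp_le (hδ N)
    _ < u + η := by gcongr

lemma measurable_gp (f : WP) (g : Site → ℝ) (δ : ℝ≥0) :
    Measurable (fun u : ℝ => g (f.1 (gp δ u.toNNReal))) := by
  have h1 : Measurable (fun n : ℕ => g (f.1 ((n + 1 : ℕ) * δ))) := measurable_from_nat
  have h2 : Measurable (fun u : ℝ => ⌊u.toNNReal / δ⌋₊) := by
    apply Nat.measurable_floor.comp
    exact (measurable_real_toNNReal).div_const _
  exact h1.comp h2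

lemma tendsto_inv_two_pow : Tendsto (fun N : ℕ => ((1 : ℝ≥0) / 2 ^ N)) atTop (𝓝 0) := by
  have := NNReal.tendsto_pow_atTop_nhds_zero_of_lt_one (r := 1 / 2)
    (by rw [div_lt_one (by norm_num)]; norm_num)
  refine this.congr (fun n => ?_)
  rw [div_pow, one_pow]

lemma tendsto_div_two_pow (s : ℝ≥0) : Tendsto (fun N : ℕ => (s / 2 ^ N)) atTop (𝓝 0) := by
  have := (tendsto_inv_two_pow).const_mul s
  simpa [mul_one_div, div_eq_mul_inv] using this

lemma measurable_path (f : WP) (g : Site → ℝ) :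
    Measurable (fun u : ℝ => g (f.1 u.toNNReal)) := by
  apply measurable_of_tendsto_metrizable
    (f := fun N : ℕ => (fun u : ℝ => g (f.1 (gp (1 / 2 ^ N) u.toNNReal))))
  · intro N; exact measurable_gp f g _
  · rw [tendsto_pi_nhds]
    intro u
    have h := gp_tendsto f u.toNNReal (δ := fun N => 1 / 2 ^ N) (fun N => by positivity)
      tendsto_inv_two_pow
    apply tendsto_const_nhds.congr'
    filter_upwards [h] with N hN
    rw [hN]

/-- Time integral of `g` along the path. -/
noncomputable def occ (s : ℝ≥0) (g : Site → ℝ) (f : WP) : ℝ :=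
  ∫ u in (0 : ℝ)..s, g (f.1 u.toNNReal)

lemma intervalIntegrable_path (f : WP) (g : Site → ℝ) {C : ℝ} (hC : ∀ x, |g x| ≤ C) (a b : ℝ) :
    IntervalIntegrable (fun u : ℝ => g (f.1 u.toNNReal)) volume a b := by
  rw [intervalIntegrable_iff]
  apply Measure.integrableOn_of_bounded (M := C)
  · exact measure_Ioc_lt_top.ne
  · exact (measurable_path f g).aestronglyMeasurable
  · exact Eventually.of_forall (fun u => by rw [Real.norm_eq_abs]; exact hC _)

/-- Right Riemann sums. -/
noncomputable def riem (N : ℕ) (s : ℝ≥0) (g : Site → ℝ) (f : WP) : ℝ :=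
  (s / 2 ^ N : ℝ≥0) * ∑ i ∈ Finset.range (2 ^ N), g (f.1 ((i + 1 : ℕ) * (s / 2 ^ N)))

lemma riem_eq (N : ℕ) {s : ℝ≥0} (hs : 0 < s) (g : Site → ℝ) {C : ℝ} (hC : ∀ x, |g x| ≤ C) (f : WP) :
    riem N s g f = ∫ u in (0 : ℝ)..s, g (f.1 (gp (s / 2 ^ N) u.toNNReal)) := by
  set δ : ℝ≥0 := s / 2 ^ N with hδdef
  have hδ : 0 < δ := by positivity
  have hint : ∀ a b : ℝ, IntervalIntegrable
      (fun u : ℝ => g (f.1 (gp δ u.toNNReal))) volume a b := by
    intro a b
    rw [intervalIntegrable_iff]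
    apply Measure.integrableOn_of_bounded (M := C)
    · exact measure_Ioc_lt_top.ne
    · exact (measurable_gp f g δ).aestronglyMeasurable
    · exact Eventually.of_forall (fun u => by rw [Real.norm_eq_abs]; exact hC _)
  have hsum := intervalIntegral.sum_integral_adjacent_intervals (μ := volume)
    (f := fun u : ℝ => g (f.1 (gp δ u.toNNReal))) (a := fun i : ℕ => (i : ℝ) * δ) (n := 2 ^ N)
    (fun k _ => hint _ _)
  have hend : ((2 ^ N : ℕ) : ℝ) * (δ : ℝ) = s := by
    rw [hδdef]; push_cast; field_simp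
  simp only [Nat.cast_zero, zero_mul] at hsum
  rw [hend] at hsum
  rw [← hsum, riem, Finset.mul_sum]
  apply Finset.sum_congr rfl
  intro i _
  have hle : (i : ℝ) * δ ≤ ((i + 1 : ℕ) : ℝ) * δ := by
    push_cast; nlinarith [hδ, δ.2]
  have : ∫ u in ((i : ℝ) * δ)..(((i + 1 : ℕ) : ℝ) * δ), g (f.1 (gp δ u.toNNReal))
      = ∫ u in ((i : ℝ) * δ)..(((i + 1 : ℕ) : ℝ) * δ), g (f.1 ((i + 1 : ℕ) * δ)) := by
    apply intervalIntegral.integral_congr_ae
    have h0 : ∀ᵐ u : ℝ ∂volume, u ≠ ((i + 1 : ℕ) : ℝ) * δ := by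
      simp [ae_iff, measure_singleton]
    filter_upwards [h0] with u hu huI
    rw [Set.uIoc_of_le hle] at huI
    have hu1 : (i : ℝ) * δ < u := huI.1
    have hu2 : u < ((i + 1 : ℕ) : ℝ) * δ := lt_of_le_of_ne huI.2 hu
    have hu0 : 0 ≤ u := le_trans (by positivity) hu1.le
    have hfl : ⌊u.toNNReal / δ⌋₊ = i := by
      rw [Nat.floor_eq_iff zero_le]
      constructor
      · rw [le_div_iff₀ hδ, ← NNReal.coe_le_coe]
        push_cast
        rw [Real.coe_toNNReal _ hu0]
        exact hu1.le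
      · rw [div_lt_iff₀ hδ, ← NNReal.coe_lt_coe]
        push_cast
        rw [Real.coe_toNNReal _ hu0]
        push_cast at hu2
        exact hu2
    simp only [gp, hfl]
  rw [this, intervalIntegral.integral_const, smul_eq_mul, ← hδdef]
  congr 1
  push_cast
  ring

lemma riem_tendsto (s : ℝ≥0) (g : Site → ℝ) {C : ℝ} (hC : ∀ x, |g x| ≤ C) (f : WP) :
    Tendsto (fun N => riem N s g f) atTop (𝓝 (occ s g f)) := by
  rcases eq_or_lt_of_le (show (0 : ℝ≥0) ≤ s from zero_le) with h0 | hs
  · subst h0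
    simp [riem, occ]
  · have : (fun N => riem N s g f)
        = fun N => ∫ u in (0 : ℝ)..s, g (f.1 (gp (s / 2 ^ N) u.toNNReal)) := by
      funext N; exact riem_eq N hs g hC f
    rw [this]
    unfold occ
    apply intervalIntegral.tendsto_integral_filter_of_dominated_convergence (bound := fun _ => C)
    · exact Eventually.of_forall (fun N => (measurable_gp f g _).aestronglyMeasurable)
    · exact Eventually.of_forall (fun N => Eventually.of_forall
        (fun u _ => by rw [Real.norm_eq_abs]; exact hC _))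
    · exact intervalIntegrable_const
    · refine Eventually.of_forall (fun u _ => ?_)
      have h := gp_tendsto f u.toNNReal (δ := fun N => s / 2 ^ N) (fun N => by positivity)
        (tendsto_div_two_pow s)
      apply tendsto_const_nhds.congr'
      filter_upwards [h] with N hN
      rw [hN]

lemma measurable_riem (N : ℕ) (s : ℝ≥0) (g : Site → ℝ) : Measurable (riem N s g) := by
  unfold riem
  apply Measurable.const_mul
  apply Finset.measurable_sum
  intro i _
  exact (Measurable.of_discrete (f := g)).comp (measurable_eval _)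

lemma measurable_occ (s : ℝ≥0) (g : Site → ℝ) {C : ℝ} (hC : ∀ x, |g x| ≤ C) :
    Measurable (occ s g) := by
  apply measurable_of_tendsto_metrizable (f := fun N => riem N s g)
  · intro N; exact measurable_riem N s g
  · rw [tendsto_pi_nhds]
    intro f
    exact riem_tendsto s g hC f

lemma occ_add (s r : ℝ≥0) (x : Site) (g : Site → ℝ) {C : ℝ} (hC : ∀ x, |g x| ≤ C) (f : WP) :
    occ (s + r) (fun z => g (x + z)) f
      = occ s (fun z => g (x + z)) f + occ r (fun z => g (x + f.1 s + z)) (shift s f) := by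
  unfold occ
  have hC' : ∀ z, |(fun z => g (x + z)) z| ≤ C := fun z => hC _
  rw [← intervalIntegral.integral_add_adjacent_intervals (b := (s : ℝ))
    (intervalIntegrable_path f _ hC' _ _) (intervalIntegrable_path f _ hC' _ _)]
  congr 1
  have h1 := intervalIntegral.integral_comp_add_left (a := 0) (b := (r : ℝ))
    (fun u => g (x + f.1 u.toNNReal)) (s : ℝ)
  rw [add_zero] at h1
  push_cast
  rw [← h1]
  apply intervalIntegral.integral_congr
  intro u hu
  rw [Set.uIcc_of_le r.coe_nonneg] at hu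
  have hu0 : 0 ≤ u := hu.1
  have : ((s : ℝ) + u).toNNReal = s + u.toNNReal := by
    rw [Real.toNNReal_add s.coe_nonneg hu0, Real.toNNReal_coe]
  simp only [this, shift]
  congr 1
  abel

lemma occ_congr (s : ℝ≥0) (g : Site → ℝ) {f f' : WP} (h : ∀ u ≤ s, f.1 u = f'.1 u) :
    occ s g f = occ s g f' := by
  unfold occ
  apply intervalIntegral.integral_congr
  intro u hu
  rw [Set.uIcc_of_le s.coe_nonneg] at hu
  have : u.toNNReal ≤ s := by
    rw [← NNReal.coe_le_coe, Real.coe_toNNReal _ hu.1]; exact hu.2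
  simp only [h _ this]

lemma occ_stop (s : ℝ≥0) (g : Site → ℝ) (f : WP) : occ s g (stop s f) = occ s g f :=
  occ_congr s g (fun u hu => by simp [stop, min_eq_left hu])

lemma occ_mono (s : ℝ≥0) {g h : Site → ℝ} {C : ℝ} (hC : ∀ x, |g x| ≤ C) (hC' : ∀ x, |h x| ≤ C)
    (f : WP) (hgh : ∀ u ≤ s, g (f.1 u) ≤ h (f.1 u)) : occ s g f ≤ occ s h f := by
  unfold occ
  apply intervalIntegral.integral_mono_on s.2 (intervalIntegrable_path f g hC _ _)
    (intervalIntegrable_path f h hC' _ _)
  intro u hu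
  apply hgh
  rw [← NNReal.coe_le_coe, Real.coe_toNNReal _ hu.1]; exact hu.2

lemma occ_const (s : ℝ≥0) (c : ℝ) (f : WP) : occ s (fun _ => c) f = s * c := by
  simp [occ]

lemma occ_nonneg (s : ℝ≥0) {g : Site → ℝ} (hg : ∀ x, 0 ≤ g x) (f : WP) : 0 ≤ occ s g f := by
  unfold occ
  exact intervalIntegral.integral_nonneg s.2 (fun u _ => hg _)

lemma occ_le (s : ℝ≥0) {g : Site → ℝ} {C : ℝ} (hC : ∀ x, |g x| ≤ C) (f : WP) :
    occ s g f ≤ s * C := by
  rw [← occ_const s C f]
  have hC0 : 0 ≤ C := le_trans (abs_nonneg _) (hC 0)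
  apply occ_mono s hC (fun _ => by rw [abs_of_nonneg hC0]) f
  intro u _
  exact (le_abs_self _).trans (hC _)

lemma occ_sum (s : ℝ≥0) {ι : Type*} (T : Finset ι) (g : ι → Site → ℝ) {C : ℝ}
    (hC : ∀ i x, |g i x| ≤ C) (f : WP) :
    occ s (fun x => ∑ i ∈ T, g i x) f = ∑ i ∈ T, occ s (g i) f := by
  unfold occ
  rw [intervalIntegral.integral_finset_sum]
  intro i _
  exact intervalIntegrable_path f (g i) (hC i) _ _

lemma occ_smul (s : ℝ≥0) (c : ℝ) (g : Site → ℝ) (f : WP) :
    occ s (fun x => c * g x) f = c * occ s g f := by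
  unfold occ
  rw [intervalIntegral.integral_const_mul]

/-- The path started at `x` stays in `A` up to time `s`. -/
def stay (x : Site) (A : Finset Site) (s : ℝ≥0) (f : WP) : Prop := ∀ u ≤ s, x + f.1 u ∈ A

lemma stay_iff (x : Site) (A : Finset Site) (s : ℝ≥0) (f : WP) :
    stay x A s f ↔ ∀ N : ℕ, ∀ i ≤ 2 ^ N, x + f.1 ((i : ℕ) * (s / 2 ^ N)) ∈ A := by
  constructor
  · intro h N i hi
    apply h
    calc (i : ℝ≥0) * (s / 2 ^ N) ≤ (2 ^ N : ℕ) * (s / 2 ^ N) := by gcongr
      _ = s := by push_cast; field_simp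
  · intro h u hu
    rcases eq_or_lt_of_le hu with hu | hu
    · have := h 0 1 (by norm_num)
      simpa [hu] using this
    · have hs : 0 < s := lt_of_le_of_lt zero_le hu
      have hev := gp_tendsto f u (δ := fun N => s / 2 ^ N) (fun N => by positivity)
        (tendsto_div_two_pow s)
      obtain ⟨N, hN⟩ := hev.exists
      rw [← hN]
      apply h N
      have hδ : 0 < s / 2 ^ N := by positivity
      rw [Nat.add_one_le_iff, Nat.floor_lt zero_le, div_lt_iff₀ hδ]
      push_cast
      calc u < s := hu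
        _ = 2 ^ N * (s / 2 ^ N) := by field_simp

lemma measurableSet_stay (x : Site) (A : Finset Site) (s : ℝ≥0) :
    MeasurableSet {f : WP | stay x A s f} := by
  simp only [stay_iff, Set.setOf_forall]
  refine MeasurableSet.iInter fun N => MeasurableSet.iInter fun i => MeasurableSet.iInter fun _ => ?_
  exact ((measurable_const.add (measurable_eval _)) (Set.Finite.measurableSet A.finite_toSet))

lemma stay_stop (x : Site) (A : Finset Site) (s : ℝ≥0) (f : WP) :
    stay x A s (stop s f) ↔ stay x A s f := by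
  constructor
  · intro h u hu
    have := h u hu
    simpa [stop, min_eq_left hu] using this
  · intro h u hu
    have := h u hu
    simpa [stop, min_eq_left hu] using this

lemma stay_mono {x : Site} {A B : Finset Site} (hAB : A ⊆ B) {s : ℝ≥0} {f : WP}
    (h : stay x A s f) : stay x B s f := fun u hu => hAB (h u hu)

lemma stay_add {x : Site} {A : Finset Site} {s r : ℝ≥0} {f : WP} (h : stay x A s f)
    (h' : stay (x + f.1 s) A r (shift s f)) : stay x A (s + r) f := by
  intro u hu
  rcases le_total u s with hus | hus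
  · exact h u hus
  · have := h' (u - s) (by rw [tsub_le_iff_left]; exact hu)
    simp only [shift, add_tsub_cancel_of_le hus] at this
    convert this using 1
    abel

end Pool.Agent.LT
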