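import Pool.Agent.LT.Count

/-!
# Summing the bounds over contours
-/

open MeasureTheory ProbabilityTheory Filter Topology
open scoped NNReal ENNReal

namespace Pool.Agent.LT

/-- The range up to time `t`, as a finset. -/
noncomputable def rangeF (t : ℝ≥0) (f : WP) : Finset Site := (f.2.finite_range t).toFinset

lemma mem_rangeF {t : ℝ≥0} {f : WP} {x : Site} : x ∈ rangeF t f ↔ ∃ s, s ≤ t ∧ f.1 s = x := by
  unfold rangeF; rw [Set.Finite.mem_toFinset]; rfl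

lemma rangeF_nonempty (t : ℝ≥0) (f : WP) : (rangeF t f).Nonempty :=
  ⟨f.1 0, mem_rangeF.2 ⟨0, zero_le, rfl⟩⟩

lemma connF_rangeF (t : ℝ≥0) (f : WP) : ConnF (rangeF t f : Set Site) := by
  intro g hg x hx y hy
  apply f.2.range_connected t g _ (mem_rangeF.1 hx) (mem_rangeF.1 hy)
  intro x y hx hy hxy
  exact hg x (mem_rangeF.2 hx) y (mem_rangeF.2 hy) hxy

/-- The event `E_t` on path space. -/
def evtE (β : ℝ) (t : ℝ≥0) : Set WP :=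
  {f | ∀ x ∈ rangeF t f, β ≤ occ t (fun w => if (0 : Site) + w = x then 1 else 0) f}

lemma mem_bevt_of_evtE {β : ℝ} {t : ℝ≥0} {f : WP} (hf : f ∈ evtE β t) {A : Finset Site}
    (hA : rangeF t f ⊆ A) (hk : ∀ z ∈ A, kap A z ≠ 0 → z ∈ rangeF t f) :
    f ∈ bevt A β t 0 := by
  constructor
  · intro u hu
    rw [zero_add]
    exact hA (mem_rangeF.2 ⟨u, hu, rfl⟩)
  · intro z hz hkz
    exact hf z (hk z hz hkz)

/-- A form bound. -/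
def FormBd (A : Finset Site) (θ Λ : ℝ) : Prop :=
  ∀ u : Site → ℝ, (∀ z, z ∉ A → u z = 0) → Λ * ∑ z ∈ A, u z ^ 2 ≤ dirform A θ units u

lemma exp_eight : Real.exp (-8) ≤ 1 / 2048 := by
  have h1 := Real.exp_one_gt_d9
  have h2 : (2048 : ℝ) ≤ Real.exp 8 := by
    have : Real.exp 8 = Real.exp 1 ^ 8 := by rw [← Real.exp_nat_mul]; norm_num
    rw [this]
    calc (2048 : ℝ) ≤ (2.7182818283 : ℝ) ^ 8 := by norm_num
      _ ≤ Real.exp 1 ^ 8 := by gcongr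
  rw [Real.exp_neg, inv_eq_one_div]
  exact one_div_le_one_div_of_le (by norm_num) h2

lemma nat_le_two_pow (n : ℕ) : (n : ℝ) ≤ 2 ^ n := by
  have : n < 2 ^ n := Nat.lt_two_pow_self
  exact_mod_cast this.le

lemma card_le_sq {D : Finset Site} {ℓ : ℕ} (h : (bdry D).card = ℓ) : D.card ≤ ℓ ^ 2 := by
  have h1 : D ⊆ (D.image Prod.fst) ×ˢ (D.image Prod.snd) := by
    intro x hx
    rw [Finset.mem_product]
    exact ⟨Finset.mem_image_of_mem _ hx, Finset.mem_image_of_mem _ hx⟩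
  have h2 := Finset.card_le_card h1
  rw [Finset.card_product] at h2
  have h3 := perim D
  have h4 : (D.image Prod.fst).card ≤ ℓ := by omega
  have h5 : (D.image Prod.snd).card ≤ ℓ := by omega
  calc D.card ≤ _ := h2
    _ ≤ ℓ * ℓ := Nat.mul_le_mul h4 h5
    _ = ℓ ^ 2 := by ring

/-- One term of the sums. -/
lemma term_bound {μ : Measure WP} (hμ : IsLaw μ) (A : Finset Site) (hA0 : (0 : Site) ∈ A)
    {β θ Λ K : ℝ} {t : ℝ≥0} {m ℓ : ℕ} (hβ : 0 ≤ β) (h0 : 0 ≤ θ) (h1 : θ ≤ 1 / 2)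
    (hθβ : 8 ≤ θ * β) (hform : FormBd A θ Λ) (hb : m ≤ bsize A) (hcard : A.card ≤ ℓ ^ 2)
    (hK : K ≤ (1 - 2 * θ) * β * m + Λ * t) :
    μ.real (bevt A β t 0) ≤ Real.exp (-K) * (ℓ * (1 / 2048) ^ m) := by
  have h2 := bevt_bound hμ A (β := β) (θ := θ) (Λ := Λ) h0 (by linarith) t ⟨0, hA0⟩ hform
  refine h2.trans ?_
  have h3 : Real.sqrt A.card ≤ ℓ := by
    rw [Real.sqrt_le_left (Nat.cast_nonneg _)]
    exact_mod_cast hcard
  have h4 : Real.exp (-((1 - θ) * β * bsize A)) ≤ Real.exp (-((1 - θ) * β * m)) := by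
    apply Real.exp_le_exp.2
    have : (m : ℝ) ≤ bsize A := by exact_mod_cast hb
    have h5 : 0 ≤ (1 - θ) * β := mul_nonneg (by linarith) hβ
    nlinarith
  have h5 : Real.exp (-(θ * β * m)) ≤ (1 / 2048) ^ m := by
    calc Real.exp (-(θ * β * m)) ≤ Real.exp ((m : ℝ) * (-8)) := by
          apply Real.exp_le_exp.2
          have : (0 : ℝ) ≤ m := Nat.cast_nonneg _
          nlinarith
      _ = Real.exp (-8) ^ m := by rw [Real.exp_nat_mul]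
      _ ≤ (1 / 2048) ^ m := by
          gcongr
          exact exp_eight
  calc Real.exp (-((1 - θ) * β * bsize A)) * (Real.sqrt A.card * Real.exp (-(Λ * t)))
      ≤ Real.exp (-((1 - θ) * β * m)) * (ℓ * Real.exp (-(Λ * t))) := by gcongr
    _ = Real.exp (-((1 - 2 * θ) * β * m + Λ * t)) * (ℓ * Real.exp (-(θ * β * m))) := by
        have : Real.exp (-((1 - θ) * β * m)) * (ℓ * Real.exp (-(Λ * t)))
          = ℓ * (Real.exp (-((1 - θ) * β * m)) * Real.exp (-(Λ * t))) := by ring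
        rw [this]
        have : Real.exp (-((1 - 2 * θ) * β * m + Λ * t)) * (ℓ * Real.exp (-(θ * β * m)))
          = ℓ * (Real.exp (-((1 - 2 * θ) * β * m + Λ * t)) * Real.exp (-(θ * β * m))) := by ring
        rw [this, ← Real.exp_add, ← Real.exp_add]
        ring_nf
    _ ≤ Real.exp (-K) * (ℓ * (1 / 2048) ^ m) := by
        gcongr

open Classical in
/-- Type I events. -/
noncomputable def typeI (β θ K : ℝ) (t : ℝ≥0) (ℓ : ℕ) : Set WP :=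
  ⋃ D ∈ (famF 0 ℓ).filter (fun D => ∃ Λ, FormBd D θ Λ ∧ K ≤ (1 - 2 * θ) * β * ℓ + Λ * t),
    bevt D β t 0

lemma typeI_bound {μ : Measure WP} (hμ : IsLaw μ) {β θ K : ℝ} {t : ℝ≥0} (hβ : 0 ≤ β)
    (h0 : 0 ≤ θ) (h1 : θ ≤ 1 / 2) (hθβ : 8 ≤ θ * β) (ℓ : ℕ) :
    μ (typeI β θ K t ℓ) ≤ ENNReal.ofReal (Real.exp (-K)) * 2⁻¹ ^ ℓ := by
  classical
  have := hμ.prob
  unfold typeI
  refine (measure_biUnion_finset_le _ _).trans ?_
  have hterm : ∀ D ∈ (famF 0 ℓ).filter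
      (fun D => ∃ Λ, FormBd D θ Λ ∧ K ≤ (1 - 2 * θ) * β * ℓ + Λ * t),
      μ (bevt D β t 0) ≤ ENNReal.ofReal (Real.exp (-K) * (ℓ * (1 / 2048) ^ ℓ)) := by
    intro D hD
    obtain ⟨hD1, Λ, hform, hK⟩ := Finset.mem_filter.1 hD
    have hfam := mem_famF.1 hD1
    have hb : ℓ ≤ bsize D := by rw [← hfam.2.2.2]; exact card_bdry_le D
    have := term_bound hμ D hfam.1 hβ h0 h1 hθβ hform hb (card_le_sq hfam.2.2.2) hK
    rw [← ofReal_measureReal]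
    exact ENNReal.ofReal_le_ofReal this
  refine (Finset.sum_le_sum hterm).trans ?_
  rw [Finset.sum_const, nsmul_eq_mul]
  have hc : ((famF 0 ℓ).filter
      (fun D => ∃ Λ, FormBd D θ Λ ∧ K ≤ (1 - 2 * θ) * β * ℓ + Λ * t)).card ≤ ℓ * 64 ^ ℓ :=
    (Finset.card_filter_le _ _).trans (card_famF_le 0 ℓ)
  set c := ((famF 0 ℓ).filter
      (fun D => ∃ Λ, FormBd D θ Λ ∧ K ≤ (1 - 2 * θ) * β * ℓ + Λ * t)).card
  have hreal : (c : ℝ) * (Real.exp (-K) * (ℓ * (1 / 2048) ^ ℓ)) ≤ Real.exp (-K) * (1 / 2) ^ ℓ := by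
    have h3 : (c : ℝ) ≤ ℓ * 64 ^ ℓ := by exact_mod_cast hc
    have h4 := nat_le_two_pow ℓ
    calc (c : ℝ) * (Real.exp (-K) * (ℓ * (1 / 2048) ^ ℓ))
        ≤ (2 ^ ℓ * 64 ^ ℓ) * (Real.exp (-K) * (2 ^ ℓ * (1 / 2048) ^ ℓ)) := by
          gcongr
          exact h3.trans (by gcongr)
      _ = Real.exp (-K) * (2 * 64 * 2 * (1 / 2048)) ^ ℓ := by
          rw [mul_pow, mul_pow, mul_pow]; ring
      _ ≤ Real.exp (-K) * (1 / 2) ^ ℓ := by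
          gcongr
          norm_num
  have h5 : ((c : ℕ) : ℝ≥0∞) = ENNReal.ofReal (c : ℝ) := (ENNReal.ofReal_natCast c).symm
  rw [h5, ← ENNReal.ofReal_mul (Nat.cast_nonneg _)]
  refine (ENNReal.ofReal_le_ofReal hreal).trans (le_of_eq ?_)
  rw [ENNReal.ofReal_mul (Real.exp_pos _).le]
  congr 1
  rw [ENNReal.ofReal_pow (by norm_num)]
  congr 1
  rw [one_div, ENNReal.ofReal_inv_of_pos (by norm_num)]
  norm_num

open Classical in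
/-- Type II events. -/
noncomputable def typeII (β θ K : ℝ) (t : ℝ≥0) (ℓ ℓ' : ℕ) : Set WP :=
  ⋃ D ∈ famF 0 ℓ, ⋃ z ∈ D, ⋃ H ∈ (famF z ℓ').filter
    (fun H => (0 : Site) ∈ D \ H ∧ ℓ + ℓ' ≤ bsize (D \ H) ∧
      ∃ Λ, FormBd (D \ H) θ Λ ∧ K ≤ (1 - 2 * θ) * β * (ℓ + ℓ' : ℕ) + Λ * t),
    bevt (D \ H) β t 0

lemma typeII_bound {μ : Measure WP} (hμ : IsLaw μ) {β θ K : ℝ} {t : ℝ≥0} (hβ : 0 ≤ β)
    (h0 : 0 ≤ θ) (h1 : θ ≤ 1 / 2) (hθβ : 8 ≤ θ * β) (ℓ ℓ' : ℕ) :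
    μ (typeII β θ K t ℓ ℓ') ≤ ENNReal.ofReal (Real.exp (-K)) * 2⁻¹ ^ ℓ * 2⁻¹ ^ ℓ' := by
  classical
  have := hμ.prob
  unfold typeII
  set T : ℝ≥0∞ := ENNReal.ofReal (Real.exp (-K) * (ℓ * (1 / 2048) ^ (ℓ + ℓ'))) with hT
  have hterm : ∀ D ∈ famF 0 ℓ, ∀ z ∈ D, ∀ H ∈ (famF z ℓ').filter
    (fun H => (0 : Site) ∈ D \ H ∧ ℓ + ℓ' ≤ bsize (D \ H) ∧
      ∃ Λ, FormBd (D \ H) θ Λ ∧ K ≤ (1 - 2 * θ) * β * (ℓ + ℓ' : ℕ) + Λ * t),
      μ (bevt (D \ H) β t 0) ≤ T := by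
    intro D hD z hz H hH
    obtain ⟨_, h0D, hb, Λ, hform, hK⟩ := Finset.mem_filter.1 hH
    have hfam := mem_famF.1 hD
    have hcard : (D \ H).card ≤ ℓ ^ 2 :=
      (Finset.card_le_card Finset.sdiff_subset).trans (card_le_sq hfam.2.2.2)
    have := term_bound hμ (D \ H) h0D hβ h0 h1 hθβ hform hb hcard hK
    rw [← ofReal_measureReal]
    exact ENNReal.ofReal_le_ofReal this
  have hstep : μ (⋃ D ∈ famF 0 ℓ, ⋃ z ∈ D, ⋃ H ∈ (famF z ℓ').filter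
    (fun H => (0 : Site) ∈ D \ H ∧ ℓ + ℓ' ≤ bsize (D \ H) ∧
      ∃ Λ, FormBd (D \ H) θ Λ ∧ K ≤ (1 - 2 * θ) * β * (ℓ + ℓ' : ℕ) + Λ * t),
      bevt (D \ H) β t 0) ≤ ((ℓ * 64 ^ ℓ : ℕ) : ℝ≥0∞) * (((ℓ ^ 2 : ℕ) : ℝ≥0∞)
        * (((ℓ' * 64 ^ ℓ' : ℕ) : ℝ≥0∞) * T)) := by
    refine (measure_biUnion_finset_le _ _).trans ?_
    have h2 : ∀ D ∈ famF 0 ℓ, μ (⋃ z ∈ D, ⋃ H ∈ (famF z ℓ').filter
      (fun H => (0 : Site) ∈ D \ H ∧ ℓ + ℓ' ≤ bsize (D \ H) ∧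
        ∃ Λ, FormBd (D \ H) θ Λ ∧ K ≤ (1 - 2 * θ) * β * (ℓ + ℓ' : ℕ) + Λ * t),
        bevt (D \ H) β t 0) ≤ (((ℓ ^ 2 : ℕ) : ℝ≥0∞) * (((ℓ' * 64 ^ ℓ' : ℕ) : ℝ≥0∞) * T)) := by
      intro D hD
      refine (measure_biUnion_finset_le _ _).trans ?_
      have h3 : ∀ z ∈ D, μ (⋃ H ∈ (famF z ℓ').filter
        (fun H => (0 : Site) ∈ D \ H ∧ ℓ + ℓ' ≤ bsize (D \ H) ∧
          ∃ Λ, FormBd (D \ H) θ Λ ∧ K ≤ (1 - 2 * θ) * β * (ℓ + ℓ' : ℕ) + Λ * t),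
          bevt (D \ H) β t 0) ≤ ((ℓ' * 64 ^ ℓ' : ℕ) : ℝ≥0∞) * T := by
        intro z hz
        refine (measure_biUnion_finset_le _ _).trans ?_
        refine (Finset.sum_le_sum (hterm D hD z hz)).trans ?_
        rw [Finset.sum_const, nsmul_eq_mul]
        gcongr
        exact (Finset.card_filter_le _ _).trans (card_famF_le z ℓ')
      refine (Finset.sum_le_sum h3).trans ?_
      rw [Finset.sum_const, nsmul_eq_mul]
      gcongr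
      exact card_le_sq (mem_famF.1 hD).2.2.2
    refine (Finset.sum_le_sum h2).trans ?_
    rw [Finset.sum_const, nsmul_eq_mul]
    gcongr
    exact card_famF_le 0 ℓ
  refine hstep.trans ?_
  have hreal : ((ℓ * 64 ^ ℓ : ℕ) : ℝ) * (((ℓ ^ 2 : ℕ) : ℝ) * (((ℓ' * 64 ^ ℓ' : ℕ) : ℝ) *
      (Real.exp (-K) * (ℓ * (1 / 2048) ^ (ℓ + ℓ'))))) ≤ Real.exp (-K) * (1 / 2) ^ ℓ * (1 / 2) ^ ℓ' := by
    have h4 := nat_le_two_pow ℓ
    have h5 := nat_le_two_pow ℓ'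
    push_cast
    calc ((ℓ : ℝ) * 64 ^ ℓ) * ((ℓ : ℝ) ^ 2 * (((ℓ' : ℝ) * 64 ^ ℓ') *
          (Real.exp (-K) * (ℓ * (1 / 2048) ^ (ℓ + ℓ')))))
        ≤ (2 ^ ℓ * 64 ^ ℓ) * ((2 ^ ℓ) ^ 2 * ((2 ^ ℓ' * 64 ^ ℓ') *
          (Real.exp (-K) * (2 ^ ℓ * (1 / 2048) ^ (ℓ + ℓ'))))) := by gcongr
      _ = Real.exp (-K) * (2 * 64 * 2 * 2 * 2 * (1 / 2048)) ^ ℓ * (2 * 64 * (1 / 2048)) ^ ℓ' := by
          simp only [mul_pow, pow_add]
          ring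
      _ ≤ Real.exp (-K) * (1 / 2) ^ ℓ * (1 / 2) ^ ℓ' := by
          gcongr <;> norm_num
  have e1 : ∀ n : ℕ, ((n : ℕ) : ℝ≥0∞) = ENNReal.ofReal (n : ℝ) := fun n =>
    (ENNReal.ofReal_natCast n).symm
  rw [hT, e1, e1, e1, ← ENNReal.ofReal_mul (Nat.cast_nonneg _),
    ← ENNReal.ofReal_mul (Nat.cast_nonneg _), ← ENNReal.ofReal_mul (Nat.cast_nonneg _)]
  refine (ENNReal.ofReal_le_ofReal hreal).trans (le_of_eq ?_)
  rw [ENNReal.ofReal_mul (by positivity), ENNReal.ofReal_mul (Real.exp_pos _).le,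
    ENNReal.ofReal_pow (by norm_num), ENNReal.ofReal_pow (by norm_num)]
  have e2 : ENNReal.ofReal (1 / 2) = 2⁻¹ := by
    rw [one_div, ENNReal.ofReal_inv_of_pos (by norm_num)]
    norm_num
  rw [e2]

/-- Total bound for the exceptional events. -/
theorem bad_bound {μ : Measure WP} (hμ : IsLaw μ) {β θ K : ℝ} {t : ℝ≥0} (hβ : 0 ≤ β)
    (h0 : 0 ≤ θ) (h1 : θ ≤ 1 / 2) (hθβ : 8 ≤ θ * β) :
    μ ((⋃ ℓ, typeI β θ K t ℓ) ∪ (⋃ ℓ, ⋃ ℓ', typeII β θ K t ℓ ℓ'))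
      ≤ 6 * ENNReal.ofReal (Real.exp (-K)) := by
  refine (measure_union_le _ _).trans ?_
  have hI : μ (⋃ ℓ, typeI β θ K t ℓ) ≤ 2 * ENNReal.ofReal (Real.exp (-K)) := by
    refine (measure_iUnion_le _).trans ?_
    refine (ENNReal.tsum_le_tsum (fun ℓ => typeI_bound hμ hβ h0 h1 hθβ ℓ)).trans ?_
    rw [ENNReal.tsum_mul_left, ENNReal.tsum_geometric]
    rw [ENNReal.one_sub_inv_two, inv_inv, mul_comm]
  have hII : μ (⋃ ℓ, ⋃ ℓ', typeII β θ K t ℓ ℓ') ≤ 4 * ENNReal.ofReal (Real.exp (-K)) := by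
    refine (measure_iUnion_le _).trans ?_
    have h2 : ∀ ℓ, μ (⋃ ℓ', typeII β θ K t ℓ ℓ')
        ≤ ENNReal.ofReal (Real.exp (-K)) * 2 * 2⁻¹ ^ ℓ := by
      intro ℓ
      refine (measure_iUnion_le _).trans ?_
      refine (ENNReal.tsum_le_tsum (fun ℓ' => typeII_bound hμ hβ h0 h1 hθβ ℓ ℓ')).trans ?_
      rw [ENNReal.tsum_mul_left, ENNReal.tsum_geometric]
      rw [ENNReal.one_sub_inv_two, inv_inv]
      apply le_of_eq
      ring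
    refine (ENNReal.tsum_le_tsum h2).trans ?_
    rw [ENNReal.tsum_mul_left, ENNReal.tsum_geometric]
    rw [ENNReal.one_sub_inv_two, inv_inv]
    apply le_of_eq
    ring
  calc _ ≤ 2 * ENNReal.ofReal (Real.exp (-K)) + 4 * ENNReal.ofReal (Real.exp (-K)) :=
        add_le_add hI hII
    _ = _ := by ring

end Pool.Agent.LT
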