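import Pool.Agent.LT.Fill

/-!
# Covering events: composition
-/

open MeasureTheory ProbabilityTheory Filter Topology
open scoped NNReal ENNReal

namespace Pool.Agent.LT

/-- The path started at `x` stays in `A` up to time `s`, ends at `y`, and spends time at least
`β` at every site of `R`. -/
def cev (A R : Finset Site) (β : ℝ) (s : ℝ≥0) (x y : Site) : Set WP :=
  {f | stay x A s f ∧ (∀ z ∈ R, β ≤ occ s (fun w => if x + w = z then 1 else 0) f) ∧
    x + f.1 s = y}

lemma measurableSet_cev (A R : Finset Site) (β : ℝ) (s : ℝ≥0) (x y : Site) :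
    MeasurableSet (cev A R β s x y) := by
  have h1 : MeasurableSet {f : WP | ∀ z ∈ R, β ≤ occ s (fun w => if x + w = z then 1 else 0) f} := by
    simp only [Set.setOf_forall]
    refine MeasurableSet.iInter fun z => MeasurableSet.iInter fun _ => ?_
    exact measurableSet_le measurable_const (measurable_occ s _ (ite_bdd x z))
  have h2 : MeasurableSet {f : WP | x + f.1 s = y} :=
    (measurable_const.add (measurable_eval s)) (measurableSet_singleton y)
  exact (measurableSet_stay x A s).inter (h1.inter h2)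

lemma cev_stop {A R : Finset Site} {β : ℝ} {s : ℝ≥0} {x y : Site} :
    stop s ⁻¹' (cev A R β s x y) = cev A R β s x y := by
  ext f
  simp only [Set.mem_preimage, cev, Set.mem_setOf_eq, stay_stop, occ_stop]
  have : (stop s f).1 s = f.1 s := by simp [stop]
  rw [this]

/-- Covering bound at an exact time. -/
def CovAt (A R : Finset Site) (β : ℝ) (s : ℝ≥0) (x y : Site) (c : ℝ) : Prop :=
  ∀ μ : Measure WP, IsLaw μ → Real.exp (-c) ≤ μ.real (cev A R β s x y)

lemma cev_comp {A R R' : Finset Site} {β : ℝ} {s s' : ℝ≥0} {x y z : Site} :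
    stop s ⁻¹' (cev A R β s x y) ∩ shift s ⁻¹' (cev A R' β s' y z)
      ⊆ cev A (R ∪ R') β (s + s') x z := by
  intro f hf
  rw [cev_stop] at hf
  obtain ⟨⟨h1, h2, h3⟩, h4, h5, h6⟩ := hf
  rw [← h3] at h4 h5 h6
  refine ⟨stay_add h1 h4, ?_, ?_⟩
  · intro w hw
    have hadd := occ_add s s' x (fun v => if v = w then (1 : ℝ) else 0) (C := 1)
      (fun v => by split_ifs <;> simp) f
    rw [hadd]
    have n1 : 0 ≤ occ s (fun z => if x + z = w then (1 : ℝ) else 0) f :=
      occ_nonneg s (fun v => by split_ifs <;> simp) f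
    have n2 : 0 ≤ occ s' (fun z => if x + f.1 s + z = w then (1 : ℝ) else 0) (shift s f) :=
      occ_nonneg s' (fun v => by split_ifs <;> simp) _
    rcases Finset.mem_union.1 hw with h | h
    · have := h2 w h; linarith
    · have := h5 w h; linarith
  · rw [← h6]
    simp only [shift]
    abel

lemma CovAt.comp {A R R' : Finset Site} {β : ℝ} {s s' : ℝ≥0} {x y z : Site} {c c' : ℝ}
    (h : CovAt A R β s x y c) (h' : CovAt A R' β s' y z c') :
    CovAt A (R ∪ R') β (s + s') x z (c + c') := by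
  intro μ hμ
  have := hμ.prob
  have h1 := h μ hμ
  have h2 := h' μ hμ
  have h3 := hμ.markov_set s (measurableSet_cev A R β s x y) (measurableSet_cev A R' β s' y z)
  have h4 : μ.real (stop s ⁻¹' (cev A R β s x y) ∩ shift s ⁻¹' (cev A R' β s' y z))
      = μ.real (cev A R β s x y) * μ.real (cev A R' β s' y z) := by
    unfold Measure.real
    rw [h3, ENNReal.toReal_mul, cev_stop]
  calc Real.exp (-(c + c')) = Real.exp (-c) * Real.exp (-c') := by
        rw [← Real.exp_add]; ring_nf
    _ ≤ μ.real (cev A R β s x y) * μ.real (cev A R' β s' y z) := by gcongr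
    _ ≤ μ.real (cev A (R ∪ R') β (s + s') x z) := by
        rw [← h4]
        exact measureReal_mono cev_comp

lemma CovAt.mono {A A' R R' : Finset Site} {β β' : ℝ} {s : ℝ≥0} {x y : Site} {c c' : ℝ}
    (h : CovAt A R β s x y c) (hA : A ⊆ A') (hR : R' ⊆ R) (hβ : β' ≤ β) (hc : c ≤ c') :
    CovAt A' R' β' s x y c' := by
  intro μ hμ
  have := hμ.prob
  calc Real.exp (-c') ≤ Real.exp (-c) := Real.exp_le_exp.2 (by linarith)
    _ ≤ μ.real (cev A R β s x y) := h μ hμ
    _ ≤ μ.real (cev A' R' β' s x y) := by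
        apply measureReal_mono (h₂ := measure_ne_top _ _)
        rintro f ⟨h1, h2, h3⟩
        exact ⟨stay_mono hA h1, fun z hz => hβ.trans (h2 z (hR hz)), h3⟩

/-- Covering bound at some time at most `τ`. -/
def Cov (A R : Finset Site) (β : ℝ) (τ : ℝ) (x y : Site) (c : ℝ) : Prop :=
  ∃ s : ℝ≥0, (s : ℝ) ≤ τ ∧ CovAt A R β s x y c

lemma Cov.comp {A R R' : Finset Site} {β τ τ' : ℝ} {x y z : Site} {c c' : ℝ}
    (h : Cov A R β τ x y c) (h' : Cov A R' β τ' y z c') :
    Cov A (R ∪ R') β (τ + τ') x z (c + c') := by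
  obtain ⟨s, hs, h1⟩ := h
  obtain ⟨s', hs', h2⟩ := h'
  exact ⟨s + s', by push_cast; linarith, h1.comp h2⟩

lemma Cov.mono {A A' R R' : Finset Site} {β β' : ℝ} {τ τ' : ℝ} {x y : Site} {c c' : ℝ}
    (h : Cov A R β τ x y c) (hA : A ⊆ A') (hR : R' ⊆ R) (hβ : β' ≤ β) (hτ : τ ≤ τ')
    (hc : c ≤ c') : Cov A' R' β' τ' x y c' := by
  obtain ⟨s, hs, h1⟩ := h
  exact ⟨s, hs.trans hτ, h1.mono hA hR hβ hc⟩

/-! ### Symmetries -/

/-- Additive automorphisms preserving the unit vectors. -/
structure Sym where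
  /-- the map -/
  g : Site ≃+ Site
  /-- it preserves the units -/
  pres : ∀ e, e ∈ units → g e ∈ units
  /-- the inverse preserves the units -/
  pres' : ∀ e, e ∈ units → g.symm e ∈ units

/-- Action on paths. -/
def Sym.act (σ : Sym) (f : WP) : WP :=
  ⟨fun s => σ.g (f.1 s), by
    constructor
    · intro s
      obtain ⟨δ, hδ, h⟩ := f.2.right s
      exact ⟨δ, hδ, fun u h1 h2 => by simp only [h u h1 h2]⟩
    · intro s hs
      obtain ⟨δ, hδ, y, h, hy⟩ := f.2.left s hs
      refine ⟨δ, hδ, σ.g y, fun u h1 h2 => by simp only [h u h1 h2], ?_⟩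
      rcases hy with hy | hy
      · left; rw [hy]
      · right
        rw [← map_sub]
        exact σ.pres _ hy⟩

lemma Sym.measurable_act (σ : Sym) : Measurable σ.act := by
  rw [measurable_wp_iff]
  intro s
  exact (Measurable.of_discrete (f := σ.g)).comp (measurable_eval s)

lemma Sym.isLaw (σ : Sym) {μ : Measure WP} (hμ : IsLaw μ) : IsLaw (μ.map σ.act) := by
  have hm := σ.measurable_act
  have := hμ.prob
  refine ⟨Measure.isProbabilityMeasure_map hm.aemeasurable, ?_, ?_, ?_, ?_, ?_⟩
  · rw [ae_map_iff hm.aemeasurable]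
    · filter_upwards [hμ.start] with f hf
      show σ.g (f.1 0) = 0
      rw [hf, map_zero]
    · exact (measurable_eval 0) (measurableSet_singleton (0 : Site))
  · intro s
    rw [indepFun_iff_measure_inter_preimage_eq_mul]
    intro F G hF hG
    have h1 := (indepFun_iff_measure_inter_preimage_eq_mul.1 (hμ.indep s)) (σ.act ⁻¹' F)
      (σ.act ⁻¹' G) (hm hF) (hm hG)
    rw [Measure.map_apply hm ((measurable_stop s hF).inter (measurable_shift s hG)),
      Measure.map_apply hm (measurable_stop s hF), Measure.map_apply hm (measurable_shift s hG)]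
    have e1 : σ.act ⁻¹' (stop s ⁻¹' F) = stop s ⁻¹' (σ.act ⁻¹' F) := by
      ext f; rfl
    have e2 : σ.act ⁻¹' (shift s ⁻¹' G) = shift s ⁻¹' (σ.act ⁻¹' G) := by
      ext f
      simp only [Set.mem_preimage]
      have : shift s (σ.act f) = σ.act (shift s f) := by
        apply Subtype.ext
        funext u
        simp only [shift, Sym.act, map_sub]
      rw [this]
    rw [Set.preimage_inter, e1, e2]
    exact h1
  · intro s
    apply Measure.ext
    intro T hT
    rw [Measure.map_apply (measurable_shift s) hT, Measure.map_apply hm (measurable_shift s hT),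
      Measure.map_apply hm hT]
    have e2 : σ.act ⁻¹' (shift s ⁻¹' T) = shift s ⁻¹' (σ.act ⁻¹' T) := by
      ext f
      simp only [Set.mem_preimage]
      have : shift s (σ.act f) = σ.act (shift s f) := by
        apply Subtype.ext
        funext u
        simp only [shift, Sym.act, map_sub]
      rw [this]
    rw [e2, ← Measure.map_apply (measurable_shift s) (hm hT), hμ.stat s]
  · intro e he
    refine (hμ.rate _ (σ.pres' e he)).congr (fun u => ?_)
    have h2 : MeasurableSet {f : WP | f.1 u = e} :=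
      (measurable_eval u) (measurableSet_singleton e)
    rw [Measure.map_apply hm h2]
    congr 3
    ext f
    simp only [Set.mem_setOf_eq, Set.mem_preimage, Sym.act]
    rw [AddEquiv.eq_symm_apply]
  · refine hμ.rate_zero.congr (fun u => ?_)
    have h2 : MeasurableSet {f : WP | f.1 u = 0} :=
      (measurable_eval u) (measurableSet_singleton (0 : Site))
    rw [Measure.map_apply hm h2]
    congr 4
    ext f
    simp only [Set.mem_setOf_eq, Set.mem_preimage, Sym.act]
    rw [EmbeddingLike.map_eq_zero_iff]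

/-- Transport of covering bounds. -/
lemma CovAt.sym (σ : Sym) (v : Site) {A R : Finset Site} {β : ℝ} {s : ℝ≥0} {x y : Site} {c : ℝ}
    (h : CovAt A R β s x y c) {A' R' : Finset Site} (hA : ∀ z ∈ A, v + σ.g z ∈ A')
    (hR : ∀ z ∈ R', ∃ w ∈ R, v + σ.g w = z) :
    CovAt A' R' β s (v + σ.g x) (v + σ.g y) c := by
  intro μ hμ
  have := hμ.prob
  -- the inverse symmetry
  let τ : Sym := ⟨σ.g.symm, σ.pres', fun e he => by simpa using σ.pres e he⟩
  have h1 := h _ (τ.isLaw hμ)
  refine h1.trans ?_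
  unfold Measure.real
  rw [Measure.map_apply τ.measurable_act (measurableSet_cev A R β s x y)]
  apply measureReal_mono (h₂ := measure_ne_top _ _)
  intro f hf
  obtain ⟨h2, h3, h4⟩ := hf
  have key : ∀ u z, x + (τ.act f).1 u = z ↔ v + σ.g x + f.1 u = v + σ.g z := by
    intro u z
    have e : (τ.act f).1 u = σ.g.symm (f.1 u) := rfl
    rw [e]
    constructor
    · intro h5
      rw [← h5, map_add, AddEquiv.apply_symm_apply]
      abel
    · intro h5
      rw [add_assoc] at h5
      have h6 := add_left_cancel h5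
      have h7 : σ.g.symm (σ.g x + f.1 u) = z := by rw [h6, AddEquiv.symm_apply_apply]
      rw [map_add, AddEquiv.symm_apply_apply] at h7
      exact h7
  refine ⟨?_, ?_, ?_⟩
  · intro u hu
    have h5 := h2 u hu
    have h6 := hA _ h5
    rwa [← (key u _).1 rfl] at h6
  · intro z hz
    obtain ⟨w, hw, rfl⟩ := hR z hz
    refine (h3 w hw).trans (le_of_eq ?_)
    unfold occ
    apply intervalIntegral.integral_congr
    intro u _
    simp only [key]
  · exact (key s y).1 h4

lemma Cov.sym (σ : Sym) (v : Site) {A R : Finset Site} {β : ℝ} {s : ℝ} {x y : Site} {c : ℝ}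
    (h : Cov A R β s x y c) {A' R' : Finset Site} (hA : ∀ z ∈ A, v + σ.g z ∈ A')
    (hR : ∀ z ∈ R', ∃ w ∈ R, v + σ.g w = z) :
    Cov A' R' β s (v + σ.g x) (v + σ.g y) c := by
  obtain ⟨u, hu, h1⟩ := h
  exact ⟨u, hu, h1.sym σ v hA hR⟩

/-- The identity. -/
def symId : Sym := ⟨AddEquiv.refl _, fun _ h => h, fun _ h => h⟩

/-- Rotation by a quarter turn. -/
def symRot : Sym where
  g := { toFun := fun x => (-x.2, x.1), invFun := fun x => (x.2, -x.1),
         left_inv := fun x => by simp, right_inv := fun x => by simp,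
         map_add' := fun x y => by ext <;> simp [add_comm] }
  pres e he := by
    simp only [units, Finset.mem_insert, Finset.mem_singleton] at he
    rcases he with h | h | h | h <;> subst h <;> decide
  pres' e he := by
    simp only [units, Finset.mem_insert, Finset.mem_singleton] at he
    rcases he with h | h | h | h <;> subst h <;> decide

@[simp] lemma symId_g (x : Site) : symId.g x = x := rfl

@[simp] lemma symRot_g (x : Site) : symRot.g x = (-x.2, x.1) := rfl

/-! ### Holding and travelling -/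

lemma fkw_zero (A : Finset Site) (s : ℝ≥0) (x : Site) (f : WP) :
    fkw A (fun _ => 0) s x f = Set.indicator {f : WP | stay x A s f} (fun _ => (1 : ℝ)) f := by
  unfold fkw
  congr 1
  funext f
  rw [occ_const, mul_zero, Real.exp_zero]

lemma stay_kernel {μ : Measure WP} (hμ : IsLaw μ) (A : Finset Site) (β : ℝ) (s : ℝ≥0) (x y : A) :
    μ.real (cev A ∅ β s x.1 y.1) = NormedSpace.exp ((s : ℝ) • gen A (fun _ => 0)) x y := by
  have := hμ.prob
  rw [← feynman_kac hμ A (fun _ => 0) (C := 0) (fun _ => by simp) s x y]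
  have h1 : (fun f : WP => fkw A (fun _ => 0) s x.1 f * (if x.1 + f.1 s = y.1 then 1 else 0))
      = Set.indicator (cev A ∅ β s x.1 y.1) (fun _ => (1 : ℝ)) := by
    funext f
    rw [fkw_zero]
    by_cases h2 : stay x.1 A s f
    · by_cases h3 : x.1 + f.1 s = y.1
      · rw [Set.indicator_of_mem (by exact h2), if_pos h3, Set.indicator_of_mem]
        · norm_num
        · exact ⟨h2, by simp, h3⟩
      · have h5 : f ∉ cev A ∅ β s x.1 y.1 := fun h4 => h3 h4.2.2
        rw [if_neg h3, Set.indicator_of_notMem h5, mul_zero]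
    · have h5 : f ∉ cev A ∅ β s x.1 y.1 := fun h4 => h2 h4.1
      rw [Set.indicator_of_notMem (by exact h2), Set.indicator_of_notMem h5, zero_mul]
  rw [h1, integral_indicator (measurableSet_cev _ _ _ _ _ _)]
  simp

lemma kernel_nonneg {μ : Measure WP} (hμ : IsLaw μ) (A : Finset Site) (V : Site → ℝ) {C : ℝ}
    (hC : ∀ x, |V x| ≤ C) (s : ℝ≥0) (x y : A) :
    0 ≤ NormedSpace.exp ((s : ℝ) • gen A V) x y := by
  rw [← feynman_kac hμ A V hC s x y]
  apply integral_nonneg
  intro f
  apply mul_nonneg (fkw_nonneg _ _ _ _ _)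
  split_ifs <;> norm_num

lemma covAt_of_kernel {A : Finset Site} {x y : Site} (hx : x ∈ A) (hy : y ∈ A) {s : ℝ≥0} {c : ℝ}
    (h : Real.exp (-c) ≤ NormedSpace.exp ((s : ℝ) • gen A (fun _ => 0)) ⟨x, hx⟩ ⟨y, hy⟩) (β : ℝ) :
    CovAt A ∅ β s x y c := by
  intro μ hμ
  rw [stay_kernel hμ A β s ⟨x, hx⟩ ⟨y, hy⟩]
  exact h

lemma kernel_single (x : Site) (s : ℝ≥0) :
    NormedSpace.exp ((s : ℝ) • gen {x} (fun _ => 0)) ⟨x, Finset.mem_singleton_self x⟩
      ⟨x, Finset.mem_singleton_self x⟩ = Real.exp (-(4 * s)) := by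
  have h0 : (0 : Site) ∉ units := by decide
  have h1 : (gen {x} (fun _ => 0)).mulVec (fun _ => 1) = (-4 : ℝ) • (fun _ => (1 : ℝ)) := by
    funext z
    rw [gen_mulVec]
    have hz : z.1 = x := Finset.mem_singleton.1 z.2
    have h2 : ∀ e ∈ units, ext0 {x} (fun _ => 1) (z.1 + e) = 0 := by
      intro e he
      apply ext0_not_mem
      rw [hz, Finset.mem_singleton]
      intro h3
      have : e = 0 := by simpa using h3
      exact h0 (this ▸ he)
    rw [Finset.sum_eq_zero h2]
    simp
  have h2 := exp_eigen (gen {x} (fun _ => 0)) (fun _ => 1) (-4) h1 s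
  have h3 := congrFun h2 ⟨x, Finset.mem_singleton_self x⟩
  rw [Matrix.mulVec, dotProduct] at h3
  simp only [mul_one, Pi.smul_apply, smul_eq_mul] at h3
  rw [Fintype.sum_eq_single ⟨x, Finset.mem_singleton_self x⟩] at h3
  · rw [h3]; ring_nf
  · intro z hz
    exfalso
    apply hz
    exact Subtype.ext (Finset.mem_singleton.1 z.2)

/-- Hold at a site. -/
lemma covAt_hold {A : Finset Site} {x : Site} (hx : x ∈ A) {β : ℝ} {s : ℝ≥0} (hβ : β ≤ s) :
    CovAt A {x} β s x x (4 * s) := by
  intro μ hμ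
  have := hμ.prob
  have h1 := stay_kernel hμ {x} β s ⟨x, Finset.mem_singleton_self x⟩
    ⟨x, Finset.mem_singleton_self x⟩
  rw [kernel_single] at h1
  rw [← h1]
  apply measureReal_mono (h₂ := measure_ne_top _ _)
  rintro f ⟨h2, _, h3⟩
  refine ⟨stay_mono (Finset.singleton_subset_iff.2 hx) h2, ?_, h3⟩
  intro z hz
  rw [Finset.mem_singleton] at hz
  subst hz
  have h4 : occ s (fun w => if z + w = z then (1 : ℝ) else 0) f = s * 1 := by
    rw [← occ_const s 1 f]
    unfold occ
    apply intervalIntegral.integral_congr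
    intro u hu
    rw [Set.uIcc_of_le s.coe_nonneg] at hu
    have hu' : u.toNNReal ≤ s := by
      rw [← NNReal.coe_le_coe, Real.coe_toNNReal _ hu.1]; exact hu.2
    have := h2 _ hu'
    rw [Finset.mem_singleton] at this
    simp only [this, if_true]
  rw [h4, mul_one]
  exact hβ

lemma covAt_wait {A : Finset Site} {x : Site} (hx : x ∈ A) (β : ℝ) (s : ℝ≥0) :
    CovAt A ∅ β s x x (4 * s) := by
  intro μ hμ
  have := hμ.prob
  have h1 := covAt_hold hx (β := s) (s := s) le_rfl μ hμ
  refine h1.trans ?_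
  apply measureReal_mono (h₂ := measure_ne_top _ _)
  rintro f ⟨h2, _, h3⟩
  exact ⟨h2, by simp, h3⟩

lemma kernel_pair {x y : Site} (hxy : Adj x y) :
    Real.exp (-4) ≤ NormedSpace.exp (((1 : ℝ≥0) : ℝ) • gen {x, y} (fun _ => 0))
      ⟨x, by simp⟩ ⟨y, by simp⟩ := by
  have h0 : (0 : Site) ∉ units := by decide
  have hne : x ≠ y := by
    rintro rfl
    apply h0
    simpa [Adj] using hxy
  set A : Finset Site := {x, y} with hA
  have hmem : ∀ v, v ∈ A ↔ v = x ∨ v = y := fun v => by
    rw [hA, Finset.mem_insert, Finset.mem_singleton]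
  -- neighbour sums
  have hnb : ∀ (u : A → ℝ) (z z' : A), z ≠ z' → ∑ e ∈ units, ext0 A u (z.1 + e) = u z' := by
    intro u z z' hzz
    have hz : z.1 = x ∧ z'.1 = y ∨ z.1 = y ∧ z'.1 = x := by
      have h1 := (hmem _).1 z.2
      have h2 := (hmem _).1 z'.2
      have h3 : z.1 ≠ z'.1 := fun h => hzz (Subtype.ext h)
      rcases h1 with h1 | h1 <;> rcases h2 with h2 | h2
      · exact absurd (h1.trans h2.symm) h3
      · exact Or.inl ⟨h1, h2⟩
      · exact Or.inr ⟨h1, h2⟩
      · exact absurd (h1.trans h2.symm) h3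
    have hadj : z'.1 - z.1 ∈ units := by
      rcases hz with ⟨h1, h2⟩ | ⟨h1, h2⟩
      · rw [h1, h2]; exact hxy
      · rw [h1, h2]; exact hxy.symm
    rw [Finset.sum_eq_single_of_mem _ hadj]
    · have : z.1 + (z'.1 - z.1) = z'.1 := by abel
      rw [this, ext0_mem]
    · intro e he hne'
      apply ext0_not_mem
      intro h1
      rw [hmem] at h1
      have h2 : z.1 + e = z.1 ∨ z.1 + e = z'.1 := by
        rcases hz with ⟨h3, h4⟩ | ⟨h3, h4⟩
        · rw [h3, h4]; rw [h3] at h1; exact h1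
        · rw [h3, h4]; rw [h3] at h1; exact h1.symm
      rcases h2 with h2 | h2
      · have : e = 0 := by simpa using h2
        exact h0 (this ▸ he)
      · apply hne'
        rw [← h2]; abel
  let X : A := ⟨x, by simp [hA]⟩
  let Y : A := ⟨y, by simp [hA]⟩
  have hXY : X ≠ Y := fun h => hne (congrArg Subtype.val h)
  have huniv : ∀ z : A, z = X ∨ z = Y := by
    intro z
    have h1 := (hmem _).1 z.2
    rcases h1 with h1 | h1
    · exact Or.inl (Subtype.ext h1)
    · exact Or.inr (Subtype.ext h1)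
  set u1 : A → ℝ := fun _ => 1 with hu1
  set u2 : A → ℝ := fun z => if z = X then 1 else -1 with hu2
  have e1 : (gen A (fun _ => 0)).mulVec u1 = (-3 : ℝ) • u1 := by
    funext z
    rw [gen_mulVec]
    rcases huniv z with rfl | rfl
    · rw [hnb _ X Y hXY]; simp [hu1]; norm_num
    · rw [hnb _ Y X hXY.symm]; simp [hu1]; norm_num
  have e2 : (gen A (fun _ => 0)).mulVec u2 = (-5 : ℝ) • u2 := by
    funext z
    rw [gen_mulVec]
    rcases huniv z with rfl | rfl
    · rw [hnb _ X Y hXY]; simp [hu2, hXY.symm]; norm_num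
    · rw [hnb _ Y X hXY.symm]; simp [hu2, hXY.symm]; norm_num
  have f1 := congrFun (exp_eigen _ u1 (-3) e1 ((1 : ℝ≥0) : ℝ)) X
  have f2 := congrFun (exp_eigen _ u2 (-5) e2 ((1 : ℝ≥0) : ℝ)) X
  have hsum : ∀ g : A → ℝ, ∑ z, g z = g X + g Y := by
    intro g
    have : (Finset.univ : Finset A) = {X, Y} := by
      ext z; simp [huniv z]
    rw [this, Finset.sum_pair hXY]
  rw [Matrix.mulVec, dotProduct, hsum] at f1 f2
  simp only [hu1, hu2, Pi.smul_apply, smul_eq_mul, mul_one, if_true, if_neg hXY.symm,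
    NNReal.coe_one] at f1 f2
  have h5 : NormedSpace.exp (((1 : ℝ≥0) : ℝ) • gen A (fun _ => 0)) X Y
      = (Real.exp (-3) - Real.exp (-5)) / 2 := by
    rw [NNReal.coe_one]
    linarith
  show Real.exp (-4) ≤ NormedSpace.exp (((1 : ℝ≥0) : ℝ) • gen A (fun _ => 0)) X Y
  rw [h5]
  have h6 : Real.exp (-3) = Real.exp 1 * Real.exp (-4) := by rw [← Real.exp_add]; norm_num
  have h7 : Real.exp (-5) = Real.exp (-1) * Real.exp (-4) := by rw [← Real.exp_add]; norm_num
  rw [h6, h7]
  have h8 := Real.exp_one_gt_d9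
  have h9 : Real.exp (-1) < 0.3678794412 := Real.exp_neg_one_lt_d9
  have h10 := Real.exp_pos (-4)
  nlinarith

/-- One step in unit time. -/
lemma covAt_step {A : Finset Site} {x y : Site} (hx : x ∈ A) (hy : y ∈ A) (hxy : Adj x y) (β : ℝ) :
    CovAt A ∅ β 1 x y 4 := by
  have h1 : CovAt {x, y} ∅ β 1 x y 4 :=
    covAt_of_kernel (by simp) (by simp) (kernel_pair hxy) β
  refine h1.mono ?_ (le_refl _) le_rfl le_rfl
  intro z hz
  rw [Finset.mem_insert, Finset.mem_singleton] at hz
  rcases hz with rfl | rfl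
  · exact hx
  · exact hy

/-- Travel in a box. -/
lemma covAt_travel {a b : ℤ} {w h : ℕ} (β : ℝ) (D : ℕ) : ∀ {x y : Site},
    InBox a b w h x → InBox a b w h y → |x.1 - y.1| + |x.2 - y.2| ≤ D →
    CovAt (boxF a b w h) ∅ β D x y (4 * D) := by
  induction D with
  | zero =>
    intro x y hx hy hD
    have h1 : x = y := by
      have h2 : |x.1 - y.1| = 0 := by have := abs_nonneg (x.2 - y.2); have := abs_nonneg (x.1 - y.1); push_cast at hD; omega
      have h3 : |x.2 - y.2| = 0 := by have := abs_nonneg (x.2 - y.2); have := abs_nonneg (x.1 - y.1); push_cast at hD; omega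
      rw [abs_eq_zero] at h2 h3
      ext <;> omega
    subst h1
    have := covAt_wait (mem_boxF.2 hx) β 0
    simpa using this
  | succ D ih =>
    intro x y hx hy hD
    have hstep : ∃ z, InBox a b w h z ∧ (z = x ∨ Adj x z) ∧ |z.1 - y.1| + |z.2 - y.2| ≤ D := by
      obtain ⟨hx1, hx2, hx3, hx4⟩ := hx
      obtain ⟨hy1, hy2, hy3, hy4⟩ := hy
      push_cast at hD
      rcases lt_trichotomy x.1 y.1 with h1 | h1 | h1
      · refine ⟨(x.1 + 1, x.2), ⟨?_, ?_, ?_, ?_⟩, Or.inr (adj_right' _ _), ?_⟩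
        · show a + 1 ≤ x.1 + 1; omega
        · show x.1 + 1 ≤ a + w; omega
        · show b + 1 ≤ x.2; omega
        · show x.2 ≤ b + h; omega
        · show |x.1 + 1 - y.1| + |x.2 - y.2| ≤ D
          rw [abs_of_nonpos (by omega : x.1 + 1 - y.1 ≤ 0)]
          rw [abs_of_nonpos (by omega : x.1 - y.1 ≤ 0)] at hD
          omega
      · rcases lt_trichotomy x.2 y.2 with h2 | h2 | h2
        · refine ⟨(x.1, x.2 + 1), ⟨?_, ?_, ?_, ?_⟩, Or.inr (adj_up' _ _), ?_⟩
          · show a + 1 ≤ x.1; omega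
          · show x.1 ≤ a + w; omega
          · show b + 1 ≤ x.2 + 1; omega
          · show x.2 + 1 ≤ b + h; omega
          · show |x.1 - y.1| + |x.2 + 1 - y.2| ≤ D
            rw [abs_of_nonpos (by omega : x.2 + 1 - y.2 ≤ 0)]
            rw [abs_of_nonpos (by omega : x.2 - y.2 ≤ 0)] at hD
            omega
        · refine ⟨x, ⟨hx1, hx2, hx3, hx4⟩, Or.inl rfl, ?_⟩
          rw [h1, h2]
          simp
        · have hadj : Adj x (x.1, x.2 - 1) := by
            have := adj_up' x.1 (x.2 - 1)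
            rw [sub_add_cancel] at this
            exact this.symm
          refine ⟨(x.1, x.2 - 1), ⟨?_, ?_, ?_, ?_⟩, Or.inr hadj, ?_⟩
          · show a + 1 ≤ x.1; omega
          · show x.1 ≤ a + w; omega
          · show b + 1 ≤ x.2 - 1; omega
          · show x.2 - 1 ≤ b + h; omega
          · show |x.1 - y.1| + |x.2 - 1 - y.2| ≤ D
            rw [abs_of_nonneg (by omega : 0 ≤ x.2 - 1 - y.2)]
            rw [abs_of_nonneg (by omega : 0 ≤ x.2 - y.2)] at hD
            omega
      · have hadj : Adj x (x.1 - 1, x.2) := by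
          have := adj_right' (x.1 - 1) x.2
          rw [sub_add_cancel] at this
          exact this.symm
        refine ⟨(x.1 - 1, x.2), ⟨?_, ?_, ?_, ?_⟩, Or.inr hadj, ?_⟩
        · show a + 1 ≤ x.1 - 1; omega
        · show x.1 - 1 ≤ a + w; omega
        · show b + 1 ≤ x.2; omega
        · show x.2 ≤ b + h; omega
        · show |x.1 - 1 - y.1| + |x.2 - y.2| ≤ D
          rw [abs_of_nonneg (by omega : 0 ≤ x.1 - 1 - y.1)]
          rw [abs_of_nonneg (by omega : 0 ≤ x.1 - y.1)] at hD
          omega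
    obtain ⟨z, hz, hxz, hzy⟩ := hstep
    have h1 : CovAt (boxF a b w h) ∅ β 1 x z 4 := by
      rcases hxz with rfl | hxz
      · have := covAt_wait (mem_boxF.2 hx) β 1
        simpa using this
      · exact covAt_step (mem_boxF.2 hx) (mem_boxF.2 hz) hxz β
    have h2 := h1.comp (ih hz hy hzy)
    have e1 : (1 : ℝ≥0) + (D : ℝ≥0) = ((D + 1 : ℕ) : ℝ≥0) := by push_cast; ring
    have e2 : (4 : ℝ) + 4 * D = 4 * ((D + 1 : ℕ) : ℝ) := by push_cast; ring
    rw [e1, e2, Finset.union_empty] at h2
    exact h2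

lemma covAt_travel' {a b : ℤ} {w h : ℕ} (β : ℝ) {x y : Site}
    (hx : InBox a b w h x) (hy : InBox a b w h y) :
    CovAt (boxF a b w h) ∅ β ((w + h : ℕ) : ℝ≥0) x y (4 * ((w + h : ℕ) : ℝ)) := by
  apply covAt_travel β (w + h) hx hy
  obtain ⟨hx1, hx2, hx3, hx4⟩ := hx
  obtain ⟨hy1, hy2, hy3, hy4⟩ := hy
  have h1 : |x.1 - y.1| ≤ w := by rw [abs_le]; omega
  have h2 : |x.2 - y.2| ≤ h := by rw [abs_le]; omega
  push_cast
  omega

/-- Brute covering in a box. -/
lemma cov_brute {a b : ℤ} {w h : ℕ} {β : ℝ} (hβ : 0 ≤ β) (R : Finset Site)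
    (hR : ∀ z ∈ R, InBox a b w h z) : ∀ {x y : Site}, InBox a b w h x → InBox a b w h y →
    Cov (boxF a b w h) R β (R.card * ((w + h : ℕ) + β) + (w + h : ℕ)) x y
      (4 * (R.card * ((w + h : ℕ) + β) + (w + h : ℕ))) := by
  induction R using Finset.induction_on with
  | empty =>
    intro x y hx hy
    refine ⟨((w + h : ℕ) : ℝ≥0), ?_, ?_⟩
    · simp
    · have := covAt_travel' β hx hy
      simpa using this
  | insert z R hz ih =>
    intro x y hx hy
    have hzB := hR z (Finset.mem_insert_self _ _)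
    have h1 : Cov (boxF a b w h) ∅ β ((w + h : ℕ) : ℝ) x z (4 * ((w + h : ℕ) : ℝ)) :=
      ⟨((w + h : ℕ) : ℝ≥0), by simp, covAt_travel' β hx hzB⟩
    have h2 : Cov (boxF a b w h) {z} β β z z (4 * β) := by
      refine ⟨β.toNNReal, ?_, ?_⟩
      · rw [Real.coe_toNNReal _ hβ]
      · have := covAt_hold (mem_boxF.2 hzB) (β := β) (s := β.toNNReal)
          (by rw [Real.coe_toNNReal _ hβ])
        rwa [Real.coe_toNNReal _ hβ] at this
    have h3 := (h1.comp h2).comp (ih (fun v hv => hR v (Finset.mem_insert_of_mem hv)) hzB hy)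
    refine h3.mono (le_refl _) ?_ le_rfl ?_ ?_
    · intro v hv
      rw [Finset.mem_insert] at hv
      simp only [Finset.mem_union, Finset.mem_singleton]
      tauto
    · rw [Finset.card_insert_of_notMem hz]
      push_cast
      nlinarith
    · rw [Finset.card_insert_of_notMem hz]
      push_cast
      nlinarith

end Pool.Agent.LT
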