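import Mathlib

/-!
# Continuous-time simple random walk on the square lattice, local times

Basic definitions: step paths, the walk, its range and its local times.
-/

open MeasureTheory ProbabilityTheory Filter Topology
open scoped NNReal ENNReal

namespace Pool.Agent.LT

/-- Sites of the square lattice. -/
abbrev Site : Type := ℤ × ℤ

/-- The four unit vectors of the square lattice. -/
def units : Finset Site := {(1, 0), (-1, 0), (0, 1), (0, -1)}

/-- Nearest-neighbour step paths in continuous time: right-continuous, with left limits, piecewise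
constant, and every jump crosses an edge of the square lattice. -/
structure IsStepPath (f : ℝ≥0 → Site) : Prop where
  right : ∀ s : ℝ≥0, ∃ δ > 0, ∀ u, s ≤ u → u < s + δ → f u = f s
  left : ∀ s : ℝ≥0, 0 < s → ∃ δ > 0, ∃ x, (∀ u, u < s → s < u + δ → f u = x) ∧
    (f s = x ∨ f s - x ∈ units)

/-- `X` is a continuous-time simple random walk on the square lattice started at the origin that
crosses each edge at rate one: a process with nearest-neighbour step paths and with stationary
independent increments which in a short time `h` makes a given unit step with probability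
`h + o(h)` and moves at all with probability `4 h + o(h)`. -/
structure IsSRW {Ω : Type*} [MeasurableSpace Ω] (P : Measure Ω) (X : ℝ≥0 → Ω → Site) : Prop where
  prob : IsProbabilityMeasure P
  meas : ∀ s, Measurable (X s)
  path : ∀ ω, IsStepPath (fun s => X s ω)
  start : ∀ ω, X 0 ω = 0
  indep : ∀ s : ℝ≥0, IndepFun (fun ω (u : ℝ≥0) => X (min u s) ω)
    (fun ω (u : ℝ≥0) => X (s + u) ω - X s ω) P
  stat : ∀ s : ℝ≥0, IdentDistrib (fun ω (u : ℝ≥0) => X (s + u) ω - X s ω)
    (fun ω (u : ℝ≥0) => X u ω) P P
  rate : ∀ e ∈ units, Tendsto (fun h : ℝ≥0 => (P {ω | X h ω = e}).toReal / (h : ℝ))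
    (𝓝[>] 0) (𝓝 1)
  rate_zero : Tendsto (fun h : ℝ≥0 => (1 - (P {ω | X h ω = 0}).toReal) / (h : ℝ))
    (𝓝[>] 0) (𝓝 4)

/-- The range of the walk up to time `t`. -/
def rangeUpTo {Ω : Type*} (X : ℝ≥0 → Ω → Site) (t : ℝ≥0) (ω : Ω) : Set Site :=
  {x | ∃ s : ℝ≥0, s ≤ t ∧ X s ω = x}

/-- The local time of the walk at `x` up to time `t`: the Lebesgue measure of the set of times in
`[0, t]` which the walk spends at `x`. -/
noncomputable def localTime {Ω : Type*} (X : ℝ≥0 → Ω → Site) (t : ℝ≥0) (ω : Ω) (x : Site) :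
    ℝ≥0∞ :=
  volume {s : ℝ | 0 ≤ s ∧ s ≤ t ∧ X s.toNNReal ω = x}

/-- The event `E_t`: every visited site has local time at least `β` at time `t`. -/
def evt {Ω : Type*} (X : ℝ≥0 → Ω → Site) (β : ℝ) (t : ℝ≥0) : Set Ω :=
  {ω | ∀ x ∈ rangeUpTo X t ω, ENNReal.ofReal β ≤ localTime X t ω x}

/-- The embedding of the square lattice in the Euclidean plane. -/
noncomputable def toPlane (x : Site) : EuclideanSpace ℝ (Fin 2) := !₂[(x.1 : ℝ), (x.2 : ℝ)]

/-- The range up to time `t` as a subset of the plane, rescaled to unit diameter. -/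
noncomputable def scaledRange {Ω : Type*} (X : ℝ≥0 → Ω → Site) (t : ℝ≥0) (ω : Ω) :
    Set (EuclideanSpace ℝ (Fin 2)) :=
  (fun p => (Metric.diam (toPlane '' rangeUpTo X t ω))⁻¹ • p) '' (toPlane '' rangeUpTo X t ω)

/-- The axis-parallel square of unit diameter (side `1 / √2`) with a corner at the origin. -/
def unitSquare : Set (EuclideanSpace ℝ (Fin 2)) :=
  {p | ∀ i, 0 ≤ p i ∧ p i ≤ 1 / Real.sqrt 2}

end Pool.Agent.LT
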