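import Pool.Agent.LT.Form

/-!
# Improved form bound when a rectangle of the box is avoided
-/

namespace Pool.Agent.LT

lemma row_gain (A : Finset Site) (a b : ℤ) (w h w' : ℕ) (hA : ∀ x ∈ A, InBox a b w h x)
    (i0 i1 j0 j1 : ℤ) (hi : i0 ≤ i1)
    (hav : ∀ x ∈ A, ¬ (i0 ≤ x.1 ∧ x.1 ≤ i1 ∧ j0 ≤ x.2 ∧ x.2 ≤ j1))
    (hw1 : i0 - 1 - a ≤ w') (hw2 : a + w - i1 ≤ w')
    {θ : ℝ} (h0 : 0 < θ) (h1 : θ ≤ 1) (u : Site → ℝ) (hu : ∀ x, x ∉ A → u x = 0) :
    lam θ w * ∑ x ∈ A, u x ^ 2
      + (lam θ w' - lam θ w) * ∑ x ∈ A.filter (fun x => j0 ≤ x.2 ∧ x.2 ≤ j1), u x ^ 2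
      ≤ dirform A θ Uh u := by
  classical
  set cl : Site → Fin 3 := fun x => if j0 ≤ x.2 ∧ x.2 ≤ j1 then (if x.1 < i0 then 1 else 2) else 0
    with hcl
  have hclass : ∀ x ∈ A, ∀ e ∈ Uh, x + e ∈ A → cl (x + e) = cl x := by
    intro x hx e he hxe
    have h2 := hav x hx
    have h3 := hav (x + e) hxe
    have he' : e.2 = 0 ∧ (e.1 = 1 ∨ e.1 = -1) := by
      simp only [Uh, Finset.mem_insert, Finset.mem_singleton] at he
      rcases he with h | h <;> subst h <;> simp
    have e2 : (x + e).2 = x.2 := by simp [he'.1]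
    have e1 : (x + e).1 = x.1 + e.1 := rfl
    simp only [hcl, e2]
    by_cases hJ : j0 ≤ x.2 ∧ x.2 ≤ j1
    · simp only [hJ, and_self, if_true]
      rw [e2, e1] at h3
      rw [e1]
      have : (x.1 + e.1 < i0) ↔ (x.1 < i0) := by
        constructor
        · intro h4
          by_contra h5
          push Not at h5
          apply h2
          rcases he'.2 with h6 | h6 <;> refine ⟨h5, by omega, hJ.1, hJ.2⟩
        · intro h4
          by_contra h5
          push Not at h5
          apply h3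
          rcases he'.2 with h6 | h6 <;> refine ⟨h5, by omega, hJ.1, hJ.2⟩
      simp only [this]
    · simp only [hJ, if_false]
  rw [dirform_class A θ Uh cl hclass u hu, Fin.sum_univ_three]
  have hb0 := seg_bound A (A.filter (fun x => cl x = 0)) (Finset.filter_subset _ _) (1, 0)
    Prod.fst (fun x => by simp) a w (fun x hx => by
      have := hA x (Finset.mem_filter.1 hx).1
      exact ⟨this.1, this.2.1⟩) h0 h1 (fun x => if cl x = 0 then u x else 0) (by
      intro x hx
      by_cases h : cl x = 0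
      · simp only [h, if_true]
        apply hu
        intro hxA
        exact hx (Finset.mem_filter.2 ⟨hxA, h⟩)
      · simp only [h, if_false])
  have hb1 := seg_bound A (A.filter (fun x => cl x = 1)) (Finset.filter_subset _ _) (1, 0)
    Prod.fst (fun x => by simp) a w' (fun x hx => by
      rw [Finset.mem_filter] at hx
      have := hA x hx.1
      have hc := hx.2
      simp only [hcl] at hc
      split_ifs at hc with h2 h3
      · exact ⟨this.1, by omega⟩
      · exact absurd hc (by decide)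
      · exact absurd hc (by decide)) h0 h1 (fun x => if cl x = 1 then u x else 0) (by
      intro x hx
      by_cases h : cl x = 1
      · simp only [h, if_true]
        apply hu
        intro hxA
        exact hx (Finset.mem_filter.2 ⟨hxA, h⟩)
      · simp only [h, if_false])
  have hb2 := seg_bound A (A.filter (fun x => cl x = 2)) (Finset.filter_subset _ _) (1, 0)
    Prod.fst (fun x => by simp) i1 w' (fun x hx => by
      rw [Finset.mem_filter] at hx
      have := hA x hx.1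
      have h4 := hav x hx.1
      have hc := hx.2
      simp only [hcl] at hc
      split_ifs at hc with h2 h3
      · exact absurd hc (by decide)
      · refine ⟨?_, ?_⟩
        · by_contra h5
          apply h4
          exact ⟨by omega, by omega, h2.1, h2.2⟩
        · have := this.2.1
          omega
      · exact absurd hc (by decide)) h0 h1 (fun x => if cl x = 2 then u x else 0) (by
      intro x hx
      by_cases h : cl x = 2
      · simp only [h, if_true]
        apply hu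
        intro hxA
        exact hx (Finset.mem_filter.2 ⟨hxA, h⟩)
      · simp only [h, if_false])
  have hs : ∀ k : Fin 3, ∑ x ∈ A.filter (fun x => cl x = k), (if cl x = k then u x else 0) ^ 2
      = ∑ x ∈ A.filter (fun x => cl x = k), u x ^ 2 := by
    intro k
    apply Finset.sum_congr rfl
    intro x hx
    rw [if_pos (Finset.mem_filter.1 hx).2]
  rw [hs 0] at hb0
  rw [hs 1] at hb1
  rw [hs 2] at hb2
  have hJsum : ∑ x ∈ A.filter (fun x => j0 ≤ x.2 ∧ x.2 ≤ j1), u x ^ 2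
      = ∑ x ∈ A.filter (fun x => cl x = 1), u x ^ 2
        + ∑ x ∈ A.filter (fun x => cl x = 2), u x ^ 2 := by
    rw [← Finset.sum_union]
    · apply Finset.sum_congr _ (fun _ _ => rfl)
      ext x
      simp only [Finset.mem_filter, Finset.mem_union, hcl]
      constructor
      · rintro ⟨hxA, hJ⟩
        by_cases hx : x.1 < i0
        · left; exact ⟨hxA, by simp [hJ, hx]⟩
        · right; exact ⟨hxA, by simp [hJ, hx]⟩
      · rintro (⟨hxA, hc⟩ | ⟨hxA, hc⟩)
        · refine ⟨hxA, ?_⟩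
          by_contra hJ
          rw [if_neg hJ] at hc
          exact absurd hc (by decide)
        · refine ⟨hxA, ?_⟩
          by_contra hJ
          rw [if_neg hJ] at hc
          exact absurd hc (by decide)
    · rw [Finset.disjoint_left]
      intro x hx hx'
      have h2 := (Finset.mem_filter.1 hx).2
      have h3 := (Finset.mem_filter.1 hx').2
      rw [h2] at h3
      exact absurd h3 (by decide)
  have hAsum : ∑ x ∈ A, u x ^ 2 = ∑ x ∈ A.filter (fun x => cl x = 0), u x ^ 2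
      + ∑ x ∈ A.filter (fun x => j0 ≤ x.2 ∧ x.2 ≤ j1), u x ^ 2 := by
    rw [← Finset.sum_filter_add_sum_filter_not A (fun x => cl x = 0)]
    congr 1
    apply Finset.sum_congr _ (fun _ _ => rfl)
    ext x
    simp only [Finset.mem_filter, hcl]
    constructor
    · rintro ⟨hxA, hc⟩
      refine ⟨hxA, ?_⟩
      by_contra hJ
      rw [if_neg hJ] at hc
      exact hc rfl
    · rintro ⟨hxA, hJ⟩
      refine ⟨hxA, ?_⟩
      rw [if_pos hJ]
      split_ifs <;> decide
  rw [hAsum, hJsum]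
  change _ ≤ dirform A θ Uh _ at hb0
  change _ ≤ dirform A θ Uh _ at hb1
  change _ ≤ dirform A θ Uh _ at hb2
  linarith

/-- The interpolating angle. -/
noncomputable def ang (j0 j1 k : ℤ) : ℝ :=
  Real.pi / 2 * max 0 (min 1 (((k - j0 : ℤ) : ℝ) / ((j1 - j0 : ℤ) : ℝ)))

lemma ang_le {j0 j1 k : ℤ} (h : j0 < j1) (hk : k ≤ j0) : ang j0 j1 k = 0 := by
  unfold ang
  have h1 : (0 : ℝ) < ((j1 - j0 : ℤ) : ℝ) := by exact_mod_cast (by omega : 0 < j1 - j0)
  have h2 : ((k - j0 : ℤ) : ℝ) ≤ 0 := by exact_mod_cast (by omega : k - j0 ≤ 0)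
  have h3 : ((k - j0 : ℤ) : ℝ) / ((j1 - j0 : ℤ) : ℝ) ≤ 0 := div_nonpos_of_nonpos_of_nonneg h2 h1.le
  rw [max_eq_left ((min_le_right _ _).trans h3), mul_zero]

lemma ang_ge {j0 j1 k : ℤ} (h : j0 < j1) (hk : j1 ≤ k) : ang j0 j1 k = Real.pi / 2 := by
  unfold ang
  have h1 : (0 : ℝ) < ((j1 - j0 : ℤ) : ℝ) := by exact_mod_cast (by omega : 0 < j1 - j0)
  have h2 : ((j1 - j0 : ℤ) : ℝ) ≤ ((k - j0 : ℤ) : ℝ) := by
    exact_mod_cast (by omega : j1 - j0 ≤ k - j0)
  have h3 : 1 ≤ ((k - j0 : ℤ) : ℝ) / ((j1 - j0 : ℤ) : ℝ) := by rw [le_div_iff₀ h1]; linarith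
  rw [min_eq_left h3]
  simp

lemma ang_lip {j0 j1 : ℤ} (h : j0 < j1) (k k' : ℤ) (hk : |k' - k| ≤ 1) :
    |ang j0 j1 k' - ang j0 j1 k| ≤ Real.pi / (2 * ((j1 - j0 : ℤ) : ℝ)) := by
  unfold ang
  have h1 : (0 : ℝ) < ((j1 - j0 : ℤ) : ℝ) := by exact_mod_cast (by omega : 0 < j1 - j0)
  rw [← mul_sub, abs_mul, abs_of_pos (by positivity)]
  have h2 : |max 0 (min 1 (((k' - j0 : ℤ) : ℝ) / ((j1 - j0 : ℤ) : ℝ)))
      - max 0 (min 1 (((k - j0 : ℤ) : ℝ) / ((j1 - j0 : ℤ) : ℝ)))|
      ≤ |((k' - j0 : ℤ) : ℝ) / ((j1 - j0 : ℤ) : ℝ) - ((k - j0 : ℤ) : ℝ) / ((j1 - j0 : ℤ) : ℝ)| := by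
    refine (abs_max_sub_max_le_max _ _ _ _).trans ?_
    rw [sub_self, abs_zero, max_eq_right (abs_nonneg _)]
    refine (abs_min_sub_min_le_max _ _ _ _).trans ?_
    rw [sub_self, abs_zero, max_eq_right (abs_nonneg _)]
  have h3 : |((k' - j0 : ℤ) : ℝ) / ((j1 - j0 : ℤ) : ℝ) - ((k - j0 : ℤ) : ℝ) / ((j1 - j0 : ℤ) : ℝ)|
      ≤ 1 / ((j1 - j0 : ℤ) : ℝ) := by
    rw [← sub_div, abs_div, abs_of_pos h1]
    apply div_le_div_of_nonneg_right _ h1.le
    have : ((k' - j0 : ℤ) : ℝ) - ((k - j0 : ℤ) : ℝ) = ((k' - k : ℤ) : ℝ) := by push_cast; ring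
    rw [this, ← Int.cast_abs]
    exact_mod_cast hk
  calc Real.pi / 2 * _ ≤ Real.pi / 2 * (1 / ((j1 - j0 : ℤ) : ℝ)) := by
        gcongr
        exact h2.trans h3
    _ = Real.pi / (2 * ((j1 - j0 : ℤ) : ℝ)) := by field_simp

lemma one_sub_cos_le (d : ℝ) : 1 - Real.cos d ≤ d ^ 2 / 2 := by
  have := Real.one_sub_sq_div_two_le_cos (x := d)
  linarith

lemma col_gain (A : Finset Site) (a b : ℤ) (w h h' : ℕ) (hA : ∀ x ∈ A, InBox a b w h x)
    (j0 j1 : ℤ) (hj : j0 < j1) (hh1 : j1 - 1 - b ≤ h') (hh2 : b + h - j0 ≤ h')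
    {θ : ℝ} (h0 : 0 < θ) (h1 : θ ≤ 1) (u : Site → ℝ) (hu : ∀ x, x ∉ A → u x = 0) :
    lam θ h' * ∑ x ∈ A, u x ^ 2
      - (Real.pi / (2 * ((j1 - j0 : ℤ) : ℝ))) ^ 2
        * ∑ x ∈ A.filter (fun x => j0 ≤ x.2 ∧ x.2 ≤ j1), u x ^ 2
      ≤ dirform A θ Uv u := by
  classical
  set α : Site → ℝ := fun x => ang j0 j1 x.2 with hα
  have hims := ims A θ Uv (by decide) α u hu
  have hc : lam θ h' * ∑ x ∈ A, (Real.cos (α x) * u x) ^ 2
      ≤ dirform A θ Uv (fun x => Real.cos (α x) * u x) := by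
    have h2 := seg_bound A (A.filter (fun x => x.2 < j1)) (Finset.filter_subset _ _) (0, 1)
      Prod.snd (fun x => by simp) b h' (fun x hx => by
        rw [Finset.mem_filter] at hx
        have := hA x hx.1
        exact ⟨this.2.2.1, by omega⟩) h0 h1 (fun x => Real.cos (α x) * u x) (by
        intro x hx
        by_cases hxA : x ∈ A
        · have h3 : j1 ≤ x.2 := by
            by_contra h4
            push Not at h4
            exact hx (Finset.mem_filter.2 ⟨hxA, h4⟩)
          simp only [hα, ang_ge hj h3, Real.cos_pi_div_two, zero_mul]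
        · simp only [hu x hxA, mul_zero])
    refine le_trans (le_of_eq ?_) h2
    congr 1
    symm
    apply Finset.sum_subset (Finset.filter_subset _ _)
    intro x hxA hx
    have h3 : j1 ≤ x.2 := by
      by_contra h4
      push Not at h4
      exact hx (Finset.mem_filter.2 ⟨hxA, h4⟩)
    simp only [hα, ang_ge hj h3, Real.cos_pi_div_two, zero_mul]
    norm_num
  have hs : lam θ h' * ∑ x ∈ A, (Real.sin (α x) * u x) ^ 2
      ≤ dirform A θ Uv (fun x => Real.sin (α x) * u x) := by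
    have h2 := seg_bound A (A.filter (fun x => j0 < x.2)) (Finset.filter_subset _ _) (0, 1)
      Prod.snd (fun x => by simp) j0 h' (fun x hx => by
        rw [Finset.mem_filter] at hx
        have := hA x hx.1
        exact ⟨by omega, by have := this.2.2.2; omega⟩) h0 h1 (fun x => Real.sin (α x) * u x) (by
        intro x hx
        by_cases hxA : x ∈ A
        · have h3 : x.2 ≤ j0 := by
            by_contra h4
            push Not at h4
            exact hx (Finset.mem_filter.2 ⟨hxA, h4⟩)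
          simp only [hα, ang_le hj h3, Real.sin_zero, zero_mul]
        · simp only [hu x hxA, mul_zero])
    refine le_trans (le_of_eq ?_) h2
    congr 1
    symm
    apply Finset.sum_subset (Finset.filter_subset _ _)
    intro x hxA hx
    have h3 : x.2 ≤ j0 := by
      by_contra h4
      push Not at h4
      exact hx (Finset.mem_filter.2 ⟨hxA, h4⟩)
    simp only [hα, ang_le hj h3, Real.sin_zero, zero_mul]
    norm_num
  have hsum : ∑ x ∈ A, (Real.cos (α x) * u x) ^ 2 + ∑ x ∈ A, (Real.sin (α x) * u x) ^ 2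
      = ∑ x ∈ A, u x ^ 2 := by
    rw [← Finset.sum_add_distrib]
    apply Finset.sum_congr rfl
    intro x _
    rw [mul_pow, mul_pow, ← add_mul]
    have := Real.sin_sq_add_cos_sq (α x)
    rw [add_comm, this, one_mul]
  have herr : ∑ x ∈ A, u x ^ 2 * ∑ e ∈ Uv, (1 - Real.cos (α (x + e) - α x))
      ≤ (Real.pi / (2 * ((j1 - j0 : ℤ) : ℝ))) ^ 2
        * ∑ x ∈ A.filter (fun x => j0 ≤ x.2 ∧ x.2 ≤ j1), u x ^ 2 := by
    rw [Finset.sum_filter, Finset.mul_sum]
    apply Finset.sum_le_sum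
    intro x _
    have hUv : ∀ e ∈ Uv, e.2 = 1 ∨ e.2 = -1 := by decide
    by_cases hJ : j0 ≤ x.2 ∧ x.2 ≤ j1
    · rw [if_pos hJ, mul_comm]
      apply mul_le_mul_of_nonneg_right _ (sq_nonneg _)
      have h2 : ∀ e ∈ Uv, 1 - Real.cos (α (x + e) - α x)
          ≤ (Real.pi / (2 * ((j1 - j0 : ℤ) : ℝ))) ^ 2 / 2 := by
        intro e he
        refine (one_sub_cos_le _).trans ?_
        have h3 : |α (x + e) - α x| ≤ Real.pi / (2 * ((j1 - j0 : ℤ) : ℝ)) := by
          apply ang_lip hj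
          have h4 : (x + e).2 - x.2 = e.2 := by simp
          rw [h4]
          rcases hUv e he with h5 | h5 <;> rw [h5] <;> norm_num
        rw [← sq_abs]
        gcongr
      refine (Finset.sum_le_sum h2).trans ?_
      rw [Finset.sum_const]
      have : Uv.card = 2 := by decide
      rw [this, nsmul_eq_mul]
      apply le_of_eq
      push_cast
      ring
    · rw [if_neg hJ, mul_zero]
      have h2 : ∀ e ∈ Uv, 1 - Real.cos (α (x + e) - α x) = 0 := by
        intro e he
        have h4 : (x + e).2 = x.2 + e.2 := rfl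
        have h5 := hUv e he
        rcases lt_or_ge x.2 j0 with h6 | h6
        · simp only [hα]
          rw [ang_le hj h6.le, ang_le hj (k := (x + e).2) (by rw [h4]; omega)]
          simp
        · have h7 : j1 < x.2 := by
            by_contra h8
            exact hJ ⟨h6, by omega⟩
          simp only [hα]
          rw [ang_ge hj h7.le, ang_ge hj (k := (x + e).2) (by rw [h4]; omega)]
          simp
      rw [Finset.sum_congr rfl h2]
      simp
  have hfin : lam θ h' * ∑ x ∈ A, u x ^ 2 ≤ dirform A θ Uv (fun x => Real.cos (α x) * u x)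
      + dirform A θ Uv (fun x => Real.sin (α x) * u x) := by
    rw [← hsum, mul_add]
    exact add_le_add hc hs
  linarith

/-- The form bound with a gain when `A` avoids a rectangle of its box. -/
theorem form_dent (A : Finset Site) (a b : ℤ) (w h w' h' : ℕ) (hA : ∀ x ∈ A, InBox a b w h x)
    (i0 i1 j0 j1 : ℤ) (hi : i0 ≤ i1) (hj : j0 < j1)
    (hav : ∀ x ∈ A, ¬ (i0 ≤ x.1 ∧ x.1 ≤ i1 ∧ j0 ≤ x.2 ∧ x.2 ≤ j1))
    (hw1 : i0 - 1 - a ≤ w') (hw2 : a + w - i1 ≤ w') (hww : w' ≤ w)
    (hh1 : j1 - 1 - b ≤ h') (hh2 : b + h - j0 ≤ h') (hhh : h' ≤ h)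
    {θ : ℝ} (h0 : 0 < θ) (h1 : θ ≤ 1) (u : Site → ℝ) (hu : ∀ x, x ∉ A → u x = 0) :
    (lam θ w + lam θ h + (lam θ w' - lam θ w) * (lam θ h' - lam θ h) /
      ((lam θ w' - lam θ w) + (Real.pi / (2 * ((j1 - j0 : ℤ) : ℝ))) ^ 2)) * ∑ x ∈ A, u x ^ 2
      ≤ dirform A θ units u := by
  have hr := row_gain A a b w h w' hA i0 i1 j0 j1 hi hav hw1 hw2 h0 h1 u hu
  have hcg := col_gain A a b w h h' hA j0 j1 hj hh1 hh2 h0 h1 u hu
  have hc := seg_bound A A (Finset.Subset.refl _) (0, 1) Prod.snd (fun x => by simp) b h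
      (fun x hx => ⟨(hA x hx).2.2.1, (hA x hx).2.2.2⟩) h0 h1 u hu
  have hc' : lam θ h * ∑ x ∈ A, u x ^ 2 ≤ dirform A θ Uv u := hc
  rw [dirform_units]
  set δ1 := lam θ w' - lam θ w with hδ1
  set δ2 := lam θ h' - lam θ h with hδ2
  set η := (Real.pi / (2 * ((j1 - j0 : ℤ) : ℝ))) ^ 2 with hη
  set N := ∑ x ∈ A, u x ^ 2
  set m := ∑ x ∈ A.filter (fun x => j0 ≤ x.2 ∧ x.2 ≤ j1), u x ^ 2
  have hm0 : 0 ≤ m := Finset.sum_nonneg (fun _ _ => sq_nonneg _)
  have hN0 : 0 ≤ N := Finset.sum_nonneg (fun _ _ => sq_nonneg _)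
  have hd1 : 0 ≤ δ1 := by have := lam_anti h0 h1 hww; linarith
  have hd2 : 0 ≤ δ2 := by have := lam_anti h0 h1 hhh; linarith
  have hηpos : 0 < η := by
    have : (0 : ℝ) < ((j1 - j0 : ℤ) : ℝ) := by exact_mod_cast (by omega : 0 < j1 - j0)
    rw [hη]; positivity
  set X := dirform A θ Uv u
  set s := δ1 / (δ1 + η) with hs
  have hs0 : 0 ≤ s := by positivity
  have hs1 : s ≤ 1 := by rw [hs, div_le_one (by positivity)]; linarith
  have hsη : s * η ≤ δ1 := by
    rw [hs, div_mul_eq_mul_div, div_le_iff₀ (by positivity)]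
    nlinarith
  have hX : lam θ h * N + s * δ2 * N - s * η * m ≤ X := by
    have h5 : lam θ h' = lam θ h + δ2 := by rw [hδ2]; ring
    rw [h5] at hcg
    nlinarith [mul_le_mul_of_nonneg_left hcg hs0,
      mul_le_mul_of_nonneg_left hc' (show 0 ≤ 1 - s by linarith)]
  have hgoal : δ1 * δ2 / (δ1 + η) = s * δ2 := by rw [hs]; ring
  rw [hgoal]
  nlinarith [mul_le_mul_of_nonneg_right hsη hm0]

end Pool.Agent.LT
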