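import Pool.Agent.LT.Upper

/-!
# Lower bounds for the form
-/

namespace Pool.Agent.LT

/-- One-dimensional eigenvalue for a segment of length `w` with killing `θ` at the ends. -/
noncomputable def lam (θ : ℝ) (w : ℕ) : ℝ := 2 * (1 - Real.cos (Real.pi / (w + 2 / θ)))

lemma lam_nonneg (θ : ℝ) (w : ℕ) : 0 ≤ lam θ w := by
  unfold lam
  have := Real.cos_le_one (Real.pi / (w + 2 / θ))
  linarith

lemma lam_anti {θ : ℝ} (h0 : 0 < θ) (h1 : θ ≤ 1) {w w' : ℕ} (h : w' ≤ w) :
    lam θ w ≤ lam θ w' := by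
  unfold lam
  have hc : 2 ≤ 2 / θ := by rw [le_div_iff₀ h0]; linarith
  have hw : (w' : ℝ) ≤ w := by exact_mod_cast h
  have hw0 : (0 : ℝ) ≤ w' := Nat.cast_nonneg _
  have h2 : Real.pi / (w + 2 / θ) ≤ Real.pi / (w' + 2 / θ) := by
    apply div_le_div_of_nonneg_left Real.pi_pos.le (by positivity)
    linarith
  have h3 : Real.pi / (w' + 2 / θ) ≤ Real.pi := by
    rw [div_le_iff₀ (by positivity)]
    nlinarith [Real.pi_pos]
  have h4 := Real.cos_le_cos_of_nonneg_of_le_pi
    (show 0 ≤ Real.pi / (w + 2 / θ) by positivity) h3 h2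
  linarith

lemma sin_mul_ge {ρ b : ℝ} (hρ0 : 0 ≤ ρ) (hρ1 : ρ ≤ 1) (hb0 : 0 ≤ b) (hb : b ≤ Real.pi) :
    ρ * Real.sin b ≤ Real.sin (ρ * b) := by
  have hc := strictConcaveOn_sin_Icc.concaveOn
  have := hc.2 (x := b) ⟨hb0, hb⟩ (y := 0) ⟨le_rfl, Real.pi_pos.le⟩ hρ0
    (show 0 ≤ 1 - ρ by linarith) (by ring)
  simpa using this

/-- The key ratio estimate. -/
lemma ratio_aux {θ : ℝ} (h0 : 0 < θ) (h1 : θ ≤ 1) {ω a : ℝ} (hω : 0 < ω)
    (hb : ω * (2 / θ + 1) / 2 ≤ a) (ha : a ≤ Real.pi - ω * (2 / θ + 1) / 2) :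
    (1 - θ) * Real.sin a ≤ Real.sin (a - ω) := by
  set c := 2 / θ with hc
  have hc2 : 2 ≤ c := by rw [hc, le_div_iff₀ h0]; linarith
  set b := ω * (c + 1) / 2 with hbdef
  have hb0 : 0 < b := by positivity
  have hbpi : b ≤ Real.pi := by linarith [Real.pi_pos]
  have hbpi2 : b < Real.pi := by linarith
  have hωpi : ω ≤ Real.pi := by
    have : ω ≤ b := by rw [hbdef]; nlinarith
    linarith
  have hsinω : 0 ≤ Real.sin ω := Real.sin_nonneg_of_nonneg_of_le_pi hω.le hωpi
  have hsinab : 0 ≤ Real.sin (a - b) :=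
    Real.sin_nonneg_of_nonneg_of_le_pi (by linarith) (by linarith)
  have hsinb : 0 < Real.sin b := Real.sin_pos_of_pos_of_lt_pi hb0 hbpi2
  have hsina : 0 ≤ Real.sin a := Real.sin_nonneg_of_nonneg_of_le_pi (by linarith) (by linarith)
  have hid : Real.sin (a - ω) * Real.sin b - Real.sin a * Real.sin (b - ω)
      = Real.sin ω * Real.sin (a - b) := by
    rw [Real.sin_sub, Real.sin_sub, Real.sin_sub]; ring
  have hge : Real.sin a * Real.sin (b - ω) ≤ Real.sin (a - ω) * Real.sin b := by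
    have := mul_nonneg hsinω hsinab
    linarith
  have hρ : b - ω = ((c - 1) / (c + 1)) * b := by
    rw [hbdef]
    have : c + 1 ≠ 0 := by linarith
    field_simp
    ring
  have h2 : (c - 1) / (c + 1) * Real.sin b ≤ Real.sin (b - ω) := by
    rw [hρ]
    apply sin_mul_ge _ _ hb0.le hbpi
    · apply div_nonneg <;> linarith
    · rw [div_le_one (by linarith)]; linarith
  have h3 : 1 - θ ≤ (c - 1) / (c + 1) := by
    rw [le_div_iff₀ (by linarith)]
    have hθc : θ * c = 2 := by rw [hc]; field_simp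
    nlinarith
  have h4 : (1 - θ) * Real.sin b ≤ Real.sin (b - ω) :=
    (mul_le_mul_of_nonneg_right h3 hsinb.le).trans h2
  have h5 : (1 - θ) * Real.sin a * Real.sin b ≤ Real.sin (a - ω) * Real.sin b := by
    calc (1 - θ) * Real.sin a * Real.sin b = Real.sin a * ((1 - θ) * Real.sin b) := by ring
      _ ≤ Real.sin a * Real.sin (b - ω) := by gcongr
      _ ≤ _ := hge
  exact le_of_mul_le_mul_right h5 hsinb

lemma ratio_aux' {θ : ℝ} (h0 : 0 < θ) (h1 : θ ≤ 1) {ω a : ℝ} (hω : 0 < ω)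
    (hb : ω * (2 / θ + 1) / 2 ≤ a) (ha : a ≤ Real.pi - ω * (2 / θ + 1) / 2) :
    (1 - θ) * Real.sin a ≤ Real.sin (a + ω) := by
  have := ratio_aux h0 h1 hω (a := Real.pi - a) (by linarith) (by linarith)
  rw [Real.sin_pi_sub] at this
  have h2 : Real.pi - a - ω = Real.pi - (a + ω) := by ring
  rwa [h2, Real.sin_pi_sub] at this

/-- Bound for functions supported in a segment of length `w` in the direction `e`. -/
lemma seg_bound (A S : Finset Site) (hSA : S ⊆ A) (e : Site) (q : Site → ℤ)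
    (hq : ∀ x, q (x + e) = q x + 1) (a : ℤ) (w : ℕ) (hS : ∀ x ∈ S, a + 1 ≤ q x ∧ q x ≤ a + w)
    {θ : ℝ} (h0 : 0 < θ) (h1 : θ ≤ 1) (u : Site → ℝ) (hu : ∀ x, x ∉ S → u x = 0) :
    lam θ w * ∑ x ∈ S, u x ^ 2 ≤ dirform A θ {e, -e} u := by
  rcases S.eq_empty_or_nonempty with hSe | ⟨x0, hx0⟩
  · subst hSe
    have hu' : ∀ x, u x = 0 := fun x => hu x (Finset.notMem_empty x)
    simp [dirform, hu']
  have hw1 : 1 ≤ w := by
    have := hS x0 hx0
    have h3 : (1 : ℤ) ≤ w := by omega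
    exact_mod_cast h3
  set c := 2 / θ with hc
  have hc2 : 2 ≤ c := by rw [hc, le_div_iff₀ h0]; linarith
  have hwr : (1 : ℝ) ≤ w := by exact_mod_cast hw1
  set ω := Real.pi / (w + c) with hω
  have hωpos : 0 < ω := by rw [hω]; positivity
  have hωw : ω * (w + c) = Real.pi := by rw [hω]; field_simp
  set φ : Site → ℝ := fun x => Real.sin (ω * ((q x - a : ℤ) + (c - 1) / 2)) with hφdef
  have hq' : ∀ x, q (x + -e) = q x - 1 := by
    intro x
    have := hq (x + -e)
    rw [neg_add_cancel_right] at this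
    omega
  have hne : e ≠ -e := by
    intro h
    have h3 := hq 0
    have h4 := hq' 0
    rw [← h] at h4
    omega
  have hargs : ∀ x ∈ S, ω * (c + 1) / 2 ≤ ω * ((q x - a : ℤ) + (c - 1) / 2) ∧
      ω * ((q x - a : ℤ) + (c - 1) / 2) ≤ Real.pi - ω * (c + 1) / 2 := by
    intro x hx
    obtain ⟨h3, h4⟩ := hS x hx
    have h5 : (1 : ℝ) ≤ ((q x - a : ℤ) : ℝ) := by
      have : (1 : ℤ) ≤ q x - a := by omega
      exact_mod_cast this
    have h6 : ((q x - a : ℤ) : ℝ) ≤ w := by
      have : q x - a ≤ (w : ℤ) := by omega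
      exact_mod_cast this
    constructor
    · nlinarith
    · rw [← hωw]; nlinarith
  have hpos : ∀ x ∈ S, 0 < φ x := by
    intro x hx
    obtain ⟨h3, h4⟩ := hargs x hx
    apply Real.sin_pos_of_pos_of_lt_pi
    · have : 0 < ω * (c + 1) / 2 := by positivity
      linarith
    · have : 0 < ω * (c + 1) / 2 := by positivity
      linarith
  have hφe : ∀ x, φ (x + e) = Real.sin (ω * ((q x - a : ℤ) + (c - 1) / 2) + ω) := by
    intro x
    simp only [hφdef]
    rw [hq]
    congr 1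
    push_cast
    ring
  have hφe' : ∀ x, φ (x + -e) = Real.sin (ω * ((q x - a : ℤ) + (c - 1) / 2) - ω) := by
    intro x
    simp only [hφdef]
    rw [hq']
    congr 1
    push_cast
    ring
  have hmain := dirform_ge A S {e, -e} hSA (by
      intro e' he'
      simp only [Finset.mem_insert, Finset.mem_singleton] at he' ⊢
      rcases he' with h | h
      · right; rw [h]
      · left; rw [h, neg_neg]) h1 u φ hu hpos (by
      intro x hx e' he' _
      obtain ⟨h3, h4⟩ := hargs x hx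
      simp only [Finset.mem_insert, Finset.mem_singleton] at he'
      rcases he' with h | h
      · rw [h, hφe]; exact ratio_aux' h0 h1 hωpos h3 h4
      · rw [h, hφe']; exact ratio_aux h0 h1 hωpos h3 h4)
  refine le_trans (le_of_eq ?_) hmain
  rw [Finset.mul_sum]
  apply Finset.sum_congr rfl
  intro x hx
  rw [Finset.sum_pair hne, hφe, hφe', mul_comm (lam θ w)]
  congr 1
  have h3 := (hpos x hx).ne'
  have h4 : φ x = Real.sin (ω * ((q x - a : ℤ) + (c - 1) / 2)) := rfl
  rw [Real.sin_add, Real.sin_sub, ← h4]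
  unfold lam
  rw [← hc, ← hω]
  field_simp
  ring

/-- A form bound in one direction from bounds on classes. -/
lemma dirform_class (A : Finset Site) (θ : ℝ) (U : Finset Site) (cl : Site → Fin 3)
    (hcl : ∀ x ∈ A, ∀ e ∈ U, x + e ∈ A → cl (x + e) = cl x) (u : Site → ℝ)
    (hu : ∀ x, x ∉ A → u x = 0) :
    dirform A θ U u = ∑ k : Fin 3, dirform A θ U (fun x => if cl x = k then u x else 0) := by
  unfold dirform
  symm
  rw [Finset.sum_comm]
  apply Finset.sum_congr rfl
  intro x hx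
  rw [Finset.sum_comm]
  apply Finset.sum_congr rfl
  intro e he
  rw [Finset.sum_sub_distrib, ← Finset.mul_sum]
  have h1 : ∑ k : Fin 3, (if cl x = k then u x else 0) ^ 2 = u x ^ 2 := by
    have : ∀ k : Fin 3, (if cl x = k then u x else 0) ^ 2 = if cl x = k then u x ^ 2 else 0 := by
      intro k; split_ifs <;> simp
    simp only [this]
    rw [Finset.sum_ite_eq]
    simp
  have h2 : ∑ k : Fin 3, (if cl x = k then u x else 0) * (if cl (x + e) = k then u (x + e) else 0)
      = u x * u (x + e) := by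
    by_cases hxe : x + e ∈ A
    · rw [hcl x hx e he hxe]
      have : ∀ k : Fin 3, (if cl x = k then u x else 0) * (if cl x = k then u (x + e) else 0)
          = if cl x = k then u x * u (x + e) else 0 := by
        intro k; split_ifs <;> simp
      simp only [this]
      rw [Finset.sum_ite_eq]
      simp
    · rw [hu _ hxe]; simp
  rw [h1, h2]

/-- Localisation. -/
lemma ims (A : Finset Site) (θ : ℝ) (U : Finset Site) (hU : ∀ e ∈ U, -e ∈ U) (α : Site → ℝ)
    (u : Site → ℝ) (hu : ∀ x, x ∉ A → u x = 0) :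
    dirform A θ U (fun x => Real.cos (α x) * u x) + dirform A θ U (fun x => Real.sin (α x) * u x)
      ≤ dirform A θ U u + ∑ x ∈ A, u x ^ 2 * ∑ e ∈ U, (1 - Real.cos (α (x + e) - α x)) := by
  have h1 : dirform A θ U (fun x => Real.cos (α x) * u x)
        + dirform A θ U (fun x => Real.sin (α x) * u x)
      = dirform A θ U u
        + ∑ x ∈ A, ∑ e ∈ U, u x * u (x + e) * (1 - Real.cos (α (x + e) - α x)) := by
    unfold dirform
    rw [← Finset.sum_add_distrib, ← Finset.sum_add_distrib]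
    apply Finset.sum_congr rfl
    intro x _
    rw [← Finset.sum_add_distrib, ← Finset.sum_add_distrib]
    apply Finset.sum_congr rfl
    intro e _
    rw [Real.cos_sub]
    have h := Real.sin_sq_add_cos_sq (α x)
    have h2 : Real.sin (α x) ^ 2 = 1 - Real.cos (α x) ^ 2 := by linarith
    ring_nf
    rw [h2]
    ring
  rw [h1]
  gcongr ?_ + ?_
  · exact le_rfl
  -- restrict to pairs in A
  have h2 : ∑ x ∈ A, ∑ e ∈ U, u x * u (x + e) * (1 - Real.cos (α (x + e) - α x))
      = ∑ x ∈ A, ∑ e ∈ U.filter (fun e => x + e ∈ A),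
        u x * u (x + e) * (1 - Real.cos (α (x + e) - α x)) := by
    apply Finset.sum_congr rfl
    intro x _
    symm
    apply Finset.sum_subset (Finset.filter_subset _ _)
    intro e he hne
    have : x + e ∉ A := by
      intro h; exact hne (Finset.mem_filter.2 ⟨he, h⟩)
    rw [hu _ this]; ring
  have hswap : ∑ x ∈ A, ∑ e ∈ U.filter (fun e => x + e ∈ A),
        u (x + e) ^ 2 * (1 - Real.cos (α (x + e) - α x))
      = ∑ x ∈ A, ∑ e ∈ U.filter (fun e => x + e ∈ A),
        u x ^ 2 * (1 - Real.cos (α (x + e) - α x)) := by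
    rw [Finset.sum_sigma', Finset.sum_sigma']
    apply Finset.sum_bij' (i := fun (p : (_ : Site) × Site) _ => (⟨p.1 + p.2, -p.2⟩ : (_ : Site) × Site))
      (j := fun (p : (_ : Site) × Site) _ => (⟨p.1 + p.2, -p.2⟩ : (_ : Site) × Site))
    · rintro ⟨x, e⟩ h
      simp only [Finset.mem_sigma, Finset.mem_filter] at h ⊢
      exact ⟨h.2.2, hU e h.2.1, by simpa using h.1⟩
    · rintro ⟨x, e⟩ h
      simp only [Finset.mem_sigma, Finset.mem_filter] at h ⊢
      exact ⟨h.2.2, hU e h.2.1, by simpa using h.1⟩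
    · rintro ⟨x, e⟩ h; simp
    · rintro ⟨x, e⟩ h; simp
    · rintro ⟨x, e⟩ h
      simp only [add_neg_cancel_right]
      rw [← Real.cos_neg (α (x + e) - α x), neg_sub]
  have h3 : ∑ x ∈ A, ∑ e ∈ U.filter (fun e => x + e ∈ A),
        u x * u (x + e) * (1 - Real.cos (α (x + e) - α x))
      ≤ ∑ x ∈ A, ∑ e ∈ U.filter (fun e => x + e ∈ A),
        (1 / 2 * (u x ^ 2 * (1 - Real.cos (α (x + e) - α x)))
          + 1 / 2 * (u (x + e) ^ 2 * (1 - Real.cos (α (x + e) - α x)))) := by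
    apply Finset.sum_le_sum
    intro x _
    apply Finset.sum_le_sum
    intro e _
    have h4 : 0 ≤ 1 - Real.cos (α (x + e) - α x) := by
      linarith [Real.cos_le_one (α (x + e) - α x)]
    nlinarith [mul_nonneg h4 (sq_nonneg (u x - u (x + e)))]
  have h6 : ∀ (G H : Site → Site → ℝ), ∑ x ∈ A, ∑ e ∈ U.filter (fun e => x + e ∈ A),
      (1 / 2 * G x e + 1 / 2 * H x e)
      = 1 / 2 * (∑ x ∈ A, ∑ e ∈ U.filter (fun e => x + e ∈ A), G x e)
        + 1 / 2 * (∑ x ∈ A, ∑ e ∈ U.filter (fun e => x + e ∈ A), H x e) := by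
    intro G H
    simp only [Finset.sum_add_distrib, Finset.mul_sum]
  rw [h6 (fun x e => u x ^ 2 * (1 - Real.cos (α (x + e) - α x)))
    (fun x e => u (x + e) ^ 2 * (1 - Real.cos (α (x + e) - α x))), hswap] at h3
  rw [h2]
  refine h3.trans ?_
  have h7 : ∑ x ∈ A, ∑ e ∈ U.filter (fun e => x + e ∈ A),
        u x ^ 2 * (1 - Real.cos (α (x + e) - α x))
      ≤ ∑ x ∈ A, u x ^ 2 * ∑ e ∈ U, (1 - Real.cos (α (x + e) - α x)) := by
    apply Finset.sum_le_sum
    intro x _
    rw [Finset.mul_sum]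
    apply Finset.sum_le_sum_of_subset_of_nonneg (Finset.filter_subset _ _)
    intro e _ _
    apply mul_nonneg (sq_nonneg _)
    linarith [Real.cos_le_one (α (x + e) - α x)]
  linarith

/-- horizontal directions -/
def Uh : Finset Site := {(1, 0), -(1, 0)}

/-- vertical directions -/
def Uv : Finset Site := {(0, 1), -(0, 1)}

lemma units_eq : units = Uh ∪ Uv := by decide

lemma Uh_Uv_disj : Disjoint Uh Uv := by decide

lemma dirform_units (A : Finset Site) (θ : ℝ) (u : Site → ℝ) :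
    dirform A θ units u = dirform A θ Uh u + dirform A θ Uv u := by
  unfold dirform
  rw [← Finset.sum_add_distrib]
  apply Finset.sum_congr rfl
  intro x _
  rw [units_eq, Finset.sum_union Uh_Uv_disj]

/-- The box `[a+1, a+w] × [b+1, b+h]`. -/
def InBox (a b : ℤ) (w h : ℕ) (x : Site) : Prop :=
  a + 1 ≤ x.1 ∧ x.1 ≤ a + w ∧ b + 1 ≤ x.2 ∧ x.2 ≤ b + h

lemma form_box (A : Finset Site) (a b : ℤ) (w h : ℕ) (hA : ∀ x ∈ A, InBox a b w h x)
    {θ : ℝ} (h0 : 0 < θ) (h1 : θ ≤ 1) (u : Site → ℝ) (hu : ∀ x, x ∉ A → u x = 0) :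
    (lam θ w + lam θ h) * ∑ x ∈ A, u x ^ 2 ≤ dirform A θ units u := by
  rw [dirform_units, add_mul]
  apply add_le_add
  · exact seg_bound A A (Finset.Subset.refl _) (1, 0) Prod.fst (fun x => by simp) a w
      (fun x hx => ⟨(hA x hx).1, (hA x hx).2.1⟩) h0 h1 u hu
  · exact seg_bound A A (Finset.Subset.refl _) (0, 1) Prod.snd (fun x => by simp) b h
      (fun x hx => ⟨(hA x hx).2.2.1, (hA x hx).2.2.2⟩) h0 h1 u hu

end Pool.Agent.LT
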