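import Pool.Agent.LT.Count
import Pool.Agent.LT.Form

/-!
# Filling a finite connected set; holes
-/

open Relation

namespace Pool.Agent.LT

lemma adj_right (x : Site) : Adj x (x + (1, 0)) := by unfold Adj; simp; decide

lemma adj_up (x : Site) : Adj x (x + (0, 1)) := by unfold Adj; simp; decide

lemma adj_right' (i j : ℤ) : Adj (i, j) (i + 1, j) := by
  have := adj_right (i, j)
  have e : ((i, j) : Site) + (1, 0) = (i + 1, j) := by simp
  rwa [e] at this

lemma adj_up' (i j : ℤ) : Adj (i, j) (i, j + 1) := by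
  have := adj_up (i, j)
  have e : ((i, j) : Site) + (0, 1) = (i, j + 1) := by simp
  rwa [e] at this

lemma const_of_step (F : ℤ → Bool) (h : ∀ i, F i = F (i + 1)) (i j : ℤ) : F i = F j := by
  have key : ∀ k : ℤ, F k = F 0 := by
    intro k
    induction k using Int.induction_on with
    | zero => rfl
    | succ n ih => rw [← h]; exact ih
    | pred n ih =>
      have := h (-(n : ℤ) - 1)
      rw [this]
      have e : -(n : ℤ) - 1 + 1 = -(n : ℤ) := by ring
      rw [e]; exact ih
  rw [key i, key j]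

lemma vline (S : Set Site) (g : Site → Bool) (hg : ∀ x ∈ S, ∀ y ∈ S, Adj x y → g x = g y)
    (i : ℤ) (hS : ∀ j, (i, j) ∈ S) (j j' : ℤ) : g (i, j) = g (i, j') :=
  const_of_step (fun j => g (i, j)) (fun j => hg _ (hS j) _ (hS (j + 1)) (adj_up' i j)) j j'

lemma hline (S : Set Site) (g : Site → Bool) (hg : ∀ x ∈ S, ∀ y ∈ S, Adj x y → g x = g y)
    (j : ℤ) (hS : ∀ i, (i, j) ∈ S) (i i' : ℤ) : g (i, j) = g (i', j) :=
  const_of_step (fun i => g (i, j)) (fun i => hg _ (hS i) _ (hS (i + 1)) (adj_right' i j)) i i'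

/-- The complement of a box is connected, inside any larger set. -/
lemma box_compl_conn (a b : ℤ) (w h : ℕ) (S : Set Site) (hS : ∀ x, ¬ InBox a b w h x → x ∈ S)
    (g : Site → Bool) (hg : ∀ x ∈ S, ∀ y ∈ S, Adj x y → g x = g y) {x y : Site}
    (hx : ¬ InBox a b w h x) (hy : ¬ InBox a b w h y) : g x = g y := by
  have key : ∀ x, ¬ InBox a b w h x → g x = g (a + w + 1, b + h + 1) := by
    rintro ⟨i, j⟩ hx
    have hcol : ∀ j', g (a + w + 1, j') = g (a + w + 1, b + h + 1) := fun j' =>
      vline S g hg _ (fun j => hS _ (by unfold InBox; simp only; omega)) _ _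
    have hrow : ∀ i', g (i', b + h + 1) = g (a + w + 1, b + h + 1) := fun i' =>
      hline S g hg _ (fun j => hS _ (by unfold InBox; simp only; omega)) _ _
    by_cases h1 : a + 1 ≤ i ∧ i ≤ a + w
    · have h2 : ∀ i', (i', j) ∈ S := fun i' => hS _ (by
        unfold InBox at hx ⊢; simp only at hx ⊢; omega)
      rw [hline S g hg j h2 i (a + w + 1)]
      exact hcol j
    · have h2 : ∀ j', (i, j') ∈ S := fun j' => hS _ (by
        unfold InBox; simp only; omega)
      rw [vline S g hg i h2 j (b + h + 1)]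
      exact hrow i
  rw [key x hx, key y hy]

/-- Steps avoiding `G`. -/
def RG (G : Finset Site) (x y : Site) : Prop := Adj x y ∧ x ∉ G ∧ y ∉ G

lemma RG.symm {G : Finset Site} {x y : Site} (h : RG G x y) : RG G y x := ⟨h.1.symm, h.2.2, h.2.1⟩

lemma rtg_symm {G : Finset Site} {x y : Site} (h : ReflTransGen (RG G) x y) :
    ReflTransGen (RG G) y x := by
  induction h with
  | refl => exact ReflTransGen.refl
  | tail _ h2 ih => exact ReflTransGen.head (RG.symm h2) ih

lemma rtg_not_mem {G : Finset Site} {x y : Site} (hx : x ∉ G) (h : ReflTransGen (RG G) x y) :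
    y ∉ G := by
  induction h with
  | refl => exact hx
  | tail _ h2 _ => exact h2.2.2

/-- The set of sites connected to the outside of the box avoiding `G`. -/
def Out (G : Finset Site) (a b : ℤ) (w h : ℕ) : Set Site :=
  {z | z ∉ G ∧ ∃ y, ReflTransGen (RG G) z y ∧ ¬ InBox a b w h y}

/-- The box as a finset. -/
noncomputable def boxF (a b : ℤ) (w h : ℕ) : Finset Site :=
  Finset.Icc (a + 1) (a + w) ×ˢ Finset.Icc (b + 1) (b + h)

lemma mem_boxF {a b : ℤ} {w h : ℕ} {x : Site} : x ∈ boxF a b w h ↔ InBox a b w h x := by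
  unfold boxF InBox
  rw [Finset.mem_product, Finset.mem_Icc, Finset.mem_Icc]
  tauto

open Classical in
/-- `G` with its holes filled. -/
noncomputable def fill (G : Finset Site) (a b : ℤ) (w h : ℕ) : Finset Site :=
  (boxF a b w h).filter (fun x => x ∉ Out G a b w h)

section

variable {G : Finset Site} {a b : ℤ} {w h : ℕ}

lemma mem_out_of_not_inBox (hG : ∀ x ∈ G, InBox a b w h x) {x : Site} (hx : ¬ InBox a b w h x) :
    x ∈ Out G a b w h := ⟨fun h1 => hx (hG x h1), x, ReflTransGen.refl, hx⟩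

lemma mem_fill (hG : ∀ x ∈ G, InBox a b w h x) {x : Site} :
    x ∈ fill G a b w h ↔ x ∉ Out G a b w h := by
  classical
  unfold fill
  rw [Finset.mem_filter, mem_boxF]
  constructor
  · exact fun h1 => h1.2
  · intro h1
    refine ⟨?_, h1⟩
    by_contra h2
    exact h1 (mem_out_of_not_inBox hG h2)

lemma fill_inBox {x : Site} (hx : x ∈ fill G a b w h) : InBox a b w h x := by
  classical
  exact mem_boxF.1 (Finset.mem_filter.1 hx).1

lemma subset_fill (hG : ∀ x ∈ G, InBox a b w h x) : G ⊆ fill G a b w h := by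
  intro x hx
  rw [mem_fill hG]
  exact fun h1 => h1.1 hx

lemma out_of_rtg {x y : Site} (hx : x ∉ G) (h1 : ReflTransGen (RG G) x y)
    (hy : y ∈ Out G a b w h) : x ∈ Out G a b w h := by
  obtain ⟨_, z, hz, hzb⟩ := hy
  exact ⟨hx, z, h1.trans hz, hzb⟩

lemma adj_fill (hG : ∀ x ∈ G, InBox a b w h x) {x y : Site} (hx : x ∈ fill G a b w h)
    (hy : y ∉ fill G a b w h) (hxy : Adj x y) : x ∈ G := by
  rw [mem_fill hG] at hx hy
  push Not at hy
  by_contra hxG
  exact hx (out_of_rtg hxG (ReflTransGen.single ⟨hxy, hxG, hy.1⟩) hy)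

/-- Walking to the right from `z` while avoiding `G`. -/
lemma rtg_ray {z : Site} {k : ℕ} (hk : ∀ j ≤ k, z + ((j : ℤ), 0) ∉ G) :
    ReflTransGen (RG G) z (z + ((k : ℤ), 0)) := by
  induction k with
  | zero =>
    have e0 : z + (((0 : ℕ) : ℤ), (0 : ℤ)) = z := by ext <;> simp
    rw [e0]
  | succ k ih =>
    refine ReflTransGen.tail (ih (fun j hj => hk j (by omega))) ?_
    refine ⟨?_, hk k (by omega), hk (k + 1) le_rfl⟩
    have e1 : z + (((k + 1 : ℕ) : ℤ), 0) = z + ((k : ℤ), 0) + (1, 0) := by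
      ext <;> simp <;> ring
    rw [e1]
    exact adj_right _

/-- From a site outside `G`, the ray to the right either hits `G` (with a first hitting time), or
leads outside the box. -/
lemma ray_dich (z : Site) (hz : z ∉ G) (a b : ℤ) (w h : ℕ) :
    (∃ k : ℕ, (∀ j ≤ k, z + ((j : ℤ), 0) ∉ G) ∧ z + (((k + 1 : ℕ) : ℤ), 0) ∈ G) ∨
    (∃ k : ℕ, (∀ j ≤ k, z + ((j : ℤ), 0) ∉ G) ∧ ¬ InBox a b w h (z + ((k : ℤ), 0))) := by
  classical
  by_cases hex : ∃ k : ℕ, z + ((k : ℤ), 0) ∈ G
  · left
    set K := Nat.find hex with hK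
    have hKn : z + ((K : ℤ), 0) ∈ G := Nat.find_spec hex
    have hlt : ∀ j < K, z + ((j : ℤ), 0) ∉ G := fun j hj => Nat.find_min hex hj
    have hK0 : K ≠ 0 := by
      intro h0
      rw [h0] at hKn
      have e0 : z + (((0 : ℕ) : ℤ), (0 : ℤ)) = z := by ext <;> simp
      rw [e0] at hKn
      exact hz hKn
    refine ⟨K - 1, fun j hj => hlt j (by omega), ?_⟩
    have : K - 1 + 1 = K := by omega
    rw [this]
    exact hKn
  · right
    push Not at hex
    obtain ⟨k, hk⟩ := ray_leaves (boxF a b w h) z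
    rw [mem_boxF] at hk
    exact ⟨k, fun j _ => hex j, hk⟩

lemma ray_const (S : Set Site) (g : Site → Bool)
    (hg : ∀ x ∈ S, ∀ y ∈ S, Adj x y → g x = g y) {z : Site} {k : ℕ}
    (hk : ∀ j ≤ k, z + ((j : ℤ), 0) ∈ S) : g z = g (z + ((k : ℤ), 0)) := by
  induction k with
  | zero =>
    have e0 : z + (((0 : ℕ) : ℤ), (0 : ℤ)) = z := by ext <;> simp
    rw [e0]
  | succ k ih =>
    rw [ih (fun j hj => hk j (by omega))]
    have e1 : z + (((k + 1 : ℕ) : ℤ), 0) = z + ((k : ℤ), 0) + (1, 0) := by
      ext <;> simp <;> ring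
    have h1 := hk (k + 1) le_rfl
    rw [e1] at h1 ⊢
    exact hg _ (hk k (by omega)) _ h1 (adj_right _)

lemma connF_fill (hG : ∀ x ∈ G, InBox a b w h x) (hc : ConnF (G : Set Site)) :
    ConnF (fill G a b w h : Set Site) := by
  intro g hg x hx y hy
  have hGc : ∀ x ∈ G, ∀ y ∈ G, g x = g y := by
    intro x hx y hy
    exact hc g (fun x hx y hy hxy => hg x (subset_fill hG hx) y (subset_fill hG hy) hxy) x hx y hy
  -- every site of fill agrees with some site of G
  have key : ∀ x ∈ fill G a b w h, ∃ y ∈ G, g x = g y := by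
    intro z hz
    by_cases hzG : z ∈ G
    · exact ⟨z, hzG, rfl⟩
    · rcases ray_dich z hzG a b w h with ⟨k, hk, hkG⟩ | ⟨k, hk, hkb⟩
      · refine ⟨_, hkG, ?_⟩
        have hmem : ∀ j ≤ k + 1, z + ((j : ℤ), 0) ∈ (fill G a b w h : Set Site) := by
          intro j hj
          rcases Nat.lt_or_ge j (k + 1) with hj' | hj'
          · rw [Finset.mem_coe, mem_fill hG]
            intro hout
            exact (mem_fill hG).1 hz
              (out_of_rtg hzG (rtg_ray (fun i hi => hk i (by omega))) hout)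
          · have : j = k + 1 := by omega
            rw [this]
            exact subset_fill hG hkG
        exact ray_const _ g hg hmem
      · exfalso
        exact (mem_fill hG).1 hz ⟨hzG, _, rtg_ray hk, hkb⟩
  obtain ⟨x', hx', h1⟩ := key x hx
  obtain ⟨y', hy', h2⟩ := key y hy
  rw [h1, h2]
  exact hGc x' hx' y' hy'

lemma connF_fill_compl (hG : ∀ x ∈ G, InBox a b w h x) :
    ConnF (fill G a b w h : Set Site)ᶜ := by
  intro g hg x hx y hy
  have hS : ∀ x, ¬ InBox a b w h x → x ∈ (fill G a b w h : Set Site)ᶜ := by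
    intro x hx h1
    exact hx (fill_inBox h1)
  have key : ∀ x ∈ (fill G a b w h : Set Site)ᶜ, ∃ y, ¬ InBox a b w h y ∧ g x = g y := by
    intro z hz
    have hz' : z ∈ Out G a b w h := by
      by_contra h1
      exact hz ((mem_fill hG).2 h1)
    obtain ⟨hzG, y, hy, hyb⟩ := hz'
    refine ⟨y, hyb, ?_⟩
    have : ∀ z', ReflTransGen (RG G) z z' → ReflTransGen (RG G) z' y → g z = g z' := by
      intro z' h1
      induction h1 with
      | refl => intro _; rfl
      | tail h2 h3 ih =>
        rename_i p q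
        intro h4
        rw [ih (ReflTransGen.head h3 h4)]
        have hp : p ∈ (fill G a b w h : Set Site)ᶜ := by
          intro h5
          exact (mem_fill hG).1 h5 ⟨h3.2.1, y, ReflTransGen.head h3 h4, hyb⟩
        have hq : q ∈ (fill G a b w h : Set Site)ᶜ := by
          intro h5
          exact (mem_fill hG).1 h5 ⟨h3.2.2, y, h4, hyb⟩
        exact hg p hp q hq h3.1
    exact this y hy ReflTransGen.refl
  obtain ⟨x', hx', h1⟩ := key x hx
  obtain ⟨y', hy', h2⟩ := key y hy
  rw [h1, h2]
  exact box_compl_conn a b w h _ hS g hg hx' hy'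

open Classical in
/-- The hole containing `z`. -/
noncomputable def hole (G : Finset Site) (a b : ℤ) (w h : ℕ) (z : Site) : Finset Site :=
  (boxF a b w h).filter (fun y => ReflTransGen (RG G) z y)

lemma rtg_in_fill (hG : ∀ x ∈ G, InBox a b w h x) {z y : Site} (hz : z ∈ fill G a b w h)
    (hzG : z ∉ G) (h1 : ReflTransGen (RG G) z y) : y ∈ fill G a b w h := by
  rw [mem_fill hG]
  intro h2
  exact (mem_fill hG).1 hz (out_of_rtg hzG h1 h2)

lemma mem_hole (hG : ∀ x ∈ G, InBox a b w h x) {z y : Site} (hz : z ∈ fill G a b w h)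
    (hzG : z ∉ G) : y ∈ hole G a b w h z ↔ ReflTransGen (RG G) z y := by
  classical
  unfold hole
  rw [Finset.mem_filter, mem_boxF]
  constructor
  · exact fun h1 => h1.2
  · exact fun h1 => ⟨fill_inBox (rtg_in_fill hG hz hzG h1), h1⟩

lemma hole_subset_fill (hG : ∀ x ∈ G, InBox a b w h x) {z : Site} (hz : z ∈ fill G a b w h)
    (hzG : z ∉ G) : hole G a b w h z ⊆ fill G a b w h := fun _ hy =>
  rtg_in_fill hG hz hzG ((mem_hole hG hz hzG).1 hy)

lemma hole_disj (hG : ∀ x ∈ G, InBox a b w h x) {z y : Site} (hz : z ∈ fill G a b w h)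
    (hzG : z ∉ G) (hy : y ∈ hole G a b w h z) : y ∉ G :=
  rtg_not_mem hzG ((mem_hole hG hz hzG).1 hy)

lemma adj_hole (hG : ∀ x ∈ G, InBox a b w h x) {z x y : Site} (hz : z ∈ fill G a b w h)
    (hzG : z ∉ G) (hx : x ∈ hole G a b w h z) (hy : y ∉ hole G a b w h z) (hxy : Adj x y) :
    y ∈ G := by
  by_contra hyG
  apply hy
  rw [mem_hole hG hz hzG] at hx ⊢
  exact ReflTransGen.tail hx ⟨hxy, rtg_not_mem hzG hx, hyG⟩

lemma connF_hole (hG : ∀ x ∈ G, InBox a b w h x) {z : Site} (hz : z ∈ fill G a b w h)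
    (hzG : z ∉ G) : ConnF (hole G a b w h z : Set Site) := by
  intro g hg x hx y hy
  have key : ∀ y, ReflTransGen (RG G) z y → g z = g y := by
    intro y h1
    induction h1 with
    | refl => rfl
    | tail h2 h3 ih =>
      rename_i p q
      rw [ih]
      exact hg p ((mem_hole hG hz hzG).2 h2) q ((mem_hole hG hz hzG).2 (ReflTransGen.tail h2 h3)) h3.1
  rw [← key x ((mem_hole hG hz hzG).1 hx), ← key y ((mem_hole hG hz hzG).1 hy)]

lemma connF_hole_compl (hG : ∀ x ∈ G, InBox a b w h x) (hc : ConnF (G : Set Site))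
    (hne : G.Nonempty) {z : Site} (hz : z ∈ fill G a b w h) (hzG : z ∉ G) :
    ConnF (hole G a b w h z : Set Site)ᶜ := by
  intro g hg x hx y hy
  have hS : ∀ x, ¬ InBox a b w h x → x ∈ (hole G a b w h z : Set Site)ᶜ := by
    intro x hx h1
    exact hx (fill_inBox (hole_subset_fill hG hz hzG h1))
  have hGS : ∀ x ∈ G, x ∈ (hole G a b w h z : Set Site)ᶜ := fun x hx h1 =>
    hole_disj hG hz hzG h1 hx
  have hGc : ∀ x ∈ G, ∀ y ∈ G, g x = g y := fun x hx y hy =>
    hc g (fun x hx y hy hxy => hg x (hGS x hx) y (hGS y hy) hxy) x hx y hy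
  -- far point
  set far : Site := (a + w + 1, b + h + 1) with hfar
  have hfarb : ¬ InBox a b w h far := by unfold InBox; simp only [hfar]; omega
  -- rays
  have hray : ∀ y, y ∉ G → y ∉ hole G a b w h z → ∀ k : ℕ, (∀ j ≤ k, y + ((j : ℤ), 0) ∉ G) →
      ∀ j ≤ k, y + ((j : ℤ), 0) ∈ (hole G a b w h z : Set Site)ᶜ := by
    intro y hyG hyH k hk j hj h1
    apply hyH
    rw [mem_hole hG hz hzG]
    exact ((mem_hole hG hz hzG).1 h1).trans (rtg_symm (rtg_ray (fun i hi => hk i (by omega))))
  -- G agrees with far: take the last site of G on a ray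
  have hGfar : ∀ p ∈ G, g p = g far := by
    obtain ⟨p, hp, hmax⟩ := G.exists_max_image Prod.fst hne
    have h1 : g p = g far := by
      have hp1 : p + (1, 0) ∉ G := by
        intro h2
        have h3 := hmax _ h2
        have h4 : (p + (1, 0)).1 = p.1 + 1 := rfl
        omega
      have hp1H : p + (1, 0) ∈ (hole G a b w h z : Set Site)ᶜ := by
        intro h2
        -- the ray from p + (1,0) leaves the box avoiding G
        have hout : p + (1, 0) ∈ Out G a b w h := by
          rcases ray_dich (p + (1, 0)) hp1 a b w h with ⟨k, hk, hkG⟩ | ⟨k, hk, hkb⟩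
          · exfalso
            have h3 := hmax _ hkG
            have h4 : (p + (1, 0) + (((k + 1 : ℕ) : ℤ), 0)).1 = p.1 + 1 + ((k + 1 : ℕ) : ℤ) := rfl
            omega
          · exact ⟨hp1, _, rtg_ray hk, hkb⟩
        exact (mem_fill hG).1 (hole_subset_fill hG hz hzG h2) hout
      have h2 : g p = g (p + (1, 0)) := hg p (hGS p hp) _ hp1H (adj_right p)
      rw [h2]
      rcases ray_dich (p + (1, 0)) hp1 a b w h with ⟨k, hk, hkG⟩ | ⟨k, hk, hkb⟩
      · exfalso
        have h3 := hmax _ hkG
        have h4 : (p + (1, 0) + (((k + 1 : ℕ) : ℤ), 0)).1 = p.1 + 1 + ((k + 1 : ℕ) : ℤ) := rfl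
        omega
      · rw [ray_const _ g hg (hray _ hp1 hp1H k hk)]
        exact box_compl_conn a b w h _ hS g hg hkb hfarb
    intro q hq
    rw [hGc q hq p hp, h1]
  have key : ∀ y ∈ (hole G a b w h z : Set Site)ᶜ, g y = g far := by
    intro y hy
    by_cases hyG : y ∈ G
    · exact hGfar y hyG
    · rcases ray_dich y hyG a b w h with ⟨k, hk, hkG⟩ | ⟨k, hk, hkb⟩
      · have hmem : ∀ j ≤ k + 1, y + ((j : ℤ), 0) ∈ (hole G a b w h z : Set Site)ᶜ := by
          intro j hj
          rcases Nat.lt_or_ge j (k + 1) with hj' | hj'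
          · exact hray y hyG hy k hk j (by omega)
          · have : j = k + 1 := by omega
            rw [this]
            exact hGS _ hkG
        rw [ray_const _ g hg hmem]
        exact hGfar _ hkG
      · rw [ray_const _ g hg (hray y hyG hy k hk)]
        exact box_compl_conn a b w h _ hS g hg hkb hfarb
  rw [key x hx, key y hy]

/-- A square avoiding `G` is contained in one component. -/
lemma rtg_square {z : Site} {r : ℕ}
    (hr : ∀ y : Site, |y.1 - z.1| ≤ r → |y.2 - z.2| ≤ r → y ∉ G) {y : Site}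
    (h1 : |y.1 - z.1| ≤ r) (h2 : |y.2 - z.2| ≤ r) : ReflTransGen (RG G) z y := by
  -- horizontal
  have hor : ∀ k : ℕ, (k : ℤ) ≤ r → ReflTransGen (RG G) z (z.1 + k, z.2) ∧
      ReflTransGen (RG G) z (z.1 - k, z.2) := by
    intro k
    induction k with
    | zero => intro _; simp only [Nat.cast_zero, add_zero, sub_zero]; exact ⟨.refl, .refl⟩
    | succ k ih =>
      intro hk
      obtain ⟨i1, i2⟩ := ih (by omega)
      have hmem : ∀ i : ℤ, |i - z.1| ≤ r → (i, z.2) ∉ G := fun i hi => hr (i, z.2) hi (by simp)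
      constructor
      · refine ReflTransGen.tail i1 ⟨?_, hmem _ ?_, hmem _ ?_⟩
        · have := adj_right' (z.1 + k) z.2
          push_cast
          rw [← add_assoc]; exact this
        · rw [abs_le]; constructor <;> omega
        · rw [abs_le]; constructor <;> omega
      · refine ReflTransGen.tail i2 ⟨?_, hmem _ ?_, hmem _ ?_⟩
        · apply Adj.symm
          have := adj_right' (z.1 - (k + 1)) z.2
          have e : z.1 - ((k : ℤ) + 1) + 1 = z.1 - k := by ring
          rw [e] at this
          push_cast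
          exact this
        · rw [abs_le]; constructor <;> omega
        · rw [abs_le]; constructor <;> omega
  have hor' : ∀ i : ℤ, |i - z.1| ≤ r → ReflTransGen (RG G) z (i, z.2) := by
    intro i hi
    rw [abs_le] at hi
    rcases le_total z.1 i with h | h
    · have := (hor (i - z.1).toNat (by omega)).1
      have e : z.1 + ((i - z.1).toNat : ℤ) = i := by omega
      rwa [e] at this
    · have := (hor (z.1 - i).toNat (by omega)).2
      have e : z.1 - ((z.1 - i).toNat : ℤ) = i := by omega
      rwa [e] at this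
  refine (hor' y.1 h1).trans ?_
  have ver : ∀ k : ℕ, (k : ℤ) ≤ r → ReflTransGen (RG G) (y.1, z.2) (y.1, z.2 + k) ∧
      ReflTransGen (RG G) (y.1, z.2) (y.1, z.2 - k) := by
    intro k
    induction k with
    | zero => intro _; simp only [Nat.cast_zero, add_zero, sub_zero]; exact ⟨.refl, .refl⟩
    | succ k ih =>
      intro hk
      obtain ⟨i1, i2⟩ := ih (by omega)
      have hmem : ∀ i : ℤ, |i - z.2| ≤ r → (y.1, i) ∉ G := fun i hi => hr (y.1, i) h1 hi
      constructor
      · refine ReflTransGen.tail i1 ⟨?_, hmem _ ?_, hmem _ ?_⟩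
        · have := adj_up' y.1 (z.2 + k)
          push_cast
          rw [← add_assoc]; exact this
        · rw [abs_le]; constructor <;> omega
        · rw [abs_le]; constructor <;> omega
      · refine ReflTransGen.tail i2 ⟨?_, hmem _ ?_, hmem _ ?_⟩
        · apply Adj.symm
          have := adj_up' y.1 (z.2 - (k + 1))
          have e : z.2 - ((k : ℤ) + 1) + 1 = z.2 - k := by ring
          rw [e] at this
          push_cast
          exact this
        · rw [abs_le]; constructor <;> omega
        · rw [abs_le]; constructor <;> omega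
  rw [abs_le] at h2
  rcases le_total z.2 y.2 with h | h
  · have := (ver (y.2 - z.2).toNat (by omega)).1
    have e : z.2 + ((y.2 - z.2).toNat : ℤ) = y.2 := by omega
    rwa [e] at this
  · have := (ver (z.2 - y.2).toNat (by omega)).2
    have e : z.2 - ((z.2 - y.2).toNat : ℤ) = y.2 := by omega
    rwa [e] at this

end

end Pool.Agent.LT
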