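import Pool.Agent.LT.Cost
import Pool.Agent.LT.Dent
import Pool.Agent.LT.Fill

/-!
# Classification: a walk in `E_t` whose range is not nice belongs to an exceptional event
-/

open MeasureTheory ProbabilityTheory Filter Topology Relation
open scoped NNReal ENNReal

namespace Pool.Agent.LT

lemma kap_ne {A : Finset Site} {z : Site} (h : kap A z ≠ 0) : ∃ y, Adj z y ∧ y ∉ A := by
  unfold kap at h
  obtain ⟨e, he⟩ := Finset.card_ne_zero.1 h
  rw [Finset.mem_filter] at he
  exact ⟨z + e, by unfold Adj; simpa using he.1, he.2⟩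

section

variable {G : Finset Site} {a b : ℤ} {w h : ℕ}

lemma bdry_split (hG : ∀ x ∈ G, InBox a b w h x) {z : Site} (hz : z ∈ fill G a b w h)
    (hzG : z ∉ G) :
    (bdry (fill G a b w h)).card + (bdry (hole G a b w h z)).card
      ≤ bsize (fill G a b w h \ hole G a b w h z) := by
  classical
  refine le_trans ?_ (card_bdry_le _)
  set D := fill G a b w h with hD
  set H := hole G a b w h z with hH
  have hHD : H ⊆ D := hole_subset_fill hG hz hzG
  have hHG : ∀ y ∈ H, y ∉ G := fun y hy => hole_disj hG hz hzG hy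
  have hGD : G ⊆ D := subset_fill hG
  have hGDH : ∀ y ∈ G, y ∈ D \ H := fun y hy => by
    rw [Finset.mem_sdiff]
    exact ⟨hGD hy, fun h1 => hHG y h1 hy⟩
  have hdisj : Disjoint (bdry D) (bdry H) := by
    rw [Finset.disjoint_left]
    rintro ⟨x, c⟩ h1 h2
    rw [mem_bdry] at h1 h2
    apply h1
    have hadj := adj_dirv x c
    by_cases hx : x ∈ H
    · have hy : x + dirv c ∉ H := fun h3 => h2 ⟨fun _ => h3, fun _ => hx⟩
      have := adj_hole hG hz hzG hx hy hadj
      exact ⟨fun _ => hGD this, fun _ => hHD hx⟩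
    · have hy : x + dirv c ∈ H := by
        by_contra h3
        exact h2 ⟨fun h4 => absurd h4 hx, fun h4 => absurd h4 h3⟩
      have := adj_hole hG hz hzG hy hx hadj.symm
      exact ⟨fun _ => hHD hy, fun _ => hGD this⟩
  rw [← Finset.card_union_of_disjoint hdisj]
  apply Finset.card_le_card
  rintro ⟨x, c⟩ h1
  rw [Finset.mem_union] at h1
  rw [mem_bdry]
  have hadj := adj_dirv x c
  rcases h1 with h1 | h1
  · rw [mem_bdry] at h1
    intro h2
    by_cases hx : x ∈ D
    · have hy : x + dirv c ∉ D := fun h3 => h1 ⟨fun _ => h3, fun _ => hx⟩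
      have h3 := hGDH _ (adj_fill hG hx hy hadj)
      exact hy (Finset.mem_sdiff.1 (h2.1 h3)).1
    · have hy : x + dirv c ∈ D := by
        by_contra h3
        exact h1 ⟨fun h4 => absurd h4 hx, fun h4 => absurd h4 h3⟩
      have h3 := hGDH _ (adj_fill hG hy hx hadj.symm)
      exact hx (Finset.mem_sdiff.1 (h2.2 h3)).1
  · rw [mem_bdry] at h1
    intro h2
    by_cases hx : x ∈ H
    · have hy : x + dirv c ∉ H := fun h3 => h1 ⟨fun _ => h3, fun _ => hx⟩
      have h3 := hGDH _ (adj_hole hG hz hzG hx hy hadj)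
      exact (Finset.mem_sdiff.1 (h2.2 h3)).2 hx
    · have hy : x + dirv c ∈ H := by
        by_contra h3
        exact h1 ⟨fun h4 => absurd h4 hx, fun h4 => absurd h4 h3⟩
      have h3 := hGDH _ (adj_hole hG hz hzG hy hx hadj.symm)
      exact (Finset.mem_sdiff.1 (h2.1 h3)).2 hy

end

lemma card_bdry_square {H : Finset Site} {z : Site} {r : ℕ}
    (hr : ∀ y : Site, |y.1 - z.1| ≤ r → |y.2 - z.2| ≤ r → y ∈ H) :
    4 * (2 * r + 1) ≤ (bdry H).card := by
  have h1 : 2 * r + 1 ≤ (H.image Prod.fst).card := by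
    have h2 : Finset.Icc (z.1 - r) (z.1 + r) ⊆ H.image Prod.fst := by
      intro i hi
      rw [Finset.mem_Icc] at hi
      refine Finset.mem_image.2 ⟨(i, z.2), hr _ ?_ ?_, rfl⟩
      · show |i - z.1| ≤ r
        rw [abs_le]; omega
      · simp
    have h3 := Finset.card_le_card h2
    rw [Int.card_Icc] at h3
    omega
  have h4 : 2 * r + 1 ≤ (H.image Prod.snd).card := by
    have h2 : Finset.Icc (z.2 - r) (z.2 + r) ⊆ H.image Prod.snd := by
      intro i hi
      rw [Finset.mem_Icc] at hi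
      refine Finset.mem_image.2 ⟨(z.1, i), hr _ ?_ ?_, rfl⟩
      · simp
      · show |i - z.2| ≤ r
        rw [abs_le]; omega
    have h3 := Finset.card_le_card h2
    rw [Int.card_Icc] at h3
    omega
  have h5 := perim H
  omega

/-- The classification. -/
theorem classify {β θ n ε ρ κ : ℝ} {t : ℝ≥0} {r : ℕ} {f : WP} (hf0 : f.1 0 = 0)
    (hfE : f ∈ evtE β t) (hβ : 0 < β) (h0 : 0 < θ) (h1 : θ ≤ 1 / 2) (hn : 0 < n)
    (hnt : β * n ^ 3 = Real.pi ^ 2 * t) (hε : 0 < ε) (hε1 : ε ≤ 1 / 3) (hθn : 2 / θ ≤ ε * n)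
    (hρ : 0 < ρ) (hρ1 : ρ ≤ 1) (hrn : ρ * n ≤ r) (hr1 : (r : ℝ) + 2 ≤ n / 3)
    (hκ1 : κ ≤ ε ^ 2 / 4) (hκ2 : κ ≤ ρ ^ 4 / 720) (hκ3 : κ ≤ 4 * ρ)
    (hnot : ¬ Nice n ε r t f) :
    f ∈ (⋃ ℓ, typeI β θ ((1 - 2 * θ) * β * ((6 + κ) * n - 8 / θ)) t ℓ) ∪
      (⋃ ℓ, ⋃ ℓ', typeII β θ ((1 - 2 * θ) * β * ((6 + κ) * n - 8 / θ)) t ℓ ℓ') := by
  classical
  set G := rangeF t f with hG
  have hne : G.Nonempty := rangeF_nonempty t f
  obtain ⟨a, b, w, h, hB⟩ := exists_bbox hne
  have hcG : ConnF (G : Set Site) := connF_rangeF t f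
  have hGB := hB.inb
  set D := fill G a b w h with hD
  have hGD : G ⊆ D := subset_fill hGB
  have h0G : (0 : Site) ∈ G := mem_rangeF.2 ⟨0, zero_le, hf0⟩
  have hcD : ConnF (D : Set Site) := connF_fill hGB hcG
  have hcDc : ConnF (D : Set Site)ᶜ := connF_fill_compl hGB
  have hDB : ∀ x ∈ D, InBox a b w h x := fun x hx => fill_inBox hx
  have hDfam : D ∈ famF 0 (bdry D).card := mem_famF.2 ⟨hGD h0G, hcD, hcDc, rfl⟩
  have hperim := bbox_perim hB hcG hGD
  have hform : FormBd D θ (lam θ w + lam θ h) := fun u hu =>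
    form_box D a b w h hDB h0 (by linarith) u hu
  have hbD : f ∈ bevt D β t 0 := mem_bevt_of_evtE hfE hGD (fun z hz hk => by
    obtain ⟨y, hzy, hy⟩ := kap_ne hk
    exact adj_fill hGB hz hy hzy)
  have hbase := base_cost h0 h1 hβ hnt hperim
  have hc : 0 < 2 / θ := by positivity
  have hX : 0 < (w : ℝ) + 2 / θ := by positivity
  have hY : 0 < (h : ℝ) + 2 / θ := by positivity
  have hyX := young hn hX
  have hyY := young hn hY
  have hcoef : 0 ≤ (1 - 2 * θ) * β := mul_nonneg (by linarith) hβ.le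
  have mkI : (∃ Λ, FormBd D θ Λ ∧ (1 - 2 * θ) * β * ((6 + κ) * n - 8 / θ)
      ≤ (1 - 2 * θ) * β * ((bdry D).card : ℕ) + Λ * t) →
      f ∈ (⋃ ℓ, typeI β θ ((1 - 2 * θ) * β * ((6 + κ) * n - 8 / θ)) t ℓ) ∪
      (⋃ ℓ, ⋃ ℓ', typeII β θ ((1 - 2 * θ) * β * ((6 + κ) * n - 8 / θ)) t ℓ ℓ') := by
    intro hex
    left
    rw [Set.mem_iUnion]
    refine ⟨(bdry D).card, ?_⟩
    unfold typeI
    simp only [Set.mem_iUnion]
    exact ⟨D, Finset.mem_filter.2 ⟨hDfam, hex⟩, hbD⟩
  by_cases hw : |(w : ℝ) - n| ≤ 2 * ε * n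
  swap
  · push Not at hw
    apply mkI
    refine ⟨_, hform, le_trans ?_ hbase⟩
    have h2 : ε * n ≤ |((w : ℝ) + 2 / θ) - n| := by
      have h3 : |(w : ℝ) - n| ≤ |((w : ℝ) + 2 / θ) - n| + |2 / θ| := by
        have : (w : ℝ) - n = (((w : ℝ) + 2 / θ) - n) - 2 / θ := by ring
        rw [this]; exact abs_sub _ _
      rw [abs_of_pos hc] at h3
      linarith
    have h4 := young_strict hn hX hε (by linarith) h2
    apply mul_le_mul_of_nonneg_left _ hcoef
    nlinarith
  by_cases hh : |(h : ℝ) - n| ≤ 2 * ε * n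
  swap
  · push Not at hh
    apply mkI
    refine ⟨_, hform, le_trans ?_ hbase⟩
    have h2 : ε * n ≤ |((h : ℝ) + 2 / θ) - n| := by
      have h3 : |(h : ℝ) - n| ≤ |((h : ℝ) + 2 / θ) - n| + |2 / θ| := by
        have : (h : ℝ) - n = (((h : ℝ) + 2 / θ) - n) - 2 / θ := by ring
        rw [this]; exact abs_sub _ _
      rw [abs_of_pos hc] at h3
      linarith
    have h4 := young_strict hn hY hε (by linarith) h2
    apply mul_le_mul_of_nonneg_left _ hcoef
    nlinarith
  have hz : ∃ z, InBox a b w h z ∧ ∀ y ∈ G, ¬ (|y.1 - z.1| ≤ r ∧ |y.2 - z.2| ≤ r) := by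
    by_contra hcon
    push Not at hcon
    apply hnot
    exact ⟨a, b, w, h, hB, hw, hh, hcon⟩
  obtain ⟨z, hzB, hzr⟩ := hz
  have hr : ∀ y : Site, |y.1 - z.1| ≤ r → |y.2 - z.2| ≤ r → y ∉ G := fun y h2 h3 h4 =>
    hzr y h4 ⟨h2, h3⟩
  have hzG : z ∉ G := hr z (by simp) (by simp)
  rw [abs_le] at hw hh
  have hw2 : (w : ℝ) + 2 / θ ≤ 2 * n := by nlinarith
  have hh2 : (h : ℝ) + 2 / θ ≤ 2 * n := by nlinarith
  have hwr : r + 2 ≤ w := by
    have : ((r : ℝ) + 2) ≤ w := by nlinarith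
    exact_mod_cast this
  have hhr : r + 2 ≤ h := by
    have : ((r : ℝ) + 2) ≤ h := by nlinarith
    exact_mod_cast this
  have hr0 : 0 < r := by
    have : (0 : ℝ) < r := lt_of_lt_of_le (by positivity) hrn
    exact_mod_cast this
  have hbase6 : (1 - 2 * θ) * β * (6 * n - 8 / θ) ≤ (1 - 2 * θ) * β * ((bdry D).card : ℕ)
      + (lam θ w + lam θ h) * t := by
    refine le_trans ?_ hbase
    apply mul_le_mul_of_nonneg_left _ hcoef
    linarith
  by_cases hzD : z ∈ D
  · -- a hole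
    right
    set H := hole G a b w h z with hH
    have hHD : H ⊆ D := hole_subset_fill hGB hzD hzG
    have hzH : z ∈ H := (mem_hole hGB hzD hzG).2 ReflTransGen.refl
    have hGDH : G ⊆ D \ H := fun y hy => by
      rw [Finset.mem_sdiff]
      exact ⟨hGD hy, fun h2 => hole_disj hGB hzD hzG h2 hy⟩
    have hHfam : H ∈ famF z (bdry H).card :=
      mem_famF.2 ⟨hzH, connF_hole hGB hzD hzG, connF_hole_compl hGB hcG hne hzD hzG, rfl⟩
    have hsq : 4 * (2 * r + 1) ≤ (bdry H).card := card_bdry_square (z := z) (fun y h2 h3 =>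
      (mem_hole hGB hzD hzG).2 (rtg_square hr h2 h3))
    have hbs := bdry_split hGB hzD hzG
    have hform' : FormBd (D \ H) θ (lam θ w + lam θ h) := fun u hu =>
      form_box (D \ H) a b w h (fun x hx => hDB x (Finset.mem_sdiff.1 hx).1) h0 (by linarith) u hu
    have hbDH : f ∈ bevt (D \ H) β t 0 := mem_bevt_of_evtE hfE hGDH (fun y hy hk => by
      obtain ⟨x, hyx, hx⟩ := kap_ne hk
      rw [Finset.mem_sdiff] at hy hx
      by_cases hxD : x ∈ D
      · have hxH : x ∈ H := by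
          by_contra h2; exact hx ⟨hxD, h2⟩
        exact adj_hole hGB hzD hzG hxH hy.2 hyx.symm
      · exact adj_fill hGB hy.1 hxD hyx)
    rw [Set.mem_iUnion]
    refine ⟨(bdry D).card, ?_⟩
    rw [Set.mem_iUnion]
    refine ⟨(bdry H).card, ?_⟩
    unfold typeII
    simp only [Set.mem_iUnion]
    refine ⟨D, hDfam, z, hzD, H, Finset.mem_filter.2 ⟨hHfam, hGDH h0G, hbs, lam θ w + lam θ h,
      hform', ?_⟩, hbDH⟩
    have h5 : (4 : ℝ) * (2 * r + 1) ≤ (bdry H).card := by exact_mod_cast hsq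
    push_cast
    have h6 : κ * n ≤ (bdry H).card := by nlinarith
    have h7 := mul_le_mul_of_nonneg_left h6 hcoef
    nlinarith
  · -- a dent
    apply mkI
    have hav : ∀ y : Site, |y.1 - z.1| ≤ r → |y.2 - z.2| ≤ r → y ∉ D := by
      intro y h2 h3 h4
      rw [hD, mem_fill hGB] at hzD h4
      push Not at hzD
      exact h4 (out_of_rtg (hr y h2 h3) (rtg_symm (rtg_square hr h2 h3)) hzD)
    obtain ⟨hz1, hz2, hz3, hz4⟩ := hzB
    set jm : ℤ := max (z.2 - r) (b + 1) with hjm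
    set jM : ℤ := min (z.2 + r) (b + h) with hjM
    set q : ℕ := r / 3 with hq
    have hjj : (r : ℤ) ≤ jM - jm := by
      rw [hjM, hjm]
      have : (r : ℤ) + 2 ≤ h := by exact_mod_cast hhr
      omega
    have hfd : FormBd D θ (lam θ w + lam θ h + (lam θ (w - (r + 1)) - lam θ w) *
        (lam θ (h - (q + 1)) - lam θ h) /
        ((lam θ (w - (r + 1)) - lam θ w)
          + (Real.pi / (2 * (((jM - q) - (jm + q) : ℤ) : ℝ))) ^ 2)) := by
      intro u hu
      apply form_dent D a b w h (w - (r + 1)) (h - (q + 1)) hDB (z.1 - r) (z.1 + r) (jm + q)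
        (jM - q) (by omega) (by omega) _ (by omega) (by omega) (by omega) (by omega) (by omega)
        (by omega) h0 (by linarith) u hu
      intro x hx ⟨h2, h3, h4, h5⟩
      apply hav x _ _ hx
      · rw [abs_le]; omega
      · rw [abs_le]; omega
    refine ⟨_, hfd, ?_⟩
    have hgain := dent_gain (t := t) h0 h1 hβ hn hnt hρ hρ1 hrn hw2 hh2
      (show (w - (r + 1)) + (r + 1) ≤ w by omega) (show (h - (q + 1)) + (r / 3 + 1) ≤ h by omega)
      (p := (((jM - q) - (jm + q) : ℤ) : ℝ)) (by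
        have h2 : (r : ℤ) ≤ 3 * ((jM - q) - (jm + q)) := by omega
        have h3 : (r : ℝ) ≤ 3 * (((jM - q) - (jm + q) : ℤ) : ℝ) := by exact_mod_cast h2
        linarith)
    rw [add_mul]
    have h6 : (1 - 2 * θ) * β * (κ * n) ≤ ρ ^ 4 / 720 * (β * n) := by
      have h7 : 0 ≤ β * n := by positivity
      calc (1 - 2 * θ) * β * (κ * n) = (1 - 2 * θ) * (κ * (β * n)) := by ring
        _ ≤ (1 - 2 * θ) * (ρ ^ 4 / 720 * (β * n)) := by
            apply mul_le_mul_of_nonneg_left _ (by linarith)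
            exact mul_le_mul_of_nonneg_right hκ2 h7
        _ ≤ 1 * (ρ ^ 4 / 720 * (β * n)) := by
            apply mul_le_mul_of_nonneg_right (by linarith)
            positivity
        _ = _ := by ring
    nlinarith

end Pool.Agent.LT
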