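import Pool.Agent.LT.Upper

/-!
# Edge boundaries: connectivity and counting
-/

namespace Pool.Agent.LT

/-- Edges of the square lattice: `(x, true)` joins `x` to `x + (1,0)`, `(x, false)` joins `x` to
`x + (0,1)`. -/
abbrev Edge : Type := Site × Bool

/-- The direction vector of an edge. -/
def dirv (b : Bool) : Site := if b then (1, 0) else (0, 1)

/-- The edge boundary of `D`. -/
def bdry (D : Finset Site) : Finset Edge :=
  ((D ∪ D.image (fun x => x - dirv true)).filter
      (fun x => ¬ (x ∈ D ↔ x + dirv true ∈ D))).image (fun x => (x, true))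
  ∪ ((D ∪ D.image (fun x => x - dirv false)).filter
      (fun x => ¬ (x ∈ D ↔ x + dirv false ∈ D))).image (fun x => (x, false))

lemma mem_bdry {D : Finset Site} {x : Site} {b : Bool} :
    (x, b) ∈ bdry D ↔ ¬ (x ∈ D ↔ x + dirv b ∈ D) := by
  unfold bdry
  simp only [Finset.mem_union, Finset.mem_image, Finset.mem_filter, Prod.mk.injEq]
  constructor
  · rintro (⟨y, ⟨_, h⟩, rfl, rfl⟩ | ⟨y, ⟨_, h⟩, rfl, rfl⟩) <;> exact h
  · intro h
    have hmem : x ∈ D ∨ ∃ a ∈ D, a - dirv b = x := by
      by_contra hc
      push Not at hc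
      apply h
      constructor
      · intro h1; exact absurd h1 hc.1
      · intro h1; exact absurd (by simp) (hc.2 _ h1)
    cases b
    · right; exact ⟨x, ⟨hmem, h⟩, rfl, rfl⟩
    · left; exact ⟨x, ⟨hmem, h⟩, rfl, rfl⟩

lemma dirv_mem_units (b : Bool) : dirv b ∈ units := by cases b <;> decide

lemma adj_dirv (x : Site) (b : Bool) : Adj x (x + dirv b) := by
  unfold Adj; simpa using dirv_mem_units b

lemma adj_cases {x y : Site} (h : Adj x y) : ∃ b, y = x + dirv b ∨ x = y + dirv b := by
  unfold Adj units at h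
  simp only [Finset.mem_insert, Finset.mem_singleton] at h
  rcases h with h | h | h | h
  · exact ⟨true, Or.inl (by rw [sub_eq_iff_eq_add'] at h; exact h)⟩
  · refine ⟨true, Or.inr ?_⟩
    rw [sub_eq_iff_eq_add'] at h
    rw [h]; ext <;> simp [dirv]
  · exact ⟨false, Or.inl (by rw [sub_eq_iff_eq_add'] at h; exact h)⟩
  · refine ⟨false, Or.inr ?_⟩
    rw [sub_eq_iff_eq_add'] at h
    rw [h]; ext <;> simp [dirv]

/-- The number of boundary edges is at most the number of boundary darts. -/
lemma card_bdry_le (D : Finset Site) : (bdry D).card ≤ bsize D := by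
  have h1 : bsize D = (D.sigma (fun x => units.filter (fun e => x + e ∉ D))).card := by
    rw [Finset.card_sigma]; rfl
  rw [h1]
  apply Finset.card_le_card_of_injOn
    (fun p : Edge => if p.1 ∈ D then (⟨p.1, dirv p.2⟩ : (_ : Site) × Site)
      else ⟨p.1 + dirv p.2, -dirv p.2⟩)
  · rintro ⟨x, b⟩ hp
    have hp' := mem_bdry.1 (Finset.mem_coe.1 hp)
    simp only [Finset.coe_sigma, Set.mem_sigma_iff, Finset.mem_coe, Finset.mem_filter]
    by_cases hx : x ∈ D
    · rw [if_pos hx]
      refine ⟨hx, dirv_mem_units b, ?_⟩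
      intro h; exact hp' (by simp [hx, h])
    · rw [if_neg hx]
      have hy : x + dirv b ∈ D := by
        by_contra hy; exact hp' (by simp [hx, hy])
      refine ⟨hy, units_neg (dirv_mem_units b), ?_⟩
      simpa using hx
  · rintro ⟨x, b⟩ _ ⟨y, c⟩ _ h
    simp only at h
    have hd : ∀ b c, dirv b = dirv c → b = c := by decide
    have hd' : ∀ b c, dirv b ≠ -dirv c := by decide
    split_ifs at h with h1 h2 h2
    · simp only [Sigma.mk.injEq, heq_eq_eq] at h
      exact Prod.ext h.1 (hd _ _ h.2)
    · simp only [Sigma.mk.injEq, heq_eq_eq] at h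
      exact absurd h.2 (hd' _ _)
    · simp only [Sigma.mk.injEq, heq_eq_eq] at h
      exact absurd h.2.symm (hd' _ _)
    · simp only [Sigma.mk.injEq, heq_eq_eq, neg_inj] at h
      have := hd _ _ h.2
      subst this
      exact Prod.ext (by simpa using h.1) rfl

/-- Connectivity of a set of sites: no nontrivial clopen function. -/
def ConnF (S : Set Site) : Prop :=
  ∀ g : Site → Bool, (∀ x ∈ S, ∀ y ∈ S, Adj x y → g x = g y) → ∀ x ∈ S, ∀ y ∈ S, g x = g y

/-- The four edges of a plaquette. -/
def plaq (p : Site) : Finset Edge :=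
  {(p, true), (p + (0, 1), true), (p, false), (p + (1, 0), false)}

/-- The edges sharing a plaquette with a given edge. -/
def nb (a : Edge) : Finset Edge :=
  plaq a.1 ∪ plaq (a.1 - dirv (!a.2))

lemma card_plaq_le (p : Site) : (plaq p).card ≤ 4 := by
  unfold plaq
  exact Finset.card_le_four

lemma card_nb_le (a : Edge) : (nb a).card ≤ 8 := by
  unfold nb
  refine (Finset.card_union_le _ _).trans ?_
  have h1 := card_plaq_le a.1
  have h2 := card_plaq_le (a.1 - dirv (!a.2))
  omega

lemma plaq_subset_nb {p : Site} {a : Edge} (h : a ∈ plaq p) : plaq p ⊆ nb a := by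
  unfold plaq at h
  simp only [Finset.mem_insert, Finset.mem_singleton] at h
  rcases h with h | h | h | h
  · subst h; exact Finset.subset_union_left
  · subst h
    unfold nb
    have : (p + (0, 1), true).1 - dirv (!(p + (0, 1), true).2) = p := by simp [dirv]
    rw [this]
    exact Finset.subset_union_right
  · subst h; exact Finset.subset_union_left
  · subst h
    unfold nb
    have : (p + (1, 0), false).1 - dirv (!(p + (1, 0), false).2) = p := by simp [dirv]
    rw [this]
    exact Finset.subset_union_right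

lemma nb_symm {x y : Edge} (h : y ∈ nb x) : x ∈ nb y := by
  have h1 : x ∈ plaq x.1 := by
    obtain ⟨p, b⟩ := x
    cases b <;> simp [plaq]
  have h2 : x ∈ plaq (x.1 - dirv (!x.2)) := by
    obtain ⟨p, b⟩ := x
    cases b <;> simp [plaq, dirv]
  unfold nb at h
  rw [Finset.mem_union] at h
  rcases h with h | h
  · exact plaq_subset_nb h h1
  · exact plaq_subset_nb h h2

/-- One-dimensional primitive. -/
lemma exists_prim {G : Type*} [AddCommGroup G] (u : ℤ → G) :
    ∃ U : ℤ → G, U 0 = 0 ∧ ∀ i, U (i + 1) = U i + u i := by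
  refine ⟨fun i => match i with
    | Int.ofNat n => ∑ j ∈ Finset.range n, u j
    | Int.negSucc n => -∑ j ∈ Finset.range (n + 1), u (Int.negSucc j), ?_, ?_⟩
  · show ∑ j ∈ Finset.range 0, u j = 0
    simp
  · intro i
    match i with
    | Int.ofNat n =>
      show ∑ j ∈ Finset.range (n + 1), u j = ∑ j ∈ Finset.range n, u j + u n
      rw [Finset.sum_range_succ]
    | Int.negSucc 0 =>
      show ∑ j ∈ Finset.range 0, u j = -∑ j ∈ Finset.range (0 + 1), u (Int.negSucc j)
        + u (Int.negSucc 0)
      simp
    | Int.negSucc (n + 1) =>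
      show -∑ j ∈ Finset.range (n + 1), u (Int.negSucc j)
        = -∑ j ∈ Finset.range (n + 1 + 1), u (Int.negSucc j) + u (Int.negSucc (n + 1))
      rw [Finset.sum_range_succ _ (n + 1)]
      abel

/-- Closed cochains mod 2 on the square lattice are exact. -/
lemma exists_potential (c : Edge → ZMod 2)
    (hc : ∀ p : Site, c (p, true) + c (p + (0, 1), true) + c (p, false) + c (p + (1, 0), false)
      = 0) :
    ∃ g : Site → ZMod 2, ∀ x b, g (x + dirv b) = g x + c (x, b) := by
  obtain ⟨H, _, hH⟩ := exists_prim (fun i => c ((i, 0), true))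
  choose V hV0 hV using fun i : ℤ => exists_prim (fun j => c ((i, j), false))
  refine ⟨fun x => H x.1 + V x.1 x.2, ?_⟩
  rintro ⟨x, y⟩ b
  cases b
  · simp only [dirv]
    show H (x + 0) + V (x + 0) (y + 1) = H x + V x y + c ((x, y), false)
    rw [add_zero, hV x y]
    ring
  · simp only [dirv]
    show H (x + 1) + V (x + 1) (y + 0) = H x + V x y + c ((x, y), true)
    rw [add_zero]
    -- induction on y
    have key : ∀ y : ℤ, H (x + 1) + V (x + 1) y = H x + V x y + c ((x, y), true) := by
      intro y
      induction y using Int.induction_on with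
      | zero => rw [hV0, hV0, hH x]; ring
      | succ i ih =>
        have h1 := hc (x, (i : ℤ))
        have e1 : ((x, (i : ℤ)) : Site) + (0, 1) = (x, (i : ℤ) + 1) := by simp
        have e2 : ((x, (i : ℤ)) : Site) + (1, 0) = (x + 1, (i : ℤ)) := by simp
        rw [e1, e2] at h1
        rw [hV (x + 1) i, hV x i]
        have h2 : c ((x + 1, (i : ℤ)), false)
            = -(c ((x, (i : ℤ)), true) + c ((x, (i : ℤ) + 1), true) + c ((x, (i : ℤ)), false)) := by
          rw [eq_neg_iff_add_eq_zero, add_comm]; exact h1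
        have h3 : ∀ z : ZMod 2, -z = z := by decide
        rw [h3] at h2
        rw [h2]
        have h4 : ∀ z : ZMod 2, z + z = 0 := by decide
        calc H (x + 1) + (V (x + 1) i + (c ((x, (i : ℤ)), true) + c ((x, (i : ℤ) + 1), true)
              + c ((x, (i : ℤ)), false)))
            = (H (x + 1) + V (x + 1) i) + c ((x, (i : ℤ)), true) + c ((x, (i : ℤ) + 1), true)
              + c ((x, (i : ℤ)), false) := by ring
          _ = (H x + V x i) + (c ((x, (i : ℤ)), true) + c ((x, (i : ℤ)), true))
              + c ((x, (i : ℤ) + 1), true) + c ((x, (i : ℤ)), false) := by rw [ih]; ring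
          _ = _ := by rw [h4]; ring
      | pred i ih =>
        have h1 := hc (x, (-(i : ℤ) - 1))
        have e1 : ((x, (-(i : ℤ) - 1)) : Site) + (0, 1) = (x, -(i : ℤ)) := by simp
        have e2 : ((x, (-(i : ℤ) - 1)) : Site) + (1, 0) = (x + 1, -(i : ℤ) - 1) := by simp
        rw [e1, e2] at h1
        have g1 := hV (x + 1) (-(i : ℤ) - 1)
        have g2 := hV x (-(i : ℤ) - 1)
        have e3 : -(i : ℤ) - 1 + 1 = -(i : ℤ) := by ring
        rw [e3] at g1 g2
        rw [g1, g2] at ih
        have h3 : ∀ z : ZMod 2, -z = z := by decide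
        have h4 : ∀ z : ZMod 2, z + z = 0 := by decide
        have h2 : c ((x + 1, (-(i : ℤ) - 1)), false)
            = c ((x, (-(i : ℤ) - 1)), true) + c ((x, -(i : ℤ)), true)
              + c ((x, (-(i : ℤ) - 1)), false) := by
          have : c ((x + 1, (-(i : ℤ) - 1)), false)
            = -(c ((x, (-(i : ℤ) - 1)), true) + c ((x, -(i : ℤ)), true)
              + c ((x, (-(i : ℤ) - 1)), false)) := by
            rw [eq_neg_iff_add_eq_zero, add_comm]; exact h1
          rw [this, h3]
        rw [h2] at ih
        set A1 := c ((x, (-(i : ℤ) - 1)), true)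
        set A2 := c ((x, -(i : ℤ)), true)
        set A3 := c ((x, (-(i : ℤ) - 1)), false)
        have h5 : H (x + 1) + V (x + 1) (-(i : ℤ) - 1) + A1 = H x + V x (-(i : ℤ) - 1) := by
          have : H (x + 1) + V (x + 1) (-(i : ℤ) - 1) + A1 + (A2 + A3)
              = H x + V x (-(i : ℤ) - 1) + (A2 + A3) := by
            calc _ = H (x + 1) + (V (x + 1) (-(i : ℤ) - 1) + (A1 + A2 + A3)) := by ring
              _ = _ := by rw [ih]; ring
          exact add_right_cancel this
        calc H (x + 1) + V (x + 1) (-(i : ℤ) - 1)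
            = H (x + 1) + V (x + 1) (-(i : ℤ) - 1) + (A1 + A1) := by rw [h4, add_zero]
          _ = H (x + 1) + V (x + 1) (-(i : ℤ) - 1) + A1 + A1 := by ring
          _ = _ := by rw [h5]
    exact key y

/-- The boundary of a set which is connected with connected complement is connected through
plaquettes. -/
theorem bdry_connected (D : Finset Site) (hD : ConnF (D : Set Site)) (hDc : ConnF (D : Set Site)ᶜ)
    (T : Finset Edge) (hT : T ⊆ bdry D) (hne : T.Nonempty)
    (hsep : ∀ a ∈ T, ∀ b ∈ bdry D, b ∉ T → b ∉ nb a) : T = bdry D := by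
  classical
  set c : Edge → ZMod 2 := fun a => if a ∈ T then 1 else 0 with hc
  set s : Site → ZMod 2 := fun x => if x ∈ D then 1 else 0 with hs
  have hbd : ∀ x b, (if (x, b) ∈ bdry D then (1 : ZMod 2) else 0) = s x + s (x + dirv b) := by
    intro x b
    simp only [mem_bdry, hs]
    by_cases h1 : x ∈ D <;> by_cases h2 : x + dirv b ∈ D <;> simp [h1, h2] <;> decide
  have hclosed : ∀ p : Site, c (p, true) + c (p + (0, 1), true) + c (p, false)
      + c (p + (1, 0), false) = 0 := by
    intro p
    by_cases hTp : ∃ a ∈ plaq p, a ∈ T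
    · obtain ⟨a, hap, haT⟩ := hTp
      have hall : ∀ b ∈ plaq p, c b = if b ∈ bdry D then (1 : ZMod 2) else 0 := by
        intro b hb
        simp only [hc]
        by_cases hbD : b ∈ bdry D
        · rw [if_pos hbD, if_pos]
          by_contra hbT
          exact hsep a haT b hbD hbT (plaq_subset_nb hap hb)
        · rw [if_neg hbD, if_neg (fun h => hbD (hT h))]
      have m1 : (p, true) ∈ plaq p := by simp [plaq]
      have m2 : (p + (0, 1), true) ∈ plaq p := by simp [plaq]
      have m3 : (p, false) ∈ plaq p := by simp [plaq]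
      have m4 : (p + (1, 0), false) ∈ plaq p := by simp [plaq]
      rw [hall _ m1, hall _ m2, hall _ m3, hall _ m4, hbd, hbd, hbd, hbd]
      have e1 : p + (0, 1) + dirv true = p + (1, 0) + dirv false := by
        simp only [dirv]; ext <;> simp
      have e2 : p + dirv true = p + (1, 0) := rfl
      have e3 : p + dirv false = p + (0, 1) := rfl
      rw [e1, e2, e3]
      have h4 : ∀ z w v t : ZMod 2, z + w + (v + t) + (z + v) + (w + t) = 0 := by decide
      exact h4 _ _ _ _
    · push Not at hTp
      have hall : ∀ b ∈ plaq p, c b = 0 := by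
        intro b hb
        simp only [hc]
        rw [if_neg (hTp b hb)]
      have m1 : (p, true) ∈ plaq p := by simp [plaq]
      have m2 : (p + (0, 1), true) ∈ plaq p := by simp [plaq]
      have m3 : (p, false) ∈ plaq p := by simp [plaq]
      have m4 : (p + (1, 0), false) ∈ plaq p := by simp [plaq]
      rw [hall _ m1, hall _ m2, hall _ m3, hall _ m4]
      rfl
  obtain ⟨g, hg⟩ := exists_potential c hclosed
  -- g is constant on D and on the complement
  have hconst : ∀ S : Set Site, ConnF S → (∀ x ∈ S, ∀ y ∈ S, Adj x y → g x = g y) →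
      ∀ x ∈ S, ∀ y ∈ S, g x = g y := by
    intro S hS hgS x hx y hy
    have h1 := hS (fun z => decide (g z = 0)) (by
      intro x hx y hy hxy
      rw [hgS x hx y hy hxy]) x hx y hy
    have h2 : ∀ a b : ZMod 2, decide (a = 0) = decide (b = 0) → a = b := by decide
    exact h2 _ _ h1
  have hnotbd : ∀ x b, (x ∈ D ↔ x + dirv b ∈ D) → g (x + dirv b) = g x := by
    intro x b h
    rw [hg]
    have : c (x, b) = 0 := by
      simp only [hc]
      rw [if_neg]
      intro h1
      exact (mem_bdry.1 (hT h1)) h
    rw [this, add_zero]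
  have hgD : ∀ x ∈ (D : Set Site), ∀ y ∈ (D : Set Site), g x = g y := by
    apply hconst _ hD
    intro x hx y hy hxy
    obtain ⟨b, h | h⟩ := adj_cases hxy
    · subst h; exact (hnotbd x b (by simp only [Finset.mem_coe] at hx hy; simp [hx, hy])).symm
    · subst h; exact (hnotbd y b (by simp only [Finset.mem_coe] at hx hy; simp [hx, hy]))
  have hgDc : ∀ x ∈ (D : Set Site)ᶜ, ∀ y ∈ (D : Set Site)ᶜ, g x = g y := by
    apply hconst _ hDc
    intro x hx y hy hxy
    obtain ⟨b, h | h⟩ := adj_cases hxy
    · subst h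
      exact (hnotbd x b (by
        simp only [Set.mem_compl_iff, Finset.mem_coe] at hx hy; simp [hx, hy])).symm
    · subst h
      exact (hnotbd y b (by simp only [Set.mem_compl_iff, Finset.mem_coe] at hx hy; simp [hx, hy]))
  obtain ⟨⟨x0, b0⟩, h0⟩ := hne
  have hg0 : g (x0 + dirv b0) ≠ g x0 := by
    rw [hg]
    have : c (x0, b0) = 1 := by simp only [hc]; rw [if_pos h0]
    rw [this]
    have : ∀ z : ZMod 2, z + 1 ≠ z := by decide
    exact this _
  -- values inside and outside differ
  have hio : ∀ x ∈ (D : Set Site), ∀ y ∈ (D : Set Site)ᶜ, g x ≠ g y := by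
    intro x hx y hy
    have h1 := mem_bdry.1 (hT h0)
    by_cases hx0 : x0 ∈ D
    · have hy0 : x0 + dirv b0 ∉ D := fun h => h1 (by simp [hx0, h])
      rw [hgD x hx x0 hx0, hgDc y hy (x0 + dirv b0) hy0]
      exact hg0.symm
    · have hy0 : x0 + dirv b0 ∈ D := by
        by_contra h; exact h1 (by simp [hx0, h])
      rw [hgD x hx (x0 + dirv b0) hy0, hgDc y hy x0 hx0]
      exact hg0
  apply Finset.Subset.antisymm hT
  rintro ⟨x, b⟩ hxb
  by_contra hnT
  have h1 := mem_bdry.1 hxb
  have h2 : g (x + dirv b) = g x := by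
    rw [hg]
    have : c (x, b) = 0 := by simp only [hc]; rw [if_neg hnT]
    rw [this, add_zero]
  by_cases hx : x ∈ D
  · have hy : x + dirv b ∉ D := fun h => h1 (by simp [hx, h])
    exact hio x hx _ hy h2.symm
  · have hy : x + dirv b ∈ D := by
      by_contra h; exact h1 (by simp [hx, h])
    exact hio _ hy x hx h2

/-- Chains of edges starting at `a`. -/
def chainSet : ℕ → Edge → Finset (List Edge)
  | 0, a => {[a]}
  | n + 1, a => (nb a).biUnion (fun b => (chainSet n b).image (fun l => a :: l))

lemma card_chainSet_le (n : ℕ) (a : Edge) : (chainSet n a).card ≤ 8 ^ n := by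
  induction n generalizing a with
  | zero => simp [chainSet]
  | succ n ih =>
    rw [chainSet]
    refine Finset.card_biUnion_le.trans ?_
    calc ∑ b ∈ nb a, ((chainSet n b).image (fun l => a :: l)).card
        ≤ ∑ b ∈ nb a, 8 ^ n := by
          apply Finset.sum_le_sum
          intro b _
          exact Finset.card_image_le.trans (ih b)
      _ = (nb a).card * 8 ^ n := by rw [Finset.sum_const, smul_eq_mul]
      _ ≤ 8 * 8 ^ n := by gcongr; exact card_nb_le a
      _ = 8 ^ (n + 1) := by ring

lemma chainSet_head {n : ℕ} {a : Edge} {l : List Edge} (h : l ∈ chainSet n a) : a ∈ l := by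
  cases n with
  | zero => simp only [chainSet, Finset.mem_singleton] at h; subst h; simp
  | succ n =>
    simp only [chainSet, Finset.mem_biUnion, Finset.mem_image] at h
    obtain ⟨b, _, l', _, rfl⟩ := h
    simp

lemma chainSet_insert {n : ℕ} {a x y : Edge} {l : List Edge} (h : l ∈ chainSet n a) (hx : x ∈ l)
    (hxy : y ∈ nb x) (hyx : x ∈ nb y) :
    ∃ l' ∈ chainSet (n + 2) a, l'.toFinset = insert y l.toFinset := by
  induction n generalizing a l with
  | zero =>
    simp only [chainSet, Finset.mem_singleton] at h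
    subst h
    simp only [List.mem_singleton] at hx
    subst hx
    refine ⟨[x, y, x], ?_, ?_⟩
    · simp only [chainSet, Finset.mem_biUnion, Finset.mem_image, Finset.mem_singleton]
      exact ⟨y, hxy, [y, x], ⟨x, hyx, [x], rfl, rfl⟩, rfl⟩
    · ext z; simp
  | succ n ih =>
    have h' := h
    simp only [chainSet, Finset.mem_biUnion, Finset.mem_image] at h'
    obtain ⟨b, hb, t, ht, rfl⟩ := h'
    rw [List.mem_cons] at hx
    rcases hx with hx | hx
    · subst hx
      refine ⟨x :: y :: (x :: t), ?_, ?_⟩
      · rw [chainSet]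
        simp only [Finset.mem_biUnion, Finset.mem_image]
        refine ⟨y, hxy, y :: (x :: t), ?_, rfl⟩
        rw [chainSet]
        simp only [Finset.mem_biUnion, Finset.mem_image]
        exact ⟨x, hyx, x :: t, h, rfl⟩
      · ext z; simp
    · obtain ⟨t', ht', hte⟩ := ih ht hx
      refine ⟨a :: t', ?_, ?_⟩
      · rw [chainSet]
        simp only [Finset.mem_biUnion, Finset.mem_image]
        exact ⟨b, hb, t', ht', rfl⟩
      · rw [List.toFinset_cons, hte, List.toFinset_cons, Finset.insert_comm]

/-- A connected set of edges is the support of a chain. -/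
lemma exists_chain (S : Finset Edge) (a : Edge) (ha : a ∈ S)
    (hS : ∀ T ⊆ S, T.Nonempty → (∀ x ∈ T, ∀ y ∈ S, y ∉ T → y ∉ nb x) → T = S)
    (hsym : ∀ x y : Edge, y ∈ nb x → x ∈ nb y) :
    ∃ l ∈ chainSet (2 * (S.card - 1)) a, l.toFinset = S := by
  have key : ∀ j : ℕ, j + 1 ≤ S.card → ∃ l ∈ chainSet (2 * j) a, l.toFinset ⊆ S ∧
      l.toFinset.card = j + 1 := by
    intro j
    induction j with
    | zero =>
      intro _
      refine ⟨[a], by simp [chainSet], by simpa using ha, by simp⟩
    | succ j ih =>
      intro hj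
      obtain ⟨l, hl, hlS, hlc⟩ := ih (by omega)
      have hne : l.toFinset ≠ S := by
        intro h; rw [h] at hlc; omega
      have hnon : l.toFinset.Nonempty := by
        rw [← Finset.card_pos, hlc]; omega
      have : ¬ (∀ x ∈ l.toFinset, ∀ y ∈ S, y ∉ l.toFinset → y ∉ nb x) :=
        fun h => hne (hS _ hlS hnon h)
      push Not at this
      obtain ⟨x, hx, y, hyS, hyl, hyx⟩ := this
      obtain ⟨l', hl', hl'e⟩ := chainSet_insert hl (List.mem_toFinset.1 hx) hyx (hsym _ _ hyx)
      refine ⟨l', ?_, ?_, ?_⟩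
      · have : 2 * (j + 1) = 2 * j + 2 := by ring
        rw [this]; exact hl'
      · rw [hl'e]
        exact Finset.insert_subset hyS hlS
      · rw [hl'e, Finset.card_insert_of_notMem hyl, hlc]
  have hc : 1 ≤ S.card := Finset.card_pos.2 ⟨a, ha⟩
  obtain ⟨l, hl, hlS, hlc⟩ := key (S.card - 1) (by omega)
  refine ⟨l, hl, Finset.eq_of_subset_of_card_le hlS (by omega)⟩

end Pool.Agent.LT
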