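import Pool.Agent.LT.BadSum
import Pool.Agent.LT.Form

/-!
# Cost of bad configurations
-/

open MeasureTheory ProbabilityTheory Filter Topology
open scoped NNReal ENNReal

namespace Pool.Agent.LT

lemma lam_ge {θ : ℝ} (h0 : 0 < θ) (h1 : θ ≤ 1 / 2) (w : ℕ) :
    (1 - 2 * θ) * (Real.pi ^ 2 / (w + 2 / θ) ^ 2) ≤ lam θ w := by
  unfold lam
  set X : ℝ := w + 2 / θ with hX
  have hw : (0 : ℝ) ≤ w := Nat.cast_nonneg _
  have hc : 4 ≤ 2 / θ := by rw [le_div_iff₀ h0]; linarith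
  have hXpos : 0 < X := by linarith
  set x : ℝ := Real.pi / X with hx
  have hx0 : 0 < x := by positivity
  have hpi := Real.pi_lt_d2
  have hxθ : x ≤ 2 * θ := by
    rw [hx, div_le_iff₀ hXpos]
    have : 2 * θ * (2 / θ) = 4 := by field_simp; norm_num
    have : 2 * θ * X ≥ 4 := by rw [hX]; nlinarith
    linarith
  have hx1 : x ≤ 1 := by linarith
  have hb := Real.cos_bound (x := x) (by rw [abs_of_pos hx0]; exact hx1)
  rw [abs_le] at hb
  have h2 : Real.cos x ≤ 1 - x ^ 2 / 2 + |x| ^ 4 * (5 / 96) := by linarith [hb.2]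
  rw [abs_of_pos hx0] at h2
  have h3 : Real.pi ^ 2 / X ^ 2 = x ^ 2 := by rw [hx, div_pow]
  rw [h3]
  have h4 : x ^ 2 * (5 / 48) ≤ 2 * θ := by nlinarith
  nlinarith [sq_nonneg x]

lemma lam_diff {θ : ℝ} (h0 : 0 < θ) (h1 : θ ≤ 1 / 2) {w w' : ℕ} (h : w' ≤ w) :
    8 * ((w : ℝ) - w') / (w + 2 / θ) ^ 3 ≤ lam θ w' - lam θ w := by
  unfold lam
  set X : ℝ := w + 2 / θ with hX
  set Y : ℝ := w' + 2 / θ with hY
  have hw : (0 : ℝ) ≤ w' := Nat.cast_nonneg _
  have hww : (w' : ℝ) ≤ w := by exact_mod_cast h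
  have hc : 4 ≤ 2 / θ := by rw [le_div_iff₀ h0]; linarith
  have hYpos : 0 < Y := by linarith
  have hXY : Y ≤ X := by linarith
  have hXpos : 0 < X := by linarith
  set a : ℝ := Real.pi / X with ha
  set b : ℝ := Real.pi / Y with hb
  have hab : a ≤ b := div_le_div_of_nonneg_left Real.pi_pos.le hYpos hXY
  have ha0 : 0 < a := by positivity
  have hb0 : 0 < b := by positivity
  have hb1 : b ≤ Real.pi / 4 := by
    apply div_le_div_of_nonneg_left Real.pi_pos.le (by norm_num); linarith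
  have hpi := Real.pi_pos
  have h2 : Real.cos a - Real.cos b = 2 * Real.sin ((b + a) / 2) * Real.sin ((b - a) / 2) := by
    rw [Real.cos_sub_cos]
    have e1 : (a + b) / 2 = (b + a) / 2 := by ring
    have e2 : (a - b) / 2 = -((b - a) / 2) := by ring
    rw [e1, e2, Real.sin_neg]
    ring
  have h3 : 2 / Real.pi * ((b + a) / 2) ≤ Real.sin ((b + a) / 2) :=
    Real.mul_le_sin (by linarith) (by linarith)
  have h4 : 2 / Real.pi * ((b - a) / 2) ≤ Real.sin ((b - a) / 2) :=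
    Real.mul_le_sin (by linarith) (by linarith)
  have h5 : 0 ≤ 2 / Real.pi * ((b - a) / 2) := by
    apply mul_nonneg (by positivity); linarith
  have h6 : 0 ≤ 2 / Real.pi * ((b + a) / 2) := by positivity
  have h7 : 2 * (2 / Real.pi * ((b + a) / 2)) * (2 / Real.pi * ((b - a) / 2))
      ≤ Real.cos a - Real.cos b := by
    rw [h2]
    have := mul_le_mul h3 h4 h5 (h6.trans h3)
    nlinarith
  have h8 : 2 * (2 / Real.pi * ((b + a) / 2)) * (2 / Real.pi * ((b - a) / 2))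
      = 2 * (1 / Y ^ 2 - 1 / X ^ 2) := by
    rw [ha, hb]
    field_simp
    ring
  have h9 : 2 * (X - Y) / X ^ 3 ≤ 1 / Y ^ 2 - 1 / X ^ 2 := by
    rw [div_sub_div _ _ (by positivity) (by positivity), div_le_div_iff₀ (by positivity) (by positivity)]
    have h10 : 0 ≤ X - Y := by linarith
    have h11 : 2 * Y ^ 2 ≤ X * (X + Y) := by nlinarith
    have h12 : 0 ≤ (X - Y) * X ^ 2 := by positivity
    have h13 := mul_le_mul_of_nonneg_left h11 h12
    nlinarith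
  have h14 : (w : ℝ) - w' = X - Y := by rw [hX, hY]; ring
  rw [h14]
  have h15 : 8 * (X - Y) / X ^ 3 = 4 * (2 * (X - Y) / X ^ 3) := by ring
  rw [h15]
  rw [h8] at h7
  linarith

lemma young {n x : ℝ} (hn : 0 < n) (hx : 0 < x) : 3 * n ≤ 2 * x + n ^ 3 / x ^ 2 := by
  have h1 : 2 * x + n ^ 3 / x ^ 2 - 3 * n = (x - n) ^ 2 * (2 * x + n) / x ^ 2 := by
    field_simp; ring
  have h2 : 0 ≤ (x - n) ^ 2 * (2 * x + n) / x ^ 2 := by positivity
  linarith

lemma young_strict {n x ε : ℝ} (hn : 0 < n) (hx : 0 < x) (hε : 0 < ε) (hε1 : ε ≤ 1)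
    (h : ε * n ≤ |x - n|) : (3 + ε ^ 2 / 4) * n ≤ 2 * x + n ^ 3 / x ^ 2 := by
  have h1 : 2 * x + n ^ 3 / x ^ 2 - 3 * n = (x - n) ^ 2 * (2 * x + n) / x ^ 2 := by
    field_simp; ring
  have h2 : ε ^ 2 / 4 * n ≤ (x - n) ^ 2 * (2 * x + n) / x ^ 2 := by
    rw [le_div_iff₀ (by positivity)]
    rcases le_total n x with hnx | hnx
    · rw [abs_of_nonneg (by linarith)] at h
      -- x ≥ (1+ε) n
      have h3 : ε * x ≤ 2 * (x - n) := by nlinarith
      have h4 : (ε * x) ^ 2 ≤ (2 * (x - n)) ^ 2 := by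
        apply pow_le_pow_left₀ (by positivity) h3
      have h5 : 0 ≤ (x - n) ^ 2 := sq_nonneg _
      nlinarith
    · rw [abs_of_nonpos (by linarith)] at h
      have h3 : (ε * n) ^ 2 ≤ (x - n) ^ 2 := by
        have : (x - n) ^ 2 = (-(x - n)) ^ 2 := by ring
        rw [this]
        apply pow_le_pow_left₀ (by positivity) h
      have h5 : ε ^ 2 * x ^ 2 ≤ (x - n) ^ 2 := by
        have : ε ^ 2 * x ^ 2 ≤ (ε * n) ^ 2 := by
          rw [mul_pow]
          gcongr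
        linarith
      nlinarith [mul_le_mul_of_nonneg_right h5 hn.le, sq_nonneg (x - n)]
  linarith

/-- Base cost. -/
lemma base_cost {θ β n : ℝ} {t : ℝ≥0} (h0 : 0 < θ) (h1 : θ ≤ 1 / 2) (hβ : 0 < β)
    (hnt : β * n ^ 3 = Real.pi ^ 2 * t) {w h ℓ : ℕ} (hℓ : 2 * (w + h) ≤ ℓ) :
    (1 - 2 * θ) * β * ((2 * (w + 2 / θ) + n ^ 3 / (w + 2 / θ) ^ 2)
      + (2 * (h + 2 / θ) + n ^ 3 / (h + 2 / θ) ^ 2) - 8 / θ)
      ≤ (1 - 2 * θ) * β * ℓ + (lam θ w + lam θ h) * t := by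
  have hw := lam_ge h0 h1 w
  have hh := lam_ge h0 h1 h
  have ht : (0 : ℝ) ≤ t := t.coe_nonneg
  have hℓ' : 2 * ((w : ℝ) + h) ≤ ℓ := by exact_mod_cast hℓ
  have h2 : 0 ≤ (1 - 2 * θ) * β := mul_nonneg (by linarith) hβ.le
  have h3 : (1 - 2 * θ) * β * (n ^ 3 / (w + 2 / θ) ^ 2)
      = (1 - 2 * θ) * (Real.pi ^ 2 / (w + 2 / θ) ^ 2) * t := by
    have : β * (n ^ 3 / (w + 2 / θ) ^ 2) = Real.pi ^ 2 * t / (w + 2 / θ) ^ 2 := by
      rw [← hnt]; ring
    rw [mul_assoc, this]; ring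
  have h4 : (1 - 2 * θ) * β * (n ^ 3 / (h + 2 / θ) ^ 2)
      = (1 - 2 * θ) * (Real.pi ^ 2 / (h + 2 / θ) ^ 2) * t := by
    have : β * (n ^ 3 / (h + 2 / θ) ^ 2) = Real.pi ^ 2 * t / (h + 2 / θ) ^ 2 := by
      rw [← hnt]; ring
    rw [mul_assoc, this]; ring
  have h5 := mul_le_mul_of_nonneg_right hw ht
  have h6 := mul_le_mul_of_nonneg_right hh ht
  have h7 := mul_le_mul_of_nonneg_left hℓ' h2
  have h8 : (8 : ℝ) / θ = 2 * (2 / θ) + 2 * (2 / θ) := by ring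
  rw [h8]
  nlinarith

/-- The gain from a dent. -/
lemma dent_gain {θ β n ρ : ℝ} {t : ℝ≥0} (h0 : 0 < θ) (h1 : θ ≤ 1 / 2) (hβ : 0 < β) (hn : 0 < n)
    (hnt : β * n ^ 3 = Real.pi ^ 2 * t) (hρ : 0 < ρ) (hρ1 : ρ ≤ 1) {w h w' h' r : ℕ} {p : ℝ}
    (hrn : ρ * n ≤ r) (hw : (w : ℝ) + 2 / θ ≤ 2 * n) (hh : (h : ℝ) + 2 / θ ≤ 2 * n)
    (hw' : w' + (r + 1) ≤ w) (hh' : h' + (r / 3 + 1) ≤ h) (hp : (r : ℝ) / 3 ≤ p) :
    ρ ^ 4 / 720 * (β * n) ≤ (lam θ w' - lam θ w) * (lam θ h' - lam θ h) /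
      ((lam θ w' - lam θ w) + (Real.pi / (2 * p)) ^ 2) * t := by
  have hd1 := lam_diff h0 h1 (show w' ≤ w by omega)
  have hd2 := lam_diff h0 h1 (show h' ≤ h by omega)
  set δ1 := lam θ w' - lam θ w
  set δ2 := lam θ h' - lam θ h
  have hr0 : 0 < (r : ℝ) := lt_of_lt_of_le (by positivity) hrn
  have hp0 : 0 < p := lt_of_lt_of_le (by positivity) hp
  have hc : 0 < 2 / θ := by positivity
  have hX : 0 < (w : ℝ) + 2 / θ := by positivity
  have hY : 0 < (h : ℝ) + 2 / θ := by positivity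
  have b1 : ρ / n ^ 2 ≤ δ1 := by
    refine le_trans ?_ hd1
    have h2 : (r : ℝ) + 1 ≤ (w : ℝ) - w' := by
      have : ((w' + (r + 1) : ℕ) : ℝ) ≤ w := by exact_mod_cast hw'
      push_cast at this; linarith
    calc ρ / n ^ 2 = 8 * (ρ * n) / (2 * n) ^ 3 := by field_simp; norm_num
      _ ≤ 8 * ((w : ℝ) - w') / (w + 2 / θ) ^ 3 := by
        have h3 : ρ * n ≤ (w : ℝ) - w' := by linarith
        have h4 : 0 ≤ 8 * ((w : ℝ) - w') := by linarith
        gcongr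
  have b2 : ρ / (3 * n ^ 2) ≤ δ2 := by
    refine le_trans ?_ hd2
    have h2 : (r : ℝ) / 3 ≤ (h : ℝ) - h' := by
      have h3 : ((h' + (r / 3 + 1) : ℕ) : ℝ) ≤ h := by exact_mod_cast hh'
      push_cast at h3
      have h4 : (r : ℝ) / 3 ≤ ((r / 3 : ℕ) : ℝ) + 1 := by
        have : r < 3 * (r / 3 + 1) := by omega
        have h5 : (r : ℝ) < 3 * (((r / 3 : ℕ) : ℝ) + 1) := by exact_mod_cast this
        linarith
      linarith
    calc ρ / (3 * n ^ 2) = 8 * (ρ * n / 3) / (2 * n) ^ 3 := by field_simp; norm_num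
      _ ≤ 8 * ((h : ℝ) - h') / (h + 2 / θ) ^ 3 := by
        have h3 : ρ * n / 3 ≤ (h : ℝ) - h' := by linarith
        have h4 : 0 ≤ 8 * ((h : ℝ) - h') := by linarith
        gcongr
  set η := (Real.pi / (2 * p)) ^ 2 with hη
  have b3 : η ≤ 23 / (ρ ^ 2 * n ^ 2) := by
    have h3 : Real.pi / (2 * p) ≤ 3 * Real.pi / (2 * (ρ * n)) := by
      rw [div_le_div_iff₀ (by positivity) (by positivity)]
      have : ρ * n / 3 ≤ p := le_trans (by gcongr) hp
      nlinarith [Real.pi_pos]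
    calc η ≤ (3 * Real.pi / (2 * (ρ * n))) ^ 2 := by rw [hη]; gcongr
      _ = (9 * Real.pi ^ 2 / 4) / (ρ ^ 2 * n ^ 2) := by field_simp; ring
      _ ≤ 23 / (ρ ^ 2 * n ^ 2) := by
        gcongr
        have := Real.pi_lt_d2
        have := Real.pi_pos
        nlinarith
  have hη0 : 0 < η := by rw [hη]; have := Real.pi_pos; positivity
  have hd1pos : 0 < δ1 := lt_of_lt_of_le (by positivity) b1
  have hd2pos : 0 < δ2 := lt_of_lt_of_le (by positivity) b2
  have b4 : ρ ^ 3 / 24 ≤ δ1 / (δ1 + η) := by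
    rw [div_le_div_iff₀ (by norm_num) (by positivity)]
    have h3 : ρ ^ 3 * η ≤ 23 * (ρ / n ^ 2) := by
      calc ρ ^ 3 * η ≤ ρ ^ 3 * (23 / (ρ ^ 2 * n ^ 2)) := by gcongr
        _ = 23 * (ρ / n ^ 2) := by field_simp
    have h4 : ρ ^ 3 ≤ 1 := pow_le_one₀ hρ.le hρ1
    nlinarith
  have b5 : ρ ^ 4 / (72 * n ^ 2) ≤ δ1 * δ2 / (δ1 + η) := by
    calc ρ ^ 4 / (72 * n ^ 2) = ρ ^ 3 / 24 * (ρ / (3 * n ^ 2)) := by field_simp; norm_num
      _ ≤ δ1 / (δ1 + η) * δ2 := by gcongr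
      _ = _ := by ring
  have ht : (t : ℝ) = β * n ^ 3 / Real.pi ^ 2 := by
    have := Real.pi_pos
    field_simp
    linarith
  calc ρ ^ 4 / 720 * (β * n) ≤ ρ ^ 4 / (72 * n ^ 2) * t := by
        rw [ht]
        have h3 : Real.pi ^ 2 ≤ 10 := by
          have := Real.pi_lt_d2
          have := Real.pi_pos
          nlinarith
        have hpi : 0 < Real.pi ^ 2 := by have := Real.pi_pos; positivity
        have : ρ ^ 4 / (72 * n ^ 2) * (β * n ^ 3 / Real.pi ^ 2)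
            = ρ ^ 4 * (β * n) / 72 / Real.pi ^ 2 := by field_simp
        rw [this, le_div_iff₀ hpi]
        have h4 : 0 ≤ ρ ^ 4 * (β * n) := by positivity
        nlinarith
    _ ≤ _ := by gcongr

/-- Projections of connected sets are intervals. -/
lemma proj_fst {R : Finset Site} (hR : ConnF (R : Set Site)) {i j k : ℤ} (hi : ∃ x ∈ R, x.1 = i)
    (hj : ∃ x ∈ R, x.1 = j) (h1 : i ≤ k) (h2 : k ≤ j) : ∃ x ∈ R, x.1 = k := by
  by_contra hc
  push Not at hc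
  obtain ⟨x, hx, hxi⟩ := hi
  obtain ⟨y, hy, hyj⟩ := hj
  have h3 := hR (fun z => decide (z.1 < k)) (by
    intro p hp q hq hpq
    have hp' := hc p hp
    have hq' := hc q hq
    have h4 : |q.1 - p.1| ≤ 1 := by
      unfold Adj units at hpq
      simp only [Finset.mem_insert, Finset.mem_singleton, Prod.ext_iff, Prod.fst_sub] at hpq
      rw [abs_le]
      rcases hpq with h | h | h | h <;> constructor <;> have := h.1 <;> omega
    rw [abs_le] at h4
    have : (p.1 < k) ↔ (q.1 < k) := by omega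
    simp only [this]) x hx y hy
  have h4 : x.1 < k := by
    have := hc x hx
    omega
  have h5 : ¬ y.1 < k := by
    have := hc y hy
    omega
  simp only [h4, h5, decide_true, decide_false] at h3
  exact absurd h3 (by decide)

lemma proj_snd {R : Finset Site} (hR : ConnF (R : Set Site)) {i j k : ℤ} (hi : ∃ x ∈ R, x.2 = i)
    (hj : ∃ x ∈ R, x.2 = j) (h1 : i ≤ k) (h2 : k ≤ j) : ∃ x ∈ R, x.2 = k := by
  by_contra hc
  push Not at hc
  obtain ⟨x, hx, hxi⟩ := hi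
  obtain ⟨y, hy, hyj⟩ := hj
  have h3 := hR (fun z => decide (z.2 < k)) (by
    intro p hp q hq hpq
    have hp' := hc p hp
    have hq' := hc q hq
    have h4 : |q.2 - p.2| ≤ 1 := by
      unfold Adj units at hpq
      simp only [Finset.mem_insert, Finset.mem_singleton, Prod.ext_iff, Prod.snd_sub] at hpq
      rw [abs_le]
      rcases hpq with h | h | h | h <;> constructor <;> have := h.2 <;> omega
    rw [abs_le] at h4
    have : (p.2 < k) ↔ (q.2 < k) := by omega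
    simp only [this]) x hx y hy
  have h4 : x.2 < k := by
    have := hc x hx
    omega
  have h5 : ¬ y.2 < k := by
    have := hc y hy
    omega
  simp only [h4, h5, decide_true, decide_false] at h3
  exact absurd h3 (by decide)

/-- The set `R` has bounding box `[a+1,a+w] × [b+1,b+h]`. -/
structure BBox (R : Finset Site) (a b : ℤ) (w h : ℕ) : Prop where
  inb : ∀ x ∈ R, InBox a b w h x
  left : ∃ x ∈ R, x.1 = a + 1
  right : ∃ x ∈ R, x.1 = a + w
  bot : ∃ x ∈ R, x.2 = b + 1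
  top : ∃ x ∈ R, x.2 = b + h

lemma exists_bbox {R : Finset Site} (hne : R.Nonempty) : ∃ a b w h, BBox R a b w h := by
  obtain ⟨x1, hx1, h1⟩ := R.exists_min_image Prod.fst hne
  obtain ⟨x2, hx2, h2⟩ := R.exists_max_image Prod.fst hne
  obtain ⟨y1, hy1, h3⟩ := R.exists_min_image Prod.snd hne
  obtain ⟨y2, hy2, h4⟩ := R.exists_max_image Prod.snd hne
  refine ⟨x1.1 - 1, y1.2 - 1, (x2.1 - x1.1 + 1).toNat, (y2.2 - y1.2 + 1).toNat, ?_, ⟨x1, hx1, by ring⟩,
    ⟨x2, hx2, ?_⟩, ⟨y1, hy1, by ring⟩, ⟨y2, hy2, ?_⟩⟩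
  · intro x hx
    have a1 := h1 x hx
    have a2 := h2 x hx
    have a3 := h3 x hx
    have a4 := h4 x hx
    have a5 := h1 x2 hx2
    have a6 := h3 y2 hy2
    unfold InBox
    omega
  · have a5 := h1 x2 hx2
    omega
  · have a6 := h3 y2 hy2
    omega

lemma bbox_perim {R D : Finset Site} {a b : ℤ} {w h : ℕ} (hb : BBox R a b w h)
    (hR : ConnF (R : Set Site)) (hRD : R ⊆ D) : 2 * (w + h) ≤ (bdry D).card := by
  have h1 : w ≤ (D.image Prod.fst).card := by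
    have h2 : Finset.Icc (a + 1) (a + w) ⊆ D.image Prod.fst := by
      intro i hi
      rw [Finset.mem_Icc] at hi
      obtain ⟨x, hx, hxi⟩ := proj_fst hR hb.left hb.right hi.1 hi.2
      exact Finset.mem_image.2 ⟨x, hRD hx, hxi⟩
    have h3 := Finset.card_le_card h2
    rw [Int.card_Icc] at h3
    omega
  have h4 : h ≤ (D.image Prod.snd).card := by
    have h2 : Finset.Icc (b + 1) (b + h) ⊆ D.image Prod.snd := by
      intro i hi
      rw [Finset.mem_Icc] at hi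
      obtain ⟨x, hx, hxi⟩ := proj_snd hR hb.bot hb.top hi.1 hi.2
      exact Finset.mem_image.2 ⟨x, hRD hx, hxi⟩
    have h3 := Finset.card_le_card h2
    rw [Int.card_Icc] at h3
    omega
  have h5 := perim D
  omega

/-- The nice event. -/
def Nice (n ε : ℝ) (r : ℕ) (t : ℝ≥0) (f : WP) : Prop :=
  ∃ a b w h, BBox (rangeF t f) a b w h ∧ |(w : ℝ) - n| ≤ 2 * ε * n ∧ |(h : ℝ) - n| ≤ 2 * ε * n ∧
    ∀ z, InBox a b w h z → ∃ y ∈ rangeF t f, |y.1 - z.1| ≤ r ∧ |y.2 - z.2| ≤ r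

end Pool.Agent.LT
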