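import Pool.Agent.LT.Contour

/-!
# Perimeter bounds and counting of contours
-/

namespace Pool.Agent.LT

lemma col_edges (D : Finset Site) {i : ℤ} (hi : i ∈ D.image Prod.fst) :
    2 ≤ ((bdry D).filter (fun e => e.2 = false ∧ e.1.1 = i)).card := by
  set Y := (D.filter (fun x => x.1 = i)).image Prod.snd with hY
  have hmemY : ∀ y, y ∈ Y ↔ (i, y) ∈ D := by
    intro y
    simp only [hY, Finset.mem_image, Finset.mem_filter]
    constructor
    · rintro ⟨x, ⟨hx, h1⟩, h2⟩
      have : x = (i, y) := Prod.ext h1 h2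
      rwa [this] at hx
    · intro h; exact ⟨(i, y), ⟨h, rfl⟩, rfl⟩
  have hne : Y.Nonempty := by
    obtain ⟨x, hx, h1⟩ := Finset.mem_image.1 hi
    exact ⟨x.2, (hmemY _).2 (by rw [← h1]; exact hx)⟩
  set M := Y.max' hne
  set m := Y.min' hne
  have hM : (i, M) ∈ D := (hmemY _).1 (Y.max'_mem hne)
  have hm : (i, m) ∈ D := (hmemY _).1 (Y.min'_mem hne)
  have hM' : (i, M + 1) ∉ D := by
    intro h
    have := Y.le_max' _ ((hmemY _).2 h)
    change M + 1 ≤ M at this
    omega
  have hm' : (i, m - 1) ∉ D := by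
    intro h
    have := Y.min'_le _ ((hmemY _).2 h)
    change m ≤ m - 1 at this
    omega
  have hmM : m ≤ M := Y.min'_le _ (Y.max'_mem hne)
  have e1 : ((i, M), false) ∈ bdry D := by
    rw [mem_bdry]
    have : ((i, M) : Site) + dirv false = (i, M + 1) := by simp [dirv]
    rw [this]
    simp [hM, hM']
  have e2 : ((i, m - 1), false) ∈ bdry D := by
    rw [mem_bdry]
    have : ((i, m - 1) : Site) + dirv false = (i, m) := by simp [dirv]
    rw [this]
    simp [hm, hm']
  apply Finset.one_lt_card.2
  refine ⟨((i, M), false), Finset.mem_filter.2 ⟨e1, rfl, rfl⟩, ((i, m - 1), false),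
    Finset.mem_filter.2 ⟨e2, rfl, rfl⟩, ?_⟩
  intro h
  simp only [Prod.mk.injEq, true_and, and_true] at h
  omega

lemma row_edges (D : Finset Site) {j : ℤ} (hj : j ∈ D.image Prod.snd) :
    2 ≤ ((bdry D).filter (fun e => e.2 = true ∧ e.1.2 = j)).card := by
  set Y := (D.filter (fun x => x.2 = j)).image Prod.fst with hY
  have hmemY : ∀ y, y ∈ Y ↔ (y, j) ∈ D := by
    intro y
    simp only [hY, Finset.mem_image, Finset.mem_filter]
    constructor
    · rintro ⟨x, ⟨hx, h1⟩, h2⟩
      have : x = (y, j) := Prod.ext h2 h1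
      rwa [this] at hx
    · intro h; exact ⟨(y, j), ⟨h, rfl⟩, rfl⟩
  have hne : Y.Nonempty := by
    obtain ⟨x, hx, h1⟩ := Finset.mem_image.1 hj
    exact ⟨x.1, (hmemY _).2 (by rw [← h1]; exact hx)⟩
  set M := Y.max' hne
  set m := Y.min' hne
  have hM : (M, j) ∈ D := (hmemY _).1 (Y.max'_mem hne)
  have hm : (m, j) ∈ D := (hmemY _).1 (Y.min'_mem hne)
  have hM' : (M + 1, j) ∉ D := by
    intro h
    have := Y.le_max' _ ((hmemY _).2 h)
    change M + 1 ≤ M at this
    omega
  have hm' : (m - 1, j) ∉ D := by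
    intro h
    have := Y.min'_le _ ((hmemY _).2 h)
    change m ≤ m - 1 at this
    omega
  have hmM : m ≤ M := Y.min'_le _ (Y.max'_mem hne)
  have e1 : ((M, j), true) ∈ bdry D := by
    rw [mem_bdry]
    have : ((M, j) : Site) + dirv true = (M + 1, j) := by simp [dirv]
    rw [this]
    simp [hM, hM']
  have e2 : ((m - 1, j), true) ∈ bdry D := by
    rw [mem_bdry]
    have : ((m - 1, j) : Site) + dirv true = (m, j) := by simp [dirv]
    rw [this]
    simp [hm, hm']
  apply Finset.one_lt_card.2
  refine ⟨((M, j), true), Finset.mem_filter.2 ⟨e1, rfl, rfl⟩, ((m - 1, j), true),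
    Finset.mem_filter.2 ⟨e2, rfl, rfl⟩, ?_⟩
  intro h
  simp only [Prod.mk.injEq, and_true] at h
  omega

lemma perim (D : Finset Site) :
    2 * (D.image Prod.fst).card + 2 * (D.image Prod.snd).card ≤ (bdry D).card := by
  have h1 : 2 * (D.image Prod.fst).card ≤ ((bdry D).filter (fun e => e.2 = false)).card := by
    have h2 : ((D.image Prod.fst).biUnion
        (fun i => (bdry D).filter (fun e => e.2 = false ∧ e.1.1 = i))).card
        = ∑ i ∈ D.image Prod.fst, ((bdry D).filter (fun e => e.2 = false ∧ e.1.1 = i)).card := by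
      apply Finset.card_biUnion
      intro i _ j _ hij
      simp only [Function.onFun]
      rw [Finset.disjoint_left]
      intro e he he'
      exact hij ((Finset.mem_filter.1 he).2.2.symm.trans (Finset.mem_filter.1 he').2.2)
    calc 2 * (D.image Prod.fst).card = ∑ _i ∈ D.image Prod.fst, 2 := by
          rw [Finset.sum_const, smul_eq_mul, mul_comm]
      _ ≤ ∑ i ∈ D.image Prod.fst, ((bdry D).filter (fun e => e.2 = false ∧ e.1.1 = i)).card :=
          Finset.sum_le_sum (fun i hi => col_edges D hi)
      _ = _ := h2.symm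
      _ ≤ _ := by
          apply Finset.card_le_card
          intro e he
          obtain ⟨i, _, hi⟩ := Finset.mem_biUnion.1 he
          have := Finset.mem_filter.1 hi
          exact Finset.mem_filter.2 ⟨this.1, this.2.1⟩
  have h3 : 2 * (D.image Prod.snd).card ≤ ((bdry D).filter (fun e => e.2 = true)).card := by
    have h2 : ((D.image Prod.snd).biUnion
        (fun i => (bdry D).filter (fun e => e.2 = true ∧ e.1.2 = i))).card
        = ∑ i ∈ D.image Prod.snd, ((bdry D).filter (fun e => e.2 = true ∧ e.1.2 = i)).card := by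
      apply Finset.card_biUnion
      intro i _ j _ hij
      simp only [Function.onFun]
      rw [Finset.disjoint_left]
      intro e he he'
      exact hij ((Finset.mem_filter.1 he).2.2.symm.trans (Finset.mem_filter.1 he').2.2)
    calc 2 * (D.image Prod.snd).card = ∑ _i ∈ D.image Prod.snd, 2 := by
          rw [Finset.sum_const, smul_eq_mul, mul_comm]
      _ ≤ ∑ i ∈ D.image Prod.snd, ((bdry D).filter (fun e => e.2 = true ∧ e.1.2 = i)).card :=
          Finset.sum_le_sum (fun i hi => row_edges D hi)
      _ = _ := h2.symm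
      _ ≤ _ := by
          apply Finset.card_le_card
          intro e he
          obtain ⟨i, _, hi⟩ := Finset.mem_biUnion.1 he
          have := Finset.mem_filter.1 hi
          exact Finset.mem_filter.2 ⟨this.1, this.2.1⟩
  have h4 : ((bdry D).filter (fun e => e.2 = false)).card
      + ((bdry D).filter (fun e => e.2 = true)).card ≤ (bdry D).card := by
    rw [← Finset.card_union_of_disjoint]
    · apply Finset.card_le_card
      intro e he
      rcases Finset.mem_union.1 he with h | h <;> exact (Finset.mem_filter.1 h).1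
    · rw [Finset.disjoint_left]
      intro e he he'
      have h5 := (Finset.mem_filter.1 he).2
      have h6 := (Finset.mem_filter.1 he').2
      rw [h5] at h6
      exact absurd h6 (by decide)
  omega

/-- The ray to the right leaves `D`. -/
lemma ray_leaves (D : Finset Site) (z : Site) : ∃ k : ℕ, z + ((k : ℤ), 0) ∉ D := by
  by_contra hc
  push Not at hc
  have hinj : Function.Injective (fun k : ℕ => z + (((k : ℤ), 0) : Site)) := by
    intro k l h
    simp only [add_right_inj, Prod.mk.injEq, and_true] at h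
    exact_mod_cast h
  exact absurd (Set.infinite_range_of_injective hinj) (by
    rw [Set.not_infinite]
    apply D.finite_toSet.subset
    rintro x ⟨k, rfl⟩
    exact hc k)

lemma anchor (D : Finset Site) {z : Site} (hz : z ∈ D) :
    ∃ k < (bdry D).card, (z + ((k : ℤ), 0), true) ∈ bdry D := by
  have hex := ray_leaves D z
  classical
  set K := Nat.find hex with hK
  have hKn : z + ((K : ℤ), 0) ∉ D := Nat.find_spec hex
  have hlt : ∀ j < K, z + ((j : ℤ), 0) ∈ D := by
    intro j hj
    have := Nat.find_min hex hj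
    push Not at this
    exact this
  have hK0 : K ≠ 0 := by
    intro h
    rw [h] at hKn
    apply hKn
    have e0 : z + (((0 : ℕ) : ℤ), (0 : ℤ)) = z := by ext <;> simp
    rw [e0]; exact hz
  refine ⟨K - 1, ?_, ?_⟩
  · have h1 : K ≤ (D.image Prod.fst).card := by
      have : (Finset.range K).card ≤ (D.image Prod.fst).card := by
        apply Finset.card_le_card_of_injOn (fun j : ℕ => z.1 + (j : ℤ))
        · intro j hj
          have hj' := hlt j (Finset.mem_range.1 (Finset.mem_coe.1 hj))
          exact Finset.mem_coe.2 (Finset.mem_image.2 ⟨_, hj', by simp⟩)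
        · intro i _ j _ h
          simp only [add_right_inj] at h
          exact_mod_cast h
      simpa using this
    have h2 := perim D
    omega
  · rw [mem_bdry]
    have h1 : z + (((K - 1 : ℕ) : ℤ), 0) + dirv true = z + ((K : ℤ), 0) := by
      simp only [dirv, add_assoc]
      congr 1
      have : ((K - 1 : ℕ) : ℤ) + 1 = K := by omega
      ext
      · simpa using this
      · simp
    rw [h1]
    have h2 := hlt (K - 1) (by omega)
    simp [h2, hKn]

lemma bdry_inj {D D' : Finset Site} (h : bdry D = bdry D') : D = D' := by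
  by_contra hne
  have hex : ∃ x, ¬ (x ∈ D ↔ x ∈ D') := by
    by_contra hc
    push Not at hc
    exact hne (Finset.ext hc)
  obtain ⟨x, hx⟩ := hex
  have hk : ∀ k : ℕ, ¬ (x + ((k : ℤ), 0) ∈ D ↔ x + ((k : ℤ), 0) ∈ D') := by
    intro k
    induction k with
    | zero =>
      have e0 : x + (((0 : ℕ) : ℤ), (0 : ℤ)) = x := by ext <;> simp
      rw [e0]; exact hx
    | succ k ih =>
      have h1 : (x + ((k : ℤ), 0), true) ∈ bdry D ↔ (x + ((k : ℤ), 0), true) ∈ bdry D' := by
        rw [h]
      rw [mem_bdry, mem_bdry] at h1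
      have e1 : x + ((k : ℤ), 0) + dirv true = x + (((k + 1 : ℕ) : ℤ), 0) := by
        simp only [dirv, add_assoc]
        congr 1
      rw [e1] at h1
      tauto
  obtain ⟨k, hk'⟩ := ray_leaves (D ∪ D') x
  rw [Finset.mem_union] at hk'
  push Not at hk'
  exact hk k (by simp [hk'.1, hk'.2])

/-- Sets with connected boundary of given size containing a given site. -/
def Fam (z : Site) (ℓ : ℕ) : Set (Finset Site) :=
  {D | z ∈ D ∧ ConnF (D : Set Site) ∧ ConnF (D : Set Site)ᶜ ∧ (bdry D).card = ℓ}

/-- The target of the counting injection. -/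
def target (z : Site) (ℓ : ℕ) : Finset (Finset Edge) :=
  (Finset.range ℓ).biUnion (fun k : ℕ =>
    (chainSet (2 * (ℓ - 1)) (z + ((k : ℤ), 0), true)).image List.toFinset)

lemma card_target_le (z : Site) (ℓ : ℕ) : (target z ℓ).card ≤ ℓ * 64 ^ ℓ := by
  unfold target
  refine Finset.card_biUnion_le.trans ?_
  calc ∑ k ∈ Finset.range ℓ, ((chainSet (2 * (ℓ - 1)) (z + ((k : ℤ), 0), true)).image
        List.toFinset).card ≤ ∑ k ∈ Finset.range ℓ, 64 ^ ℓ := by
        apply Finset.sum_le_sum
        intro k _
        refine Finset.card_image_le.trans ((card_chainSet_le _ _).trans ?_)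
        rw [pow_mul]
        norm_num
        apply Nat.pow_le_pow_right (by norm_num)
        omega
    _ = ℓ * 64 ^ ℓ := by rw [Finset.sum_const, Finset.card_range, smul_eq_mul]

lemma fam_maps {z : Site} {ℓ : ℕ} {D : Finset Site} (hD : D ∈ Fam z ℓ) : bdry D ∈ target z ℓ := by
  obtain ⟨hz, hc, hcc, hcard⟩ := hD
  obtain ⟨k, hk, hkb⟩ := anchor D hz
  obtain ⟨l, hl, hle⟩ := exists_chain (bdry D) _ hkb
    (fun T hT hne hsep => bdry_connected D hc hcc T hT hne hsep) (fun x y h => nb_symm h)
  unfold target
  rw [Finset.mem_biUnion]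
  refine ⟨k, Finset.mem_range.2 (by omega), ?_⟩
  rw [Finset.mem_image]
  exact ⟨l, by rw [← hcard]; exact hl, hle⟩

lemma fam_finite (z : Site) (ℓ : ℕ) : (Fam z ℓ).Finite := by
  apply Set.Finite.of_injOn (f := bdry) (t := (target z ℓ : Set (Finset Edge)))
  · intro D hD; exact Finset.mem_coe.2 (fam_maps hD)
  · intro D _ D' _ h; exact bdry_inj h
  · exact Finset.finite_toSet _

/-- The family as a finset. -/
noncomputable def famF (z : Site) (ℓ : ℕ) : Finset (Finset Site) := (fam_finite z ℓ).toFinset

lemma mem_famF {z : Site} {ℓ : ℕ} {D : Finset Site} : D ∈ famF z ℓ ↔ D ∈ Fam z ℓ := by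
  unfold famF; exact Set.Finite.mem_toFinset _

lemma card_famF_le (z : Site) (ℓ : ℕ) : (famF z ℓ).card ≤ ℓ * 64 ^ ℓ := by
  refine le_trans ?_ (card_target_le z ℓ)
  apply Finset.card_le_card_of_injOn bdry
  · intro D hD; exact Finset.mem_coe.2 (fam_maps (mem_famF.1 (Finset.mem_coe.1 hD)))
  · intro D _ D' _ h; exact bdry_inj h

end Pool.Agent.LT
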