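import Pool.Agent.LT.MatExp

/-!
# Decay of the killed semigroup when one site is penalised
-/

open MeasureTheory ProbabilityTheory Filter Topology
open scoped NNReal ENNReal

namespace Pool.Agent.LT

section Mat

variable {ι : Type*} [Fintype ι] [DecidableEq ι]

lemma exp_smul_add (Q : Matrix ι ι ℝ) (a b : ℝ) :
    NormedSpace.exp ((a + b) • Q) = NormedSpace.exp (a • Q) * NormedSpace.exp (b • Q) := by
  rw [add_smul]
  apply Matrix.exp_add_of_commute
  exact (Commute.refl Q).smul_left a |>.smul_right b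

lemma exp_smul_zero (Q : Matrix ι ι ℝ) : NormedSpace.exp ((0 : ℝ) • Q) = 1 := by
  rw [zero_smul, NormedSpace.exp_zero]

/-- The penalised recursion. -/
noncomputable def vrec (Q : Matrix ι ι ℝ) (y : ι) (φ : ι → ℝ) (c : ℝ) : ℕ → ι → ℝ
  | 0 => φ
  | n + 1 => (NormedSpace.exp ((1 : ℝ) • Q)).mulVec (vrec Q y φ c n)
      - Pi.single y (c * vrec Q y φ c n y)

lemma exp_mulVec_single (Q : Matrix ι ι ℝ) (s : ℝ) (y x : ι) (a : ℝ) :
    (NormedSpace.exp (s • Q)).mulVec (Pi.single y a) x = a * NormedSpace.exp (s • Q) x y := by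
  rw [Matrix.mulVec_single]
  simp [mul_comm]

lemma vrec_duhamel (Q : Matrix ι ι ℝ) (y : ι) (φ : ι → ℝ) (c lam : ℝ)
    (hφ : Q.mulVec φ = (-lam) • φ) (n : ℕ) (x : ι) :
    vrec Q y φ c n x = Real.exp (-(n * lam)) * φ x
      - c * ∑ i ∈ Finset.range n, vrec Q y φ c i y
          * NormedSpace.exp (((n - 1 - i : ℕ) : ℝ) • Q) x y := by
  induction n generalizing x with
  | zero => simp [vrec]
  | succ n ih =>
    have hfun : vrec Q y φ c n = Real.exp (-(n * lam)) • φ
        - c • ∑ i ∈ Finset.range n, vrec Q y φ c i y •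
          (NormedSpace.exp (((n - 1 - i : ℕ) : ℝ) • Q)).mulVec (Pi.single y 1) := by
      funext x
      rw [ih x]
      simp only [Pi.sub_apply, Pi.smul_apply, smul_eq_mul, Finset.sum_apply, exp_mulVec_single,
        one_mul]
    have hstep : vrec Q y φ c (n + 1) x = (NormedSpace.exp ((1 : ℝ) • Q)).mulVec (vrec Q y φ c n) x
      - (Pi.single y (c * vrec Q y φ c n y) : ι → ℝ) x := rfl
    rw [hstep]
    have h1 : (NormedSpace.exp ((1 : ℝ) • Q)).mulVec (vrec Q y φ c n) x
        = Real.exp (-((n + 1 : ℕ) * lam)) * φ x - c * ∑ i ∈ Finset.range n, vrec Q y φ c i y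
          * NormedSpace.exp (((n - i : ℕ) : ℝ) • Q) x y := by
      conv_lhs => rw [hfun]
      rw [Matrix.mulVec_sub, Matrix.mulVec_smul, Matrix.mulVec_smul, Matrix.mulVec_sum,
        exp_eigen Q φ (-lam) hφ 1]
      simp only [Pi.sub_apply, Pi.smul_apply, smul_eq_mul, Finset.sum_apply, Matrix.mulVec_smul,
        Matrix.mulVec_mulVec]
      congr 1
      · rw [← mul_assoc, ← Real.exp_add]
        congr 2
        push_cast; ring
      · congr 1
        apply Finset.sum_congr rfl
        intro i hi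
        rw [Finset.mem_range] at hi
        congr 1
        rw [← exp_smul_add]
        have : (1 : ℝ) + ((n - 1 - i : ℕ) : ℝ) = ((n - i : ℕ) : ℝ) := by
          have : n - i = n - 1 - i + 1 := by omega
          rw [this]; push_cast; ring
        rw [this, exp_mulVec_single, one_mul]
    rw [h1, Finset.sum_range_succ]
    have h2 : NormedSpace.exp (((n + 1 - 1 - n : ℕ) : ℝ) • Q) x y = if x = y then 1 else 0 := by
      have : n + 1 - 1 - n = 0 := by omega
      rw [this, Nat.cast_zero, exp_smul_zero, Matrix.one_apply]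
    rw [h2]
    have h3 : ∀ i ∈ Finset.range n, vrec Q y φ c i y * NormedSpace.exp (((n + 1 - 1 - i : ℕ) : ℝ) • Q) x y
        = vrec Q y φ c i y * NormedSpace.exp (((n - i : ℕ) : ℝ) • Q) x y := by
      intro i _
      rw [Nat.add_sub_cancel]
    rw [Finset.sum_congr rfl h3]
    by_cases hxy : x = y
    · subst hxy
      rw [Pi.single_eq_same, if_pos rfl]
      ring
    · rw [Pi.single_eq_of_ne hxy, if_neg hxy]
      ring

variable (Q G : Matrix ι ι ℝ) (y : ι) (φ : ι → ℝ) (c : ℝ)

lemma vrec_nonneg (hG : ∀ x z, 0 ≤ NormedSpace.exp ((1 : ℝ) • G) x z)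
    (h1 : ∀ x z, NormedSpace.exp ((1 : ℝ) • G) x z
      ≤ NormedSpace.exp ((1 : ℝ) • Q) x z - if x = y ∧ z = y then c else 0)
    (hφ0 : ∀ x, 0 ≤ φ x) (n : ℕ) : (∀ x, 0 ≤ vrec Q y φ c n x) ∧
      ∀ x, (NormedSpace.exp ((n : ℝ) • G)).mulVec φ x ≤ vrec Q y φ c n x := by
  induction n with
  | zero =>
    refine ⟨hφ0, fun x => ?_⟩
    rw [Nat.cast_zero, exp_smul_zero, Matrix.one_mulVec]
    exact le_refl _
  | succ n ih =>
    have hstep : ∀ x, vrec Q y φ c (n + 1) x = ∑ z, (NormedSpace.exp ((1 : ℝ) • Q) x z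
        - if x = y ∧ z = y then c else 0) * vrec Q y φ c n z := by
      intro x
      show (NormedSpace.exp ((1 : ℝ) • Q)).mulVec (vrec Q y φ c n) x
        - (Pi.single y (c * vrec Q y φ c n y) : ι → ℝ) x = _
      simp only [sub_mul, Finset.sum_sub_distrib, Matrix.mulVec, dotProduct]
      congr 1
      by_cases hxy : x = y
      · subst hxy
        simp [ite_mul]
      · simp [hxy]
    constructor
    · intro x
      rw [hstep]
      apply Finset.sum_nonneg
      intro z _
      exact mul_nonneg ((hG x z).trans (h1 x z)) (ih.1 z)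
    · intro x
      rw [hstep]
      have : ((n + 1 : ℕ) : ℝ) = 1 + n := by push_cast; ring
      rw [this, exp_smul_add, ← Matrix.mulVec_mulVec, Matrix.mulVec, dotProduct]
      apply Finset.sum_le_sum
      intro z _
      calc NormedSpace.exp ((1 : ℝ) • G) x z * (NormedSpace.exp ((n : ℝ) • G)).mulVec φ z
          ≤ NormedSpace.exp ((1 : ℝ) • G) x z * vrec Q y φ c n z :=
            mul_le_mul_of_nonneg_left (ih.2 z) (hG x z)
        _ ≤ _ := mul_le_mul_of_nonneg_right (h1 x z) (ih.1 z)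

/-- Decay in a window. -/
theorem window_decay (hG : ∀ x z, 0 ≤ NormedSpace.exp ((1 : ℝ) • G) x z)
    (h1 : ∀ x z, NormedSpace.exp ((1 : ℝ) • G) x z
      ≤ NormedSpace.exp ((1 : ℝ) • Q) x z - if x = y ∧ z = y then c else 0)
    (hc : 0 ≤ c) (hφ0 : ∀ x, 0 ≤ φ x) {lam : ℝ} (hlam : 0 ≤ lam)
    (hφ : Q.mulVec φ = (-lam) • φ)
    (hK : ∀ (n : ℕ) x, 0 ≤ NormedSpace.exp ((n : ℝ) • Q) x y) {S a : ℝ} {M : ℕ}
    (hS : ∑ j ∈ Finset.range M, NormedSpace.exp ((j : ℝ) • Q) y y ≤ S) (hS0 : 0 ≤ S) (ha : 0 ≤ a)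
    (hlow : ∀ n : ℕ, M ≤ n → ∀ x, a * (φ x * φ y) * Real.exp (-(n * lam))
      ≤ NormedSpace.exp ((n : ℝ) • Q) x y) (x : ι) :
    (NormedSpace.exp (((2 * M : ℕ) : ℝ) • G)).mulVec φ x
      ≤ (1 - c * a * φ y ^ 2 * M * Real.exp (-(M * lam)) / (1 + c * S))
        * (Real.exp (-((2 * M : ℕ) * lam)) * φ x) := by
  have hv := fun n => vrec_nonneg Q G y φ c hG h1 hφ0 n
  refine ((hv (2 * M)).2 x).trans ?_
  set v := vrec Q y φ c with hvdef
  set W := ∑ i ∈ Finset.range M, v i y with hW
  -- lower bound for W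
  have hWlow : (M : ℝ) * Real.exp (-(M * lam)) * φ y / (1 + c * S) ≤ W := by
    rw [div_le_iff₀ (by positivity)]
    have e1 : ∀ n ∈ Finset.range M, Real.exp (-(n * lam)) * φ y
        = v n y + c * ∑ i ∈ Finset.range n, v i y * NormedSpace.exp (((n - 1 - i : ℕ) : ℝ) • Q) y y := by
      intro n _
      have := vrec_duhamel Q y φ c lam hφ n y
      linarith
    have e2 : ∑ n ∈ Finset.range M, Real.exp (-(n * lam)) * φ y
        = W + c * ∑ n ∈ Finset.range M, ∑ i ∈ Finset.range n,
          v i y * NormedSpace.exp (((n - 1 - i : ℕ) : ℝ) • Q) y y := by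
      rw [Finset.sum_congr rfl e1, Finset.sum_add_distrib, ← Finset.mul_sum]
    have e3 : ∑ n ∈ Finset.range M, ∑ i ∈ Finset.range n,
          v i y * NormedSpace.exp (((n - 1 - i : ℕ) : ℝ) • Q) y y ≤ W * S := by
      have e4 : ∑ n ∈ Finset.range M, ∑ i ∈ Finset.range n,
          v i y * NormedSpace.exp (((n - 1 - i : ℕ) : ℝ) • Q) y y
          = ∑ i ∈ Finset.range M, ∑ n ∈ Finset.Ico (i + 1) M,
          v i y * NormedSpace.exp (((n - 1 - i : ℕ) : ℝ) • Q) y y := by
        simp only [Finset.range_eq_Ico]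
        rw [Finset.sum_Ico_Ico_comm']
      rw [e4, hW, Finset.sum_mul]
      apply Finset.sum_le_sum
      intro i _
      rw [← Finset.mul_sum]
      apply mul_le_mul_of_nonneg_left _ ((hv i).1 y)
      rw [Finset.sum_Ico_eq_sum_range]
      refine le_trans ?_ hS
      have e5 : ∀ j ∈ Finset.range (M - (i + 1)),
          NormedSpace.exp (((i + 1 + j - 1 - i : ℕ) : ℝ) • Q) y y = NormedSpace.exp ((j : ℝ) • Q) y y := by
        intro j _
        have : i + 1 + j - 1 - i = j := by omega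
        rw [this]
      rw [Finset.sum_congr rfl e5]
      apply Finset.sum_le_sum_of_subset_of_nonneg
      · intro j hj
        rw [Finset.mem_range] at hj ⊢
        omega
      · intro j _ _
        exact hK j y
    have e6 : (M : ℝ) * Real.exp (-(M * lam)) * φ y ≤ ∑ n ∈ Finset.range M, Real.exp (-(n * lam)) * φ y := by
      have : ∑ n ∈ Finset.range M, Real.exp (-(M * lam)) * φ y = (M : ℝ) * Real.exp (-(M * lam)) * φ y := by
        rw [Finset.sum_const, Finset.card_range, nsmul_eq_mul]; ring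
      rw [← this]
      apply Finset.sum_le_sum
      intro n hn
      rw [Finset.mem_range] at hn
      apply mul_le_mul_of_nonneg_right _ (hφ0 y)
      apply Real.exp_le_exp.2
      have : (n : ℝ) ≤ M := by exact_mod_cast hn.le
      nlinarith
    have e7 := mul_le_mul_of_nonneg_left e3 hc
    nlinarith
  have hW0 : 0 ≤ W := Finset.sum_nonneg (fun i _ => (hv i).1 y)
  have hdu := vrec_duhamel Q y φ c lam hφ (2 * M) x
  have hsum : a * (φ x * φ y) * Real.exp (-((2 * M : ℕ) * lam)) * W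
      ≤ ∑ i ∈ Finset.range (2 * M), v i y * NormedSpace.exp (((2 * M - 1 - i : ℕ) : ℝ) • Q) x y := by
    calc a * (φ x * φ y) * Real.exp (-((2 * M : ℕ) * lam)) * W
        = ∑ i ∈ Finset.range M, v i y * (a * (φ x * φ y) * Real.exp (-((2 * M : ℕ) * lam))) := by
          rw [← Finset.sum_mul]; ring
      _ ≤ ∑ i ∈ Finset.range M, v i y * NormedSpace.exp (((2 * M - 1 - i : ℕ) : ℝ) • Q) x y := by
          apply Finset.sum_le_sum
          intro i hi
          rw [Finset.mem_range] at hi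
          apply mul_le_mul_of_nonneg_left _ ((hv i).1 y)
          refine le_trans ?_ (hlow (2 * M - 1 - i) (by omega) x)
          apply mul_le_mul_of_nonneg_left
          · apply Real.exp_le_exp.2
            have : ((2 * M - 1 - i : ℕ) : ℝ) ≤ ((2 * M : ℕ) : ℝ) := by
              exact_mod_cast (by omega : 2 * M - 1 - i ≤ 2 * M)
            nlinarith
          · exact mul_nonneg ha (mul_nonneg (hφ0 x) (hφ0 y))
      _ ≤ _ := by
          apply Finset.sum_le_sum_of_subset_of_nonneg
          · intro j hj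
            rw [Finset.mem_range] at hj ⊢
            omega
          · intro j _ _
            exact mul_nonneg ((hv j).1 y) (hK _ x)
  have h5 := mul_le_mul_of_nonneg_left hsum hc
  have h6 : c * (a * (φ x * φ y) * Real.exp (-((2 * M : ℕ) * lam)) *
      ((M : ℝ) * Real.exp (-(M * lam)) * φ y / (1 + c * S)))
      ≤ c * (a * (φ x * φ y) * Real.exp (-((2 * M : ℕ) * lam)) * W) := by
    apply mul_le_mul_of_nonneg_left _ hc
    apply mul_le_mul_of_nonneg_left hWlow
    exact mul_nonneg (mul_nonneg ha (mul_nonneg (hφ0 x) (hφ0 y))) (Real.exp_pos _).le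
  have h7 : (1 - c * a * φ y ^ 2 * M * Real.exp (-(M * lam)) / (1 + c * S))
        * (Real.exp (-((2 * M : ℕ) * lam)) * φ x) = Real.exp (-((2 * M : ℕ) * lam)) * φ x
        - c * (a * (φ x * φ y) * Real.exp (-((2 * M : ℕ) * lam)) *
      ((M : ℝ) * Real.exp (-(M * lam)) * φ y / (1 + c * S))) := by ring
  rw [h7]
  rw [← hvdef] at hdu
  rw [hdu]
  linarith

/-- Iterating a decay bound. -/
lemma iter_decay (hG : ∀ s : ℝ, 0 ≤ s → ∀ x z, 0 ≤ NormedSpace.exp (s • G) x z) {s r : ℝ} (hs : 0 ≤ s)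
    (hr : 0 ≤ r)
    (h : ∀ x, (NormedSpace.exp (s • G)).mulVec φ x ≤ r * φ x) (k : ℕ) (x : ι) :
    (NormedSpace.exp ((k * s) • G)).mulVec φ x ≤ r ^ k * φ x := by
  induction k generalizing x with
  | zero => simp
  | succ k ih =>
    have e : ((k + 1 : ℕ) : ℝ) * s = k * s + s := by push_cast; ring
    rw [e, exp_smul_add, ← Matrix.mulVec_mulVec]
    calc (NormedSpace.exp ((k * s) • G)).mulVec ((NormedSpace.exp (s • G)).mulVec φ) x
        ≤ (NormedSpace.exp ((k * s) • G)).mulVec (r • φ) x := by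
          rw [Matrix.mulVec, Matrix.mulVec, dotProduct, dotProduct]
          apply Finset.sum_le_sum
          intro z _
          apply mul_le_mul_of_nonneg_left (h z) (hG _ (by positivity) x z)
      _ = r * (NormedSpace.exp ((k * s) • G)).mulVec φ x := by
          rw [Matrix.mulVec_smul]; rfl
      _ ≤ r * (r ^ k * φ x) := mul_le_mul_of_nonneg_left (ih x) hr
      _ = r ^ (k + 1) * φ x := by ring

end Mat

end Pool.Agent.LT
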