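import Pool.Agent.LT.Cost

/-!
# Transfer from path space to arbitrary realisations of the walk
-/

open MeasureTheory ProbabilityTheory Filter Topology
open scoped NNReal ENNReal

namespace Pool.Agent.LT

lemma mem_range_iff (t : ℝ≥0) (x : Site) (f : WP) :
    (∃ s, s ≤ t ∧ f.1 s = x) ↔ ∃ N : ℕ, ∃ i : ℕ, i ≤ 2 ^ N ∧ f.1 ((i : ℕ) * (t / 2 ^ N)) = x := by
  constructor
  · rintro ⟨u, hu, hux⟩
    rcases eq_or_lt_of_le hu with hu | hu
    · refine ⟨0, 1, by norm_num, ?_⟩
      rw [← hux, hu]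
      simp
    · have hs : 0 < t := lt_of_le_of_lt zero_le hu
      have hev := gp_tendsto f u (δ := fun N => t / 2 ^ N) (fun N => by positivity)
        (tendsto_div_two_pow t)
      obtain ⟨N, hN⟩ := hev.exists
      refine ⟨N, ⌊u / (t / 2 ^ N)⌋₊ + 1, ?_, ?_⟩
      · have hδ : 0 < t / 2 ^ N := by positivity
        rw [Nat.add_one_le_iff, Nat.floor_lt zero_le, div_lt_iff₀ hδ]
        push_cast
        calc u < t := hu
          _ = 2 ^ N * (t / 2 ^ N) := by field_simp
      · rw [← hux, ← hN]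
        rfl
  · rintro ⟨N, i, hi, hx⟩
    refine ⟨_, ?_, hx⟩
    calc (i : ℝ≥0) * (t / 2 ^ N) ≤ (2 ^ N : ℕ) * (t / 2 ^ N) := by gcongr
      _ = t := by push_cast; field_simp

lemma measurableSet_evtE (β : ℝ) (t : ℝ≥0) : MeasurableSet (evtE β t) := by
  have h1 : evtE β t = {f : WP | ∀ x : Site,
      (∃ N : ℕ, ∃ i : ℕ, i ≤ 2 ^ N ∧ f.1 ((i : ℕ) * (t / 2 ^ N)) = x) →
        β ≤ occ t (fun w => if (0 : Site) + w = x then 1 else 0) f} := by
    ext f
    unfold evtE
    simp only [Set.mem_setOf_eq, mem_rangeF, mem_range_iff]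
  rw [h1]
  simp only [Set.setOf_forall]
  refine MeasurableSet.iInter fun x => ?_
  have h2 : {f : WP | (∃ N : ℕ, ∃ i : ℕ, i ≤ 2 ^ N ∧ f.1 ((i : ℕ) * (t / 2 ^ N)) = x) →
        β ≤ occ t (fun w => if (0 : Site) + w = x then 1 else 0) f}
      = (⋃ N : ℕ, ⋃ i : ℕ, ⋃ _ : i ≤ 2 ^ N, {f : WP | f.1 ((i : ℕ) * (t / 2 ^ N)) = x})ᶜ ∪
        {f : WP | β ≤ occ t (fun w => if (0 : Site) + w = x then 1 else 0) f} := by
    ext f
    simp only [Set.mem_setOf_eq, Set.mem_union, Set.mem_compl_iff, Set.mem_iUnion]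
    constructor
    · intro h
      by_cases h3 : ∃ N : ℕ, ∃ i : ℕ, i ≤ 2 ^ N ∧ f.1 ((i : ℕ) * (t / 2 ^ N)) = x
      · right; exact h h3
      · left
        rintro ⟨N, i, hi, hx⟩
        exact h3 ⟨N, i, hi, hx⟩
    · rintro (h | h) ⟨N, i, hi, hx⟩
      · exact absurd ⟨N, i, hi, hx⟩ h
      · exact h
  rw [h2]
  apply MeasurableSet.union
  · apply MeasurableSet.compl
    refine MeasurableSet.iUnion fun N => MeasurableSet.iUnion fun i => MeasurableSet.iUnion fun _ => ?_
    exact (measurable_eval _) (measurableSet_singleton x)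
  · exact measurableSet_le measurable_const (measurable_occ t _ (ite_bdd 0 x))

section

variable {Ω : Type*} [MeasurableSpace Ω] {P : Measure Ω} {X : ℝ≥0 → Ω → Site}

lemma rangeUpTo_eq (h : IsSRW P X) (t : ℝ≥0) (ω : Ω) :
    rangeUpTo X t ω = (rangeF t (pathOf h.path ω) : Set Site) := by
  ext x
  rw [Finset.mem_coe, mem_rangeF]
  rfl

lemma localTime_eq (h : IsSRW P X) (t : ℝ≥0) (ω : Ω) (x : Site) :
    localTime X t ω x
      = ENNReal.ofReal (occ t (fun w => if (0 : Site) + w = x then 1 else 0) (pathOf h.path ω)) := by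
  set f := pathOf h.path ω with hf
  set S : Set ℝ := {u : ℝ | X u.toNNReal ω = x} with hS
  have hSm : MeasurableSet S := by
    have h1 := measurable_path f (fun z => if z = x then (1 : ℝ) else 0)
    have h2 : S = (fun u : ℝ => if f.1 u.toNNReal = x then (1 : ℝ) else 0) ⁻¹' {1} := by
      ext u
      simp only [hS, Set.mem_setOf_eq, Set.mem_preimage, Set.mem_singleton_iff]
      have : f.1 u.toNNReal = X u.toNNReal ω := rfl
      rw [this]
      split_ifs with h3
      · simp [h3]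
      · simp [h3]
    rw [h2]
    exact h1 (measurableSet_singleton 1)
  have h1 : occ t (fun w => if (0 : Site) + w = x then 1 else 0) f
      = ∫ u in Set.Icc (0 : ℝ) t, S.indicator (fun _ => (1 : ℝ)) u := by
    unfold occ
    rw [intervalIntegral.integral_of_le t.coe_nonneg, integral_Icc_eq_integral_Ioc]
    apply integral_congr_ae
    refine Eventually.of_forall (fun u => ?_)
    have : f.1 u.toNNReal = X u.toNNReal ω := rfl
    simp only [zero_add, this, Set.indicator, hS, Set.mem_setOf_eq]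
  rw [h1, integral_indicator hSm]
  simp only [integral_const, smul_eq_mul, mul_one, measureReal_restrict_apply MeasurableSet.univ,
    Set.univ_inter]
  have hfin : volume (S ∩ Set.Icc (0 : ℝ) t) ≠ ∞ := by
    apply ne_top_of_le_ne_top (b := volume (Set.Icc (0 : ℝ) t))
    · rw [Real.volume_Icc]; exact ENNReal.ofReal_ne_top
    · exact measure_mono Set.inter_subset_right
  rw [measureReal_restrict_apply hSm, ofReal_measureReal (h := hfin)]
  unfold localTime
  congr 1
  ext u
  simp only [Set.mem_setOf_eq, Set.mem_inter_iff, Set.mem_Icc, hS]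
  tauto

lemma evt_eq (h : IsSRW P X) (β : ℝ) (t : ℝ≥0) : evt X β t = pathOf h.path ⁻¹' (evtE β t) := by
  ext ω
  simp only [evt, evtE, Set.mem_setOf_eq, Set.mem_preimage]
  rw [rangeUpTo_eq h]
  simp only [Finset.mem_coe]
  constructor
  · intro h1 x hx
    have h2 := h1 x hx
    rw [localTime_eq h, ENNReal.ofReal_le_ofReal_iff] at h2
    · exact h2
    · exact occ_nonneg _ (fun z => by split_ifs <;> norm_num) _
  · intro h1 x hx
    rw [localTime_eq h]
    exact ENNReal.ofReal_le_ofReal (h1 x hx)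

lemma measurableSet_evt (h : IsSRW P X) (β : ℝ) (t : ℝ≥0) : MeasurableSet (evt X β t) := by
  rw [evt_eq h]
  exact measurable_pathOf h.path h.meas (measurableSet_evtE β t)

lemma prob_evt (h : IsSRW P X) (β : ℝ) (t : ℝ≥0) :
    P (evt X β t) = (P.map (pathOf h.path)) (evtE β t) := by
  rw [evt_eq h, Measure.map_apply (measurable_pathOf h.path h.meas) (measurableSet_evtE β t)]

/-- Conditional probabilities of events which fail on nice paths. -/
lemma cond_le (h : IsSRW P X) {β : ℝ} {t : ℝ≥0} {δ : ℝ} {x ε : ℝ} {r : ℕ} {B : Set Ω}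
    (hδ : (P.map (pathOf h.path)) {f | f ∈ evtE β t ∧ ¬ Nice x ε r t f}
      ≤ ENNReal.ofReal δ * (P.map (pathOf h.path)) (evtE β t))
    (hB : ∀ ω, ω ∈ B → ¬ Nice x ε r t (pathOf h.path ω)) :
    ProbabilityTheory.cond P (evt X β t) B ≤ ENNReal.ofReal δ := by
  rw [cond_apply (measurableSet_evt h β t)]
  have h1 : P (evt X β t ∩ B) ≤ ENNReal.ofReal δ * P (evt X β t) := by
    rw [prob_evt h]
    refine le_trans ?_ hδ
    refine le_trans ?_ (Measure.le_map_apply (measurable_pathOf h.path h.meas).aemeasurable _)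
    apply measure_mono
    rintro ω ⟨h2, h3⟩
    rw [evt_eq h] at h2
    exact ⟨h2, hB ω h3⟩
  calc (P (evt X β t))⁻¹ * P (evt X β t ∩ B)
      ≤ (P (evt X β t))⁻¹ * (ENNReal.ofReal δ * P (evt X β t)) := by gcongr
    _ = ENNReal.ofReal δ * (P (evt X β t) * (P (evt X β t))⁻¹) := by ring
    _ ≤ ENNReal.ofReal δ * 1 := by gcongr; exact ENNReal.mul_inv_le_one _
    _ = _ := mul_one _

end

/-- The side length `(π² t / β)^(1/3)` of the limiting square. -/
noncomputable def sideLen (β : ℝ) (t : ℝ≥0) : ℝ := (Real.pi ^ 2 * t / β) ^ ((1 : ℝ) / 3)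

lemma sideLen_cube {β : ℝ} (hβ : 0 < β) (t : ℝ≥0) : β * sideLen β t ^ 3 = Real.pi ^ 2 * t := by
  unfold sideLen
  have h0 : 0 ≤ Real.pi ^ 2 * t / β := by positivity
  rw [← Real.rpow_natCast, ← Real.rpow_mul h0]
  norm_num
  field_simp

lemma sideLen_tendsto {β : ℝ} (hβ : 0 < β) : Tendsto (sideLen β) atTop atTop := by
  have h1 : Tendsto (fun y : ℝ => y ^ ((1 : ℝ) / 3)) atTop atTop := tendsto_rpow_atTop (by norm_num)
  have h2 : Tendsto (fun t : ℝ≥0 => Real.pi ^ 2 * (t : ℝ) / β) atTop atTop := by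
    have h3 : Tendsto (fun t : ℝ≥0 => (t : ℝ)) atTop atTop := NNReal.tendsto_coe_atTop.2 tendsto_id
    have h4 := h3.const_mul_atTop (show 0 < Real.pi ^ 2 / β by have := Real.pi_pos; positivity)
    refine h4.congr (fun t => ?_)
    ring
  exact h1.comp h2

end Pool.Agent.LT
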