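import Pool.Agent.LT.Lower
import Pool.Agent.LT.Transfer

/-!
# Asymptotics of the probability of the conditioning event
-/

open MeasureTheory ProbabilityTheory Filter Topology
open scoped NNReal ENNReal

namespace Pool.Agent.LT

/-- Every walk in `E_t` belongs to an event of the first kind, without gain. -/
theorem classify_all {β θ n : ℝ} {t : ℝ≥0} {f : WP} (hf0 : f.1 0 = 0)
    (hfE : f ∈ evtE β t) (hβ : 0 < β) (h0 : 0 < θ) (h1 : θ ≤ 1 / 2) (hn : 0 < n)
    (hnt : β * n ^ 3 = Real.pi ^ 2 * t) :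
    f ∈ (⋃ ℓ, typeI β θ ((1 - 2 * θ) * β * (6 * n - 8 / θ)) t ℓ) ∪
      (⋃ ℓ, ⋃ ℓ', typeII β θ ((1 - 2 * θ) * β * (6 * n - 8 / θ)) t ℓ ℓ') := by
  classical
  set G := rangeF t f with hG
  have hne : G.Nonempty := rangeF_nonempty t f
  obtain ⟨a, b, w, h, hB⟩ := exists_bbox hne
  have hcG : ConnF (G : Set Site) := connF_rangeF t f
  have hGB := hB.inb
  set D := fill G a b w h with hD
  have hGD : G ⊆ D := subset_fill hGB
  have h0G : (0 : Site) ∈ G := mem_rangeF.2 ⟨0, zero_le, hf0⟩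
  have hcD : ConnF (D : Set Site) := connF_fill hGB hcG
  have hcDc : ConnF (D : Set Site)ᶜ := connF_fill_compl hGB
  have hDB : ∀ x ∈ D, InBox a b w h x := fun x hx => fill_inBox hx
  have hDfam : D ∈ famF 0 (bdry D).card := mem_famF.2 ⟨hGD h0G, hcD, hcDc, rfl⟩
  have hperim := bbox_perim hB hcG hGD
  have hform : FormBd D θ (lam θ w + lam θ h) := fun u hu =>
    form_box D a b w h hDB h0 (by linarith) u hu
  have hbD : f ∈ bevt D β t 0 := mem_bevt_of_evtE hfE hGD (fun z hz hk => by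
    obtain ⟨y, hzy, hy⟩ := kap_ne hk
    exact adj_fill hGB hz hy hzy)
  have hbase := base_cost h0 h1 hβ hnt hperim
  have hc : 0 < 2 / θ := by positivity
  have hX : 0 < (w : ℝ) + 2 / θ := by positivity
  have hY : 0 < (h : ℝ) + 2 / θ := by positivity
  have hyX := young hn hX
  have hyY := young hn hY
  have hcoef : 0 ≤ (1 - 2 * θ) * β := mul_nonneg (by linarith) hβ.le
  left
  rw [Set.mem_iUnion]
  refine ⟨(bdry D).card, ?_⟩
  unfold typeI
  simp only [Set.mem_iUnion]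
  refine ⟨D, Finset.mem_filter.2 ⟨hDfam, _, hform, le_trans ?_ hbase⟩, hbD⟩
  apply mul_le_mul_of_nonneg_left _ hcoef
  linarith

/-- Upper bound for the probability of `E_t`. -/
theorem upper_bound {η : ℝ} (hη : 0 < η) (hη1 : η ≤ 1) : ∃ β0 : ℝ, 1 ≤ β0 ∧ ∀ β : ℝ, β0 ≤ β →
    ∃ N0 : ℝ, ∀ x : ℝ, N0 ≤ x → ∀ t : ℝ≥0, β * x ^ 3 = Real.pi ^ 2 * t →
      ∀ μ : Measure WP, IsLaw μ → μ (evtE β t) ≤ ENNReal.ofReal (Real.exp (-((6 - η) * β * x))) := by
  obtain ⟨θ, hθ⟩ : ∃ θ : ℝ, θ = η / 24 := ⟨_, rfl⟩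
  have hθ0 : 0 < θ := by rw [hθ]; positivity
  have hθ1 : θ ≤ 1 / 2 := by rw [hθ]; linarith
  refine ⟨max 1 (8 / θ), le_max_left _ _, ?_⟩
  intro β hβ
  have hβ1 : 1 ≤ β := (le_max_left _ _).trans hβ
  have hβ2 : 8 / θ ≤ β := (le_max_right _ _).trans hβ
  have hβpos : 0 < β := by linarith
  have hθβ : 8 ≤ θ * β := by
    rw [div_le_iff₀ hθ0] at hβ2
    linarith
  refine ⟨max 1 ((8 / θ + 2) / (η / 2)), ?_⟩
  intro x hx t hxt μ hμ
  have hx1 : 1 ≤ x := (le_max_left _ _).trans hx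
  have hx2 : (8 / θ + 2) / (η / 2) ≤ x := (le_max_right _ _).trans hx
  rw [div_le_iff₀ (by positivity)] at hx2
  have hx0 : 0 < x := by linarith
  obtain ⟨K, hK⟩ : ∃ K : ℝ, K = (1 - 2 * θ) * β * (6 * x - 8 / θ) := ⟨_, rfl⟩
  have hsub : evtE β t ≤ᵐ[μ]
      ((⋃ ℓ, typeI β θ K t ℓ) ∪ (⋃ ℓ, ⋃ ℓ', typeII β θ K t ℓ ℓ') : Set WP) := by
    filter_upwards [hμ.start] with f hf0 hf
    rw [hK]
    exact classify_all hf0 hf hβpos hθ0 hθ1 hx0 hxt
  refine ((measure_mono_ae hsub).trans (bad_bound hμ hβpos.le hθ0.le hθ1 hθβ)).trans ?_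
  have e6 : (6 : ℝ≥0∞) = ENNReal.ofReal 6 := by norm_num
  rw [e6, ← ENNReal.ofReal_mul (by norm_num)]
  apply ENNReal.ofReal_le_ofReal
  have h6 : (6 : ℝ) ≤ Real.exp 2 := by
    have h1 := Real.exp_one_gt_d9
    have : Real.exp 2 = Real.exp 1 ^ 2 := by rw [← Real.exp_nat_mul]; norm_num
    rw [this]; nlinarith
  have hKge : (6 - η) * β * x + 2 ≤ K := by
    have h1 : (1 - 2 * θ) * (6 * x) = 6 * x - η / 2 * x := by rw [hθ]; ring
    have h2 : (1 - 2 * θ) * (8 / θ) ≤ 8 / θ := by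
      have : 0 < 8 / θ := by positivity
      nlinarith
    have h3 : (6 - η) * x + 2 ≤ (1 - 2 * θ) * (6 * x - 8 / θ) := by
      have : (1 - 2 * θ) * (6 * x - 8 / θ) = (1 - 2 * θ) * (6 * x) - (1 - 2 * θ) * (8 / θ) := by ring
      rw [this, h1]
      linarith
    have h4 := mul_le_mul_of_nonneg_left h3 hβpos.le
    rw [hK]
    nlinarith
  calc 6 * Real.exp (-K) ≤ Real.exp 2 * Real.exp (-K) := by gcongr
    _ = Real.exp (2 - K) := by rw [← Real.exp_add]; ring_nf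
    _ ≤ Real.exp (-((6 - η) * β * x)) := Real.exp_le_exp.2 (by linarith)

universe u

/-- Asymptotics of the probability of `E_t`. -/
theorem energy_theorem (η : ℝ) (hη : 0 < η) : ∃ β₀ : ℝ, 0 < β₀ ∧ ∀ β : ℝ, β₀ ≤ β →
    ∀ (Ω : Type u) [MeasurableSpace Ω] (P : Measure Ω) (X : ℝ≥0 → Ω → Site), IsSRW P X →
      ∀ᶠ t : ℝ≥0 in atTop,
        |Real.log (P (evt X β t)).toReal / (β * (Real.pi ^ 2 * t / β) ^ ((1 : ℝ) / 3)) + 6| ≤ η := by
  obtain ⟨e, he⟩ : ∃ e : ℝ, e = min 1 η := ⟨_, rfl⟩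
  have he0 : 0 < e := by rw [he]; positivity
  have he1 : e ≤ 1 := by rw [he]; exact min_le_left _ _
  have he2 : e ≤ η := by rw [he]; exact min_le_right _ _
  obtain ⟨β1, hβ1, hlow⟩ := lower_bound he0 he1
  obtain ⟨β2, hβ2, hup⟩ := upper_bound he0 he1
  refine ⟨max β1 β2, by have := le_max_left β1 β2; linarith, ?_⟩
  intro β hβ Ω _ P X hX
  have hb1 : β1 ≤ β := (le_max_left _ _).trans hβ
  have hb2 : β2 ≤ β := (le_max_right _ _).trans hβ
  have hβpos : 0 < β := by linarith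
  have hlaw := hX.isLaw
  have hP := hX.prob
  have hlawp := hlaw.prob
  have hside := sideLen_tendsto hβpos
  obtain ⟨N1, hN1⟩ := hlow β hb1
  obtain ⟨N2, hN2⟩ := hup β hb2
  filter_upwards [hside.eventually (eventually_ge_atTop N1),
    hside.eventually (eventually_ge_atTop N2), hside.eventually (eventually_ge_atTop 1)]
    with t ht1 ht2 ht3
  have hlen : (Real.pi ^ 2 * (t : ℝ) / β) ^ ((1 : ℝ) / 3) = sideLen β t := rfl
  rw [hlen]
  have hx0 : 0 < sideLen β t := by linarith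
  have h1 := hN1 _ ht1 t (sideLen_cube hβpos t) _ hlaw
  have h2 := hN2 _ ht2 t (sideLen_cube hβpos t) _ hlaw
  have hpe : (P (evt X β t)).toReal = (P.map (pathOf hX.path)).real (evtE β t) := by
    rw [prob_evt hX]; rfl
  rw [hpe]
  have h2' : (P.map (pathOf hX.path)).real (evtE β t) ≤ Real.exp (-((6 - e) * β * sideLen β t)) := by
    unfold Measure.real
    exact ENNReal.toReal_le_of_le_ofReal (Real.exp_pos _).le h2
  have hpos : 0 < (P.map (pathOf hX.path)).real (evtE β t) := lt_of_lt_of_le (Real.exp_pos _) h1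
  have h3 : -((6 + e) * β * sideLen β t) ≤ Real.log ((P.map (pathOf hX.path)).real (evtE β t)) := by
    rw [Real.le_log_iff_exp_le hpos]; exact h1
  have h4 : Real.log ((P.map (pathOf hX.path)).real (evtE β t)) ≤ -((6 - e) * β * sideLen β t) := by
    rw [Real.log_le_iff_le_exp hpos]; exact h2'
  have hb : 0 < β * sideLen β t := by positivity
  rw [abs_le]
  constructor
  · have h5 : -(6 + e) ≤ Real.log ((P.map (pathOf hX.path)).real (evtE β t)) / (β * sideLen β t) := by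
      rw [le_div_iff₀ hb]; linarith
    linarith
  · have h5 : Real.log ((P.map (pathOf hX.path)).real (evtE β t)) / (β * sideLen β t) ≤ -(6 - e) := by
      rw [div_le_iff₀ hb]; linarith
    linarith

end Pool.Agent.LT
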