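import Mathlib

/-!
# Matrix exponentials: product formula, decay, eigenvectors
-/

open Filter Topology
open scoped Matrix.Norms.Operator

namespace Pool.Agent.LT

section Banach

variable {𝔸 : Type*} [NormedRing 𝔸] [NormedAlgebra ℝ 𝔸] [CompleteSpace 𝔸]

omit [NormedAlgebra ℝ 𝔸] [CompleteSpace 𝔸] in
lemma norm_pow_sub_pow_le_aux [NormOneClass 𝔸] (x y : 𝔸) {C : ℝ} (hC : 1 ≤ C) (hx : ‖x‖ ≤ C) (hy : ‖y‖ ≤ C)
    (n : ℕ) : ‖x ^ n - y ^ n‖ ≤ n * ‖x - y‖ * C ^ n := by
  induction n with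
  | zero => simp
  | succ n ih =>
    have h1 : x ^ (n + 1) - y ^ (n + 1) = x * (x ^ n - y ^ n) + (x - y) * y ^ n := by
      rw [pow_succ', pow_succ']; noncomm_ring
    have hC0 : 0 ≤ C := by linarith
    have hCn : C ^ n ≤ C ^ (n + 1) := pow_le_pow_right₀ hC (Nat.le_succ n)
    have hyn : ‖y ^ n‖ ≤ C ^ n := (norm_pow_le _ _).trans (pow_le_pow_left₀ (norm_nonneg _) hy n)
    rw [h1]
    calc ‖x * (x ^ n - y ^ n) + (x - y) * y ^ n‖
        ≤ ‖x * (x ^ n - y ^ n)‖ + ‖(x - y) * y ^ n‖ := norm_add_le _ _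
      _ ≤ ‖x‖ * ‖x ^ n - y ^ n‖ + ‖x - y‖ * ‖y ^ n‖ := by
          gcongr <;> exact norm_mul_le _ _
      _ ≤ C * (n * ‖x - y‖ * C ^ n) + ‖x - y‖ * C ^ (n + 1) := by
          gcongr
          exact hyn.trans hCn
      _ = ((n + 1 : ℕ) : ℝ) * ‖x - y‖ * C ^ (n + 1) := by push_cast; ring

/-- If `a N → a` and `n N → ∞` then `(1 + a N / n N) ^ n N → exp a`. -/
lemma tendsto_one_add_pow_exp' [NormOneClass 𝔸] {a : ℕ → 𝔸} {b : 𝔸} (ha : Tendsto a atTop (𝓝 b))
    {n : ℕ → ℕ} (hn : Tendsto n atTop atTop) :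
    Tendsto (fun N => (1 + ((n N : ℝ))⁻¹ • a N) ^ n N) atTop (𝓝 (NormedSpace.exp b)) := by
  let _ : NormedAlgebra ℚ 𝔸 := NormedAlgebra.restrictScalars ℚ ℝ 𝔸
  have hexp : Tendsto (fun N => NormedSpace.exp (a N)) atTop (𝓝 (NormedSpace.exp b)) :=
    (NormedSpace.exp_continuous.tendsto b).comp ha
  -- the difference tends to zero
  suffices hdiff : Tendsto (fun N => (1 + ((n N : ℝ))⁻¹ • a N) ^ n N - NormedSpace.exp (a N))
      atTop (𝓝 0) by
    have := hdiff.add hexp
    simpa using this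
  have hnR : Tendsto (fun N => (n N : ℝ)) atTop atTop := tendsto_natCast_atTop_atTop.comp hn
  have hbd : ∀ᶠ N in atTop, ‖a N‖ ≤ ‖b‖ + 1 := by
    have := ha.norm
    exact (this.eventually (gt_mem_nhds (show ‖b‖ < ‖b‖ + 1 by linarith))).mono
      (fun N h => h.le)
  set K : ℝ := ‖b‖ + 1 with hK
  have hK0 : 0 < K := by positivity
  have hc : Tendsto (fun N => ((n N : ℝ))⁻¹ • a N) atTop (𝓝 0) := by
    have := (tendsto_inv_atTop_zero.comp hnR).smul ha
    simpa using this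
  -- expansion of exp at zero
  have hE := (hasFDerivAt_exp_zero (𝕂 := ℝ) (𝔸 := 𝔸))
  rw [hasFDerivAt_iff_isLittleO_nhds_zero] at hE
  simp only [zero_add, NormedSpace.exp_zero, one_apply_eq_self] at hE
  have hcexp : Tendsto (fun N => NormedSpace.exp (((n N : ℝ))⁻¹ • a N)) atTop (𝓝 1) := by
    have := (NormedSpace.exp_continuous.tendsto (0 : 𝔸)).comp hc
    rw [NormedSpace.exp_zero] at this
    exact this
  rw [Metric.tendsto_nhds]
  intro ε hε
  -- choose accuracy
  set ε' : ℝ := ε / (2 * K * Real.exp (2 * K)) with hε'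
  have hε'0 : 0 < ε' := by positivity
  have hE' := (hE.def hε'0)
  have hE'' := hc.eventually hE'
  have hE3 := (hE.def (show (0 : ℝ) < 1 by norm_num))
  have hE4 := hc.eventually hE3
  filter_upwards [hbd, hE'', hE4, hn.eventually_ge_atTop 1] with N h1 h2 h3 h4
  rw [dist_zero_right]
  have hnpos : (0 : ℝ) < n N := by exact_mod_cast h4
  have hcn : ‖((n N : ℝ))⁻¹ • a N‖ ≤ K / n N := by
    rw [norm_smul, norm_inv, Real.norm_natCast, inv_mul_eq_div]
    gcongr
  have hexpn : NormedSpace.exp (a N) = (NormedSpace.exp (((n N : ℝ))⁻¹ • a N)) ^ n N := by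
    rw [← NormedSpace.exp_nsmul]
    congr 1
    rw [← Nat.cast_smul_eq_nsmul ℝ, smul_smul, mul_inv_cancel₀ hnpos.ne', one_smul]
  set C : ℝ := 1 + 2 * K / n N with hC
  have hC1 : 1 ≤ C := by rw [hC]; have : 0 ≤ 2 * K / n N := by positivity
                         linarith
  have hx : ‖(1 : 𝔸) + ((n N : ℝ))⁻¹ • a N‖ ≤ C := by
    calc ‖(1 : 𝔸) + ((n N : ℝ))⁻¹ • a N‖ ≤ ‖(1 : 𝔸)‖ + ‖((n N : ℝ))⁻¹ • a N‖ := norm_add_le _ _
      _ ≤ 1 + K / n N := by rw [norm_one]; gcongr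
      _ ≤ C := by
        rw [hC]
        have : 0 ≤ K / n N := by positivity
        have h : 2 * K / n N = K / n N + K / n N := by ring
        linarith
  have hdist : ‖(1 : 𝔸) + ((n N : ℝ))⁻¹ • a N - NormedSpace.exp (((n N : ℝ))⁻¹ • a N)‖
      ≤ ε' * (K / n N) := by
    rw [← norm_neg]
    have : -((1 : 𝔸) + ((n N : ℝ))⁻¹ • a N - NormedSpace.exp (((n N : ℝ))⁻¹ • a N))
      = NormedSpace.exp (((n N : ℝ))⁻¹ • a N) - 1 - ((n N : ℝ))⁻¹ • a N := by abel
    rw [this]
    exact h2.trans (by gcongr)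
  have hy : ‖NormedSpace.exp (((n N : ℝ))⁻¹ • a N)‖ ≤ C := by
    have h5 : NormedSpace.exp (((n N : ℝ))⁻¹ • a N)
        = (NormedSpace.exp (((n N : ℝ))⁻¹ • a N) - 1 - ((n N : ℝ))⁻¹ • a N) + 1
          + ((n N : ℝ))⁻¹ • a N := by abel
    rw [h5]
    calc _ ≤ ‖NormedSpace.exp (((n N : ℝ))⁻¹ • a N) - 1 - ((n N : ℝ))⁻¹ • a N‖ + ‖(1 : 𝔸)‖
          + ‖((n N : ℝ))⁻¹ • a N‖ := by
          refine (norm_add_le _ _).trans ?_
          gcongr
          exact norm_add_le _ _
      _ ≤ 1 * (K / n N) + 1 + K / n N := by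
          rw [norm_one]
          gcongr
          exact h3.trans (by gcongr)
      _ = C := by rw [hC]; ring
  rw [hexpn]
  have hmain := norm_pow_sub_pow_le_aux _ _ hC1 hx hy (n N)
  have hCpow : C ^ n N ≤ Real.exp (2 * K) := by
    have : C ≤ Real.exp (2 * K / n N) := by
      rw [hC]
      have := Real.add_one_le_exp (2 * K / n N)
      linarith
    calc C ^ n N ≤ (Real.exp (2 * K / n N)) ^ n N := by gcongr
      _ = Real.exp (2 * K) := by
        rw [← Real.exp_nat_mul]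
        congr 1
        field_simp
  calc _ ≤ (n N : ℝ) * ‖(1 : 𝔸) + ((n N : ℝ))⁻¹ • a N - NormedSpace.exp (((n N : ℝ))⁻¹ • a N)‖
        * C ^ n N := hmain
    _ ≤ (n N : ℝ) * (ε' * (K / n N)) * Real.exp (2 * K) := by gcongr
    _ = ε' * K * Real.exp (2 * K) := by field_simp
    _ = ε / 2 := by rw [hε']; field_simp
    _ < ε := by linarith

end Banach

section Mat

variable {ι : Type*} [Fintype ι] [DecidableEq ι]

lemma hasDerivAt_exp_mulVec (Q : Matrix ι ι ℝ) (v : ι → ℝ) (x : ι) (t : ℝ) :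
    HasDerivAt (fun s : ℝ => (NormedSpace.exp (s • Q)).mulVec v x)
      ((NormedSpace.exp (t • Q)).mulVec (Q.mulVec v) x) t := by
  have h := hasDerivAt_exp_smul_const (𝕂 := ℝ) Q t
  have hlin : HasDerivAt (fun s : ℝ => (NormedSpace.exp (s • Q)).mulVec v x)
      ((NormedSpace.exp (t • Q) * Q).mulVec v x) t := by
    let L : Matrix ι ι ℝ →ₗ[ℝ] ℝ :=
      { toFun := fun M => M.mulVec v x
        map_add' := fun M N => by simp [Matrix.add_mulVec]
        map_smul' := fun c M => by simp [Matrix.smul_mulVec] }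
    have hL : Continuous L := LinearMap.continuous_of_finiteDimensional L
    exact (ContinuousLinearMap.mk L hL).hasFDerivAt.comp_hasDerivAt t h
  rwa [← Matrix.mulVec_mulVec] at hlin

lemma hasDerivAt_exp_mulVec' (Q : Matrix ι ι ℝ) (v : ι → ℝ) (x : ι) (t : ℝ) :
    HasDerivAt (fun s : ℝ => (NormedSpace.exp (s • Q)).mulVec v x)
      (Q.mulVec ((NormedSpace.exp (t • Q)).mulVec v) x) t := by
  have h := hasDerivAt_exp_smul_const' (𝕂 := ℝ) Q t
  have hlin : HasDerivAt (fun s : ℝ => (NormedSpace.exp (s • Q)).mulVec v x)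
      ((Q * NormedSpace.exp (t • Q)).mulVec v x) t := by
    let L : Matrix ι ι ℝ →ₗ[ℝ] ℝ :=
      { toFun := fun M => M.mulVec v x
        map_add' := fun M N => by simp [Matrix.add_mulVec]
        map_smul' := fun c M => by simp [Matrix.smul_mulVec] }
    have hL : Continuous L := LinearMap.continuous_of_finiteDimensional L
    exact (ContinuousLinearMap.mk L hL).hasFDerivAt.comp_hasDerivAt t h
  rwa [← Matrix.mulVec_mulVec] at hlin

lemma exp_zero_mulVec (Q : Matrix ι ι ℝ) (v : ι → ℝ) :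
    (NormedSpace.exp ((0 : ℝ) • Q)).mulVec v = v := by
  rw [zero_smul, NormedSpace.exp_zero, Matrix.one_mulVec]

/-- Decay of the Euclidean norm. -/
lemma exp_l2_decay (Q : Matrix ι ι ℝ) (Λ : ℝ)
    (hQ : ∀ u : ι → ℝ, ∑ x, u x * Q.mulVec u x ≤ -Λ * ∑ x, u x ^ 2) (v : ι → ℝ) {t : ℝ}
    (ht : 0 ≤ t) :
    ∑ x, ((NormedSpace.exp (t • Q)).mulVec v x) ^ 2 ≤ Real.exp (-2 * Λ * t) * ∑ x, v x ^ 2 := by
  set u : ℝ → ι → ℝ := fun s => (NormedSpace.exp (s • Q)).mulVec v with hu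
  set F : ℝ → ℝ := fun s => Real.exp (2 * Λ * s) * ∑ x, (u s x) ^ 2 with hF
  have hder : ∀ s, HasDerivAt F (Real.exp (2 * Λ * s) * (2 * Λ) * ∑ x, (u s x) ^ 2
      + Real.exp (2 * Λ * s) * ∑ x, 2 * u s x * Q.mulVec (u s) x) s := by
    intro s
    have h1 : HasDerivAt (fun s : ℝ => Real.exp (2 * Λ * s)) (Real.exp (2 * Λ * s) * (2 * Λ)) s := by
      have := ((hasDerivAt_id s).const_mul (2 * Λ)).exp
      simpa using this
    have h2 : HasDerivAt (fun s => ∑ x, (u s x) ^ 2) (∑ x, 2 * u s x * Q.mulVec (u s) x) s := by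
      apply HasDerivAt.fun_sum
      intro x _
      refine ((hasDerivAt_exp_mulVec' Q v x s).fun_pow 2).congr_deriv ?_
      simp only [hu]
      ring
    exact h1.fun_mul h2
  have hanti : Antitone F := by
    apply antitone_of_deriv_nonpos
    · intro s; exact (hder s).differentiableAt
    · intro s
      rw [(hder s).deriv]
      have h1 : ∑ x, 2 * u s x * Q.mulVec (u s) x = 2 * ∑ x, u s x * Q.mulVec (u s) x := by
        rw [Finset.mul_sum]; apply Finset.sum_congr rfl; intro x _; ring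
      rw [h1]
      have h2 := hQ (u s)
      have h3 : 0 < Real.exp (2 * Λ * s) := Real.exp_pos _
      nlinarith [mul_le_mul_of_nonneg_left h2 h3.le]
  have h0 : F 0 = ∑ x, v x ^ 2 := by
    simp only [hF, hu, mul_zero, Real.exp_zero, one_mul]
    apply Finset.sum_congr rfl
    intro x _
    rw [exp_zero_mulVec]
  have h1 := hanti ht
  rw [h0] at h1
  have h2 : Real.exp (-2 * Λ * t) * F t = ∑ x, (u t x) ^ 2 := by
    simp only [hF]
    rw [← mul_assoc, ← Real.exp_add]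
    have : -2 * Λ * t + 2 * Λ * t = 0 := by ring
    rw [this, Real.exp_zero, one_mul]
  rw [← h2]
  gcongr

/-- Eigenvectors. -/
lemma exp_eigen (Q : Matrix ι ι ℝ) (v : ι → ℝ) (μ : ℝ) (hv : Q.mulVec v = μ • v) (t : ℝ) :
    (NormedSpace.exp (t • Q)).mulVec v = Real.exp (μ * t) • v := by
  funext x
  have hconst : ∀ s, HasDerivAt (fun s : ℝ => Real.exp (-(μ * s)) *
      (NormedSpace.exp (s • Q)).mulVec v x) 0 s := by
    intro s
    have h1 : HasDerivAt (fun s : ℝ => Real.exp (-(μ * s))) (Real.exp (-(μ * s)) * (-μ)) s := by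
      have := (((hasDerivAt_id s).const_mul μ).neg).exp
      simpa using this
    have h2 := hasDerivAt_exp_mulVec Q v x s
    refine (h1.fun_mul h2).congr_deriv ?_
    rw [hv, Matrix.mulVec_smul]
    simp only [Pi.smul_apply, smul_eq_mul]
    ring
  have := is_const_of_deriv_eq_zero (f := fun s : ℝ => Real.exp (-(μ * s)) *
      (NormedSpace.exp (s • Q)).mulVec v x) (fun s => (hconst s).differentiableAt)
      (fun s => (hconst s).deriv) t 0
  simp only [mul_zero, neg_zero, Real.exp_zero, one_mul] at this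
  rw [exp_zero_mulVec] at this
  rw [Pi.smul_apply, smul_eq_mul, ← this, ← mul_assoc, ← Real.exp_add]
  simp

/-- Supersolutions. -/
lemma exp_super (Q : Matrix ι ι ℝ) (hpos : ∀ s : ℝ, 0 ≤ s → ∀ x y, 0 ≤ NormedSpace.exp (s • Q) x y)
    (v : ι → ℝ) (μ : ℝ) (hv : ∀ x, Q.mulVec v x ≤ μ * v x) {t : ℝ} (ht : 0 ≤ t) (x : ι) :
    (NormedSpace.exp (t • Q)).mulVec v x ≤ Real.exp (μ * t) * v x := by
  set F : ℝ → ℝ := fun s => Real.exp (-(μ * s)) * (NormedSpace.exp (s • Q)).mulVec v x with hF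
  have hder : ∀ s, HasDerivAt F (Real.exp (-(μ * s)) *
      ((NormedSpace.exp (s • Q)).mulVec (Q.mulVec v - μ • v) x)) s := by
    intro s
    have h1 : HasDerivAt (fun s : ℝ => Real.exp (-(μ * s))) (Real.exp (-(μ * s)) * (-μ)) s := by
      have := (((hasDerivAt_id s).const_mul μ).neg).exp
      simpa using this
    have h2 := hasDerivAt_exp_mulVec Q v x s
    refine (h1.fun_mul h2).congr_deriv ?_
    rw [Matrix.mulVec_sub, Matrix.mulVec_smul]
    simp only [Pi.sub_apply, Pi.smul_apply, smul_eq_mul]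
    ring
  have hanti : AntitoneOn F (Set.Ici 0) := by
    apply antitoneOn_of_deriv_nonpos (convex_Ici 0)
    · exact fun s _ => (hder s).continuousAt.continuousWithinAt
    · exact fun s _ => (hder s).differentiableAt.differentiableWithinAt
    · intro s hs
      rw [interior_Ici] at hs
      rw [(hder s).deriv]
      apply mul_nonpos_of_nonneg_of_nonpos (Real.exp_pos _).le
      rw [Matrix.mulVec, dotProduct]
      apply Finset.sum_nonpos
      intro y _
      apply mul_nonpos_of_nonneg_of_nonpos (hpos s (le_of_lt hs) x y)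
      simp only [Pi.sub_apply, Pi.smul_apply, smul_eq_mul]
      linarith [hv y]
  have h1 := hanti (Set.mem_Ici.2 le_rfl) (Set.mem_Ici.2 ht) ht
  have h0 : F 0 = v x := by
    simp only [hF, mul_zero, neg_zero, Real.exp_zero, one_mul]
    rw [exp_zero_mulVec]
  rw [h0] at h1
  have h2 : Real.exp (μ * t) * F t = (NormedSpace.exp (t • Q)).mulVec v x := by
    simp only [hF]
    rw [← mul_assoc, ← Real.exp_add]
    simp
  rw [← h2]
  gcongr

end Mat

end Pool.Agent.LT
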