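import Pool.Agent.LT.Law
import Pool.Agent.LT.MatExp
import Pool.Agent.LT.Occ

/-!
# Feynman-Kac formula for the walk killed outside a finite set
-/

open MeasureTheory ProbabilityTheory Filter Topology
open scoped NNReal ENNReal Matrix.Norms.Operator

namespace Pool.Agent.LT

open IsLaw

lemma integrable_of_bdd {α : Type*} [MeasurableSpace α] {ν : Measure α} [IsFiniteMeasure ν]
    {g : α → ℝ} (hg : Measurable g) {C : ℝ} (hC : ∀ a, |g a| ≤ C) : Integrable g ν :=
  Integrable.of_bound hg.aestronglyMeasurable C (Eventually.of_forall hC)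

/-- The generator of the walk killed outside `A`, with potential `V`. -/
noncomputable def gen (A : Finset Site) (V : Site → ℝ) : Matrix A A ℝ :=
  fun x y => if x = y then V x.1 - 4 else if Adj x.1 y.1 then 1 else 0

/-- The skeleton transition matrix. -/
noncomputable def tstep (μ : Measure WP) (A : Finset Site) (V : Site → ℝ) (δ : ℝ≥0) :
    Matrix A A ℝ :=
  fun x y => tp μ δ (y.1 - x.1) * Real.exp (δ * V y.1)

/-- The weight of one site. -/
noncomputable def wgt (A : Finset Site) (V : Site → ℝ) (δ : ℝ≥0) (z : Site) : ℝ :=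
  if z ∈ A then Real.exp (δ * V z) else 0

/-- The skeleton weight of a path. -/
noncomputable def PG (A : Finset Site) (V : Site → ℝ) (δ : ℝ≥0) (M : ℕ) (x : Site) (f : WP) : ℝ :=
  ∏ i ∈ Finset.range M, wgt A V δ (x + f.1 ((i + 1 : ℕ) * δ))

lemma wgt_nonneg (A : Finset Site) (V : Site → ℝ) (δ : ℝ≥0) (z : Site) : 0 ≤ wgt A V δ z := by
  unfold wgt; split_ifs <;> positivity

lemma wgt_le (A : Finset Site) (V : Site → ℝ) {C : ℝ} (hC : ∀ x, |V x| ≤ C) (δ : ℝ≥0) (z : Site) :
    wgt A V δ z ≤ Real.exp (δ * C) := by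
  unfold wgt
  split_ifs
  · apply Real.exp_le_exp.2
    exact mul_le_mul_of_nonneg_left ((le_abs_self _).trans (hC z)) δ.coe_nonneg
  · positivity

lemma PG_nonneg (A : Finset Site) (V : Site → ℝ) (δ : ℝ≥0) (M : ℕ) (x : Site) (f : WP) :
    0 ≤ PG A V δ M x f := Finset.prod_nonneg (fun _ _ => wgt_nonneg _ _ _ _)

lemma PG_le (A : Finset Site) (V : Site → ℝ) {C : ℝ} (hC : ∀ x, |V x| ≤ C) (δ : ℝ≥0) (M : ℕ)
    (x : Site) (f : WP) : PG A V δ M x f ≤ Real.exp (M * δ * C) := by
  unfold PG
  calc _ ≤ ∏ i ∈ Finset.range M, Real.exp (δ * C) :=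
        Finset.prod_le_prod (fun _ _ => wgt_nonneg _ _ _ _) (fun _ _ => wgt_le A V hC δ _)
    _ = Real.exp (M * δ * C) := by
      rw [Finset.prod_const, Finset.card_range, ← Real.exp_nat_mul]; ring_nf

lemma measurable_PG (A : Finset Site) (V : Site → ℝ) (δ : ℝ≥0) (M : ℕ) (x : Site) :
    Measurable (PG A V δ M x) := by
  unfold PG
  apply Finset.measurable_prod
  intro i _
  exact (Measurable.of_discrete (f := wgt A V δ)).comp (measurable_const.add (measurable_eval _))

lemma measurable_ite_eval (u : ℝ≥0) (x y : Site) (a b : ℝ) :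
    Measurable (fun f : WP => if x + f.1 u = y then a else b) := by
  have : MeasurableSet {f : WP | x + f.1 u = y} :=
    (measurable_const.add (measurable_eval u)) (measurableSet_singleton y)
  exact Measurable.ite this measurable_const measurable_const

lemma PG_bdd (A : Finset Site) (V : Site → ℝ) {C : ℝ} (hC : ∀ x, |V x| ≤ C) (δ : ℝ≥0) (M : ℕ)
    (x y : Site) (f : WP) :
    |PG A V δ M x f * (if x + f.1 (M * δ) = y then 1 else 0)| ≤ Real.exp (M * δ * C) := by
  split_ifs
  · rw [mul_one, abs_of_nonneg (PG_nonneg _ _ _ _ _ _)]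
    exact PG_le A V hC δ M x f
  · simp only [mul_zero, abs_zero]; positivity

lemma PG_succ (A : Finset Site) (V : Site → ℝ) (δ : ℝ≥0) (M : ℕ) (x y : Site) (f : WP) :
    PG A V δ (M + 1) x f * (if x + f.1 ((M + 1 : ℕ) * δ) = y then (1 : ℝ) else 0)
      = ∑ z ∈ A, (if x + (stop δ f).1 δ = z then wgt A V δ z else 0)
        * (PG A V δ M z (shift δ f) * (if z + (shift δ f).1 (M * δ) = y then 1 else 0)) := by
  have hstop : (stop δ f).1 δ = f.1 δ := by simp [stop]
  have hmul : ∀ i : ℕ, ((i + 1 : ℕ) : ℝ≥0) * δ = δ + i * δ := by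
    intro i; push_cast; ring
  rw [hstop]
  by_cases hz : x + f.1 δ ∈ A
  · rw [Finset.sum_eq_single_of_mem (x + f.1 δ) hz]
    · simp only [if_true]
      unfold PG
      rw [Finset.prod_range_succ']
      have h1 : ∀ i : ℕ, x + f.1 (((i + 1 : ℕ) + 1 : ℕ) * δ)
          = x + f.1 δ + (shift δ f).1 ((i + 1 : ℕ) * δ) := by
        intro i
        rw [hmul (i + 1)]
        simp only [shift]
        abel
      have h2 : x + f.1 ((M + 1 : ℕ) * δ) = x + f.1 δ + (shift δ f).1 (M * δ) := by
        rw [hmul M]; simp only [shift]; abel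
      simp only [h1, h2]
      simp only [zero_add, Nat.cast_one, one_mul]
      ring
    · intro z _ hne
      rw [if_neg (fun h => hne h.symm), zero_mul]
  · have h1 : PG A V δ (M + 1) x f = 0 := by
      unfold PG
      rw [Finset.prod_range_succ']
      simp only [zero_add, Nat.cast_one, one_mul]
      unfold wgt
      rw [if_neg hz, mul_zero]
    rw [h1, zero_mul]
    symm
    apply Finset.sum_eq_zero
    intro z hzA
    rw [if_neg (fun h => hz (by rw [h]; exact hzA)), zero_mul]

lemma skeleton_formula {μ : Measure WP} (hμ : IsLaw μ) (A : Finset Site) (V : Site → ℝ) {C : ℝ}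
    (hC : ∀ x, |V x| ≤ C) (δ : ℝ≥0) (M : ℕ) (x y : A) :
    ∫ f, PG A V δ M x.1 f * (if x.1 + f.1 (M * δ) = y.1 then 1 else 0) ∂μ
      = (tstep μ A V δ ^ M) x y := by
  have := hμ.prob
  induction M generalizing x with
  | zero =>
    have : ∫ f, PG A V δ 0 x.1 f * (if x.1 + f.1 ((0 : ℕ) * δ) = y.1 then (1 : ℝ) else 0) ∂μ
        = ∫ _, (if x = y then (1 : ℝ) else 0) ∂μ := by
      apply integral_congr_ae
      filter_upwards [hμ.start] with f hf
      unfold PG
      rw [Finset.prod_range_zero, one_mul, Nat.cast_zero, zero_mul, hf, add_zero]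
      by_cases hxy : x = y
      · rw [if_pos hxy, if_pos (by rw [hxy])]
      · rw [if_neg hxy, if_neg (fun h => hxy (Subtype.ext h))]
    rw [this, pow_zero, Matrix.one_apply]
    simp
  | succ M ih =>
    simp only [PG_succ]
    rw [integral_finset_sum]
    · rw [pow_succ', Matrix.mul_apply, ← Finset.sum_coe_sort A]
      apply Finset.sum_congr rfl
      intro z _
      have hm := hμ.markov_integral δ
        (Φ := fun f => if x.1 + f.1 δ = z.1 then wgt A V δ z.1 else 0)
        (Ψ := fun f => PG A V δ M z.1 f * (if z.1 + f.1 (M * δ) = y.1 then 1 else 0))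
        (measurable_ite_eval _ _ _ _ _)
        ((measurable_PG A V δ M z.1).mul (measurable_ite_eval _ _ _ _ _))
      rw [hm, ih z]
      congr 1
      have hstop : ∀ f : WP, (stop δ f).1 δ = f.1 δ := fun f => by simp [stop]
      simp only [hstop]
      unfold tstep
      rw [tp_eq_integral hμ]
      rw [← integral_mul_const]
      congr 1
      funext f
      have hiff : x.1 + f.1 δ = z.1 ↔ f.1 δ = z.1 - x.1 := by
        rw [eq_sub_iff_add_eq, add_comm]
      by_cases hc : f.1 δ = z.1 - x.1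
      · rw [if_pos (hiff.2 hc), if_pos hc, wgt, if_pos z.2, one_mul]
      · rw [if_neg (fun h => hc (hiff.1 h)), if_neg hc, zero_mul]
    · intro z _
      have hmeas : Measurable (fun f : WP => (if x.1 + (stop δ f).1 δ = z then wgt A V δ z else 0)
          * (PG A V δ M z (shift δ f) * (if z + (shift δ f).1 (M * δ) = y.1 then 1 else 0))) := by
        apply Measurable.mul
        · exact (measurable_ite_eval _ _ _ _ _).comp (measurable_stop δ)
        · exact ((measurable_PG A V δ M z).mul (measurable_ite_eval _ _ _ _ _)).comp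
            (measurable_shift δ)
      apply integrable_of_bdd hmeas (C := Real.exp (δ * C) * Real.exp (M * δ * C))
      intro f
      rw [abs_mul]
      apply mul_le_mul _ (PG_bdd A V hC δ M z y.1 (shift δ f)) (abs_nonneg _) (by positivity)
      split_ifs
      · rw [abs_of_nonneg (wgt_nonneg _ _ _ _)]; exact wgt_le A V hC δ z
      · rw [abs_zero]; positivity

section limits

lemma tp_zero_tendsto {μ : Measure WP} (hμ : IsLaw μ) :
    Tendsto (fun h : ℝ≥0 => tp μ h 0) (𝓝[>] 0) (𝓝 1) := by
  have h1 : Tendsto (fun h : ℝ≥0 => (h : ℝ)) (𝓝[>] 0) (𝓝 0) := by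
    have : Tendsto (fun h : ℝ≥0 => (h : ℝ)) (𝓝 0) (𝓝 ((0 : ℝ≥0) : ℝ)) :=
      NNReal.continuous_coe.tendsto 0
    exact this.mono_left nhdsWithin_le_nhds
  have h2 := hμ.rate_zero.mul h1
  rw [mul_zero] at h2
  have h3 : Tendsto (fun h : ℝ≥0 => 1 - tp μ h 0) (𝓝[>] 0) (𝓝 0) := by
    apply h2.congr'
    filter_upwards [self_mem_nhdsWithin] with h hh
    have : (h : ℝ) ≠ 0 := by
      have : (0 : ℝ) < h := by exact_mod_cast hh
      exact this.ne'
    rw [tp]
    field_simp
  have h4 := (tendsto_const_nhds (x := (1 : ℝ))).sub h3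
  simpa using h4

lemma tp_other_tendsto {μ : Measure WP} (hμ : IsLaw μ) {z : Site} (hz0 : z ≠ 0) (hz : z ∉ units) :
    Tendsto (fun h : ℝ≥0 => tp μ h z / (h : ℝ)) (𝓝[>] 0) (𝓝 0) := by
  have := hμ.prob
  have hsum : Tendsto (fun h : ℝ≥0 => ∑ e ∈ units, tp μ h e / (h : ℝ)) (𝓝[>] 0)
      (𝓝 (∑ e ∈ units, (1 : ℝ))) := tendsto_finset_sum _ (fun e he => hμ.rate e he)
  have hcard : ∑ e ∈ units, (1 : ℝ) = 4 := by
    rw [Finset.sum_const]
    have : units.card = 4 := by decide
    rw [this]; norm_num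
  rw [hcard] at hsum
  have hup := hμ.rate_zero.sub hsum
  rw [sub_self] at hup
  apply tendsto_of_tendsto_of_tendsto_of_le_of_le' tendsto_const_nhds hup
  · exact Eventually.of_forall (fun h => div_nonneg (tp_nonneg h z) h.coe_nonneg)
  · filter_upwards [self_mem_nhdsWithin] with h hh
    have hpos : (0 : ℝ) < h := by exact_mod_cast hh
    rw [← Finset.sum_div, ← sub_div]
    apply div_le_div_of_nonneg_right _ hpos.le
    -- disjoint events
    have hmeas : ∀ w : Site, MeasurableSet {f : WP | f.1 h = w} := fun w =>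
      (measurable_eval h) (measurableSet_singleton w)
    have hins : ∑ w ∈ insert z (insert 0 units), tp μ h w ≤ 1 := by
      have h1 : ∑ w ∈ insert z (insert 0 units), μ.real {f : WP | f.1 h = w}
          = μ.real (⋃ w ∈ insert z (insert 0 units), {f : WP | f.1 h = w}) := by
        rw [measureReal_biUnion_finset]
        · intro a _ b _ hab
          simp only [Function.onFun]
          rw [Set.disjoint_left]
          intro f hf hf'
          exact hab (hf.symm.trans hf')
        · intro w _; exact hmeas w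
      have h2 : μ.real (⋃ w ∈ insert z (insert 0 units), {f : WP | f.1 h = w}) ≤ 1 :=
        measureReal_le_one
      calc _ = ∑ w ∈ insert z (insert 0 units), μ.real {f : WP | f.1 h = w} := rfl
        _ ≤ 1 := by rw [h1]; exact h2
    have h0u : (0 : Site) ∉ units := by decide
    rw [Finset.sum_insert, Finset.sum_insert h0u] at hins
    · have h4 : (μ {f : WP | f.1 h = 0}).toReal = tp μ h 0 := rfl
      rw [h4]
      linarith
    · rw [Finset.mem_insert]; push Not; exact ⟨hz0, hz⟩

lemma entry_tendsto {μ : Measure WP} (hμ : IsLaw μ) (A : Finset Site) (V : Site → ℝ) (x y : A) :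
    Tendsto (fun h : ℝ≥0 => (tstep μ A V h x y - (1 : Matrix A A ℝ) x y) / (h : ℝ)) (𝓝[>] 0)
      (𝓝 (gen A V x y)) := by
  have hpos : ∀ᶠ h : ℝ≥0 in 𝓝[>] 0, (0 : ℝ) < h := by
    filter_upwards [self_mem_nhdsWithin] with h hh
    exact_mod_cast hh
  have hid : Tendsto (fun h : ℝ≥0 => (h : ℝ)) (𝓝[>] 0) (𝓝 0) := by
    have : Tendsto (fun h : ℝ≥0 => (h : ℝ)) (𝓝 0) (𝓝 ((0 : ℝ≥0) : ℝ)) :=
      NNReal.continuous_coe.tendsto 0
    exact this.mono_left nhdsWithin_le_nhds
  have hexp : Tendsto (fun h : ℝ≥0 => Real.exp (h * V y.1)) (𝓝[>] 0) (𝓝 1) := by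
    have := (Real.continuous_exp.tendsto _).comp (hid.mul_const (V y.1))
    simpa [Function.comp_def] using this
  unfold gen tstep
  by_cases hxy : x = y
  · subst hxy
    simp only [if_true, Matrix.one_apply_eq, sub_self]
    have hder : Tendsto (fun h : ℝ≥0 => (Real.exp (h * V x.1) - 1) / (h : ℝ)) (𝓝[>] 0)
        (𝓝 (V x.1)) := by
      have h1 : HasDerivAt (fun u : ℝ => Real.exp (u * V x.1)) (V x.1) 0 := by
        have := ((hasDerivAt_id (0 : ℝ)).mul_const (V x.1)).exp
        simpa using this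
      have h2 := hasDerivAt_iff_tendsto_slope.1 h1
      have h3 : Tendsto (fun h : ℝ≥0 => (h : ℝ)) (𝓝[>] 0) (𝓝[≠] 0) := by
        rw [tendsto_nhdsWithin_iff]
        exact ⟨hid, hpos.mono (fun h hh => hh.ne')⟩
      have h4 := h2.comp h3
      refine h4.congr (fun h => ?_)
      simp only [Function.comp, slope, vsub_eq_sub, sub_zero, zero_mul, Real.exp_zero, smul_eq_mul]
      ring
    have h1 := ((tp_zero_tendsto hμ).mul hder).sub hμ.rate_zero
    rw [one_mul] at h1
    apply h1.congr'
    filter_upwards [hpos] with h hh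
    simp only [tp]
    ring
  · simp only [if_neg hxy, Matrix.one_apply_ne hxy, sub_zero]
    have hne : y.1 - x.1 ≠ 0 := by
      intro h; exact hxy (Subtype.ext (sub_eq_zero.1 h).symm)
    by_cases hadj : Adj x.1 y.1
    · rw [if_pos hadj]
      have h1 := (hμ.rate _ hadj).mul hexp
      rw [one_mul] at h1
      refine h1.congr (fun h => ?_)
      simp only [tp]
      ring
    · rw [if_neg hadj]
      have h1 := (tp_other_tendsto hμ hne hadj).mul hexp
      rw [zero_mul] at h1
      refine h1.congr (fun h => ?_)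
      ring

lemma tp_at_zero {μ : Measure WP} (hμ : IsLaw μ) (z : Site) :
    tp μ 0 z = if z = 0 then 1 else 0 := by
  have := hμ.prob
  rw [tp_eq_integral hμ]
  have : ∫ f : WP, (if f.1 0 = z then (1 : ℝ) else 0) ∂μ
      = ∫ _, (if z = 0 then (1 : ℝ) else 0) ∂μ := by
    apply integral_congr_ae
    filter_upwards [hμ.start] with f hf
    rw [hf]
    by_cases hz : z = 0
    · simp [hz]
    · simp [hz, Ne.symm hz]
  rw [this]
  simp

lemma tstep_pow_tendsto {μ : Measure WP} (hμ : IsLaw μ) (A : Finset Site) [Nonempty A]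
    (V : Site → ℝ) (s : ℝ≥0) :
    Tendsto (fun N : ℕ => tstep μ A V (s / 2 ^ N) ^ (2 ^ N)) atTop
      (𝓝 (NormedSpace.exp ((s : ℝ) • gen A V))) := by
  have hn : Tendsto (fun N : ℕ => 2 ^ N) atTop atTop :=
    tendsto_pow_atTop_atTop_of_one_lt (by norm_num)
  set a : ℕ → Matrix A A ℝ := fun N => ((2 ^ N : ℕ) : ℝ) • (tstep μ A V (s / 2 ^ N) - 1) with ha
  have hlim : Tendsto a atTop (𝓝 ((s : ℝ) • gen A V)) := by
    rcases eq_or_lt_of_le (show (0 : ℝ≥0) ≤ s from zero_le) with h0 | hs
    · have h1 : ∀ N, a N = 0 := by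
        intro N
        have : tstep μ A V (s / 2 ^ N) = 1 := by
          ext x y
          rw [← h0, zero_div]
          simp only [tstep, tp_at_zero hμ, NNReal.coe_zero, zero_mul, Real.exp_zero, mul_one]
          by_cases hxy : x = y
          · subst hxy; simp
          · rw [Matrix.one_apply_ne hxy, if_neg]
            intro h; exact hxy (Subtype.ext (sub_eq_zero.1 h).symm)
        rw [ha]
        simp only [this, sub_self, smul_zero]
      have h2 : a = fun _ => 0 := funext h1
      rw [h2, ← h0]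
      simp
    · refine tendsto_pi_nhds.2 (fun x => tendsto_pi_nhds.2 (fun y => ?_))
      have h1 : Tendsto (fun N : ℕ => s / 2 ^ N) atTop (𝓝[>] 0) := by
        rw [tendsto_nhdsWithin_iff]
        refine ⟨tendsto_div_two_pow s, Eventually.of_forall (fun N => ?_)⟩
        show 0 < s / 2 ^ N
        positivity
      have h2 := ((entry_tendsto hμ A V x y).comp h1).const_mul (s : ℝ)
      refine h2.congr (fun N => ?_)
      simp only [Function.comp, ha, Matrix.smul_apply, Matrix.sub_apply, smul_eq_mul]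
      have hs' : (s : ℝ) ≠ 0 := by
        have : (0 : ℝ) < s := by exact_mod_cast hs
        exact this.ne'
      push_cast
      field_simp
  have := tendsto_one_add_pow_exp' hlim hn
  refine this.congr (fun N => ?_)
  congr 1
  simp only [ha, smul_smul]
  rw [inv_mul_cancel₀ (by positivity), one_smul]
  abel

end limits

/-- Feynman-Kac weight of a path: killed outside `A`, potential `V`. -/
noncomputable def fkw (A : Finset Site) (V : Site → ℝ) (s : ℝ≥0) (x : Site) (f : WP) : ℝ :=
  Set.indicator {f : WP | stay x A s f} (fun f => Real.exp (occ s (fun z => V (x + z)) f)) f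

lemma measurable_fkw (A : Finset Site) (V : Site → ℝ) {C : ℝ} (hC : ∀ x, |V x| ≤ C) (s : ℝ≥0)
    (x : Site) : Measurable (fkw A V s x) := by
  unfold fkw
  apply Measurable.indicator _ (measurableSet_stay x A s)
  exact (measurable_occ s (fun z => V (x + z)) (fun z => hC _)).exp

lemma fkw_nonneg (A : Finset Site) (V : Site → ℝ) (s : ℝ≥0) (x : Site) (f : WP) :
    0 ≤ fkw A V s x f := by
  unfold fkw
  apply Set.indicator_nonneg
  intro f _
  positivity

lemma fkw_le (A : Finset Site) (V : Site → ℝ) {C : ℝ} (hC : ∀ x, |V x| ≤ C) (s : ℝ≥0)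
    (x : Site) (f : WP) : fkw A V s x f ≤ Real.exp (s * C) := by
  unfold fkw Set.indicator
  split_ifs
  · exact Real.exp_le_exp.2 (occ_le s (fun z => hC _) f)
  · positivity

lemma PG_tendsto (A : Finset Site) (V : Site → ℝ) {C : ℝ} (hC : ∀ x, |V x| ≤ C) (s : ℝ≥0)
    (x : Site) (hx : x ∈ A) (f : WP) (hf : f.1 0 = 0) :
    Tendsto (fun N : ℕ => PG A V (s / 2 ^ N) (2 ^ N) x f) atTop (𝓝 (fkw A V s x f)) := by
  by_cases hst : stay x A s f
  · have h1 : fkw A V s x f = Real.exp (occ s (fun z => V (x + z)) f) := by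
      unfold fkw; exact Set.indicator_of_mem (by exact hst) _
    rw [h1]
    have h2 := (Real.continuous_exp.tendsto _).comp
      (riem_tendsto s (fun z => V (x + z)) (fun z => hC _) f)
    refine h2.congr (fun N => ?_)
    simp only [Function.comp]
    unfold PG riem
    rw [Finset.mul_sum, Real.exp_sum]
    apply Finset.prod_congr rfl
    intro i hi
    rw [Finset.mem_range] at hi
    unfold wgt
    rw [if_pos]
    exact (stay_iff x A s f).1 hst N (i + 1) (by omega)
  · have h1 : fkw A V s x f = 0 := by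
      unfold fkw; exact Set.indicator_of_notMem (by exact hst) _
    rw [h1]
    have hst' := hst
    rw [stay_iff] at hst'
    push Not at hst'
    obtain ⟨N0, i0, hi0, hout⟩ := hst'
    have hi1 : 1 ≤ i0 := by
      rcases Nat.eq_zero_or_pos i0 with h | h
      · exfalso
        apply hout
        rw [h]
        simpa [hf] using hx
      · exact h
    apply tendsto_const_nhds.congr'
    filter_upwards [eventually_ge_atTop N0] with N hN
    symm
    unfold PG
    have hpow : 2 ^ N = 2 ^ N0 * 2 ^ (N - N0) := by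
      rw [← pow_add]; congr 1; omega
    have hp : 1 ≤ i0 * 2 ^ (N - N0) := Nat.one_le_iff_ne_zero.2 (by positivity)
    apply Finset.prod_eq_zero (i := i0 * 2 ^ (N - N0) - 1)
    · rw [Finset.mem_range]
      have : i0 * 2 ^ (N - N0) ≤ 2 ^ N := by rw [hpow]; gcongr
      omega
    · unfold wgt
      rw [if_neg]
      have : ((i0 * 2 ^ (N - N0) - 1 + 1 : ℕ) : ℝ≥0) * (s / 2 ^ N) = (i0 : ℝ≥0) * (s / 2 ^ N0) := by
        rw [Nat.sub_add_cancel hp]
        have h3 : (2 : ℝ≥0) ^ N = 2 ^ N0 * 2 ^ (N - N0) := by exact_mod_cast hpow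
        rw [h3]
        push_cast
        field_simp
      rw [this]
      exact hout

/-- **Feynman-Kac formula.** -/
theorem feynman_kac {μ : Measure WP} (hμ : IsLaw μ) (A : Finset Site) (V : Site → ℝ) {C : ℝ}
    (hC : ∀ x, |V x| ≤ C) (s : ℝ≥0) (x y : A) :
    ∫ f, fkw A V s x.1 f * (if x.1 + f.1 s = y.1 then 1 else 0) ∂μ
      = NormedSpace.exp ((s : ℝ) • gen A V) x y := by
  have := hμ.prob
  have : Nonempty A := ⟨x⟩
  have hend : ∀ N : ℕ, (((2 ^ N : ℕ) : ℝ≥0)) * (s / 2 ^ N) = s := by
    intro N; push_cast; field_simp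
  have h1 : Tendsto (fun N : ℕ => ∫ f, PG A V (s / 2 ^ N) (2 ^ N) x.1 f
      * (if x.1 + f.1 (((2 ^ N : ℕ) : ℝ≥0) * (s / 2 ^ N)) = y.1 then 1 else 0) ∂μ) atTop
      (𝓝 (∫ f, fkw A V s x.1 f * (if x.1 + f.1 s = y.1 then 1 else 0) ∂μ)) := by
    apply tendsto_integral_of_dominated_convergence (bound := fun _ => Real.exp (s * C))
    · intro N
      exact ((measurable_PG A V _ _ x.1).mul (measurable_ite_eval _ _ _ _ _)).aestronglyMeasurable
    · exact integrable_const _
    · intro N
      refine Eventually.of_forall (fun f => ?_)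
      have := PG_bdd A V hC (s / 2 ^ N) (2 ^ N) x.1 y.1 f
      rw [Real.norm_eq_abs]
      refine this.trans (le_of_eq ?_)
      congr 1
      have := hend N
      have h2 : (((2 ^ N : ℕ) : ℝ)) * ((s / 2 ^ N : ℝ≥0) : ℝ) = s := by exact_mod_cast this
      rw [h2]
    · filter_upwards [hμ.start] with f hf
      simp only [hend]
      exact (PG_tendsto A V hC s x.1 x.2 f hf).mul_const _
  have h2 : Tendsto (fun N : ℕ => (tstep μ A V (s / 2 ^ N) ^ (2 ^ N)) x y) atTop
      (𝓝 (NormedSpace.exp ((s : ℝ) • gen A V) x y)) := by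
    exact tendsto_pi_nhds.1 (tendsto_pi_nhds.1 (tstep_pow_tendsto hμ A V s) x) y
  have h3 : (fun N : ℕ => ∫ f, PG A V (s / 2 ^ N) (2 ^ N) x.1 f
      * (if x.1 + f.1 (((2 ^ N : ℕ) : ℝ≥0) * (s / 2 ^ N)) = y.1 then 1 else 0) ∂μ)
      = fun N => (tstep μ A V (s / 2 ^ N) ^ (2 ^ N)) x y := by
    funext N
    exact skeleton_formula hμ A V hC _ _ x y
  rw [h3] at h1
  exact tendsto_nhds_unique h1 h2

end Pool.Agent.LT
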