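import Pool.Agent.LT.Path

/-!
# The law of the walk on the space of step paths
-/

open MeasureTheory ProbabilityTheory Filter Topology
open scoped NNReal ENNReal

namespace Pool.Agent.LT

/-- The law of the walk on the space of step paths. -/
structure IsLaw (μ : Measure WP) : Prop where
  prob : IsProbabilityMeasure μ
  start : ∀ᵐ f ∂μ, f.1 0 = 0
  indep : ∀ s : ℝ≥0, IndepFun (stop s) (shift s) μ
  stat : ∀ s : ℝ≥0, μ.map (shift s) = μ
  rate : ∀ e ∈ units, Tendsto (fun h : ℝ≥0 => (μ {f | f.1 h = e}).toReal / (h : ℝ))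
    (𝓝[>] 0) (𝓝 1)
  rate_zero : Tendsto (fun h : ℝ≥0 => (1 - (μ {f | f.1 h = 0}).toReal) / (h : ℝ))
    (𝓝[>] 0) (𝓝 4)

/-- The walk as a random step path. -/
def pathOf {Ω : Type*} {X : ℝ≥0 → Ω → Site} (h : ∀ ω, IsStepPath (fun s => X s ω)) (ω : Ω) : WP :=
  ⟨fun s => X s ω, h ω⟩

lemma measurable_pathOf {Ω : Type*} [MeasurableSpace Ω] {X : ℝ≥0 → Ω → Site}
    (h : ∀ ω, IsStepPath (fun s => X s ω)) (hX : ∀ s, Measurable (X s)) :
    Measurable (pathOf h) := by
  rw [measurable_wp_iff]
  intro s
  exact hX s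

lemma IsSRW.isLaw {Ω : Type*} [MeasurableSpace Ω] {P : Measure Ω} {X : ℝ≥0 → Ω → Site}
    (h : IsSRW P X) : IsLaw (P.map (pathOf h.path)) := by
  have hm := measurable_pathOf h.path h.meas
  have := h.prob
  refine ⟨Measure.isProbabilityMeasure_map hm.aemeasurable, ?_, ?_, ?_, ?_, ?_⟩
  · rw [ae_map_iff hm.aemeasurable]
    · exact Eventually.of_forall (fun ω => h.start ω)
    · exact (measurable_eval 0) (measurableSet_singleton (0 : Site))
  · intro s
    rw [indepFun_iff_measure_inter_preimage_eq_mul]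
    intro F G hF hG
    obtain ⟨F', hF', rfl⟩ := hF
    obtain ⟨G', hG', rfl⟩ := hG
    have h1 := h.indep s
    rw [indepFun_iff_measure_inter_preimage_eq_mul] at h1
    have h2 := h1 F' G' hF' hG'
    have hmF : MeasurableSet (stop s ⁻¹' (Subtype.val ⁻¹' F')) :=
      measurable_stop s (measurable_subtype_coe hF')
    have hmG : MeasurableSet (shift s ⁻¹' (Subtype.val ⁻¹' G')) :=
      measurable_shift s (measurable_subtype_coe hG')
    rw [Measure.map_apply hm (hmF.inter hmG), Measure.map_apply hm hmF, Measure.map_apply hm hmG]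
    exact h2
  · intro s
    have h1 := (h.stat s).map_eq
    have h2 : ∀ T : Set WP, MeasurableSet T → (P.map (pathOf h.path)).map (shift s) T
        = (P.map (pathOf h.path)) T := by
      intro T hT
      obtain ⟨T', hT', rfl⟩ := hT
      rw [Measure.map_apply (measurable_shift s) (measurable_subtype_coe hT'),
        Measure.map_apply hm (measurable_shift s (measurable_subtype_coe hT')),
        Measure.map_apply hm (measurable_subtype_coe hT')]
      have h3 : (P.map (fun ω (u : ℝ≥0) => X (s + u) ω - X s ω)) T'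
        = (P.map (fun ω (u : ℝ≥0) => X u ω)) T' := by rw [h1]
      rw [Measure.map_apply_of_aemeasurable (h.stat s).aemeasurable_fst hT',
        Measure.map_apply_of_aemeasurable (h.stat s).aemeasurable_snd hT'] at h3
      exact h3
    exact Measure.ext h2
  · intro e he
    refine (h.rate e he).congr (fun u => ?_)
    have h2 : MeasurableSet {f : WP | f.1 u = e} :=
      (measurable_eval u) (measurableSet_singleton e)
    rw [Measure.map_apply hm h2]
    rfl
  · refine h.rate_zero.congr (fun u => ?_)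
    have h2 : MeasurableSet {f : WP | f.1 u = 0} :=
      (measurable_eval u) (measurableSet_singleton (0 : Site))
    rw [Measure.map_apply hm h2]
    rfl

namespace IsLaw

variable {μ : Measure WP}

/-- Markov property, for sets. -/
lemma markov_set (h : IsLaw μ) (s : ℝ≥0) {F G : Set WP} (hF : MeasurableSet F)
    (hG : MeasurableSet G) :
    μ (stop s ⁻¹' F ∩ shift s ⁻¹' G) = μ (stop s ⁻¹' F) * μ G := by
  have h1 := (indepFun_iff_measure_inter_preimage_eq_mul.1 (h.indep s)) F G hF hG
  rw [h1]
  congr 1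
  have h2 : (μ.map (shift s)) G = μ G := by rw [h.stat s]
  rwa [Measure.map_apply (measurable_shift s) hG] at h2

/-- Markov property, for integrals. -/
lemma markov_integral (h : IsLaw μ) (s : ℝ≥0) {Φ Ψ : WP → ℝ} (hΦ : Measurable Φ)
    (hΨ : Measurable Ψ) :
    ∫ f, Φ (stop s f) * Ψ (shift s f) ∂μ = (∫ f, Φ (stop s f) ∂μ) * ∫ f, Ψ f ∂μ := by
  have h1 := (h.indep s).integral_fun_comp_mul_comp (f := Φ) (g := Ψ)
    (measurable_stop s).aemeasurable (measurable_shift s).aemeasurable
    hΦ.aestronglyMeasurable hΨ.aestronglyMeasurable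
  rw [h1]
  congr 1
  have h2 := integral_map (μ := μ) (measurable_shift s).aemeasurable (f := Ψ)
    hΨ.aestronglyMeasurable
  rw [h.stat s] at h2
  exact h2.symm

/-- The transition probabilities. -/
noncomputable def tp (μ : Measure WP) (h : ℝ≥0) (z : Site) : ℝ := (μ {f | f.1 h = z}).toReal

lemma tp_nonneg (h : ℝ≥0) (z : Site) : 0 ≤ tp μ h z := ENNReal.toReal_nonneg

lemma tp_eq_integral (hμ : IsLaw μ) (h : ℝ≥0) (z : Site) :
    tp μ h z = ∫ f, (if f.1 h = z then (1 : ℝ) else 0) ∂μ := by
  have := hμ.prob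
  have hm : MeasurableSet {f : WP | f.1 h = z} := (measurable_eval h) (measurableSet_singleton z)
  have : (fun f : WP => if f.1 h = z then (1 : ℝ) else 0)
      = Set.indicator {f : WP | f.1 h = z} (fun _ => (1 : ℝ)) := by
    funext f; simp [Set.indicator]
  rw [this, integral_indicator hm]
  simp [tp, Measure.real]

end IsLaw

end Pool.Agent.LT
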