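import Pool.Agent.LT.Cov
import Pool.Agent.LT.Decay
import Pool.Agent.LT.Sine

/-!
# Covering the middle of a square
-/

open MeasureTheory ProbabilityTheory Filter Topology
open scoped NNReal ENNReal

namespace Pool.Agent.LT

/-- The penalising potential. -/
noncomputable def pen (y : Site) (z : Site) : ℝ := if z = y then -1 else 0

lemma pen_bdd (y z : Site) : |pen y z| ≤ 1 := by
  unfold pen; split_ifs <;> simp

lemma pen_nonpos (y z : Site) : pen y z ≤ 0 := by
  unfold pen; split_ifs <;> norm_num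

lemma fkw_pen_le (A : Finset Site) (y : Site) (s : ℝ≥0) (x : Site) (f : WP) :
    fkw A (pen y) s x f ≤ fkw A (fun _ => 0) s x f := by
  unfold fkw
  apply Set.indicator_le_indicator
  apply Real.exp_le_exp.2
  apply occ_mono s (C := 1) (fun z => pen_bdd _ _) (fun z => by simp) f
  intro u _
  exact pen_nonpos _ _

/-- The constant of one penalised step. -/
noncomputable def cc : ℝ := (1 - Real.exp (-1)) * Real.exp (-4)

lemma cc_pos : 0 < cc := by
  unfold cc
  have h9 : Real.exp (-1) < 0.3678794412 := Real.exp_neg_one_lt_d9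
  have := Real.exp_pos (-4)
  apply mul_pos _ this
  linarith

lemma cc_le_one : cc ≤ 1 := by
  unfold cc
  have h1 := Real.exp_pos (-1)
  have h2 : Real.exp (-4) ≤ 1 := Real.exp_le_one_iff.2 (by norm_num)
  have h3 := Real.exp_pos (-4)
  nlinarith

lemma pen_step {μ : Measure WP} (hμ : IsLaw μ) (A : Finset Site) (y x z : A) :
    NormedSpace.exp ((1 : ℝ) • gen A (pen y.1)) x z
      ≤ NormedSpace.exp ((1 : ℝ) • gen A (fun _ => 0)) x z - if x = y ∧ z = y then cc else 0 := by
  have := hμ.prob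
  have e1 := feynman_kac hμ A (pen y.1) (pen_bdd y.1) 1 x z
  have e2 := feynman_kac hμ A (fun _ => 0) (C := 0) (fun _ => by simp) 1 x z
  rw [NNReal.coe_one] at e1 e2
  rw [← e1, ← e2]
  have i1 := integrable_fkw_ite (μ := μ) A (pen y.1) (pen_bdd y.1) 1 x.1 z.1
  have i2 := integrable_fkw_ite (μ := μ) A (fun _ => 0) (C := 0) (fun _ => by simp) 1 x.1 z.1
  by_cases hxy : x = y ∧ z = y
  · obtain ⟨rfl, rfl⟩ := hxy
    rw [if_pos ⟨rfl, rfl⟩]
    have h1 : cc = ∫ f, Set.indicator (cev {z.1} ∅ 0 1 z.1 z.1) (fun _ => 1 - Real.exp (-1)) f ∂μ := by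
      rw [integral_indicator (measurableSet_cev _ _ _ _ _ _)]
      have h2 := stay_kernel hμ {z.1} 0 1 ⟨z.1, Finset.mem_singleton_self _⟩
        ⟨z.1, Finset.mem_singleton_self _⟩
      rw [kernel_single] at h2
      simp only [integral_const, MeasurableSet.univ, measureReal_restrict_apply, Set.univ_inter,
        smul_eq_mul]
      rw [h2]
      unfold cc
      push_cast
      ring_nf
    have i3 : Integrable (Set.indicator (cev {z.1} ∅ 0 1 z.1 z.1) (fun _ => 1 - Real.exp (-1))) μ :=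
      (integrable_const _).indicator (measurableSet_cev _ _ _ _ _ _)
    rw [h1, ← integral_sub i2 i3]
    apply integral_mono i1 (i2.sub i3)
    intro f
    simp only [Pi.sub_apply]
    by_cases hf : f ∈ cev {z.1} ∅ 0 1 z.1 z.1
    · rw [Set.indicator_of_mem hf]
      obtain ⟨h2, _, h3⟩ := hf
      have h4 : stay z.1 A 1 f := stay_mono (Finset.singleton_subset_iff.2 z.2) h2
      rw [if_pos h3]
      unfold fkw
      rw [Set.indicator_of_mem (by exact h4), Set.indicator_of_mem (by exact h4), occ_const]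
      have h5 : occ 1 (fun w => pen z.1 (z.1 + w)) f = -1 := by
        have : occ 1 (fun _ => (-1 : ℝ)) f = -1 := by rw [occ_const]; simp
        rw [← this]
        unfold occ
        apply intervalIntegral.integral_congr
        intro u hu
        rw [Set.uIcc_of_le (1 : ℝ≥0).coe_nonneg] at hu
        have hu' : u.toNNReal ≤ 1 := by
          rw [← NNReal.coe_le_coe, Real.coe_toNNReal _ hu.1]; exact hu.2
        have := h2 _ hu'
        rw [Finset.mem_singleton] at this
        simp only [pen, this, if_true]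
      rw [h5]
      simp
    · rw [Set.indicator_of_notMem hf, sub_zero]
      apply mul_le_mul_of_nonneg_right (fkw_pen_le _ _ _ _ _)
      split_ifs <;> norm_num
  · rw [if_neg hxy, sub_zero]
    apply integral_mono i1 i2
    intro f
    apply mul_le_mul_of_nonneg_right (fkw_pen_le _ _ _ _ _)
    split_ifs <;> norm_num

lemma pen_kernel_le {μ : Measure WP} (hμ : IsLaw μ) (A : Finset Site) (y : Site) (s : ℝ≥0)
    (x z : A) : NormedSpace.exp ((s : ℝ) • gen A (pen y)) x z ≤ 1 := by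
  have := hμ.prob
  have h1 : NormedSpace.exp ((s : ℝ) • gen A (pen y)) x z
      ≤ NormedSpace.exp ((s : ℝ) • gen A (fun _ => 0)) x z := by
    rw [← feynman_kac hμ A (pen y) (pen_bdd y) s x z,
      ← feynman_kac hμ A (fun _ => 0) (C := 0) (fun _ => by simp) s x z]
    apply integral_mono (integrable_fkw_ite (μ := μ) A (pen y) (pen_bdd y) s x.1 z.1)
      (integrable_fkw_ite (μ := μ) A (fun _ => 0) (C := 0) (fun _ => by simp) s x.1 z.1)
    intro f
    apply mul_le_mul_of_nonneg_right (fkw_pen_le _ _ _ _ _)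
    split_ifs <;> norm_num
  refine h1.trans ?_
  rw [← stay_kernel hμ A 0 s x z]
  exact measureReal_le_one

/-- Small local time at `y`. -/
def lowev (A : Finset Site) (y : Site) (β : ℝ) (s : ℝ≥0) (x z : Site) : Set WP :=
  {f | stay x A s f ∧ occ s (fun w => if x + w = y then 1 else 0) f < β ∧ x + f.1 s = z}

lemma measurableSet_lowev (A : Finset Site) (y : Site) (β : ℝ) (s : ℝ≥0) (x z : Site) :
    MeasurableSet (lowev A y β s x z) := by
  have h1 : MeasurableSet {f : WP | occ s (fun w => if x + w = y then 1 else 0) f < β} :=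
    measurableSet_lt (measurable_occ s _ (ite_bdd x y)) measurable_const
  have h2 : MeasurableSet {f : WP | x + f.1 s = z} :=
    (measurable_const.add (measurable_eval s)) (measurableSet_singleton z)
  exact (measurableSet_stay x A s).inter (h1.inter h2)

lemma lowev_le {μ : Measure WP} (hμ : IsLaw μ) (A : Finset Site) (y : Site) (β : ℝ) (s : ℝ≥0)
    (x z : A) : μ.real (lowev A y β s x.1 z.1)
      ≤ Real.exp β * NormedSpace.exp ((s : ℝ) • gen A (pen y)) x z := by
  have := hμ.prob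
  rw [← feynman_kac hμ A (pen y) (pen_bdd y) s x z, ← integral_const_mul]
  have h1 : μ.real (lowev A y β s x.1 z.1)
      = ∫ f, Set.indicator (lowev A y β s x.1 z.1) (fun _ => (1 : ℝ)) f ∂μ := by
    rw [integral_indicator (measurableSet_lowev _ _ _ _ _ _)]
    simp
  rw [h1]
  apply integral_mono
  · exact (integrable_const _).indicator (measurableSet_lowev _ _ _ _ _ _)
  · exact (integrable_fkw_ite (μ := μ) A (pen y) (pen_bdd y) s x.1 z.1).const_mul _
  · intro f
    by_cases hf : f ∈ lowev A y β s x.1 z.1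
    · rw [Set.indicator_of_mem hf]
      obtain ⟨h2, h3, h4⟩ := hf
      simp only [if_pos h4, mul_one]
      unfold fkw
      rw [Set.indicator_of_mem (by exact h2), ← Real.exp_add]
      apply Real.one_le_exp
      have h5 : occ s (fun w => pen y (x.1 + w)) f
          = - occ s (fun w => if x.1 + w = y then 1 else 0) f := by
        have := occ_smul s (-1) (fun w => if x.1 + w = y then 1 else 0) f
        rw [neg_one_mul] at this
        rw [← this]
        unfold occ
        apply intervalIntegral.integral_congr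
        intro u _
        simp only [pen]
        split_ifs <;> norm_num
      rw [h5]
      linarith
    · rw [Set.indicator_of_notMem hf]
      apply mul_nonneg (Real.exp_pos _).le
      apply mul_nonneg (fkw_nonneg _ _ _ _ _)
      split_ifs <;> norm_num

/-- The loss rate. -/
noncomputable def q0 (m : ℕ) : ℝ :=
  cc * (1 / 256) * Real.exp (-20) / (1 + cc * (1 + (1 + Real.log m) ^ 2 / 2))

lemma lam1_nonneg (m : ℕ) : 0 ≤ lam1 m := by
  unfold lam1; have := lm_nonneg m 1; linarith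

lemma lam1_mul_le (m : ℕ) : ((m : ℝ) + 1) ^ 2 * lam1 m ≤ 20 := by
  have h1 := lm_one_le m
  have hN : (0 : ℝ) < (m : ℝ) + 1 := by positivity
  have h2 : ((m : ℝ) + 1) ^ 2 * lm m 1 ≤ Real.pi ^ 2 := by
    rw [le_div_iff₀ (by positivity)] at h1
    linarith
  have h3 : Real.pi ^ 2 ≤ 10 := by
    have := Real.pi_lt_d2
    have := Real.pi_pos
    nlinarith
  unfold lam1
  nlinarith

lemma pen_window {μ : Measure WP} (hμ : IsLaw μ) {m : ℕ} (hm : 1 ≤ m) (y : sq m) (hy : y.1 ∈ mid m)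
    (x : sq m) :
    (NormedSpace.exp (((2 * (m + 1) ^ 2 : ℕ) : ℝ) • gen (sq m) (pen y.1))).mulVec
      (fun x => ph m x.1) x
      ≤ ((1 - q0 m) * Real.exp (-((2 * (m + 1) ^ 2 : ℕ) * lam1 m))) * ph m x.1 := by
  have hc := cc_pos
  have hN : (0 : ℝ) < (m : ℝ) + 1 := by positivity
  have hlog : 0 ≤ Real.log m := Real.log_natCast_nonneg m
  have hS0 : 0 ≤ 1 + (1 + Real.log m) ^ 2 / 2 := by positivity
  have key := window_decay (gen (sq m) (fun _ => 0)) (gen (sq m) (pen y.1)) y (fun x => ph m x.1) cc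
    (fun x z => by
      have := kernel_nonneg hμ (sq m) (pen y.1) (pen_bdd y.1) 1 x z
      rwa [NNReal.coe_one] at this)
    (fun x z => pen_step hμ (sq m) y x z) hc.le (fun x => (ph_pos x.2).le) (lam1_nonneg m)
    (gen_ph m)
    (fun n x => by
      have := kernel_nonneg hμ (sq m) (fun _ => 0) (C := 0) (fun _ => by simp) (n : ℝ≥0) x y
      rwa [NNReal.coe_natCast] at this)
    (S := 1 + (1 + Real.log m) ^ 2 / 2) (a := 1 / (m + 1) ^ 2) (M := (m + 1) ^ 2)
    (by
      have h1 : (m + 1) ^ 2 = ((m + 1) ^ 2 - 1) + 1 := by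
        have : 0 < (m + 1) ^ 2 := by positivity
        omega
      rw [h1, Finset.sum_range_succ', Nat.cast_zero, exp_smul_zero, Matrix.one_apply_eq]
      have := green_bound y ((m + 1) ^ 2 - 1)
      linarith)
    hS0 (by positivity)
    (fun n hn x => kernel_lower hm (by exact_mod_cast hn) x y) x
  refine key.trans ?_
  have hφx := (ph_pos x.2).le
  have hexp := Real.exp_pos (-((2 * (m + 1) ^ 2 : ℕ) * lam1 m))
  have hq : q0 m ≤ cc * (1 / ((m : ℝ) + 1) ^ 2) * ph m y.1 ^ 2 * ((m + 1) ^ 2 : ℕ)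
      * Real.exp (-(((m + 1) ^ 2 : ℕ) * lam1 m)) / (1 + cc * (1 + (1 + Real.log m) ^ 2 / 2)) := by
    unfold q0
    apply div_le_div_of_nonneg_right _ (by positivity)
    have h1 := ph_mid hy
    have h2 : (1 : ℝ) / 256 ≤ ph m y.1 ^ 2 := by nlinarith
    have h3 : Real.exp (-20) ≤ Real.exp (-(((m + 1) ^ 2 : ℕ) * lam1 m)) := by
      apply Real.exp_le_exp.2
      have := lam1_mul_le m
      push_cast
      linarith
    have h4 : cc * (1 / ((m : ℝ) + 1) ^ 2) * ph m y.1 ^ 2 * ((m + 1) ^ 2 : ℕ)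
        = cc * ph m y.1 ^ 2 := by
      push_cast
      field_simp
    rw [h4]
    gcongr
  have h5 : (1 - cc * (1 / ((m : ℝ) + 1) ^ 2) * ph m y.1 ^ 2 * ((m + 1) ^ 2 : ℕ)
      * Real.exp (-(((m + 1) ^ 2 : ℕ) * lam1 m)) / (1 + cc * (1 + (1 + Real.log m) ^ 2 / 2)))
      ≤ 1 - q0 m := by linarith
  calc _ ≤ (1 - q0 m) * (Real.exp (-((2 * (m + 1) ^ 2 : ℕ) * lam1 m)) * ph m x.1) :=
        mul_le_mul_of_nonneg_right h5 (by positivity)
    _ = _ := by ring

lemma q0_pos (m : ℕ) : 0 < q0 m := by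
  unfold q0
  have := cc_pos
  positivity

lemma q0_le_one (m : ℕ) : q0 m ≤ 1 := by
  unfold q0
  have h1 := cc_pos
  have h2 := cc_le_one
  rw [div_le_one (by positivity)]
  have h3 : Real.exp (-20) ≤ 1 := Real.exp_le_one_iff.2 (by norm_num)
  have h4 := Real.exp_pos (-20)
  have h5 : cc * (1 / 256) * Real.exp (-20) ≤ 1 := by
    calc cc * (1 / 256) * Real.exp (-20) ≤ 1 * (1 / 256) * 1 := by gcongr
      _ ≤ 1 := by norm_num
  have h6 : 0 ≤ cc * (1 + (1 + Real.log m) ^ 2 / 2) := by positivity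
  linarith

lemma lowev_bound {μ : Measure WP} (hμ : IsLaw μ) {m : ℕ} (hm : 1 ≤ m) (y : Site)
    (hy : y ∈ mid m) (β : ℝ) (k : ℕ) (x z : sq m) :
    μ.real (lowev (sq m) y β (((2 * k + 1) * (m + 1) ^ 2 : ℕ) : ℝ≥0) x.1 z.1)
      ≤ Real.exp β * (((m : ℝ) + 1) ^ 2 / 4 *
        (((1 - q0 m) * Real.exp (-((2 * (m + 1) ^ 2 : ℕ) * lam1 m))) ^ k * ph m x.1)) := by
  have hysq : y ∈ sq m := (Finset.mem_filter.1 hy).1
  refine (lowev_le hμ (sq m) y β _ x z).trans ?_
  apply mul_le_mul_of_nonneg_left _ (Real.exp_pos _).le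
  have hN : (0 : ℝ) < (m : ℝ) + 1 := by positivity
  have e1 : (((((2 * k + 1) * (m + 1) ^ 2 : ℕ) : ℝ≥0)) : ℝ)
      = (k : ℝ) * ((2 * (m + 1) ^ 2 : ℕ) : ℝ) + (((m + 1) ^ 2 : ℕ) : ℝ) := by
    push_cast; ring
  rw [e1, exp_smul_add, Matrix.mul_apply]
  have hpos : ∀ s : ℝ, 0 ≤ s → ∀ x z, 0 ≤ NormedSpace.exp (s • gen (sq m) (pen y)) x z := by
    intro s hs x z
    have := kernel_nonneg hμ (sq m) (pen y) (pen_bdd y) s.toNNReal x z
    rwa [Real.coe_toNNReal _ hs] at this
  have hit := iter_decay (gen (sq m) (pen y)) (fun x => ph m x.1) hpos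
    (s := ((2 * (m + 1) ^ 2 : ℕ) : ℝ))
    (r := (1 - q0 m) * Real.exp (-((2 * (m + 1) ^ 2 : ℕ) * lam1 m))) (by positivity)
    (mul_nonneg (by linarith [q0_le_one m]) (Real.exp_pos _).le)
    (fun x => pen_window hμ hm ⟨y, hysq⟩ hy x) k x
  calc ∑ w, NormedSpace.exp (((k : ℝ) * ((2 * (m + 1) ^ 2 : ℕ) : ℝ)) • gen (sq m) (pen y)) x w
        * NormedSpace.exp ((((m + 1) ^ 2 : ℕ) : ℝ) • gen (sq m) (pen y)) w z
      ≤ ∑ w, NormedSpace.exp (((k : ℝ) * ((2 * (m + 1) ^ 2 : ℕ) : ℝ)) • gen (sq m) (pen y)) x w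
        * (((m : ℝ) + 1) ^ 2 / 4 * ph m w.1) := by
        apply Finset.sum_le_sum
        intro w _
        apply mul_le_mul_of_nonneg_left _ (hpos _ (by positivity) x w)
        have h1 := pen_kernel_le hμ (sq m) y (((m + 1) ^ 2 : ℕ) : ℝ≥0) w z
        rw [NNReal.coe_natCast] at h1
        refine h1.trans ?_
        have h2 := ph_ge w.2
        rw [div_le_iff₀ (by positivity)] at h2
        linarith
    _ = ((m : ℝ) + 1) ^ 2 / 4 *
        (NormedSpace.exp (((k : ℝ) * ((2 * (m + 1) ^ 2 : ℕ) : ℝ)) • gen (sq m) (pen y))).mulVec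
          (fun x => ph m x.1) x := by
        rw [Matrix.mulVec, dotProduct, Finset.mul_sum]
        apply Finset.sum_congr rfl
        intro w _
        ring
    _ ≤ _ := mul_le_mul_of_nonneg_left hit (by positivity)

lemma card_sq (m : ℕ) : (sq m).card = m ^ 2 := by
  unfold sq boxF
  rw [Finset.card_product, Int.card_Icc]
  have : ((-1 : ℤ) + m + 1 - (-1 + 1)).toNat = m := by omega
  rw [this]
  ring

/-- Covering the middle of a square, with explicit parameters. -/
lemma cov_mid_aux {m : ℕ} (hm : 1 ≤ m) {β : ℝ} {k : ℕ}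
    (hk : β + 8 * Real.log (m + 1) + 30 ≤ q0 m * k) {x z : Site} (hx : x ∈ sq m) (hz : z ∈ sq m) :
    CovAt (sq m) (mid m) β (((2 * k + 1) * (m + 1) ^ 2 : ℕ) : ℝ≥0) x z
      (6 * Real.log (m + 1) + 20 + 40 * k) := by
  intro μ hμ
  have := hμ.prob
  have hlow := fun y (hy : y ∈ mid m) => lowev_bound hμ hm y hy β k ⟨x, hx⟩ ⟨z, hz⟩
  obtain ⟨s, hs⟩ : ∃ s : ℝ≥0, s = (((2 * k + 1) * (m + 1) ^ 2 : ℕ) : ℝ≥0) := ⟨_, rfl⟩
  rw [← hs] at hlow ⊢
  have hN : (1 : ℝ) ≤ (m : ℝ) + 1 := by have : (0 : ℝ) ≤ m := Nat.cast_nonneg _; linarith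
  set N : ℝ := (m : ℝ) + 1 with hNdef
  have hN0 : 0 < N := by linarith
  set E : ℝ := Real.exp (-((2 * (m + 1) ^ 2 : ℕ) * lam1 m)) with hE
  have hE0 : 0 < E := Real.exp_pos _
  -- the event inclusion
  have hincl : cev (sq m) ∅ β s x z ⊆ cev (sq m) (mid m) β s x z ∪
      ⋃ y ∈ mid m, lowev (sq m) y β s x z := by
    rintro f ⟨h1, _, h3⟩
    by_cases h : ∀ y ∈ mid m, β ≤ occ s (fun w => if x + w = y then 1 else 0) f
    · left; exact ⟨h1, h, h3⟩
    · right
      push Not at h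
      obtain ⟨y, hy, hlt⟩ := h
      simp only [Set.mem_iUnion]
      exact ⟨y, hy, h1, hlt, h3⟩
  have h1 : μ.real (cev (sq m) ∅ β s x z) ≤ μ.real (cev (sq m) (mid m) β s x z)
      + ∑ y ∈ mid m, μ.real (lowev (sq m) y β s x z) := by
    refine (measureReal_mono hincl (measure_ne_top _ _)).trans ?_
    refine (measureReal_union_le _ _).trans ?_
    gcongr
    exact measureReal_biUnion_finset_le _ _
  have h2 : ∑ y ∈ mid m, μ.real (lowev (sq m) y β s x z)
      ≤ N ^ 2 * (Real.exp β * (N ^ 2 / 4 * (((1 - q0 m) * E) ^ k * ph m x))) := by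
    have h3 : ∀ y ∈ mid m, μ.real (lowev (sq m) y β s x z)
        ≤ Real.exp β * (N ^ 2 / 4 * (((1 - q0 m) * E) ^ k * ph m x)) := fun y hy => hlow y hy
    refine (Finset.sum_le_sum h3).trans ?_
    rw [Finset.sum_const, nsmul_eq_mul]
    have h4 : ((mid m).card : ℝ) ≤ N ^ 2 := by
      have h5 : (mid m).card ≤ (sq m).card := Finset.card_filter_le _ _
      rw [card_sq] at h5
      have h6 : ((mid m).card : ℝ) ≤ (m : ℝ) ^ 2 := by exact_mod_cast h5
      have h7 : (m : ℝ) ^ 2 ≤ N ^ 2 := by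
        rw [hNdef]
        have : (0 : ℝ) ≤ m := Nat.cast_nonneg _
        nlinarith
      linarith
    apply mul_le_mul_of_nonneg_right h4
    have h8 : 0 ≤ (1 - q0 m) * E := mul_nonneg (by linarith [q0_le_one m]) hE0.le
    have h9 := (ph_pos hx).le
    positivity
  have h3 : 1 / N ^ 2 * (ph m x * ph m z) * Real.exp (-((s : ℝ) * lam1 m))
      ≤ μ.real (cev (sq m) ∅ β s x z) := by
    have e1 := stay_kernel hμ (sq m) β s ⟨x, hx⟩ ⟨z, hz⟩
    rw [e1]
    have e2 : ((m : ℝ) + 1) ^ 2 ≤ (s : ℝ) := by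
      rw [hs]
      push_cast
      have : (0 : ℝ) ≤ k := Nat.cast_nonneg _
      have h4 : (0 : ℝ) ≤ (m + 1) ^ 2 := by positivity
      nlinarith
    exact kernel_lower hm e2 ⟨x, hx⟩ ⟨z, hz⟩
  have hφx := ph_pos hx
  have hφz := ph_pos hz
  have hφx4 := ph_ge hx
  have hφz4 := ph_ge hz
  have hsE : Real.exp (-((s : ℝ) * lam1 m)) = E ^ k * Real.exp (-(N ^ 2 * lam1 m)) := by
    rw [hE, ← Real.exp_nat_mul, ← Real.exp_add]
    congr 1
    rw [hs, hNdef]
    push_cast
    ring
  have h20 : Real.exp (-20) ≤ Real.exp (-(N ^ 2 * lam1 m)) := by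
    apply Real.exp_le_exp.2
    have := lam1_mul_le m
    linarith
  -- lower bound for the free kernel
  have h4 : 4 / N ^ 4 * (ph m x * E ^ k) * Real.exp (-20) ≤ μ.real (cev (sq m) ∅ β s x z) := by
    refine le_trans ?_ h3
    rw [hsE]
    calc 4 / N ^ 4 * (ph m x * E ^ k) * Real.exp (-20)
        = 1 / N ^ 2 * (ph m x * (4 / N ^ 2)) * (E ^ k * Real.exp (-20)) := by
          field_simp
      _ ≤ 1 / N ^ 2 * (ph m x * ph m z) * (E ^ k * Real.exp (-(N ^ 2 * lam1 m))) := by
          gcongr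
  -- the error term
  have h5 : N ^ 2 * (Real.exp β * (N ^ 2 / 4 * (((1 - q0 m) * E) ^ k * ph m x)))
      ≤ 2 / N ^ 4 * (ph m x * E ^ k) * Real.exp (-20) := by
    have h6 : (1 - q0 m) ^ k ≤ Real.exp (-(q0 m * k)) := by
      have h7 : 1 - q0 m ≤ Real.exp (-(q0 m)) := by
        have := Real.add_one_le_exp (-(q0 m)); linarith
      calc (1 - q0 m) ^ k ≤ Real.exp (-(q0 m)) ^ k :=
            pow_le_pow_left₀ (by linarith [q0_le_one m]) h7 k
        _ = Real.exp (-(q0 m * k)) := by rw [← Real.exp_nat_mul]; ring_nf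
    have h7 : Real.exp (-(q0 m * k)) ≤ Real.exp (-β) * (1 / N ^ 8) * Real.exp (-30) := by
      have e : (1 : ℝ) / N ^ 8 = Real.exp (-(8 * Real.log N)) := by
        have h8 : Real.exp (8 * Real.log N) = N ^ 8 := by
          have : (8 : ℝ) * Real.log N = Real.log (N ^ 8) := by rw [Real.log_pow]; norm_num
          rw [this, Real.exp_log (by positivity)]
        rw [Real.exp_neg, h8, one_div]
      rw [e, ← Real.exp_add, ← Real.exp_add]
      apply Real.exp_le_exp.2
      linarith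
    have h8 : (1 - q0 m) ^ k ≤ Real.exp (-β) * (1 / N ^ 8) * Real.exp (-30) := h6.trans h7
    have h9 : Real.exp (-30) ≤ Real.exp (-20) := Real.exp_le_exp.2 (by norm_num)
    calc N ^ 2 * (Real.exp β * (N ^ 2 / 4 * (((1 - q0 m) * E) ^ k * ph m x)))
        = (N ^ 4 / 4 * Real.exp β * (E ^ k * ph m x)) * (1 - q0 m) ^ k := by
          rw [mul_pow]; ring
      _ ≤ (N ^ 4 / 4 * Real.exp β * (E ^ k * ph m x)) *
          (Real.exp (-β) * (1 / N ^ 8) * Real.exp (-30)) := by gcongr
      _ = (Real.exp β * Real.exp (-β)) * (1 / 4 / N ^ 4 * (ph m x * E ^ k) * Real.exp (-30)) := by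
          field_simp
      _ = 1 / 4 / N ^ 4 * (ph m x * E ^ k) * Real.exp (-30) := by
          rw [← Real.exp_add, add_neg_cancel, Real.exp_zero, one_mul]
      _ ≤ 2 / N ^ 4 * (ph m x * E ^ k) * Real.exp (-20) := by
          gcongr
          norm_num
  have h6 : 2 / N ^ 4 * (ph m x * E ^ k) * Real.exp (-20)
      ≤ μ.real (cev (sq m) (mid m) β s x z) := by
    have e : 4 / N ^ 4 * (ph m x * E ^ k) * Real.exp (-20)
        = 2 / N ^ 4 * (ph m x * E ^ k) * Real.exp (-20)
          + 2 / N ^ 4 * (ph m x * E ^ k) * Real.exp (-20) := by ring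
    linarith
  refine le_trans ?_ h6
  have h7 : Real.exp (-(40 * k)) ≤ E ^ k := by
    rw [hE, ← Real.exp_nat_mul]
    apply Real.exp_le_exp.2
    have := lam1_mul_le m
    have hk0 : (0 : ℝ) ≤ k := Nat.cast_nonneg _
    push_cast
    nlinarith
  have h8 : Real.exp (-(6 * Real.log N)) = 1 / N ^ 6 := by
    have h9 : Real.exp (6 * Real.log N) = N ^ 6 := by
      have : (6 : ℝ) * Real.log N = Real.log (N ^ 6) := by rw [Real.log_pow]; norm_num
      rw [this, Real.exp_log (by positivity)]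
    rw [Real.exp_neg, h9, one_div]
  calc Real.exp (-(6 * Real.log N + 20 + 40 * k))
      = Real.exp (-(6 * Real.log N)) * Real.exp (-20) * Real.exp (-(40 * k)) := by
        rw [← Real.exp_add, ← Real.exp_add]; ring_nf
    _ = 1 / N ^ 6 * Real.exp (-20) * Real.exp (-(40 * k)) := by rw [h8]
    _ ≤ 8 / N ^ 6 * Real.exp (-20) * E ^ k := by gcongr; norm_num
    _ = 2 / N ^ 4 * (4 / N ^ 2 * E ^ k) * Real.exp (-20) := by field_simp; norm_num
    _ ≤ 2 / N ^ 4 * (ph m x * E ^ k) * Real.exp (-20) := by gcongr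

end Pool.Agent.LT
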