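import Pool.Agent.LT.Poisson
import Pool.Agent.LT.TOne

/-!
# Block covering for large threshold
-/

open MeasureTheory ProbabilityTheory Filter Topology
open scoped NNReal ENNReal

namespace Pool.Agent.LT

lemma box_step {a b : ℤ} {w h : ℕ} {x y : Site} (hx : InBox a b w h x) (hy : InBox a b w h y)
    {D : ℕ} (hD : |x.1 - y.1| + |x.2 - y.2| ≤ (D + 1 : ℕ)) :
    ∃ z, InBox a b w h z ∧ (z = x ∨ Adj x z) ∧ |z.1 - y.1| + |z.2 - y.2| ≤ D := by
  obtain ⟨hx1, hx2, hx3, hx4⟩ := hx
  obtain ⟨hy1, hy2, hy3, hy4⟩ := hy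
  push_cast at hD
  rcases lt_trichotomy x.1 y.1 with h1 | h1 | h1
  · refine ⟨(x.1 + 1, x.2), ⟨?_, ?_, ?_, ?_⟩, Or.inr (adj_right' _ _), ?_⟩
    · show a + 1 ≤ x.1 + 1; omega
    · show x.1 + 1 ≤ a + w; omega
    · show b + 1 ≤ x.2; omega
    · show x.2 ≤ b + h; omega
    · show |x.1 + 1 - y.1| + |x.2 - y.2| ≤ D
      rw [abs_of_nonpos (by omega : x.1 + 1 - y.1 ≤ 0)]
      rw [abs_of_nonpos (by omega : x.1 - y.1 ≤ 0)] at hD
      omega
  · rcases lt_trichotomy x.2 y.2 with h2 | h2 | h2
    · refine ⟨(x.1, x.2 + 1), ⟨?_, ?_, ?_, ?_⟩, Or.inr (adj_up' _ _), ?_⟩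
      · show a + 1 ≤ x.1; omega
      · show x.1 ≤ a + w; omega
      · show b + 1 ≤ x.2 + 1; omega
      · show x.2 + 1 ≤ b + h; omega
      · show |x.1 - y.1| + |x.2 + 1 - y.2| ≤ D
        rw [abs_of_nonpos (by omega : x.2 + 1 - y.2 ≤ 0)]
        rw [abs_of_nonpos (by omega : x.2 - y.2 ≤ 0)] at hD
        omega
    · refine ⟨x, ⟨hx1, hx2, hx3, hx4⟩, Or.inl rfl, ?_⟩
      rw [h1, h2]
      simp
    · have hadj : Adj x (x.1, x.2 - 1) := by
        have := adj_up' x.1 (x.2 - 1)
        rw [sub_add_cancel] at this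
        exact this.symm
      refine ⟨(x.1, x.2 - 1), ⟨?_, ?_, ?_, ?_⟩, Or.inr hadj, ?_⟩
      · show a + 1 ≤ x.1; omega
      · show x.1 ≤ a + w; omega
      · show b + 1 ≤ x.2 - 1; omega
      · show x.2 - 1 ≤ b + h; omega
      · show |x.1 - y.1| + |x.2 - 1 - y.2| ≤ D
        rw [abs_of_nonneg (by omega : 0 ≤ x.2 - 1 - y.2)]
        rw [abs_of_nonneg (by omega : 0 ≤ x.2 - y.2)] at hD
        omega
  · have hadj : Adj x (x.1 - 1, x.2) := by
      have := adj_right' (x.1 - 1) x.2
      rw [sub_add_cancel] at this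
      exact this.symm
    refine ⟨(x.1 - 1, x.2), ⟨?_, ?_, ?_, ?_⟩, Or.inr hadj, ?_⟩
    · show a + 1 ≤ x.1 - 1; omega
    · show x.1 - 1 ≤ a + w; omega
    · show b + 1 ≤ x.2; omega
    · show x.2 ≤ b + h; omega
    · show |x.1 - 1 - y.1| + |x.2 - y.2| ≤ D
      rw [abs_of_nonneg (by omega : 0 ≤ x.1 - 1 - y.1)]
      rw [abs_of_nonneg (by omega : 0 ≤ x.1 - y.1)] at hD
      omega

lemma connF_box (a b : ℤ) (w h : ℕ) : ConnF (boxF a b w h : Set Site) := by
  intro g hg
  have key : ∀ D : ℕ, ∀ x y : Site, InBox a b w h x → InBox a b w h y →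
      |x.1 - y.1| + |x.2 - y.2| ≤ D → g x = g y := by
    intro D
    induction D with
    | zero =>
      intro x y hx hy hD
      have h1 : x = y := by
        have := abs_nonneg (x.2 - y.2)
        have := abs_nonneg (x.1 - y.1)
        have h2 : |x.1 - y.1| = 0 := by push_cast at hD; omega
        have h3 : |x.2 - y.2| = 0 := by push_cast at hD; omega
        rw [abs_eq_zero] at h2 h3
        ext <;> omega
      rw [h1]
    | succ D ih =>
      intro x y hx hy hD
      obtain ⟨z, hz, hxz, hzy⟩ := box_step hx hy hD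
      have h2 := ih z y hz hy hzy
      rcases hxz with rfl | hxz
      · exact h2
      · rw [← h2]
        exact hg x (mem_boxF.2 hx) z (mem_boxF.2 hz) hxz
  intro x hx y hy
  exact key (|x.1 - y.1| + |x.2 - y.2|).toNat x y (mem_boxF.1 hx) (mem_boxF.1 hy)
    (Int.self_le_toNat _)

/-- Composition with a free intermediate point. -/
lemma comp_free {μ : Measure WP} (hμ : IsLaw μ) {A R : Finset Site} {β : ℝ} {s r : ℝ≥0}
    {x y : Site} {c : ℝ} (h : ∀ y' ∈ A, CovAt A ∅ β r y' y c) :
    Real.exp (-c) * μ.real {f : WP | stay x A s f ∧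
      ∀ z ∈ R, β ≤ occ s (fun w => if x + w = z then 1 else 0) f}
      ≤ μ.real (cev A R β (s + r) x y) := by
  classical
  have := hμ.prob
  have h1 : μ.real {f : WP | stay x A s f ∧
      ∀ z ∈ R, β ≤ occ s (fun w => if x + w = z then 1 else 0) f}
      ≤ ∑ y' ∈ A, μ.real (cev A R β s x y') := by
    refine le_trans (measureReal_mono ?_ (measure_ne_top _ _)) (measureReal_biUnion_finset_le _ _)
    intro f hf
    simp only [Set.mem_iUnion]
    exact ⟨x + f.1 s, hf.1 s le_rfl, hf.1, hf.2, rfl⟩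
  have h2 : ∑ y' ∈ A, μ.real (stop s ⁻¹' (cev A R β s x y') ∩ shift s ⁻¹' (cev A ∅ β r y' y))
      = μ.real (⋃ y' ∈ A, (stop s ⁻¹' (cev A R β s x y') ∩ shift s ⁻¹' (cev A ∅ β r y' y))) := by
    rw [measureReal_biUnion_finset]
    · intro p _ q _ hpq
      rw [Function.onFun, Set.disjoint_left]
      intro f hf hf'
      rw [cev_stop] at hf hf'
      exact hpq (hf.1.2.2.symm.trans hf'.1.2.2)
    · intro p _
      exact (measurable_stop s (measurableSet_cev _ _ _ _ _ _)).inter
        (measurable_shift s (measurableSet_cev _ _ _ _ _ _))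
  have h3 : ∀ y' ∈ A, Real.exp (-c) * μ.real (cev A R β s x y')
      ≤ μ.real (stop s ⁻¹' (cev A R β s x y') ∩ shift s ⁻¹' (cev A ∅ β r y' y)) := by
    intro y' hy'
    have e1 := hμ.markov_set s (measurableSet_cev A R β s x y') (measurableSet_cev A ∅ β r y' y)
    have e2 : μ.real (stop s ⁻¹' (cev A R β s x y') ∩ shift s ⁻¹' (cev A ∅ β r y' y))
        = μ.real (cev A R β s x y') * μ.real (cev A ∅ β r y' y) := by
      unfold Measure.real
      rw [e1, ENNReal.toReal_mul, cev_stop]
    rw [e2, mul_comm]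
    apply mul_le_mul_of_nonneg_left (h y' hy' μ hμ) measureReal_nonneg
  calc Real.exp (-c) * μ.real {f : WP | stay x A s f ∧
      ∀ z ∈ R, β ≤ occ s (fun w => if x + w = z then 1 else 0) f}
      ≤ Real.exp (-c) * ∑ y' ∈ A, μ.real (cev A R β s x y') := by gcongr
    _ = ∑ y' ∈ A, Real.exp (-c) * μ.real (cev A R β s x y') := Finset.mul_sum _ _ _
    _ ≤ _ := (Finset.sum_le_sum h3).trans (le_of_eq h2)
    _ ≤ μ.real (cev A R β (s + r) x y) := by
        apply measureReal_mono _ (measure_ne_top _ _)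
        intro f hf
        simp only [Set.mem_iUnion] at hf
        obtain ⟨y', _, hf'⟩ := hf
        have := cev_comp hf'
        rwa [Finset.union_empty] at this

/-- **Block covering.** -/
theorem block_cover (a b : ℤ) (w h : ℕ) (ψ : Site → ℝ) (hne : (boxF a b w h).Nonempty)
    (hψ : ∀ x ∈ boxF a b w h, 0 < ψ x) (hψ0 : ∀ x, x ∉ boxF a b w h → ψ x = 0)
    (R : Finset Site) (hR : R ⊆ boxF a b w h) (hR1 : ∀ z ∈ R, 1 ≤ ψ z) {η : ℝ} (hη : 0 < η) :
    ∃ β0 C : ℝ, 1 ≤ β0 ∧ 0 ≤ C ∧ ∀ β : ℝ, β0 ≤ β → ∀ x ∈ boxF a b w h, ∀ y ∈ boxF a b w h,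
      Cov (boxF a b w h) R β (C * β) x y
        (β * ((1 + η) * (∑ z ∈ boxF a b w h, potl (boxF a b w h) ψ z * ψ z ^ 2 + η) + η)) := by
  classical
  set A := boxF a b w h with hA
  have hconn : ConnF (A : Set Site) := connF_box a b w h
  obtain ⟨CV, hCV⟩ := potl_bdd A ψ
  obtain ⟨xm, hxm, hmin⟩ := A.exists_min_image ψ hne
  obtain ⟨xM, hxM, hmax⟩ := A.exists_max_image ψ hne
  set m0 := ψ xm with hm0
  set m1 := ψ xM with hm1
  have hm0pos : 0 < m0 := hψ _ hxm
  have hm1pos : 0 < m1 := hψ _ hxM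
  set n2 := ∑ x ∈ A, ψ x ^ 2 with hn2
  have hn2pos : 0 < n2 := Finset.sum_pos (fun x hx => pow_pos (hψ x hx) 2) hne
  set E := ∑ z ∈ A, potl A ψ z * ψ z ^ 2 with hE
  set δ : ℝ := η / ((1 + η) * n2) with hδ
  have hδpos : 0 < δ := by positivity
  have hδn : (1 + η) * (1 - δ * n2) = 1 := by
    rw [hδ]; field_simp; ring
  have hδn' : δ * n2 ≤ η := by
    have : δ * n2 = η / (1 + η) := by rw [hδ]; field_simp
    rw [this, div_le_iff₀ (by positivity)]
    nlinarith
  have htail := fun z => tail_bound hconn hne hψ hψ0 (v := pen z) (pen_bdd z) hδpos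
  choose Cz cz hCz hcz htz using htail
  obtain ⟨CW, cW, hCW, hcW, htW⟩ := tail_bound hconn hne hψ hψ0 (v := potl A ψ) hCV hδpos
  -- the total error tends to zero
  have hlim : Tendsto (fun s : ℝ => ∑ z ∈ R, Cz z * Real.exp (-(cz z * s))
      + CW * Real.exp (-(cW * s))) atTop (𝓝 0) := by
    have hone : ∀ C c : ℝ, 0 < c → Tendsto (fun s : ℝ => C * Real.exp (-(c * s))) atTop (𝓝 0) := by
      intro C c hc
      have h1 : Tendsto (fun s : ℝ => Real.exp (-(c * s))) atTop (𝓝 0) :=
        Real.tendsto_exp_neg_atTop_nhds_zero.comp (tendsto_id.const_mul_atTop hc)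
      simpa using h1.const_mul C
    have h2 : Tendsto (fun s : ℝ => ∑ z ∈ R, Cz z * Real.exp (-(cz z * s))) atTop
        (𝓝 (∑ z ∈ R, (0 : ℝ))) :=
      tendsto_finset_sum _ (fun z _ => hone _ _ (hcz z))
    have h3 := h2.add (hone CW cW hcW)
    simpa using h3
  have hev := hlim.eventually (gt_mem_nhds (show (0 : ℝ) < m0 / (2 * m1) by positivity))
  obtain ⟨s0, hs0⟩ := hev.exists_forall_of_atTop
  set D : ℕ := w + h with hD
  -- the constant
  set K : ℝ := Real.log (2 * m1 / m0) + 4 * D with hK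
  refine ⟨max 1 (max (s0 / ((1 + η) * n2)) (K / η)), (1 + η) * n2 + D, le_max_left _ _,
    by positivity, ?_⟩
  intro β hβ x hx y hy
  have hβ1 : 1 ≤ β := (le_max_left _ _).trans hβ
  have hβs : s0 / ((1 + η) * n2) ≤ β := ((le_max_left _ _).trans (le_max_right _ _)).trans hβ
  have hβK : K / η ≤ β := ((le_max_right _ _).trans (le_max_right _ _)).trans hβ
  have hβ0 : 0 < β := by linarith
  set sr : ℝ := (1 + η) * β * n2 with hsr
  have hsr0 : 0 < sr := by positivity
  have hsrs0 : s0 ≤ sr := by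
    rw [div_le_iff₀ (by positivity)] at hβs
    rw [hsr]; linarith
  set s : ℝ≥0 := sr.toNNReal with hs
  have hscoe : (s : ℝ) = sr := Real.coe_toNNReal _ hsr0.le
  refine ⟨s + (D : ℝ≥0), ?_, ?_⟩
  · push_cast
    rw [hscoe, hsr]
    have : (D : ℝ) ≤ D * β := by
      have : (0 : ℝ) ≤ D := Nat.cast_nonneg _
      nlinarith
    linarith
  intro μ hμ
  have := hμ.prob
  have hfree := comp_free hμ (A := A) (R := R) (β := β) (s := s) (r := (D : ℝ≥0)) (x := x) (y := y)
    (c := 4 * D) (fun y' hy' => covAt_travel' β (mem_boxF.1 hy') (mem_boxF.1 hy))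
  refine le_trans ?_ hfree
  set Gd : Set WP := {f : WP | stay x A s f ∧
      ∀ z ∈ R, β ≤ occ s (fun w => if x + w = z then 1 else 0) f} with hGd
  -- main inequality
  set T : ℝ := (1 + η) * β * (E + η) with hT
  have hmain : ψ x ≤ m1 * (Real.exp T * μ.real Gd + (∑ z ∈ R, Cz z * Real.exp (-(cz z * s))
      + CW * Real.exp (-(cW * s)))) := by
    have h1 : (NormedSpace.exp ((s : ℝ) • gen A (potl A ψ))).mulVec (fun x : A => ψ x.1)
        = (fun x : A => ψ x.1) := by
      have := exp_eigen (gen A (potl A ψ)) (fun x : A => ψ x.1) 0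
        (by rw [zero_smul]; exact gen_psi hψ hψ0) s
      simpa using this
    have h2 := congrFun h1 ⟨x, hx⟩
    rw [fk_mulVec hμ A (potl A ψ) hCV s ⟨x, hx⟩ ψ] at h2
    have h2' : ψ x = ∫ f, fkw A (potl A ψ) s x f * ψ (x + f.1 s) ∂μ := h2.symm
    rw [h2']
    have hGm : MeasurableSet Gd := by
      have h1 : MeasurableSet {f : WP | ∀ z ∈ R,
          β ≤ occ s (fun w => if x + w = z then 1 else 0) f} := by
        simp only [Set.setOf_forall]
        refine MeasurableSet.iInter fun z => MeasurableSet.iInter fun _ => ?_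
        exact measurableSet_le measurable_const (measurable_occ s _ (ite_bdd x z))
      exact (measurableSet_stay x A s).inter h1
    obtain ⟨I1, hI1⟩ : ∃ I : WP → ℝ, I = fun f =>
      Real.exp T * Set.indicator Gd (fun _ => (1 : ℝ)) f := ⟨_, rfl⟩
    obtain ⟨I2, hI2⟩ : ∃ I : Site → WP → ℝ, I = fun z f => fkw A (potl A ψ) s x f *
        (if (vbar A ψ (pen z) + δ) * s ≤ occ s (fun u => pen z (x + u)) f then 1 else 0) :=
      ⟨_, rfl⟩
    obtain ⟨I3, hI3⟩ : ∃ I : WP → ℝ, I = fun f => fkw A (potl A ψ) s x f *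
        (if (vbar A ψ (potl A ψ) + δ) * s ≤ occ s (fun u => potl A ψ (x + u)) f then 1 else 0) :=
      ⟨_, rfl⟩
    have hbdd : ∀ (v : Site → ℝ) (Cv : ℝ), (∀ u, |v u| ≤ Cv) → ∀ b : ℝ,
        Integrable (fun f : WP => fkw A (potl A ψ) s x f *
        (if b ≤ occ s (fun u => v (x + u)) f then (1 : ℝ) else 0)) μ := by
      intro v Cv hv b
      have hmeas : Measurable (fun f : WP =>
          (if b ≤ occ s (fun z => v (x + z)) f then (1 : ℝ) else 0)) := by
        apply Measurable.ite _ measurable_const measurable_const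
        exact measurableSet_le measurable_const (measurable_occ s _ (fun z => hv _))
      apply integrable_of_bdd ((measurable_fkw A _ hCV s x).mul hmeas) (C := Real.exp (s * CV) * 1)
      intro f
      rw [Pi.mul_apply, abs_mul, abs_of_nonneg (fkw_nonneg _ _ _ _ _)]
      apply mul_le_mul (fkw_le A _ hCV s x f) _ (abs_nonneg _) (Real.exp_pos _).le
      split_ifs <;> simp
    have i1 : Integrable I1 μ := by
      rw [hI1]; exact ((integrable_const _).indicator hGm).const_mul _
    have i2 : ∀ z ∈ R, Integrable (I2 z) μ := fun z _ => by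
      rw [hI2]; exact hbdd (pen z) 1 (pen_bdd z) _
    have i3 : Integrable I3 μ := by
      rw [hI3]; exact hbdd (potl A ψ) CV hCV _
    have i4 : Integrable (fun f => m1 * (I1 f + (∑ z ∈ R, I2 z f + I3 f))) μ :=
      (i1.add ((integrable_finset_sum R i2).add i3)).const_mul _
    have hint0 : Integrable (fun f : WP => fkw A (potl A ψ) s x f * ψ (x + f.1 s)) μ := by
      apply integrable_of_bdd ((measurable_fkw A _ hCV s x).mul (measurable_of_site s x ψ))
        (C := Real.exp (s * CV) * m1)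
      intro f
      rw [Pi.mul_apply, abs_mul, abs_of_nonneg (fkw_nonneg _ _ _ _ _)]
      by_cases hst : stay x A s f
      · have hmem : x + f.1 s ∈ A := hst s le_rfl
        rw [abs_of_pos (hψ _ hmem)]
        exact mul_le_mul (fkw_le A _ hCV s x f) (hmax _ hmem) (hψ _ hmem).le (Real.exp_pos _).le
      · have h0 : fkw A (potl A ψ) s x f = 0 := by
          unfold fkw; exact Set.indicator_of_notMem (by exact hst) _
        rw [h0, zero_mul]
        positivity
    have hpt : ∀ f : WP, fkw A (potl A ψ) s x f * ψ (x + f.1 s)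
        ≤ m1 * (I1 f + (∑ z ∈ R, I2 z f + I3 f)) := by
      intro f
      have hn1 : 0 ≤ I1 f := by
        rw [hI1]
        apply mul_nonneg (Real.exp_pos _).le
        exact Set.indicator_nonneg (fun _ _ => zero_le_one) _
      have hn2' : ∀ z ∈ R, 0 ≤ I2 z f := by
        intro z _
        rw [hI2]
        apply mul_nonneg (fkw_nonneg _ _ _ _ _)
        split_ifs <;> norm_num
      have hn3 : 0 ≤ I3 f := by
        rw [hI3]
        apply mul_nonneg (fkw_nonneg _ _ _ _ _)
        split_ifs <;> norm_num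
      have hns := Finset.sum_nonneg hn2'
      by_cases hst : stay x A s f
      swap
      · have h0 : fkw A (potl A ψ) s x f = 0 := by
          unfold fkw; exact Set.indicator_of_notMem (by exact hst) _
        rw [h0, zero_mul]
        exact mul_nonneg hm1pos.le (add_nonneg hn1 (add_nonneg hns hn3))
      have hmem : x + f.1 s ∈ A := hst s le_rfl
      have hfk := fkw_nonneg A (potl A ψ) s x f
      have hψm := hmax _ hmem
      have hle : fkw A (potl A ψ) s x f ≤ I1 f + (∑ z ∈ R, I2 z f + I3 f) := by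
        by_cases hb3 : (vbar A ψ (potl A ψ) + δ) * s ≤ occ s (fun u => potl A ψ (x + u)) f
        · have : I3 f = fkw A (potl A ψ) s x f := by
            rw [hI3]; simp only [if_pos hb3, mul_one]
          linarith
        by_cases hb2 : ∃ z ∈ R, (vbar A ψ (pen z) + δ) * s ≤ occ s (fun u => pen z (x + u)) f
        · obtain ⟨z, hz, hb2⟩ := hb2
          have h3 : I2 z f = fkw A (potl A ψ) s x f := by
            rw [hI2]; simp only [if_pos hb2, mul_one]
          have h4 : I2 z f ≤ ∑ z ∈ R, I2 z f :=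
            Finset.single_le_sum (f := fun z => I2 z f) hn2' hz
          linarith
        push Not at hb2 hb3
        have hG : f ∈ Gd := by
          refine ⟨hst, fun z hz => ?_⟩
          have h3 := hb2 z hz
          have h5 : occ s (fun u => pen z (x + u)) f
              = - occ s (fun u => if x + u = z then 1 else 0) f := by
            have := occ_smul s (-1) (fun u => if x + u = z then 1 else 0) f
            rw [neg_one_mul] at this
            rw [← this]
            unfold occ
            apply intervalIntegral.integral_congr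
            intro u _
            simp only [pen]
            split_ifs <;> norm_num
          have h6 : vbar A ψ (pen z) = -(ψ z ^ 2 / n2) := by
            unfold vbar
            have : ∑ u ∈ A, pen z u * ψ u ^ 2 = - ψ z ^ 2 := by
              rw [Finset.sum_eq_single_of_mem z (hR hz)]
              · unfold pen; rw [if_pos rfl]; ring
              · intro u _ hu
                unfold pen; rw [if_neg hu]; ring
            rw [this, ← hn2]
            ring
          rw [h5, h6, hscoe, hsr] at h3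
          have h7 := hR1 z hz
          have h8 : 1 / n2 ≤ ψ z ^ 2 / n2 := by
            apply div_le_div_of_nonneg_right _ hn2pos.le
            nlinarith
          have h9 : β = (1 / n2 - δ) * ((1 + η) * β * n2) := by
            have : (1 / n2 - δ) * ((1 + η) * β * n2) = β * ((1 + η) * (1 - δ * n2)) := by
              field_simp
            rw [this, hδn, mul_one]
          have h10 : (1 / n2 - δ) * ((1 + η) * β * n2) ≤ (ψ z ^ 2 / n2 - δ) * ((1 + η) * β * n2) := by
            apply mul_le_mul_of_nonneg_right _ hsr0.le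
            linarith
          linarith
        have h3 : I1 f = Real.exp T := by
          rw [hI1]; simp only [Set.indicator_of_mem hG, mul_one]
        have h4 : fkw A (potl A ψ) s x f ≤ Real.exp T := by
          unfold fkw
          rw [Set.indicator_of_mem (by exact hst)]
          apply Real.exp_le_exp.2
          refine hb3.le.trans ?_
          have h5 : vbar A ψ (potl A ψ) = E / n2 := rfl
          rw [h5, hscoe, hsr, hT]
          have h6 : (E / n2 + δ) * ((1 + η) * β * n2) = (1 + η) * β * (E + δ * n2) := by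
            field_simp
          rw [h6]
          gcongr
        linarith
      calc fkw A (potl A ψ) s x f * ψ (x + f.1 s) ≤ fkw A (potl A ψ) s x f * m1 := by gcongr
        _ ≤ (I1 f + (∑ z ∈ R, I2 z f + I3 f)) * m1 := by gcongr
        _ = _ := mul_comm _ _
    refine (integral_mono hint0 i4 hpt).trans ?_
    rw [integral_const_mul]
    apply mul_le_mul_of_nonneg_left _ hm1pos.le
    have e1 : ∫ f, (I1 f + (∑ z ∈ R, I2 z f + I3 f)) ∂μ
        = ∫ f, I1 f ∂μ + (∑ z ∈ R, ∫ f, I2 z f ∂μ + ∫ f, I3 f ∂μ) := by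
      have i2s : Integrable (fun f => ∑ z ∈ R, I2 z f) μ := integrable_finset_sum R i2
      have i23 : Integrable (fun f => ∑ z ∈ R, I2 z f + I3 f) μ := i2s.add i3
      have e1a : ∫ f, (I1 f + (∑ z ∈ R, I2 z f + I3 f)) ∂μ
        = ∫ f, I1 f ∂μ + ∫ f, (∑ z ∈ R, I2 z f + I3 f) ∂μ := integral_add i1 i23
      have e1b : ∫ f, (∑ z ∈ R, I2 z f + I3 f) ∂μ
        = ∫ f, ∑ z ∈ R, I2 z f ∂μ + ∫ f, I3 f ∂μ := integral_add i2s i3
      rw [e1a, e1b, integral_finset_sum R i2]
    rw [e1]
    have e2 : ∫ f, I1 f ∂μ = Real.exp T * μ.real Gd := by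
      rw [hI1, integral_const_mul, integral_indicator hGm]
      simp
    rw [e2]
    have e3 : ∑ z ∈ R, ∫ f, I2 z f ∂μ ≤ ∑ z ∈ R, Cz z * Real.exp (-(cz z * s)) := by
      apply Finset.sum_le_sum
      intro z _
      rw [hI2]
      exact htz z μ hμ s x hx
    have e4 : ∫ f, I3 f ∂μ ≤ CW * Real.exp (-(cW * s)) := by
      rw [hI3]
      exact htW μ hμ s x hx
    linarith
  have herr := hs0 sr hsrs0
  rw [hscoe] at hmain
  have hψx := hmin x hx
  have hG1 : m0 / (2 * m1) * Real.exp (-T) ≤ μ.real Gd := by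
    have h1 : m0 ≤ m1 * (Real.exp T * μ.real Gd) + m0 / 2 := by
      have h2 : m1 * (∑ z ∈ R, Cz z * Real.exp (-(cz z * sr)) + CW * Real.exp (-(cW * sr)))
          ≤ m1 * (m0 / (2 * m1)) := mul_le_mul_of_nonneg_left herr.le hm1pos.le
      have h3 : m1 * (m0 / (2 * m1)) = m0 / 2 := by field_simp
      linarith
    have h4 : m0 / (2 * m1) ≤ Real.exp T * μ.real Gd := by
      rw [div_le_iff₀ (by positivity)]
      linarith
    rw [Real.exp_neg, ← div_eq_mul_inv, div_le_iff₀ (Real.exp_pos _)]
    linarith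
  have hKβ : K ≤ η * β := by
    rw [div_le_iff₀ hη] at hβK
    linarith
  calc Real.exp (-(β * ((1 + η) * (E + η) + η)))
      ≤ Real.exp (-(K + T)) := by
        apply Real.exp_le_exp.2
        rw [hT]
        nlinarith
    _ = Real.exp (-(4 * D)) * (m0 / (2 * m1) * Real.exp (-T)) := by
        have h1 : m0 / (2 * m1) = Real.exp (-(Real.log (2 * m1 / m0))) := by
          rw [Real.exp_neg, Real.exp_log (by positivity), inv_div]
        rw [h1, ← Real.exp_add, ← Real.exp_add]
        congr 1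
        rw [hK]; ring
    _ ≤ Real.exp (-(4 * D)) * μ.real Gd := by gcongr

end Pool.Agent.LT
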