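import Pool.Agent.LT.Poisson
import Pool.Agent.LT.Sine

/-!
# The trapezoidal test function
-/

open MeasureTheory ProbabilityTheory Filter Topology
open scoped NNReal ENNReal

namespace Pool.Agent.LT

/-- Horizontal trapezoid. -/
noncomputable def tr1 (h L : ℕ) (i : ℤ) : ℝ :=
  if i < -h then 0 else if i < 0 then ((i : ℝ) + h + 1) / (h + 1) else if i < L then 1
  else if i < L + h then ((L : ℝ) + h - i) / (h + 1) else 0

/-- Vertical trapezoid. -/
noncomputable def tr2 (h : ℕ) (j : ℤ) : ℝ :=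
  if j < 0 then 0 else if j < h then 1 else if j < 2 * h then ((2 : ℝ) * h - j) / (h + 1) else 0

lemma tr1_nonneg (h L : ℕ) (i : ℤ) : 0 ≤ tr1 h L i := by
  unfold tr1
  split_ifs with h1 h2 h3 h4
  · exact le_rfl
  · have : (-(h : ℤ) : ℤ) ≤ i := by omega
    have h5 : (-(h : ℝ)) ≤ i := by exact_mod_cast this
    apply div_nonneg _ (by positivity)
    linarith
  · exact zero_le_one
  · have h5 : (i : ℝ) < L + h := by exact_mod_cast h4
    apply div_nonneg _ (by positivity)
    linarith
  · exact le_rfl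

lemma tr1_le_one (h L : ℕ) (i : ℤ) : tr1 h L i ≤ 1 := by
  unfold tr1
  split_ifs with h1 h2 h3 h4
  · exact zero_le_one
  · have h5 : (i : ℝ) < 0 := by exact_mod_cast h2
    rw [div_le_one (by positivity)]
    linarith
  · exact le_rfl
  · have h5 : (L : ℝ) ≤ i := by exact_mod_cast (by omega : (L : ℤ) ≤ i)
    rw [div_le_one (by positivity)]
    linarith
  · exact zero_le_one

lemma tr2_nonneg (h : ℕ) (j : ℤ) : 0 ≤ tr2 h j := by
  unfold tr2
  split_ifs with h1 h2 h3
  · exact le_rfl
  · exact zero_le_one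
  · have h5 : (j : ℝ) < 2 * h := by exact_mod_cast h3
    apply div_nonneg _ (by positivity)
    linarith
  · exact le_rfl

lemma tr2_le_one (h : ℕ) (j : ℤ) : tr2 h j ≤ 1 := by
  unfold tr2
  split_ifs with h1 h2 h3
  · exact zero_le_one
  · exact le_rfl
  · have h5 : (h : ℝ) ≤ j := by exact_mod_cast (by omega : (h : ℤ) ≤ j)
    rw [div_le_one (by positivity)]
    linarith
  · exact zero_le_one

lemma tr1_pos {h L : ℕ} {i : ℤ} (h1 : -(h : ℤ) ≤ i) (h2 : i < L + h) : 0 < tr1 h L i := by
  unfold tr1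
  have h3 : (-(h : ℝ)) ≤ i := by exact_mod_cast h1
  have h4 : (i : ℝ) < L + h := by exact_mod_cast h2
  rw [if_neg (by omega)]
  split_ifs
  · apply div_pos _ (by positivity); linarith
  · exact one_pos
  · apply div_pos _ (by positivity); linarith

lemma tr2_pos {h : ℕ} {j : ℤ} (h1 : 0 ≤ j) (h2 : j < 2 * h) : 0 < tr2 h j := by
  unfold tr2
  have h4 : (j : ℝ) < 2 * h := by exact_mod_cast h2
  rw [if_neg (by omega)]
  split_ifs
  · exact one_pos
  · apply div_pos _ (by positivity); linarith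

lemma tr1_kink {h L : ℕ} (hL : 1 ≤ L) (i : ℤ) :
    tr1 h L i * (2 * tr1 h L i - tr1 h L (i + 1) - tr1 h L (i - 1))
      ≤ (if i = 0 then 1 / ((h : ℝ) + 1) else 0) + (if i = (L : ℤ) - 1 then 1 / ((h : ℝ) + 1) else 0) := by
  have hH : (0 : ℝ) < (h : ℝ) + 1 := by positivity
  have hr0 : 0 ≤ (if i = 0 then 1 / ((h : ℝ) + 1) else 0)
      + (if i = (L : ℤ) - 1 then 1 / ((h : ℝ) + 1) else 0) := by
    apply add_nonneg <;> split_ifs <;> positivity
  by_cases c1 : i < -h
  · have : tr1 h L i = 0 := by unfold tr1; rw [if_pos c1]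
    rw [this, zero_mul]; exact hr0
  by_cases c2 : i < 0
  · have e0 : tr1 h L i = ((i : ℝ) + h + 1) / (h + 1) := by
      unfold tr1; rw [if_neg c1, if_pos c2]
    have e1 : tr1 h L (i + 1) = (((i : ℝ) + 1) + h + 1) / (h + 1) := by
      unfold tr1
      rw [if_neg (by omega)]
      by_cases c3 : i + 1 < 0
      · rw [if_pos c3]; push_cast; ring
      · rw [if_neg c3, if_pos (by omega)]
        have : i = -1 := by omega
        subst this
        push_cast
        field_simp
        ring
    have e2 : tr1 h L (i - 1) = (((i : ℝ) - 1) + h + 1) / (h + 1) := by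
      unfold tr1
      by_cases c3 : i - 1 < -h
      · rw [if_pos c3]
        have : i = -h := by omega
        rw [this]; push_cast
        field_simp
        ring
      · rw [if_neg c3, if_pos (by omega)]; push_cast; ring
    have : 2 * tr1 h L i - tr1 h L (i + 1) - tr1 h L (i - 1) = 0 := by
      rw [e0, e1, e2]; field_simp; ring
    rw [this, mul_zero]; exact hr0
  by_cases c3 : i < L
  · have e0 : tr1 h L i = 1 := by
      unfold tr1; rw [if_neg c1, if_neg c2, if_pos c3]
    have e1 : 1 - (if i = (L : ℤ) - 1 then 1 / ((h : ℝ) + 1) else 0) ≤ tr1 h L (i + 1) := by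
      by_cases c4 : i + 1 < L
      · have : tr1 h L (i + 1) = 1 := by
          unfold tr1
          rw [if_neg (by omega), if_neg (by omega), if_pos c4]
        rw [this]
        split_ifs
        · have : 0 < 1 / ((h : ℝ) + 1) := by positivity
          linarith
        · linarith
      · rw [if_pos (by omega : i = (L : ℤ) - 1)]
        have hi : (i : ℝ) = L - 1 := by exact_mod_cast (by omega : i = (L : ℤ) - 1)
        unfold tr1
        rw [if_neg (by omega), if_neg (by omega), if_neg c4]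
        split_ifs
        · push_cast
          rw [hi]
          apply le_of_eq
          field_simp
          ring
        · have : h = 0 := by omega
          rw [this]; norm_num
    have e2 : 1 - (if i = 0 then 1 / ((h : ℝ) + 1) else 0) ≤ tr1 h L (i - 1) := by
      by_cases c4 : i = 0
      · rw [if_pos c4]
        subst c4
        unfold tr1
        by_cases c5 : (0 : ℤ) - 1 < -h
        · rw [if_pos c5]
          have : h = 0 := by omega
          rw [this]; norm_num
        · rw [if_neg c5, if_pos (by norm_num)]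
          apply le_of_eq
          push_cast
          field_simp
          ring
      · rw [if_neg c4]
        have : tr1 h L (i - 1) = 1 := by
          unfold tr1
          rw [if_neg (by omega), if_neg (by omega), if_pos (by omega)]
        rw [this]
        linarith
    rw [e0]
    linarith
  by_cases c4 : i < L + h
  · have e0 : tr1 h L i = ((L : ℝ) + h - i) / (h + 1) := by
      unfold tr1; rw [if_neg c1, if_neg c2, if_neg c3, if_pos c4]
    have e1 : tr1 h L (i + 1) = ((L : ℝ) + h - (i + 1)) / (h + 1) := by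
      unfold tr1
      rw [if_neg (by omega), if_neg (by omega), if_neg (by omega)]
      by_cases c5 : i + 1 < L + h
      · rw [if_pos c5]; push_cast; ring
      · rw [if_neg c5]
        have hi : (i : ℝ) = L + h - 1 := by exact_mod_cast (by omega : i = (L : ℤ) + h - 1)
        rw [hi]
        have : (L : ℝ) + h - (L + h - 1 + 1) = 0 := by ring
        rw [this, zero_div]
    have e2 : tr1 h L (i - 1) = ((L : ℝ) + h - (i - 1)) / (h + 1) := by
      unfold tr1
      rw [if_neg (by omega), if_neg (by omega)]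
      by_cases c5 : i - 1 < L
      · rw [if_pos c5]
        have hi : (i : ℝ) = L := by exact_mod_cast (by omega : i = (L : ℤ))
        rw [hi]
        field_simp
        ring
      · rw [if_neg c5, if_pos (by omega)]; push_cast; ring
    have : 2 * tr1 h L i - tr1 h L (i + 1) - tr1 h L (i - 1) = 0 := by
      rw [e0, e1, e2]; field_simp; ring
    rw [this, mul_zero]; exact hr0
  · have : tr1 h L i = 0 := by
      unfold tr1; rw [if_neg c1, if_neg c2, if_neg c3, if_neg c4]
    rw [this, zero_mul]; exact hr0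

lemma tr2_kink {h : ℕ} (hh : 1 ≤ h) (j : ℤ) :
    tr2 h j * (2 * tr2 h j - tr2 h (j + 1) - tr2 h (j - 1))
      ≤ (if j = 0 then (1 : ℝ) else 0) + (if j = (h : ℤ) - 1 then 1 / ((h : ℝ) + 1) else 0) := by
  have hH : (0 : ℝ) < (h : ℝ) + 1 := by positivity
  have hr0 : 0 ≤ (if j = 0 then (1 : ℝ) else 0)
      + (if j = (h : ℤ) - 1 then 1 / ((h : ℝ) + 1) else 0) := by
    apply add_nonneg <;> split_ifs <;> positivity
  by_cases c2 : j < 0
  · have : tr2 h j = 0 := by unfold tr2; rw [if_pos c2]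
    rw [this, zero_mul]; exact hr0
  by_cases c3 : j < h
  · have e0 : tr2 h j = 1 := by
      unfold tr2; rw [if_neg c2, if_pos c3]
    have e1 : 1 - (if j = (h : ℤ) - 1 then 1 / ((h : ℝ) + 1) else 0) ≤ tr2 h (j + 1) := by
      by_cases c4 : j + 1 < h
      · have : tr2 h (j + 1) = 1 := by
          unfold tr2
          rw [if_neg (by omega), if_pos c4]
        rw [this]
        split_ifs
        · have : 0 < 1 / ((h : ℝ) + 1) := by positivity
          linarith
        · linarith
      · rw [if_pos (by omega : j = (h : ℤ) - 1)]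
        have hi : (j : ℝ) = h - 1 := by exact_mod_cast (by omega : j = (h : ℤ) - 1)
        unfold tr2
        rw [if_neg (by omega), if_neg c4, if_pos (by omega)]
        push_cast
        rw [hi]
        apply le_of_eq
        field_simp
        ring
    have e2 : 1 - (if j = 0 then (1 : ℝ) else 0) ≤ tr2 h (j - 1) := by
      by_cases c4 : j = 0
      · rw [if_pos c4]
        have := tr2_nonneg h (j - 1)
        linarith
      · rw [if_neg c4]
        have : tr2 h (j - 1) = 1 := by
          unfold tr2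
          rw [if_neg (by omega), if_pos (by omega)]
        rw [this]
        linarith
    rw [e0]
    linarith
  by_cases c4 : j < 2 * h
  · have e0 : tr2 h j = ((2 : ℝ) * h - j) / (h + 1) := by
      unfold tr2; rw [if_neg c2, if_neg c3, if_pos c4]
    have e1 : tr2 h (j + 1) = ((2 : ℝ) * h - (j + 1)) / (h + 1) := by
      unfold tr2
      rw [if_neg (by omega), if_neg (by omega)]
      by_cases c5 : j + 1 < 2 * h
      · rw [if_pos c5]; push_cast; ring
      · rw [if_neg c5]
        have hi : (j : ℝ) = 2 * h - 1 := by exact_mod_cast (by omega : j = (2 : ℤ) * h - 1)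
        rw [hi]
        have : (2 : ℝ) * h - (2 * h - 1 + 1) = 0 := by ring
        rw [this, zero_div]
    have e2 : tr2 h (j - 1) = ((2 : ℝ) * h - (j - 1)) / (h + 1) := by
      unfold tr2
      rw [if_neg (by omega)]
      by_cases c5 : j - 1 < h
      · rw [if_pos c5]
        have hi : (j : ℝ) = h := by exact_mod_cast (by omega : j = (h : ℤ))
        rw [hi]
        field_simp
        ring
      · rw [if_neg c5, if_pos (by omega)]; push_cast; ring
    have : 2 * tr2 h j - tr2 h (j + 1) - tr2 h (j - 1) = 0 := by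
      rw [e0, e1, e2]; field_simp; ring
    rw [this, mul_zero]; exact hr0
  · have : tr2 h j = 0 := by
      unfold tr2; rw [if_neg c2, if_neg c3, if_neg c4]
    rw [this, zero_mul]; exact hr0

/-- The block. -/
noncomputable def tblk (h L : ℕ) : Finset Site := boxF (-(h : ℤ) - 1) (-1) (L + 2 * h) (2 * h)

lemma mem_tblk {h L : ℕ} {x : Site} :
    x ∈ tblk h L ↔ -(h : ℤ) ≤ x.1 ∧ x.1 < L + h ∧ 0 ≤ x.2 ∧ x.2 < 2 * h := by
  unfold tblk
  rw [mem_boxF]
  unfold InBox
  push_cast
  constructor <;> intro h <;> omega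

/-- The test function. -/
noncomputable def trap (h L : ℕ) (x : Site) : ℝ := tr1 h L x.1 * tr2 h x.2

lemma trap_pos {h L : ℕ} {x : Site} (hx : x ∈ tblk h L) : 0 < trap h L x := by
  rw [mem_tblk] at hx
  exact mul_pos (tr1_pos hx.1 hx.2.1) (tr2_pos hx.2.2.1 hx.2.2.2)

lemma trap_zero {h L : ℕ} {x : Site} (hx : x ∉ tblk h L) : trap h L x = 0 := by
  rw [mem_tblk] at hx
  have h1 : x.1 < -h ∨ (L : ℤ) + h ≤ x.1 ∨ x.2 < 0 ∨ 2 * (h : ℤ) ≤ x.2 := by omega
  unfold trap
  rcases h1 with h1 | h1 | h1 | h1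
  · have : tr1 h L x.1 = 0 := by unfold tr1; rw [if_pos h1]
    rw [this, zero_mul]
  · have : tr1 h L x.1 = 0 := by
      unfold tr1; rw [if_neg (by omega), if_neg (by omega), if_neg (by omega), if_neg (by omega)]
    rw [this, zero_mul]
  · have : tr2 h x.2 = 0 := by unfold tr2; rw [if_pos h1]
    rw [this, mul_zero]
  · have : tr2 h x.2 = 0 := by
      unfold tr2; rw [if_neg (by omega), if_neg (by omega), if_neg (by omega)]
    rw [this, mul_zero]

lemma trap_energy {h L : ℕ} (hh : 1 ≤ h) (hL : 1 ≤ L) :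
    ∑ z ∈ tblk h L, potl (tblk h L) (trap h L) z * trap h L z ^ 2
      ≤ ((L : ℝ) + 2 * h) * (1 + 1 / (h + 1)) + 4 := by
  have hH : (0 : ℝ) < (h : ℝ) + 1 := by positivity
  have h1 : ∀ z ∈ tblk h L, potl (tblk h L) (trap h L) z * trap h L z ^ 2
      = (tr1 h L z.1 * (2 * tr1 h L z.1 - tr1 h L (z.1 + 1) - tr1 h L (z.1 - 1))) * tr2 h z.2 ^ 2
        + tr1 h L z.1 ^ 2 * (tr2 h z.2 * (2 * tr2 h z.2 - tr2 h (z.2 + 1) - tr2 h (z.2 - 1))) := by
    intro z hz
    unfold potl
    rw [if_pos hz, sum_units]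
    have hp := trap_pos hz
    have e : (4 - (trap h L (z + (1, 0)) + trap h L (z + (-1, 0)) + trap h L (z + (0, 1))
        + trap h L (z + (0, -1))) / trap h L z) * trap h L z ^ 2
        = (4 * trap h L z - (trap h L (z + (1, 0)) + trap h L (z + (-1, 0)) + trap h L (z + (0, 1))
        + trap h L (z + (0, -1)))) * trap h L z := by
      field_simp
    rw [e]
    unfold trap
    simp only [Prod.fst_add, Prod.snd_add, add_zero]
    have e1 : z.1 + -1 = z.1 - 1 := by ring
    have e2 : z.2 + -1 = z.2 - 1 := by ring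
    rw [e1, e2]
    ring
  rw [Finset.sum_congr rfl h1, Finset.sum_add_distrib]
  have hprod : tblk h L = Finset.Icc (-(h : ℤ)) (L + h - 1) ×ˢ Finset.Icc (0 : ℤ) (2 * h - 1) := by
    ext x
    rw [mem_tblk, Finset.mem_product, Finset.mem_Icc, Finset.mem_Icc]
    constructor <;> intro h <;> omega
  rw [hprod, Finset.sum_product, Finset.sum_product]
  simp only
  have s1 : ∑ i ∈ Finset.Icc (-(h : ℤ)) (L + h - 1),
      tr1 h L i * (2 * tr1 h L i - tr1 h L (i + 1) - tr1 h L (i - 1)) ≤ 2 / (h + 1) := by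
    refine (Finset.sum_le_sum (fun i _ => tr1_kink hL i)).trans ?_
    rw [Finset.sum_add_distrib, Finset.sum_ite_eq', Finset.sum_ite_eq']
    have e3 : (2 : ℝ) / (h + 1) = 1 / (h + 1) + 1 / (h + 1) := by ring
    rw [e3]
    apply add_le_add <;> split_ifs <;> first | exact le_rfl | positivity
  have s2 : ∑ j ∈ Finset.Icc (0 : ℤ) (2 * h - 1),
      tr2 h j * (2 * tr2 h j - tr2 h (j + 1) - tr2 h (j - 1)) ≤ 1 + 1 / (h + 1) := by
    refine (Finset.sum_le_sum (fun i _ => tr2_kink hh i)).trans ?_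
    rw [Finset.sum_add_distrib, Finset.sum_ite_eq', Finset.sum_ite_eq']
    apply add_le_add <;> split_ifs <;> first | exact le_rfl | positivity
  have s3 : ∑ i ∈ Finset.Icc (-(h : ℤ)) (L + h - 1), tr1 h L i ^ 2 ≤ (L : ℝ) + 2 * h := by
    have : ∀ i ∈ Finset.Icc (-(h : ℤ)) (L + h - 1), tr1 h L i ^ 2 ≤ 1 := by
      intro i _
      exact pow_le_one₀ (tr1_nonneg h L i) (tr1_le_one h L i)
    refine (Finset.sum_le_sum this).trans ?_
    rw [Finset.sum_const, Int.card_Icc, nsmul_eq_mul, mul_one]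
    have : ((L + h - 1 + 1 - -(h : ℤ)).toNat : ℤ) = L + 2 * h := by omega
    have h2 : ((L + h - 1 + 1 - -(h : ℤ)).toNat : ℝ) = (L : ℝ) + 2 * h := by exact_mod_cast this
    rw [h2]
  have s4 : ∑ j ∈ Finset.Icc (0 : ℤ) (2 * h - 1), tr2 h j ^ 2 ≤ 2 * (h : ℝ) := by
    have : ∀ i ∈ Finset.Icc (0 : ℤ) (2 * h - 1), tr2 h i ^ 2 ≤ 1 := by
      intro i _
      exact pow_le_one₀ (tr2_nonneg h i) (tr2_le_one h i)
    refine (Finset.sum_le_sum this).trans ?_
    rw [Finset.sum_const, Int.card_Icc, nsmul_eq_mul, mul_one]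
    have : ((2 * (h : ℤ) - 1 + 1 - 0).toNat : ℤ) = 2 * h := by omega
    have h2 : ((2 * (h : ℤ) - 1 + 1 - 0).toNat : ℝ) = 2 * (h : ℝ) := by exact_mod_cast this
    rw [h2]
  have s3' : 0 ≤ ∑ i ∈ Finset.Icc (-(h : ℤ)) (L + h - 1), tr1 h L i ^ 2 :=
    Finset.sum_nonneg (fun _ _ => sq_nonneg _)
  have s4' : 0 ≤ ∑ j ∈ Finset.Icc (0 : ℤ) (2 * h - 1), tr2 h j ^ 2 :=
    Finset.sum_nonneg (fun _ _ => sq_nonneg _)
  simp only [← Finset.mul_sum]
  rw [← Finset.sum_mul, ← Finset.sum_mul]
  have f1 : (∑ i ∈ Finset.Icc (-(h : ℤ)) (L + h - 1),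
      tr1 h L i * (2 * tr1 h L i - tr1 h L (i + 1) - tr1 h L (i - 1)))
      * ∑ j ∈ Finset.Icc (0 : ℤ) (2 * h - 1), tr2 h j ^ 2 ≤ 4 := by
    calc _ ≤ 2 / ((h : ℝ) + 1) * ∑ j ∈ Finset.Icc (0 : ℤ) (2 * h - 1), tr2 h j ^ 2 :=
          mul_le_mul_of_nonneg_right s1 s4'
      _ ≤ 2 / ((h : ℝ) + 1) * (2 * h) := by gcongr
      _ ≤ 4 := by
          rw [div_mul_eq_mul_div, div_le_iff₀ hH]
          linarith
  have f2 : (∑ i ∈ Finset.Icc (-(h : ℤ)) (L + h - 1), tr1 h L i ^ 2) *
      (∑ j ∈ Finset.Icc (0 : ℤ) (2 * h - 1),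
      tr2 h j * (2 * tr2 h j - tr2 h (j + 1) - tr2 h (j - 1)))
      ≤ ((L : ℝ) + 2 * h) * (1 + 1 / (h + 1)) := by
    calc _ ≤ (∑ i ∈ Finset.Icc (-(h : ℤ)) (L + h - 1), tr1 h L i ^ 2) * (1 + 1 / (h + 1)) :=
          mul_le_mul_of_nonneg_left s2 s3'
      _ ≤ _ := by gcongr
  linarith

end Pool.Agent.LT
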