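import Pool.Agent.LT.CovMid
import Pool.Agent.LT.Row
import Pool.Agent.LT.TZero
import Pool.Agent.LT.Trap

/-!
# The tour
-/

open MeasureTheory ProbabilityTheory Filter Topology
open scoped NNReal ENNReal

namespace Pool.Agent.LT

/-- Sites of small depth. -/
noncomputable def DL (n : ℕ) (t : ℤ) : Finset Site := (sq n).filter (fun x => dep n x < t)

lemma mem_DL {n : ℕ} {t : ℤ} {x : Site} : x ∈ DL n t ↔ x ∈ sq n ∧ dep n x < t := by
  unfold DL; rw [Finset.mem_filter]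

lemma dep_nonneg {n : ℕ} {x : Site} (hx : x ∈ sq n) : 0 ≤ dep n x := by
  rw [mem_sq] at hx
  unfold dep
  omega

lemma sqrt_eight_mul (k : ℕ) : Real.sqrt ((8 * k : ℕ) : ℝ) ≤ 3 * Real.sqrt k := by
  have h1 : ((8 * k : ℕ) : ℝ) ≤ (3 * Real.sqrt k) ^ 2 := by
    rw [mul_pow, Real.sq_sqrt (Nat.cast_nonneg _)]
    push_cast
    have : (0 : ℝ) ≤ k := Nat.cast_nonneg _
    linarith
  calc Real.sqrt ((8 * k : ℕ) : ℝ) ≤ Real.sqrt ((3 * Real.sqrt k) ^ 2) := Real.sqrt_le_sqrt h1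
    _ = 3 * Real.sqrt k := Real.sqrt_sq (by positivity)

/-- One loop at scale `k`. -/
lemma t1_loop {C : ℝ} (hC1 : 1 ≤ C)
    (hC : ∀ m : ℕ, 1 ≤ m → ∀ β : ℝ, 1 ≤ β → ∀ x ∈ sq m, ∀ z ∈ sq m,
      Cov (sq m) (mid m) β (C * β * (m ^ 2 * Real.sqrt m)) x z (C * β * Real.sqrt m))
    {n k : ℕ} (hk : 1 ≤ k) (hkn : 8 * k ≤ n) {β : ℝ} (hβ : 1 ≤ β) :
    Cov (sq n) (loopF n (rectF k (n - k) k (7 * k))) β (192 * C * β * n * (k * Real.sqrt k))
      (0, 0) (0, 0) (3 * C * β * n / Real.sqrt k) := by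
  have hk' : (1 : ℝ) ≤ k := by exact_mod_cast hk
  have hk0 : (0 : ℝ) < k := by linarith
  have hsk : 0 < Real.sqrt k := Real.sqrt_pos.2 hk0
  have hkn' : 8 * (k : ℝ) ≤ n := by exact_mod_cast hkn
  set I : ℕ := (n - 8 * k) / (4 * k) + 1 with hI
  have hI1 : (n : ℤ) - 8 * k ≤ I * (4 * k) := by
    have h1 := Nat.lt_div_mul_add (a := n - 8 * k) (b := 4 * k) (by omega)
    have h2 : n - 8 * k ≤ I * (4 * k) := by
      rw [hI, add_mul, one_mul]; omega
    have h3 : ((n - 8 * k : ℕ) : ℤ) ≤ ((I * (4 * k) : ℕ) : ℤ) := by exact_mod_cast h2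
    push_cast [Nat.cast_sub hkn] at h3
    exact h3
  have hI2 : (I : ℝ) + 1 ≤ n / (4 * k) := by
    have h1 : (((n - 8 * k) / (4 * k) : ℕ) : ℝ) ≤ ((n - 8 * k : ℕ) : ℝ) / ((4 * k : ℕ) : ℝ) :=
      Nat.cast_div_le
    rw [Nat.cast_sub hkn] at h1
    push_cast at h1
    have h2 : ((n : ℝ) - 8 * k) / (4 * k) = n / (4 * k) - 2 := by
      field_simp
      ring
    rw [h2] at h1
    rw [hI]
    push_cast
    linarith
  have hmem : ∀ a : ℤ, 0 ≤ a → a < 8 * k → ((a, 0) : Site) ∈ sq (8 * k) := by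
    intro a h1 h2
    rw [mem_sq]
    push_cast
    refine ⟨?_, ?_, ?_, ?_⟩ <;> first | trivial | omega
  have hm1 : 1 ≤ 8 * k := by omega
  have hr := row (A := sq (8 * k)) (R := mid (8 * k)) (Q := sq n) (β := β) (S := 4 * k)
    (p := k) (p' := 7 * k) (q := k) (q' := 7 * k) (e := 8 * k - 1) (u0 := 0) (u1 := n - 8 * k)
    (hmem 0 le_rfl (by omega))
    (fun a h1 h2 => hC (8 * k) hm1 β hβ _ (hmem 0 le_rfl (by omega)) _ (hmem a h1 (by omega)))
    (hC (8 * k) hm1 β hβ _ (hmem 0 le_rfl (by omega)) _ (hmem _ (by omega) (by omega)))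
    (by
      intro x h1 h2 h3 h4
      unfold mid
      rw [Finset.mem_filter, mem_sq]
      push_cast
      omega)
    (by omega) (by omega) (by omega)
    (by
      intro u h1 h2 z hz
      rw [mem_sq] at hz ⊢
      simp only [Prod.fst_add, Prod.snd_add]
      push_cast at hz
      omega) I (by omega)
  have e1 : ((n : ℤ) - 8 * k + (8 * k - 1), (0 : ℤ)) = ((n : ℤ) - 1, 0) := by
    ext <;> simp
  rw [e1] at hr
  have hsq := sqrt_eight_mul k
  have hside : Cov (sq n) (rectF k (n - k) k (7 * k)) β (48 * C * β * n * (k * Real.sqrt k))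
      (0, 0) ((n : ℤ) - 1, 0) (3 / 4 * C * β * n / Real.sqrt k) := by
    refine hr.mono (le_refl _) ?_ le_rfl ?_ ?_
    · intro x hx
      rw [mem_rectF] at hx ⊢
      omega
    · calc ((I : ℝ) + 1) * (C * β * (((8 * k : ℕ) : ℝ) ^ 2 * Real.sqrt ((8 * k : ℕ) : ℝ)))
          ≤ (n / (4 * k)) * (C * β * (((8 * k : ℕ) : ℝ) ^ 2 * (3 * Real.sqrt k))) := by gcongr
        _ = 48 * C * β * n * (k * Real.sqrt k) := by
            push_cast
            field_simp
            ring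
    · calc ((I : ℝ) + 1) * (C * β * Real.sqrt ((8 * k : ℕ) : ℝ))
          ≤ (n / (4 * k)) * (C * β * (3 * Real.sqrt k)) := by gcongr
        _ = 3 / 4 * C * β * n * (Real.sqrt k / k) := by
            field_simp
        _ = 3 / 4 * C * β * n / Real.sqrt k := by
            have : Real.sqrt k / k = 1 / Real.sqrt k := by
              rw [div_eq_div_iff hk0.ne' hsk.ne', Real.mul_self_sqrt hk0.le]; ring
            rw [this]; ring
  refine (loop hside).mono (le_refl _) (le_refl _) le_rfl ?_ ?_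
  · linarith
  · have : 4 * (3 / 4 * C * β * n / Real.sqrt k) = 3 * C * β * n / Real.sqrt k := by ring
    rw [this]

/-- Depth layer covered by a loop at scale `k`. -/
lemma dl_step {n k : ℕ} (hkn : 8 * k ≤ n) (hk : 1 ≤ k) :
    DL n (2 * k) ⊆ DL n k ∪ loopF n (rectF k (n - k) k (7 * k)) := by
  intro x hx
  rw [mem_DL] at hx
  rw [Finset.mem_union, mem_DL]
  by_cases h : dep n x < k
  · left; exact ⟨hx.1, h⟩
  · right
    apply dep_cases hx.1
    intro y h1 h2 h3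
    left
    rw [mem_rectF]
    omega

/-- All scales. -/
lemma scales {C : ℝ} (hC1 : 1 ≤ C)
    (hC : ∀ m : ℕ, 1 ≤ m → ∀ β : ℝ, 1 ≤ β → ∀ x ∈ sq m, ∀ z ∈ sq m,
      Cov (sq m) (mid m) β (C * β * (m ^ 2 * Real.sqrt m)) x z (C * β * Real.sqrt m))
    {n h : ℕ} (hh : 1 ≤ h) {β : ℝ} (hβ : 1 ≤ β) {τ c : ℝ}
    (h0 : Cov (sq n) (DL n h) β τ (0, 0) (0, 0) c) (J : ℕ) (hJ : ∀ j < J, 8 * (h * 2 ^ j) ≤ n) :
    Cov (sq n) (DL n ((h * 2 ^ J : ℕ) : ℤ)) β
      (τ + 192 * C * β * n * Real.sqrt n * ((h * 2 ^ J : ℕ) : ℝ)) (0, 0) (0, 0)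
      (c + 12 * C * β * n * (1 / Real.sqrt h - 1 / Real.sqrt ((h * 2 ^ J : ℕ) : ℝ))) := by
  induction J with
  | zero =>
    refine h0.mono (le_refl _) (by simp) le_rfl ?_ (by simp)
    have : 0 ≤ 192 * C * β * n * Real.sqrt n * ((h * 2 ^ 0 : ℕ) : ℝ) := by positivity
    linarith
  | succ J ih =>
    have ih' := ih (fun j hj => hJ j (by omega))
    set k : ℕ := h * 2 ^ J with hk
    have hk1 : 1 ≤ k := Nat.one_le_iff_ne_zero.2 (by positivity)
    have hkn : 8 * k ≤ n := hJ J (by omega)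
    have h1 := t1_loop hC1 hC hk1 hkn hβ
    have e1 : h * 2 ^ (J + 1) = 2 * k := by rw [hk, pow_succ]; ring
    rw [e1]
    have hk1' : (1 : ℝ) ≤ k := by exact_mod_cast hk1
    have hk0 : (0 : ℝ) < k := by linarith
    have hsk : 0 < Real.sqrt k := Real.sqrt_pos.2 hk0
    have hkn' : (k : ℝ) ≤ n := by
      have : k ≤ n := by omega
      exact_mod_cast this
    refine (ih'.comp h1).mono (le_refl _) ?_ le_rfl ?_ ?_
    · have := dl_step hkn hk1
      push_cast at this ⊢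
      exact this
    · have h2 : (k : ℝ) * Real.sqrt k ≤ k * Real.sqrt n := by
        apply mul_le_mul_of_nonneg_left _ hk0.le
        exact Real.sqrt_le_sqrt hkn'
      have h3 : 192 * C * β * n * (k * Real.sqrt k) ≤ 192 * C * β * n * (k * Real.sqrt n) := by
        gcongr
      push_cast
      nlinarith
    · have h2 : Real.sqrt ((2 * k : ℕ) : ℝ) = Real.sqrt 2 * Real.sqrt k := by
        push_cast
        rw [Real.sqrt_mul (by norm_num)]
      rw [h2]
      have h3 : (1.4 : ℝ) ≤ Real.sqrt 2 := by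
        rw [Real.le_sqrt (by norm_num) (by norm_num)]; norm_num
      have h4 : 1 / (Real.sqrt 2 * Real.sqrt k) ≤ 3 / 4 * (1 / Real.sqrt k) := by
        rw [div_le_iff₀ (by positivity)]
        have : 3 / 4 * (1 / Real.sqrt k) * (Real.sqrt 2 * Real.sqrt k) = 3 / 4 * Real.sqrt 2 := by
          field_simp
        rw [this]
        linarith
      have h5 : 3 * C * β * n / Real.sqrt k = 12 * C * β * n * (1 / 4 * (1 / Real.sqrt k)) := by
        ring
      rw [h5]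
      have h6 : 0 ≤ 12 * C * β * n := by positivity
      have h7 := mul_le_mul_of_nonneg_left h4 h6
      linarith

/-- The boundary layer. -/
lemma layer {ε : ℝ} (hε : 0 < ε) (hε1 : ε ≤ 1) (h1 : ℕ) : ∃ h : ℕ, h1 ≤ h ∧ 1 ≤ h ∧
    ∃ β0 : ℝ, 1 ≤ β0 ∧ ∀ β : ℝ, β0 ≤ β → ∃ K : ℝ, ∃ n0 : ℕ, 0 ≤ K ∧ ∀ n : ℕ, n0 ≤ n →
      Cov (sq n) (DL n h) β (K * n) (0, 0) (0, 0) ((4 + ε) * β * n) := by
  -- choose the scale
  have hlim : Tendsto (fun x : ℝ => (1 + 2 * x) * (1 + x) + 4 * x ^ 2) (𝓝 0) (𝓝 1) := by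
    have : Continuous (fun x : ℝ => (1 + 2 * x) * (1 + x) + 4 * x ^ 2) := by fun_prop
    have h2 := this.tendsto 0
    simpa using h2
  have hlim2 : Tendsto (fun h : ℕ => (1 + 2 * (1 / (h : ℝ))) * (1 + 1 / (h : ℝ)) + 4 * (1 / (h : ℝ)) ^ 2)
      atTop (𝓝 1) := hlim.comp tendsto_one_div_atTop_nhds_zero_nat
  have hev := hlim2.eventually (gt_mem_nhds (show (1 : ℝ) < 1 + ε / 16 by linarith))
  obtain ⟨h2, hh2⟩ := hev.exists_forall_of_atTop
  obtain ⟨h, hh⟩ : ∃ h : ℕ, h = max (max h1 1) h2 := ⟨_, rfl⟩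
  have hh1 : h1 ≤ h := by rw [hh]; exact (le_max_left _ _).trans (le_max_left _ _)
  have hhone : 1 ≤ h := by rw [hh]; exact (le_max_right _ _).trans (le_max_left _ _)
  have hhh2 : h2 ≤ h := by rw [hh]; exact le_max_right _ _
  have hlt := hh2 h hhh2
  have hh' : (1 : ℝ) ≤ h := by exact_mod_cast hhone
  obtain ⟨L, hL⟩ : ∃ L : ℕ, L = h ^ 2 := ⟨_, rfl⟩
  have hL1 : 1 ≤ L := by rw [hL]; exact Nat.one_le_pow _ _ (by omega)
  have hL' : (L : ℝ) = (h : ℝ) ^ 2 := by rw [hL]; push_cast; ring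
  have hL1' : (1 : ℝ) ≤ L := by exact_mod_cast hL1
  have hLpos : (0 : ℝ) < L := by linarith
  -- energy
  have hE := trap_energy hhone hL1
  have hE2 : ∑ z ∈ tblk h L, potl (tblk h L) (trap h L) z * trap h L z ^ 2 ≤ L * (1 + ε / 16) := by
    refine hE.trans ?_
    have h3 : (1 : ℝ) / (h + 1) ≤ 1 / h := by
      apply one_div_le_one_div_of_le (by linarith) (by linarith)
    calc ((L : ℝ) + 2 * h) * (1 + 1 / (h + 1)) + 4 ≤ ((L : ℝ) + 2 * h) * (1 + 1 / h) + 4 := by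
          gcongr
      _ = L * ((1 + 2 * (1 / (h : ℝ))) * (1 + 1 / (h : ℝ)) + 4 * (1 / (h : ℝ)) ^ 2) := by
          rw [hL']; field_simp
      _ ≤ L * (1 + ε / 16) := by gcongr
  -- the block covering
  obtain ⟨η, hη⟩ : ∃ η : ℝ, η = ε / 100 := ⟨_, rfl⟩
  have hη0 : 0 < η := by rw [hη]; positivity
  have hη1 : η ≤ 1 := by rw [hη]; linarith
  have hsub : rectF 0 L 0 h ⊆ tblk h L := by
    intro x hx
    rw [mem_rectF] at hx
    rw [mem_tblk]
    omega
  have hhZ : (1 : ℤ) ≤ h := by exact_mod_cast hhone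
  have hLZ : (1 : ℤ) ≤ L := by exact_mod_cast hL1
  have hmem : ∀ a : ℤ, 0 ≤ a → a ≤ L + h - 1 → ((a, 0) : Site) ∈ tblk h L := by
    intro a h3 h4
    rw [mem_tblk]
    simp only
    omega
  obtain ⟨β0, Cτ, hβ0, hCτ, hblk⟩ := block_cover (-(h : ℤ) - 1) (-1) (L + 2 * h) (2 * h) (trap h L)
    ⟨(0, 0), hmem 0 le_rfl (by omega)⟩ (fun x hx => trap_pos hx) (fun x hx => trap_zero hx)
    (rectF 0 L 0 h) hsub
    (by
      intro z hz
      rw [mem_rectF] at hz
      unfold trap tr1 tr2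
      rw [if_neg (by omega), if_neg (by omega), if_pos (by omega), if_neg (by omega),
        if_pos (by omega)]
      norm_num) hη0
  change ∀ β, β0 ≤ β → ∀ x ∈ tblk h L, ∀ y ∈ tblk h L, Cov (tblk h L) (rectF 0 L 0 h) β (Cτ * β) x y
    (β * ((1 + η) * (∑ z ∈ tblk h L, potl (tblk h L) (trap h L) z * trap h L z ^ 2 + η) + η)) at hblk
  refine ⟨h, hh1, hhone, β0, hβ0, ?_⟩
  intro β hβ
  have hβ1 : 1 ≤ β := hβ0.trans hβ
  have hβpos : 0 < β := by linarith
  -- unit cost of a block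
  obtain ⟨c, hc⟩ : ∃ c : ℝ, c = β * (L * (1 + ε / 8)) := ⟨_, rfl⟩
  have hcost : β * ((1 + η) * (∑ z ∈ tblk h L, potl (tblk h L) (trap h L) z * trap h L z ^ 2 + η) + η)
      ≤ c := by
    rw [hc]
    apply mul_le_mul_of_nonneg_left _ hβpos.le
    have h3 : (1 + η) * (∑ z ∈ tblk h L, potl (tblk h L) (trap h L) z * trap h L z ^ 2 + η) + η
        ≤ (1 + η) * (L * (1 + ε / 16) + η * L) + η * L := by
      have : η ≤ η * L := by nlinarith
      gcongr
    refine h3.trans ?_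
    have h4 : (1 + η) * (L * (1 + ε / 16) + η * L) + η * L
        = L * ((1 + η) * (1 + ε / 16 + η) + η) := by ring
    rw [h4]
    apply mul_le_mul_of_nonneg_left _ (by positivity)
    have h6 : (1 + η) * (1 + ε / 16 + η) + η = 1 + ε / 16 + 3 * η + η ^ 2 + η * ε / 16 := by ring
    rw [h6]
    have h7 : η ^ 2 ≤ η := by nlinarith
    have h8 : η * ε ≤ η := by nlinarith
    rw [hη] at h7 h8 ⊢
    linarith
  have hblk' : ∀ x ∈ tblk h L, ∀ y ∈ tblk h L, Cov (tblk h L) (rectF 0 L 0 h) β (Cτ * β) x y c :=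
    fun x hx y hy => (hblk β hβ x hx y hy).mono (le_refl _) (le_refl _) le_rfl le_rfl hcost
  -- brute covering of the corner
  obtain ⟨bt, hbt⟩ : ∃ bt : ℝ, bt = (rectF 0 h 0 h).card * (((h + 1 + (h + 1) : ℕ) : ℝ) + β)
      + ((h + 1 + (h + 1) : ℕ) : ℝ) := ⟨_, rfl⟩
  have hbt0 : 0 ≤ bt := by rw [hbt]; positivity
  have hbrute : Cov (sq (h + 1)) (rectF 0 h 0 h) β bt (0, 0) (h, 0) (4 * bt) := by
    rw [hbt]
    apply cov_brute hβpos.le (a := -1) (b := -1) (w := h + 1) (h := h + 1) (rectF 0 h 0 h)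
    · intro z hz
      rw [mem_rectF] at hz
      unfold InBox
      push_cast
      omega
    · unfold InBox; push_cast; refine ⟨?_, ?_, ?_, ?_⟩ <;> first | trivial | omega
    · unfold InBox; push_cast; refine ⟨?_, ?_, ?_, ?_⟩ <;> first | trivial | omega
  refine ⟨4 * (bt + 2 * Cτ * β), max (max (2 * h + L) (h + 1)) (max 1
    ⌈(16 * bt + 4 * β * L * (1 + ε / 8)) / (ε / 2 * β)⌉₊), by positivity, ?_⟩
  intro n hn
  have hn1 : 2 * h + L ≤ n := ((le_max_left _ _).trans (le_max_left _ _)).trans hn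
  have hn2 : h + 1 ≤ n := ((le_max_right _ _).trans (le_max_left _ _)).trans hn
  have hn3 : 1 ≤ n := ((le_max_left _ _).trans (le_max_right _ _)).trans hn
  have hn4 : ⌈(16 * bt + 4 * β * L * (1 + ε / 8)) / (ε / 2 * β)⌉₊ ≤ n :=
    ((le_max_right _ _).trans (le_max_right _ _)).trans hn
  have hn4' : 16 * bt + 4 * β * L * (1 + ε / 8) ≤ ε / 2 * β * n := by
    have h3 := (Nat.le_ceil ((16 * bt + 4 * β * L * (1 + ε / 8)) / (ε / 2 * β))).trans
      (by exact_mod_cast hn4 : ((⌈(16 * bt + 4 * β * L * (1 + ε / 8)) / (ε / 2 * β)⌉₊ : ℕ) : ℝ) ≤ n)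
    rw [div_le_iff₀ (by positivity)] at h3
    linarith
  have hn3' : (1 : ℝ) ≤ n := by exact_mod_cast hn3
  obtain ⟨I, hI⟩ : ∃ I : ℕ, I = (n - (2 * h + L)) / L + 1 := ⟨_, rfl⟩
  have hI1 : (n : ℤ) - (2 * h + L) ≤ I * L := by
    have h1 := Nat.lt_div_mul_add (a := n - (2 * h + L)) (b := L) (by omega)
    have h2 : n - (2 * h + L) ≤ I * L := by
      rw [hI, add_mul, one_mul]; omega
    have h3 : ((n - (2 * h + L) : ℕ) : ℤ) ≤ ((I * L : ℕ) : ℤ) := by exact_mod_cast h2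
    push_cast [Nat.cast_sub hn1] at h3
    exact h3
  have hI2 : (I : ℝ) + 1 ≤ n / L + 1 := by
    have h1 : (((n - (2 * h + L)) / L : ℕ) : ℝ) ≤ ((n - (2 * h + L) : ℕ) : ℝ) / (L : ℝ) :=
      Nat.cast_div_le
    rw [Nat.cast_sub hn1] at h1
    push_cast at h1
    have h2 : ((n : ℝ) - (2 * h + L)) / L ≤ n / L - 1 := by
      rw [div_le_iff₀ hLpos]
      have : ((n : ℝ) / L - 1) * L = n - L := by field_simp
      rw [this]
      linarith
    rw [hI]
    push_cast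
    linarith
  have hr := row (A := tblk h L) (R := rectF 0 L 0 h) (Q := sq n) (β := β) (S := L)
    (p := 0) (p' := L) (q := 0) (q' := h) (e := L + h - 1) (u0 := h) (u1 := n - L - h)
    (hmem 0 le_rfl (by omega))
    (fun a h1 h2 => hblk' _ (hmem 0 le_rfl (by omega)) _ (hmem a h1 (by omega)))
    (hblk' _ (hmem 0 le_rfl (by omega)) _ (hmem _ (by omega) (by omega)))
    (by
      intro x h1 h2 h3 h4
      rw [mem_rectF]
      omega)
    (by omega) (by omega) (by omega)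
    (by
      intro u h1 h2 z hz
      rw [mem_tblk] at hz
      rw [mem_sq]
      simp only [Prod.fst_add, Prod.snd_add]
      omega) I (by omega)
  have e1 : ((n : ℤ) - L - h + (L + h - 1), (0 : ℤ)) = ((n : ℤ) - 1, 0) := by
    ext
    · simp only; ring
    · rfl
  rw [e1] at hr
  have hbr : Cov (sq n) (rectF 0 h 0 h) β bt (0, 0) (h, 0) (4 * bt) := by
    refine hbrute.mono ?_ (le_refl _) le_rfl le_rfl le_rfl
    intro x hx
    rw [mem_sq] at hx ⊢
    push_cast at hx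
    omega
  have hside := hbr.comp hr
  have hloop := loop hside
  refine hloop.mono (le_refl _) ?_ le_rfl ?_ ?_
  · intro x hx
    rw [mem_DL] at hx
    have hd := dep_nonneg hx.1
    apply dep_cases hx.1
    intro y h1 h2 h3
    simp only [Finset.mem_union, mem_rectF, rin]
    omega
  · have h3 : ((I : ℝ) + 1) * (Cτ * β) ≤ (n / L + 1) * (Cτ * β) := by gcongr
    have h4 : (n : ℝ) / L + 1 ≤ 2 * n := by
      have : (n : ℝ) / L ≤ n := div_le_self (by linarith) hL1'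
      linarith
    have h5 : ((n : ℝ) / L + 1) * (Cτ * β) ≤ 2 * n * (Cτ * β) := by gcongr
    have h6 : bt ≤ bt * n := by nlinarith
    linarith
  · have h3 : ((I : ℝ) + 1) * c ≤ (n / L + 1) * c := by
      apply mul_le_mul_of_nonneg_right hI2
      rw [hc]; positivity
    have h4 : ((n : ℝ) / L + 1) * c = β * (n + L) * (1 + ε / 8) := by
      rw [hc]; field_simp
    rw [h4] at h3
    linarith

/-- **The tour.** -/
theorem tour {ε : ℝ} (hε : 0 < ε) (hε1 : ε ≤ 1) : ∃ β0 : ℝ, 1 ≤ β0 ∧ ∀ β : ℝ, β0 ≤ β →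
    ∃ K : ℝ, ∃ n0 : ℕ, 0 ≤ K ∧ ∀ n : ℕ, n0 ≤ n →
      Cov (sq n) (sq n) β (K * (n ^ 2 * Real.sqrt n)) (0, 0) (0, 0) ((4 + ε) * β * n) := by
  obtain ⟨C, hC1, hC⟩ := cov_mid
  obtain ⟨h1, hh1⟩ := exists_nat_ge ((48 * C / ε) ^ 2)
  obtain ⟨h, hh1', hh, β0, hβ0, hlay⟩ := layer (ε := ε / 2) (by linarith) (by linarith) h1
  refine ⟨β0, hβ0, ?_⟩
  intro β hβ
  have hβ1 : 1 ≤ β := hβ0.trans hβ
  have hβpos : 0 < β := by linarith
  obtain ⟨K, n0, hK, hn0⟩ := hlay β hβ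
  have hh' : (1 : ℝ) ≤ h := by exact_mod_cast hh
  have hsh : 48 * C / ε ≤ Real.sqrt h := by
    rw [Real.le_sqrt (by positivity) (by positivity)]
    exact hh1.trans (by exact_mod_cast hh1')
  have hshpos : 0 < Real.sqrt h := Real.sqrt_pos.2 (by linarith)
  have hcost1 : 12 * C * (1 / Real.sqrt h) ≤ ε / 4 := by
    rw [div_le_iff₀ hε] at hsh
    rw [mul_one_div, div_le_iff₀ hshpos]
    linarith
  refine ⟨K + 193 * C * β, max (max n0 (8 * h)) ⌈(4 * C / ε) ^ 2⌉₊, by positivity, ?_⟩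
  intro n hn
  have hn1 : n0 ≤ n := ((le_max_left _ _).trans (le_max_left _ _)).trans hn
  have hn2 : 8 * h ≤ n := ((le_max_right _ _).trans (le_max_left _ _)).trans hn
  have hn3 : ⌈(4 * C / ε) ^ 2⌉₊ ≤ n := (le_max_right _ _).trans hn
  have hn3' : (4 * C / ε) ^ 2 ≤ n := (Nat.le_ceil _).trans (by exact_mod_cast hn3)
  have hnone : 1 ≤ n := by omega
  have hnone' : (1 : ℝ) ≤ n := by exact_mod_cast hnone
  have hsn1 : 1 ≤ Real.sqrt n := by rw [Real.one_le_sqrt]; exact hnone'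
  have hsn : 4 * C / ε ≤ Real.sqrt n := by
    rw [Real.le_sqrt (by positivity) (by positivity)]
    exact hn3'
  have hcost2 : C * Real.sqrt n ≤ ε / 4 * n := by
    rw [div_le_iff₀ hε] at hsn
    have h3 : Real.sqrt n * Real.sqrt n = n := Real.mul_self_sqrt (by linarith)
    nlinarith
  -- number of scales
  have hex : ∃ J : ℕ, n < 8 * (h * 2 ^ J) := by
    refine ⟨n, ?_⟩
    have h3 : n < 2 ^ n := Nat.lt_two_pow_self
    have h4 : 2 ^ n ≤ 8 * (h * 2 ^ n) := by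
      calc 2 ^ n = 1 * 2 ^ n := by ring
        _ ≤ (8 * h) * 2 ^ n := Nat.mul_le_mul_right _ (by omega)
        _ = 8 * (h * 2 ^ n) := by ring
    omega
  classical
  obtain ⟨J, hJ⟩ : ∃ J : ℕ, J = Nat.find hex := ⟨_, rfl⟩
  have hJ1 : n < 8 * (h * 2 ^ J) := by rw [hJ]; exact Nat.find_spec hex
  have hJ2 : ∀ j < J, 8 * (h * 2 ^ j) ≤ n := by
    intro j hj
    rw [hJ] at hj
    have := Nat.find_min hex hj
    omega
  have hJpos : 1 ≤ J := by
    by_contra hcon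
    have : J = 0 := by omega
    rw [this] at hJ1
    simp at hJ1
    omega
  have hJn : h * 2 ^ J ≤ n := by
    have h3 := hJ2 (J - 1) (by omega)
    have h4 : 2 ^ J = 2 * 2 ^ (J - 1) := by
      rw [← pow_succ']
      congr 1
      omega
    rw [h4]
    have h5 : h * (2 * 2 ^ (J - 1)) = 2 * (h * 2 ^ (J - 1)) := by ring
    rw [h5]
    omega
  have hsc := scales hC1 hC hh hβ1 (hn0 n hn1) J hJ2
  have h0 : ((0, 0) : Site) ∈ sq n := by
    rw [mem_sq]
    simp only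
    omega
  have hwh := hC n hnone β hβ1 (0, 0) h0 (0, 0) h0
  refine (hsc.comp hwh).mono (le_refl _) ?_ le_rfl ?_ ?_
  · intro x hx
    rw [Finset.mem_union, mem_DL]
    by_cases h3 : dep n x < ((h * 2 ^ J : ℕ) : ℤ)
    · left; exact ⟨hx, h3⟩
    · right
      have h4 : (n : ℤ) < 8 * ((h * 2 ^ J : ℕ) : ℤ) := by exact_mod_cast hJ1
      unfold mid
      rw [Finset.mem_filter]
      refine ⟨hx, ?_⟩
      unfold dep at h3
      omega
  · have h3 : ((h * 2 ^ J : ℕ) : ℝ) ≤ n := by exact_mod_cast hJn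
    have h4 : 192 * C * β * n * Real.sqrt n * ((h * 2 ^ J : ℕ) : ℝ) ≤ 192 * C * β * n * Real.sqrt n * n := by
      gcongr
    have h5 : K * n ≤ K * (n ^ 2 * Real.sqrt n) := by
      apply mul_le_mul_of_nonneg_left _ hK
      have : (n : ℝ) ^ 2 * Real.sqrt n = n * (n * Real.sqrt n) := by ring
      rw [this]
      have h6 : 1 ≤ (n : ℝ) * Real.sqrt n := by nlinarith
      nlinarith
    have e : (K + 193 * C * β) * ((n : ℝ) ^ 2 * Real.sqrt n)
        = K * (n ^ 2 * Real.sqrt n) + 192 * C * β * n * Real.sqrt n * n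
          + C * β * (n ^ 2 * Real.sqrt n) := by ring
    rw [e]
    linarith
  · have h3 : 0 ≤ 1 / Real.sqrt ((h * 2 ^ J : ℕ) : ℝ) := by positivity
    have h4 : 12 * C * β * n * (1 / Real.sqrt h - 1 / Real.sqrt ((h * 2 ^ J : ℕ) : ℝ))
        ≤ 12 * C * β * n * (1 / Real.sqrt h) := by
      apply mul_le_mul_of_nonneg_left _ (by positivity)
      linarith
    have h5 : 12 * C * β * n * (1 / Real.sqrt h) = β * n * (12 * C * (1 / Real.sqrt h)) := by ring
    have h6 : β * n * (12 * C * (1 / Real.sqrt h)) ≤ β * n * (ε / 4) := by gcongr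
    have h7 : C * β * Real.sqrt n = β * (C * Real.sqrt n) := by ring
    have h8 : β * (C * Real.sqrt n) ≤ β * (ε / 4 * n) := by gcongr
    rw [h7]
    nlinarith

end Pool.Agent.LT
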