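import Pool.Agent.LT.Classify
import Pool.Agent.LT.Tour

/-!
# The lower bound, and the conditioned walk is nice
-/

open MeasureTheory ProbabilityTheory Filter Topology
open scoped NNReal ENNReal

namespace Pool.Agent.LT

lemma cev_sub_evtE {n : ℕ} {β : ℝ} {t : ℝ≥0} {y : Site} :
    cev (sq n) (sq n) β t (0, 0) y ⊆ evtE β t := by
  rintro f ⟨h1, h2, _⟩ x hx
  obtain ⟨s, hs, rfl⟩ := mem_rangeF.1 hx
  have h3 := h1 s hs
  have e : ((0, 0) : Site) + f.1 s = f.1 s := by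
    have : ((0, 0) : Site) = 0 := rfl
    rw [this, zero_add]
  rw [e] at h3
  exact h2 _ h3

/-- Staying in the square for a long time. -/
lemma covAt_long {n : ℕ} (hn : 1 ≤ n) (β : ℝ) {s : ℝ≥0} (hs : ((n : ℝ) + 1) ^ 2 ≤ s) :
    CovAt (sq n) ∅ β s (0, 0) (0, 0) (6 * Real.log (n + 1) + s * lam1 n) := by
  have h0 : ((0, 0) : Site) ∈ sq n := by
    rw [mem_sq]
    simp only
    omega
  apply covAt_of_kernel h0 h0
  refine le_trans ?_ (kernel_lower hn hs ⟨_, h0⟩ ⟨_, h0⟩)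
  have h1 := ph_ge h0
  have hN : (0 : ℝ) < (n : ℝ) + 1 := by positivity
  have h2 : (4 / ((n : ℝ) + 1) ^ 2) * (4 / ((n : ℝ) + 1) ^ 2) ≤ ph n (0, 0) * ph n (0, 0) := by
    have : 0 ≤ 4 / ((n : ℝ) + 1) ^ 2 := by positivity
    exact mul_le_mul h1 h1 this (this.trans h1)
  have h9 : Real.exp (6 * Real.log ((n : ℝ) + 1)) = ((n : ℝ) + 1) ^ 6 := by
    have : (6 : ℝ) * Real.log ((n : ℝ) + 1) = Real.log (((n : ℝ) + 1) ^ 6) := by
      rw [Real.log_pow]; norm_num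
    rw [this, Real.exp_log (by positivity)]
  have e1 : Real.exp (-(6 * Real.log ((n : ℝ) + 1) + s * lam1 n))
      = 1 / ((n : ℝ) + 1) ^ 6 * Real.exp (-(s * lam1 n)) := by
    rw [neg_add, Real.exp_add, Real.exp_neg (6 * Real.log ((n : ℝ) + 1)), h9, one_div]
  rw [e1]
  apply mul_le_mul_of_nonneg_right _ (Real.exp_pos _).le
  calc 1 / ((n : ℝ) + 1) ^ 6 ≤ 16 / ((n : ℝ) + 1) ^ 6 := by gcongr; norm_num
    _ = 1 / ((n : ℝ) + 1) ^ 2 * ((4 / ((n : ℝ) + 1) ^ 2) * (4 / ((n : ℝ) + 1) ^ 2)) := by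
        field_simp; norm_num
    _ ≤ 1 / ((n : ℝ) + 1) ^ 2 * (ph n (0, 0) * ph n (0, 0)) := by gcongr

/-- **Lower bound.** -/
theorem lower_bound {η : ℝ} (hη : 0 < η) (hη1 : η ≤ 1) : ∃ β0 : ℝ, 1 ≤ β0 ∧ ∀ β : ℝ, β0 ≤ β →
    ∃ N0 : ℝ, ∀ x : ℝ, N0 ≤ x → ∀ t : ℝ≥0, β * x ^ 3 = Real.pi ^ 2 * t →
      ∀ μ : Measure WP, IsLaw μ → Real.exp (-((6 + η) * β * x)) ≤ μ.real (evtE β t) := by
  obtain ⟨β0, hβ0, ht⟩ := tour (ε := η / 2) (by linarith) (by linarith)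
  refine ⟨β0, hβ0, ?_⟩
  intro β hβ
  have hβ1 : 1 ≤ β := hβ0.trans hβ
  obtain ⟨K, n0, hK, hn0⟩ := ht β hβ
  -- the logarithm is negligible
  have hlog : ∀ᶠ x : ℝ in atTop, 6 * Real.log (x + 1) ≤ η / 2 * x := by
    have h1 := Real.isLittleO_log_id_atTop.def (show (0 : ℝ) < η / 24 by positivity)
    have h2 : Tendsto (fun x : ℝ => x + 1) atTop atTop := tendsto_atTop_add_const_right _ 1 tendsto_id
    have h3 := h2.eventually h1
    filter_upwards [h3, eventually_ge_atTop (1 : ℝ)] with x hx hx1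
    rw [Real.norm_eq_abs, Real.norm_eq_abs, id, abs_of_pos (by linarith : (0 : ℝ) < x + 1)] at hx
    have h4 := le_abs_self (Real.log (x + 1))
    have h5 : η / 24 * (x + 1) ≤ η / 24 * (2 * x) := by
      apply mul_le_mul_of_nonneg_left _ (by positivity)
      linarith
    linarith
  obtain ⟨N1, hN1⟩ := hlog.exists_forall_of_atTop
  refine ⟨max (max N1 (n0 + 1)) ((10 * (K + 8)) ^ 2 + 2), ?_⟩
  intro x hx t hxt μ hμ
  have := hμ.prob
  have hx1 : N1 ≤ x := ((le_max_left _ _).trans (le_max_left _ _)).trans hx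
  have hx2 : (n0 : ℝ) + 1 ≤ x := ((le_max_right _ _).trans (le_max_left _ _)).trans hx
  have hx3 : (10 * (K + 8)) ^ 2 + 2 ≤ x := (le_max_right _ _).trans hx
  have hxlarge : 2 ≤ x := by nlinarith [sq_nonneg (10 * (K + 8))]
  have hx0 : 0 < x := by linarith
  obtain ⟨n, hn⟩ : ∃ n : ℕ, n = ⌊x⌋₊ := ⟨_, rfl⟩
  have hnx : (n : ℝ) ≤ x := by rw [hn]; exact Nat.floor_le hx0.le
  have hxn : x < n + 1 := by rw [hn]; exact Nat.lt_floor_add_one x
  have hnn0 : n0 ≤ n := by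
    rw [hn]
    apply Nat.le_floor
    linarith
  have hn1 : 1 ≤ n := by
    rw [hn]
    apply Nat.le_floor
    push_cast
    linarith
  have hn1' : (1 : ℝ) ≤ n := by exact_mod_cast hn1
  obtain ⟨s, hs, hcov⟩ := hn0 n hnn0
  -- time budget
  have hpi2 : Real.pi ^ 2 ≤ 10 := by
    have := Real.pi_lt_d2
    have := Real.pi_pos
    nlinarith
  have hsn : 10 * (K + 8) ≤ Real.sqrt n := by
    rw [Real.le_sqrt (by positivity) (by positivity)]
    linarith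
  have hsn1 : 1 ≤ Real.sqrt n := by rw [Real.one_le_sqrt]; exact hn1'
  have hbudget : (s : ℝ) + ((n : ℝ) + 1) ^ 2 ≤ t := by
    have h1 : Real.pi ^ 2 * ((s : ℝ) + ((n : ℝ) + 1) ^ 2) ≤ Real.pi ^ 2 * t := by
      rw [← hxt]
      have h2 : ((n : ℝ) + 1) ^ 2 ≤ 4 * n ^ 2 := by nlinarith
      have h3 : (n : ℝ) ^ 2 ≤ n ^ 2 * Real.sqrt n := by
        have : (0 : ℝ) ≤ n ^ 2 := by positivity
        nlinarith
      have h4 : (s : ℝ) + ((n : ℝ) + 1) ^ 2 ≤ (K + 8) * (n ^ 2 * Real.sqrt n) := by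
        have : 0 ≤ (n : ℝ) ^ 2 * Real.sqrt n := by positivity
        linarith
      have h5 : (n : ℝ) ^ 3 ≤ x ^ 3 := by gcongr
      have h6 : 10 * ((K + 8) * ((n : ℝ) ^ 2 * Real.sqrt n)) ≤ n ^ 3 := by
        have h7 : Real.sqrt n * Real.sqrt n = n := Real.mul_self_sqrt (by linarith)
        have h8 : (n : ℝ) ^ 3 = n ^ 2 * (Real.sqrt n * Real.sqrt n) := by rw [h7]; ring
        rw [h8]
        have h9 : 0 ≤ (n : ℝ) ^ 2 * Real.sqrt n := by positivity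
        nlinarith
      have h10 : 0 ≤ (s : ℝ) + ((n : ℝ) + 1) ^ 2 := by positivity
      calc Real.pi ^ 2 * ((s : ℝ) + ((n : ℝ) + 1) ^ 2) ≤ 10 * ((s : ℝ) + ((n : ℝ) + 1) ^ 2) := by
            gcongr
        _ ≤ 10 * ((K + 8) * (n ^ 2 * Real.sqrt n)) := by gcongr
        _ ≤ n ^ 3 := h6
        _ ≤ x ^ 3 := h5
        _ ≤ β * x ^ 3 := by
            have : 0 ≤ x ^ 3 := by positivity
            nlinarith
    exact le_of_mul_le_mul_left h1 (by have := Real.pi_pos; positivity)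
  have hst : s ≤ t := by
    rw [← NNReal.coe_le_coe]
    nlinarith [sq_nonneg ((n : ℝ) + 1)]
  have hrem : ((n : ℝ) + 1) ^ 2 ≤ ((t - s : ℝ≥0) : ℝ) := by
    rw [NNReal.coe_sub hst]
    linarith
  have hlong := covAt_long hn1 β hrem
  have hall := hcov.comp hlong
  have hts : s + (t - s) = t := add_tsub_cancel_of_le hst
  rw [hts, Finset.union_empty] at hall
  have h1 := hall μ hμ
  have h2 : μ.real (cev (sq n) (sq n) β t (0, 0) (0, 0)) ≤ μ.real (evtE β t) :=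
    measureReal_mono cev_sub_evtE (measure_ne_top _ _)
  refine le_trans ?_ (h1.trans h2)
  apply Real.exp_le_exp.2
  -- cost
  have hlam : ((t - s : ℝ≥0) : ℝ) * lam1 n ≤ 2 * β * x := by
    have h3 : ((t - s : ℝ≥0) : ℝ) ≤ t := by
      rw [NNReal.coe_sub hst]; have := s.coe_nonneg; linarith
    have h4 : lam1 n ≤ 2 * (Real.pi ^ 2 / x ^ 2) := by
      unfold lam1
      have h5 := lm_one_le n
      have h6 : Real.pi ^ 2 / ((n : ℝ) + 1) ^ 2 ≤ Real.pi ^ 2 / x ^ 2 := by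
        apply div_le_div_of_nonneg_left (by positivity) (by positivity)
        gcongr
      linarith
    calc ((t - s : ℝ≥0) : ℝ) * lam1 n ≤ t * (2 * (Real.pi ^ 2 / x ^ 2)) := by
          apply mul_le_mul h3 h4 (lam1_nonneg n) t.coe_nonneg
      _ = 2 * (Real.pi ^ 2 * t) / x ^ 2 := by ring
      _ = 2 * (β * x ^ 3) / x ^ 2 := by rw [hxt]
      _ = 2 * β * x := by field_simp
  have hlg : 6 * Real.log ((n : ℝ) + 1) ≤ η / 2 * x := by
    refine le_trans ?_ (hN1 x hx1)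
    apply mul_le_mul_of_nonneg_left _ (by norm_num)
    apply Real.log_le_log (by positivity)
    linarith
  have h5 : η / 2 * x ≤ η / 2 * (β * x) := by
    apply mul_le_mul_of_nonneg_left _ (by positivity)
    nlinarith
  have h6 : (4 + η / 2) * β * n ≤ (4 + η / 2) * β * x := by gcongr
  linarith

/-- **The conditioned walk is nice**, on path space. -/
theorem nice_ratio {ε ρ : ℝ} (hε : 0 < ε) (hε1 : ε ≤ 1 / 3) (hρ : 0 < ρ) (hρ1 : ρ ≤ 1 / 6) :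
    ∃ β0 : ℝ, 1 ≤ β0 ∧ ∀ β : ℝ, β0 ≤ β → ∀ δ : ℝ, 0 < δ → ∃ N0 : ℝ, ∀ x : ℝ, N0 ≤ x →
      ∀ t : ℝ≥0, β * x ^ 3 = Real.pi ^ 2 * t → ∀ μ : Measure WP, IsLaw μ →
      μ {f | f ∈ evtE β t ∧ ¬ Nice x ε ⌈ρ * x⌉₊ t f} ≤ ENNReal.ofReal δ * μ (evtE β t) := by
  obtain ⟨κ, hκ⟩ : ∃ κ : ℝ, κ = min (min (ε ^ 2 / 4) (ρ ^ 4 / 720)) (min (4 * ρ) 1) := ⟨_, rfl⟩
  have hκ0 : 0 < κ := by rw [hκ]; positivity
  have hκ1 : κ ≤ ε ^ 2 / 4 := by rw [hκ]; exact (min_le_left _ _).trans (min_le_left _ _)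
  have hκ2 : κ ≤ ρ ^ 4 / 720 := by rw [hκ]; exact (min_le_left _ _).trans (min_le_right _ _)
  have hκ3 : κ ≤ 4 * ρ := by rw [hκ]; exact (min_le_right _ _).trans (min_le_left _ _)
  have hκ4 : κ ≤ 1 := by rw [hκ]; exact (min_le_right _ _).trans (min_le_right _ _)
  obtain ⟨θ, hθ⟩ : ∃ θ : ℝ, θ = κ / 28 := ⟨_, rfl⟩
  have hθ0 : 0 < θ := by rw [hθ]; positivity
  have hθ1 : θ ≤ 1 / 2 := by rw [hθ]; linarith
  have hθκ : 6 + κ / 2 ≤ (1 - 2 * θ) * (6 + κ) := by rw [hθ]; nlinarith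
  obtain ⟨β0, hβ0, hlow⟩ := lower_bound (η := κ / 4) (by linarith) (by linarith)
  refine ⟨max β0 (8 / θ), hβ0.trans (le_max_left _ _), ?_⟩
  intro β hβ δ hδ
  have hβ1 : β0 ≤ β := (le_max_left _ _).trans hβ
  have hβ2 : 8 / θ ≤ β := (le_max_right _ _).trans hβ
  have hβone : 1 ≤ β := hβ0.trans hβ1
  have hβpos : 0 < β := by linarith
  have hθβ : 8 ≤ θ * β := by
    rw [div_le_iff₀ hθ0] at hβ2
    linarith
  obtain ⟨N0, hN0⟩ := hlow β hβ1
  have hlim : Tendsto (fun x : ℝ => 6 * Real.exp (-(β * (κ / 4 * x - 8 / θ)))) atTop (𝓝 0) := by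
    have h1 : Tendsto (fun x : ℝ => β * (κ / 4 * x - 8 / θ)) atTop atTop := by
      apply Tendsto.const_mul_atTop hβpos
      apply tendsto_atTop_add_const_right
      exact tendsto_id.const_mul_atTop (by positivity)
    have h2 := (Real.tendsto_exp_neg_atTop_nhds_zero.comp h1).const_mul 6
    simpa using h2
  obtain ⟨N1, hN1⟩ := (hlim.eventually (gt_mem_nhds hδ)).exists_forall_of_atTop
  refine ⟨max (max N0 N1) (max (2 / θ / ε) 18), ?_⟩
  intro x hx t hxt μ hμ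
  have := hμ.prob
  have hx1 : N0 ≤ x := ((le_max_left _ _).trans (le_max_left _ _)).trans hx
  have hx2 : N1 ≤ x := ((le_max_right _ _).trans (le_max_left _ _)).trans hx
  have hx3 : 2 / θ / ε ≤ x := ((le_max_left _ _).trans (le_max_right _ _)).trans hx
  have hx4 : 18 ≤ x := ((le_max_right _ _).trans (le_max_right _ _)).trans hx
  have hx0 : 0 < x := by linarith
  obtain ⟨K, hK⟩ : ∃ K : ℝ, K = (1 - 2 * θ) * β * ((6 + κ) * x - 8 / θ) := ⟨_, rfl⟩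
  have hsub : {f | f ∈ evtE β t ∧ ¬ Nice x ε ⌈ρ * x⌉₊ t f} ≤ᵐ[μ]
      ((⋃ ℓ, typeI β θ K t ℓ) ∪ (⋃ ℓ, ⋃ ℓ', typeII β θ K t ℓ ℓ') : Set WP) := by
    filter_upwards [hμ.start] with f hf0 hf
    rw [hK]
    have hceil : ((⌈ρ * x⌉₊ : ℕ) : ℝ) < ρ * x + 1 := Nat.ceil_lt_add_one (by positivity)
    refine classify hf0 hf.1 hβpos hθ0 hθ1 hx0 hxt hε hε1 ?_ hρ (by linarith) (Nat.le_ceil _) ?_
      hκ1 hκ2 hκ3 hf.2
    · rw [div_le_iff₀ hε] at hx3
      linarith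
    · have : ρ * x ≤ 1 / 6 * x := by gcongr
      linarith
  have h1 : μ {f | f ∈ evtE β t ∧ ¬ Nice x ε ⌈ρ * x⌉₊ t f} ≤ 6 * ENNReal.ofReal (Real.exp (-K)) :=
    (measure_mono_ae hsub).trans (bad_bound hμ hβpos.le hθ0.le hθ1 hθβ)
  have h2 := hN0 x hx1 t hxt μ hμ
  have h3 : ENNReal.ofReal (Real.exp (-((6 + κ / 4) * β * x))) ≤ μ (evtE β t) := by
    rw [← ofReal_measureReal]
    exact ENNReal.ofReal_le_ofReal h2
  have hKge : β * ((6 + κ / 2) * x - 8 / θ) ≤ K := by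
    have h4 : (6 + κ / 2) * x - 8 / θ ≤ (1 - 2 * θ) * ((6 + κ) * x - 8 / θ) := by
      have h5 : (1 - 2 * θ) * ((6 + κ) * x - 8 / θ) = (1 - 2 * θ) * (6 + κ) * x - (1 - 2 * θ) * (8 / θ) := by
        ring
      rw [h5]
      have h6 : (6 + κ / 2) * x ≤ (1 - 2 * θ) * (6 + κ) * x := by gcongr
      have h7 : (1 - 2 * θ) * (8 / θ) ≤ 8 / θ := by
        have : 0 < 8 / θ := by positivity
        nlinarith
      linarith
    rw [hK]
    calc β * ((6 + κ / 2) * x - 8 / θ) ≤ β * ((1 - 2 * θ) * ((6 + κ) * x - 8 / θ)) := by gcongr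
      _ = _ := by ring
  refine h1.trans ?_
  refine le_trans ?_ (mul_le_mul_right h3 _)
  rw [← ENNReal.ofReal_mul hδ.le]
  have e6 : (6 : ℝ≥0∞) = ENNReal.ofReal 6 := by norm_num
  rw [e6, ← ENNReal.ofReal_mul (by norm_num)]
  apply ENNReal.ofReal_le_ofReal
  have h4 := (hN1 x hx2).le
  calc 6 * Real.exp (-K) ≤ 6 * Real.exp (-(β * ((6 + κ / 2) * x - 8 / θ))) := by gcongr
    _ = (6 * Real.exp (-(β * (κ / 4 * x - 8 / θ)))) * Real.exp (-((6 + κ / 4) * β * x)) := by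
        rw [mul_assoc, ← Real.exp_add]
        ring_nf
    _ ≤ δ * Real.exp (-((6 + κ / 4) * β * x)) := by gcongr

end Pool.Agent.LT
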