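import Pool.Agent.LT.Cost
import Pool.Agent.LT.PlaneDef

/-!
# Geometry: a nice range is close to the square
-/

open MeasureTheory ProbabilityTheory Filter Topology
open scoped NNReal ENNReal

namespace Pool.Agent.LT

/-- The plane. -/
@[simp] lemma toPlane_zero (x : Site) : toPlane x 0 = x.1 := by simp [toPlane]

@[simp] lemma toPlane_one (x : Site) : toPlane x 1 = x.2 := by simp [toPlane]

lemma plane_dist (p q : Plane) : dist p q = Real.sqrt ((p 0 - q 0) ^ 2 + (p 1 - q 1) ^ 2) := by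
  rw [EuclideanSpace.dist_eq, Fin.sum_univ_two, Real.dist_eq, Real.dist_eq, sq_abs, sq_abs]

lemma plane_dist_le {p q : Plane} {δ : ℝ} (hδ : 0 ≤ δ) (h0 : |p 0 - q 0| ≤ δ)
    (h1 : |p 1 - q 1| ≤ δ) : dist p q ≤ Real.sqrt 2 * δ := by
  rw [plane_dist]
  have h2 : (p 0 - q 0) ^ 2 ≤ δ ^ 2 := sq_le_sq' (abs_le.1 h0).1 (abs_le.1 h0).2
  have h3 : (p 1 - q 1) ^ 2 ≤ δ ^ 2 := sq_le_sq' (abs_le.1 h1).1 (abs_le.1 h1).2
  calc Real.sqrt ((p 0 - q 0) ^ 2 + (p 1 - q 1) ^ 2) ≤ Real.sqrt (2 * δ ^ 2) :=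
        Real.sqrt_le_sqrt (by linarith)
    _ = Real.sqrt 2 * δ := by rw [Real.sqrt_mul (by norm_num), Real.sqrt_sq hδ]

lemma le_plane_dist {p q : Plane} {δ : ℝ} (hδ : 0 ≤ δ) (h0 : δ ≤ |p 0 - q 0|)
    (h1 : δ ≤ |p 1 - q 1|) : Real.sqrt 2 * δ ≤ dist p q := by
  rw [plane_dist]
  have h2 : δ ^ 2 ≤ (p 0 - q 0) ^ 2 := by
    rw [← sq_abs (p 0 - q 0)]; exact pow_le_pow_left₀ hδ h0 2
  have h3 : δ ^ 2 ≤ (p 1 - q 1) ^ 2 := by
    rw [← sq_abs (p 1 - q 1)]; exact pow_le_pow_left₀ hδ h1 2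
  calc Real.sqrt 2 * δ = Real.sqrt (2 * δ ^ 2) := by
        rw [Real.sqrt_mul (by norm_num), Real.sqrt_sq hδ]
    _ ≤ Real.sqrt ((p 0 - q 0) ^ 2 + (p 1 - q 1) ^ 2) := Real.sqrt_le_sqrt (by linarith)

lemma sqrt_two_bounds : 1.4 ≤ Real.sqrt 2 ∧ Real.sqrt 2 ≤ 1.5 := by
  constructor
  · rw [Real.le_sqrt (by norm_num) (by norm_num)]; norm_num
  · rw [Real.sqrt_le_left (by norm_num)]; norm_num

section

variable {G : Finset Site} {a b : ℤ} {w h r : ℕ} {n ε ρ : ℝ}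

/-- Diameter of a nice range. -/
lemma diam_bounds (hB : BBox G a b w h) (hw : |(w : ℝ) - n| ≤ 2 * ε * n)
    (hh : |(h : ℝ) - n| ≤ 2 * ε * n)
    (hr : ∀ z, InBox a b w h z → ∃ y ∈ G, |y.1 - z.1| ≤ r ∧ |y.2 - z.2| ≤ r)
    (hρn : 1 ≤ ρ * n) (hrn : (r : ℝ) ≤ 2 * ρ * n) (hn : 0 < n)
    (hσ : 2 * ε + 5 * ρ ≤ 1) :
    Real.sqrt 2 * ((1 - (2 * ε + 5 * ρ)) * n) ≤ Metric.diam (toPlane '' (G : Set Site)) ∧
      Metric.diam (toPlane '' (G : Set Site)) ≤ Real.sqrt 2 * ((1 + 2 * ε) * n) := by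
  obtain ⟨hw1, hw2⟩ := abs_le.1 hw
  obtain ⟨hh1, hh2⟩ := abs_le.1 hh
  obtain ⟨xl, hxl, _⟩ := hB.left
  obtain ⟨i1, i2, i3, i4⟩ := hB.inb _ hxl
  have hw0 : 1 ≤ w := by omega
  have hh0 : 1 ≤ h := by omega
  constructor
  · obtain ⟨y1, hy1, a1, a2⟩ := hr (a + 1, b + 1) ⟨le_rfl, by simp only; omega, le_rfl, by simp only; omega⟩
    obtain ⟨y2, hy2, a3, a4⟩ := hr (a + w, b + h) ⟨by simp only; omega, le_rfl, by simp only; omega, le_rfl⟩
    simp only at a1 a2 a3 a4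
    have hd : dist (toPlane y1) (toPlane y2) ≤ Metric.diam (toPlane '' (G : Set Site)) := by
      apply Metric.dist_le_diam_of_mem
      · exact (G.finite_toSet.image _).isBounded
      · exact Set.mem_image_of_mem _ hy1
      · exact Set.mem_image_of_mem _ hy2
    refine le_trans ?_ hd
    have hσn : 0 ≤ (1 - (2 * ε + 5 * ρ)) * n := mul_nonneg (by linarith) hn.le
    rw [abs_le] at a1 a2 a3 a4
    have b1 : (w : ℤ) - 1 - 2 * r ≤ y2.1 - y1.1 := by omega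
    have b2 : (h : ℤ) - 1 - 2 * r ≤ y2.2 - y1.2 := by omega
    have b1' : (w : ℝ) - 1 - 2 * r ≤ y2.1 - y1.1 := by exact_mod_cast b1
    have b2' : (h : ℝ) - 1 - 2 * r ≤ y2.2 - y1.2 := by exact_mod_cast b2
    apply le_plane_dist hσn
    · rw [toPlane_zero, toPlane_zero, abs_sub_comm]
      refine le_trans ?_ (le_abs_self _)
      linarith
    · rw [toPlane_one, toPlane_one, abs_sub_comm]
      refine le_trans ?_ (le_abs_self _)
      linarith
  · apply Metric.diam_le_of_forall_dist_le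
    · have : 0 ≤ (1 + 2 * ε) * n := by
        have : (0 : ℝ) ≤ w := Nat.cast_nonneg _
        linarith
      positivity
    · rintro _ ⟨x, hx, rfl⟩ _ ⟨y, hy, rfl⟩
      obtain ⟨j1, j2, j3, j4⟩ := hB.inb _ hx
      obtain ⟨k1, k2, k3, k4⟩ := hB.inb _ hy
      have c1 : |x.1 - y.1| ≤ (w : ℤ) := by rw [abs_le]; omega
      have c2 : |x.2 - y.2| ≤ (h : ℤ) := by rw [abs_le]; omega
      have c1' : |(x.1 : ℝ) - y.1| ≤ w := by exact_mod_cast c1
      have c2' : |(x.2 : ℝ) - y.2| ≤ h := by exact_mod_cast c2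
      apply plane_dist_le
      · have : (0 : ℝ) ≤ w := Nat.cast_nonneg _
        linarith
      · rw [toPlane_zero, toPlane_zero]; linarith
      · rw [toPlane_one, toPlane_one]; linarith

/-- One coordinate: from the range to the square. -/
lemma coord_one {v D s σ : ℝ} (hD : 0 < D) (hs : 0 < s) (hσ0 : 0 ≤ σ) (hσ : σ ≤ 7 / 20)
    (hn : 0 < n) (hDlow : s * ((1 - σ) * n) ≤ D) (hs1 : 1.4 ≤ s) (hv0 : 0 ≤ v)
    (hv : v ≤ (1 + σ) * n) : |D⁻¹ * v - min (D⁻¹ * v) (1 / s)| ≤ 3 * σ := by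
  rcases le_total (D⁻¹ * v) (1 / s) with h | h
  · rw [min_eq_left h, sub_self, abs_zero]; positivity
  · rw [min_eq_right h, abs_of_nonneg (by linarith)]
    have h1 : D⁻¹ * v ≤ (1 + σ) * n / (s * ((1 - σ) * n)) := by
      rw [inv_mul_eq_div]
      have : 0 < s * ((1 - σ) * n) := by
        apply mul_pos hs (mul_pos (by linarith) hn)
      gcongr
    have h2 : (1 + σ) * n / (s * ((1 - σ) * n)) = (1 + σ) / (s * (1 - σ)) := by
      have : (1 - σ) ≠ 0 := by linarith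
      field_simp
    have h3 : (1 + σ) / (s * (1 - σ)) - 1 / s ≤ 3 * σ := by
      have h1σ : 0 < 1 - σ := by linarith
      rw [div_sub_div _ _ (by positivity) hs.ne', div_le_iff₀ (by positivity)]
      have h4 : (1 + σ) * s - s * (1 - σ) * 1 = 2 * σ * s := by ring
      rw [h4]
      have h5 : 2 * (σ * s) ≤ 3 * (1 - σ) * s * (σ * s) := by
        have h6 : 2 ≤ 3 * (1 - σ) * s := by nlinarith
        have h7 : 0 ≤ σ * s := by positivity
        nlinarith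
      linarith
    linarith

/-- One coordinate: from the square to the box. -/
lemma coord_two {U : ℝ} {w : ℕ} {σ : ℝ} (hw0 : 1 ≤ w) (hU0 : 0 ≤ U) (hU : U ≤ (1 + σ) * n)
    (hw : (1 - σ) * n ≤ w) (hσ : 0 ≤ σ) (hn : 0 ≤ n) :
    ∃ k : ℤ, 0 ≤ k ∧ k ≤ (w : ℤ) - 1 ∧ |U - k| ≤ 2 * σ * n + 1 := by
  by_cases h : ⌊U⌋ ≤ (w : ℤ) - 1
  · refine ⟨⌊U⌋, Int.floor_nonneg.2 hU0, h, ?_⟩
    have h1 := Int.floor_le U
    have h2 := Int.lt_floor_add_one U
    rw [abs_of_nonneg (by linarith)]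
    have : 0 ≤ 2 * σ * n := by positivity
    linarith
  · push Not at h
    refine ⟨(w : ℤ) - 1, by omega, le_rfl, ?_⟩
    have h1 : ((w : ℤ) : ℝ) - 1 < (⌊U⌋ : ℝ) := by exact_mod_cast h
    have h2 := Int.floor_le U
    push_cast at h1 ⊢
    rw [abs_of_nonneg (by linarith)]
    linarith

/-- The rescaled range is close to the square. -/
theorem shape_close (hB : BBox G a b w h) (hw : |(w : ℝ) - n| ≤ 2 * ε * n)
    (hh : |(h : ℝ) - n| ≤ 2 * ε * n)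
    (hr : ∀ z, InBox a b w h z → ∃ y ∈ G, |y.1 - z.1| ≤ r ∧ |y.2 - z.2| ≤ r)
    (hε : 0 < ε) (hρ : 0 < ρ)
    (hρn : 1 ≤ ρ * n) (hrn : (r : ℝ) ≤ 2 * ρ * n) (hn : 0 < n)
    (hσ : 2 * ε + 5 * ρ ≤ 7 / 20) :
    ∃ z : Plane, Metric.hausdorffDist
      ((fun p => (Metric.diam (toPlane '' (G : Set Site)))⁻¹ • p) '' (toPlane '' (G : Set Site)))
      ((fun p => z + p) '' unitSquare) ≤ 5 * (2 * ε + 5 * ρ) := by
  obtain ⟨hD1, hD2⟩ := diam_bounds hB hw hh hr hρn hrn hn (by linarith)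
  obtain ⟨D, hD⟩ : ∃ D, D = Metric.diam (toPlane '' (G : Set Site)) := ⟨_, rfl⟩
  rw [← hD] at hD1 hD2 ⊢
  obtain ⟨σ, hσdef⟩ : ∃ σ, σ = 2 * ε + 5 * ρ := ⟨_, rfl⟩
  rw [← hσdef] at hσ hD1 ⊢
  have hσ0 : 0 < σ := by rw [hσdef]; positivity
  obtain ⟨hs1, hs2⟩ := sqrt_two_bounds
  obtain ⟨s, hs⟩ : ∃ s, s = Real.sqrt 2 := ⟨_, rfl⟩
  rw [← hs] at hD1 hD2 hs1 hs2
  have hs0 : 0 < s := by linarith
  have hss : s * s = 2 := by rw [hs]; exact Real.mul_self_sqrt (by norm_num)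
  have h1σ : 0 < 1 - σ := by linarith
  have hD0 : 0 < D := lt_of_lt_of_le (by positivity) hD1
  obtain ⟨hw1, hw2⟩ := abs_le.1 hw
  obtain ⟨hh1, hh2⟩ := abs_le.1 hh
  obtain ⟨xl, hxl, _⟩ := hB.left
  obtain ⟨i1, i2, i3, i4⟩ := hB.inb _ hxl
  have hw0 : 1 ≤ w := by omega
  have hh0 : 1 ≤ h := by omega
  have hεσ : 2 * ε ≤ σ := by rw [hσdef]; linarith
  have hρσ : 5 * ρ ≤ σ := by rw [hσdef]; linarith
  have hεn : 2 * ε * n ≤ σ * n := by gcongr
  have hρn' : 5 * ρ * n ≤ σ * n := by gcongr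
  refine ⟨D⁻¹ • toPlane (a + 1, b + 1), ?_⟩
  apply Metric.hausdorffDist_le_of_mem_dist (by positivity)
  · rintro _ ⟨_, ⟨x, hx, rfl⟩, rfl⟩
    obtain ⟨j1, j2, j3, j4⟩ := hB.inb _ hx
    have j1' : (a : ℝ) + 1 ≤ x.1 := by exact_mod_cast j1
    have j2' : (x.1 : ℝ) ≤ a + w := by exact_mod_cast j2
    have j3' : (b : ℝ) + 1 ≤ x.2 := by exact_mod_cast j3
    have j4' : (x.2 : ℝ) ≤ b + h := by exact_mod_cast j4
    set v0 : ℝ := x.1 - (a + 1) with hv0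
    set v1 : ℝ := x.2 - (b + 1) with hv1
    refine ⟨D⁻¹ • toPlane (a + 1, b + 1) + !₂[min (D⁻¹ * v0) (1 / s), min (D⁻¹ * v1) (1 / s)],
      ⟨_, ?_, rfl⟩, ?_⟩
    · intro i
      have hv0' : 0 ≤ v0 := by rw [hv0]; linarith
      have hv1' : 0 ≤ v1 := by rw [hv1]; linarith
      fin_cases i
      · simp only [Fin.zero_eta, PiLp.toLp_apply, Matrix.cons_val_zero]
        rw [← hs]
        exact ⟨le_min (by positivity) (by positivity), min_le_right _ _⟩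
      · simp only [Fin.mk_one, PiLp.toLp_apply, Matrix.cons_val_one]
        rw [← hs]
        exact ⟨le_min (by positivity) (by positivity), min_le_right _ _⟩
    · have h0 := coord_one (v := v0) hD0 hs0 hσ0.le hσ hn hD1 hs1 (by rw [hv0]; linarith)
        (by rw [hv0]; linarith)
      have h1 := coord_one (v := v1) hD0 hs0 hσ0.le hσ hn hD1 hs1 (by rw [hv1]; linarith)
        (by rw [hv1]; linarith)
      have h2 : dist (D⁻¹ • toPlane x) (D⁻¹ • toPlane (a + 1, b + 1)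
          + !₂[min (D⁻¹ * v0) (1 / s), min (D⁻¹ * v1) (1 / s)]) ≤ Real.sqrt 2 * (3 * σ) := by
        apply plane_dist_le (by positivity)
        · simp only [PiLp.smul_apply, PiLp.add_apply, toPlane_zero, smul_eq_mul,
            PiLp.toLp_apply, Matrix.cons_val_zero]
          have e : D⁻¹ * (x.1 : ℝ) - (D⁻¹ * (((a + 1 : ℤ)) : ℝ) + min (D⁻¹ * v0) (1 / s))
              = D⁻¹ * v0 - min (D⁻¹ * v0) (1 / s) := by rw [hv0]; push_cast; ring
          rw [e]; exact h0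
        · simp only [PiLp.smul_apply, PiLp.add_apply, toPlane_one, smul_eq_mul,
            PiLp.toLp_apply, Matrix.cons_val_one, Matrix.cons_val_fin_one]
          have e : D⁻¹ * (x.2 : ℝ) - (D⁻¹ * (((b + 1 : ℤ)) : ℝ) + min (D⁻¹ * v1) (1 / s))
              = D⁻¹ * v1 - min (D⁻¹ * v1) (1 / s) := by rw [hv1]; push_cast; ring
          rw [e]; exact h1
      refine h2.trans ?_
      rw [← hs]
      nlinarith
  · rintro _ ⟨u, hu, rfl⟩
    have hu0 := hu 0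
    have hu1 := hu 1
    rw [← hs] at hu0 hu1
    have hUb : ∀ c : ℝ, c ≤ 1 / s → D * c ≤ (1 + σ) * n := by
      intro c hc
      calc D * c ≤ (s * ((1 + 2 * ε) * n)) * (1 / s) := by
            rcases le_total 0 c with h | h
            · exact mul_le_mul hD2 hc h (by positivity)
            · have : D * c ≤ 0 := mul_nonpos_of_nonneg_of_nonpos hD0.le h
              have : 0 ≤ (s * ((1 + 2 * ε) * n)) * (1 / s) := by positivity
              linarith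
        _ = (1 + 2 * ε) * n := by field_simp
        _ ≤ (1 + σ) * n := by nlinarith
    obtain ⟨k0, k0a, k0b, k0c⟩ := coord_two (n := n) (σ := σ) hw0 (mul_nonneg hD0.le hu0.1)
      (hUb _ hu0.2) (by nlinarith) hσ0.le hn.le
    obtain ⟨k1, k1a, k1b, k1c⟩ := coord_two (n := n) (σ := σ) hh0 (mul_nonneg hD0.le hu1.1)
      (hUb _ hu1.2) (by nlinarith) hσ0.le hn.le
    obtain ⟨y, hy, y0, y1⟩ := hr (a + 1 + k0, b + 1 + k1)
      ⟨by simp only; omega, by simp only; omega, by simp only; omega, by simp only; omega⟩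
    simp only at y0 y1
    have y0' : |(y.1 : ℝ) - (a + 1 + k0)| ≤ r := by exact_mod_cast y0
    have y1' : |(y.2 : ℝ) - (b + 1 + k1)| ≤ r := by exact_mod_cast y1
    refine ⟨D⁻¹ • toPlane y, ⟨_, ⟨y, hy, rfl⟩, rfl⟩, ?_⟩
    have hco : ∀ (c k yy uu : ℝ), |yy - (c + 1 + k)| ≤ r → |D * uu - k| ≤ 2 * σ * n + 1 →
        |D⁻¹ * (c + 1) + uu - D⁻¹ * yy| ≤ D⁻¹ * (3 * σ * n) := by
      intro c k yy uu h1 h2
      have e : D⁻¹ * (c + 1) + uu - D⁻¹ * yy = D⁻¹ * ((D * uu - k) - (yy - (c + 1 + k))) := by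
        field_simp
        ring
      rw [e, abs_mul, abs_of_pos (inv_pos.2 hD0)]
      apply mul_le_mul_of_nonneg_left _ (inv_pos.2 hD0).le
      calc |D * uu - k - (yy - (c + 1 + k))| ≤ |D * uu - k| + |yy - (c + 1 + k)| := abs_sub _ _
        _ ≤ (2 * σ * n + 1) + r := add_le_add h2 h1
        _ ≤ 3 * σ * n := by linarith
    have h2 : dist (D⁻¹ • toPlane (a + 1, b + 1) + u) (D⁻¹ • toPlane y)
        ≤ Real.sqrt 2 * (D⁻¹ * (3 * σ * n)) := by
      apply plane_dist_le (by positivity)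
      · simp only [PiLp.smul_apply, PiLp.add_apply, toPlane_zero, smul_eq_mul]
        push_cast
        exact hco a k0 y.1 (u 0) y0' k0c
      · simp only [PiLp.smul_apply, PiLp.add_apply, toPlane_one, smul_eq_mul]
        push_cast
        exact hco b k1 y.2 (u 1) y1' k1c
    refine h2.trans ?_
    rw [← hs]
    have h3 : D⁻¹ * (3 * σ * n) ≤ (s * ((1 - σ) * n))⁻¹ * (3 * σ * n) := by
      gcongr
    have h4 : s * ((s * ((1 - σ) * n))⁻¹ * (3 * σ * n)) = 3 * σ / (1 - σ) := by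
      field_simp
    calc s * (D⁻¹ * (3 * σ * n)) ≤ s * ((s * ((1 - σ) * n))⁻¹ * (3 * σ * n)) := by gcongr
      _ = 3 * σ / (1 - σ) := h4
      _ ≤ 5 * σ := by
          rw [div_le_iff₀ h1σ]
          nlinarith

end

end Pool.Agent.LT
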