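import Pool.Agent.LT.Lower
import Pool.Agent.LT.Shape
import Pool.Agent.LT.Transfer

/-!
# Main theorems
-/

open MeasureTheory ProbabilityTheory Filter Topology
open scoped NNReal ENNReal

namespace Pool.Agent.LT

/-- The distance, up to translations, between the rescaled range and a set `S`. -/
noncomputable def shapeDist {Ω : Type*} (S : Set (EuclideanSpace ℝ (Fin 2))) (X : ℝ≥0 → Ω → Site)
    (t : ℝ≥0) (ω : Ω) : ℝ :=
  ⨅ z : EuclideanSpace ℝ (Fin 2), Metric.hausdorffDist (scaledRange X t ω) ((fun p => z + p) '' S)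

lemma shapeDist_bdd {Ω : Type*} (S : Set (EuclideanSpace ℝ (Fin 2))) (X : ℝ≥0 → Ω → Site)
    (t : ℝ≥0) (ω : Ω) : BddBelow (Set.range (fun z : EuclideanSpace ℝ (Fin 2) =>
      Metric.hausdorffDist (scaledRange X t ω) ((fun p => z + p) '' S))) :=
  ⟨0, by rintro _ ⟨z, rfl⟩; exact Metric.hausdorffDist_nonneg⟩

universe u

lemma ceil_bound {ρ x : ℝ} (hρ : 0 < ρ) (hx : 0 < x) (h : 1 ≤ ρ * x) :
    ((⌈ρ * x⌉₊ : ℕ) : ℝ) ≤ 2 * ρ * x := by
  have := Nat.ceil_lt_add_one (a := ρ * x) (by positivity)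
  linarith

/-- Main theorem. -/
theorem main_theorem (ε : ℝ) (hε : 0 < ε) : ∃ β₀ : ℝ, 0 < β₀ ∧ ∀ β : ℝ, β₀ ≤ β →
    ∀ (Ω : Type u) [MeasurableSpace Ω] (P : Measure Ω) (X : ℝ≥0 → Ω → Site), IsSRW P X →
      (∀ᶠ t : ℝ≥0 in atTop, P (evt X β t) ≠ 0) ∧
      Tendsto (fun t : ℝ≥0 => ProbabilityTheory.cond P (evt X β t)
        {ω | ε ≤ shapeDist unitSquare X t ω ∨
          ε * (Real.pi ^ 2 * t / β) ^ ((1 : ℝ) / 3)
            ≤ |Metric.diam (toPlane '' rangeUpTo X t ω)
              - Real.sqrt 2 * (Real.pi ^ 2 * t / β) ^ ((1 : ℝ) / 3)|}) atTop (𝓝 0) := by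
  obtain ⟨e, he⟩ : ∃ e : ℝ, e = min (1 / 20) (ε / 100) := ⟨_, rfl⟩
  have he0 : 0 < e := by rw [he]; positivity
  have he1 : e ≤ 1 / 20 := by rw [he]; exact min_le_left _ _
  have he2 : e ≤ ε / 100 := by rw [he]; exact min_le_right _ _
  obtain ⟨β1, hβ1, hlow⟩ := lower_bound (η := 1) one_pos le_rfl
  obtain ⟨β2, hβ2, hnice⟩ := nice_ratio (ε := e) (ρ := e) he0 (by linarith) he0 (by linarith)
  refine ⟨max β1 β2, by have := le_max_left β1 β2; linarith, ?_⟩
  intro β hβ Ω _ P X hX
  have hb1 : β1 ≤ β := (le_max_left _ _).trans hβ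
  have hb2 : β2 ≤ β := (le_max_right _ _).trans hβ
  have hβpos : 0 < β := by linarith
  have hP := hX.prob
  have hlaw := hX.isLaw
  have hside := sideLen_tendsto hβpos
  constructor
  · obtain ⟨N0, hN0⟩ := hlow β hb1
    filter_upwards [hside.eventually (eventually_ge_atTop N0)] with t ht
    have h1 := hN0 _ ht t (sideLen_cube hβpos t) _ hlaw
    intro h2
    rw [prob_evt hX] at h2
    have h3 : (P.map (pathOf hX.path)).real (evtE β t) = 0 := by
      unfold Measure.real; rw [h2]; rfl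
    rw [h3] at h1
    exact absurd h1 (not_le.2 (Real.exp_pos _))
  · rw [ENNReal.tendsto_nhds_zero]
    intro δ hδ
    obtain ⟨d, hd0, hdδ⟩ : ∃ d : ℝ, 0 < d ∧ ENNReal.ofReal d ≤ δ := by
      by_cases htop : δ = ∞
      · exact ⟨1, one_pos, by rw [htop]; exact le_top⟩
      · refine ⟨δ.toReal, ENNReal.toReal_pos hδ.ne' htop, ?_⟩
        rw [ENNReal.ofReal_toReal htop]
    obtain ⟨N0, hN0⟩ := hnice β hb2 d hd0
    filter_upwards [hside.eventually (eventually_ge_atTop N0),
      hside.eventually (eventually_ge_atTop (1 / e))] with t ht ht2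
    refine le_trans ?_ hdδ
    have hx0 : 0 < sideLen β t := lt_of_lt_of_le (by positivity) ht2
    have hρn : 1 ≤ e * sideLen β t := by
      rw [div_le_iff₀ he0] at ht2
      linarith
    apply cond_le hX (hN0 _ ht t (sideLen_cube hβpos t) _ hlaw)
    rintro ω hω ⟨a, b, w, h, hB, hw, hh, hr⟩
    have hrn := ceil_bound he0 hx0 hρn
    have hrange := rangeUpTo_eq hX t ω
    rcases hω with hω | hω
    · obtain ⟨z, hz⟩ := shape_close hB hw hh hr he0 he0 hρn hrn hx0 (by linarith)
      have h1 : shapeDist unitSquare X t ω ≤ 5 * (2 * e + 5 * e) := by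
        refine le_trans (ciInf_le (shapeDist_bdd unitSquare X t ω) z) ?_
        unfold scaledRange
        rw [hrange]
        exact hz
      linarith
    · obtain ⟨hD1, hD2⟩ := diam_bounds hB hw hh hr hρn hrn hx0 (by linarith)
      rw [← hrange] at hD1 hD2
      have hs := sqrt_two_bounds
      have hlen : (Real.pi ^ 2 * (t : ℝ) / β) ^ ((1 : ℝ) / 3) = sideLen β t := rfl
      rw [hlen] at hω
      have h2 : |Metric.diam (toPlane '' rangeUpTo X t ω) - Real.sqrt 2 * sideLen β t|
          ≤ 1.5 * (7 * e * sideLen β t) := by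
        rw [abs_le]
        have h3 : Real.sqrt 2 * (7 * e * sideLen β t) ≤ 1.5 * (7 * e * sideLen β t) := by
          apply mul_le_mul_of_nonneg_right hs.2
          positivity
        have h4 : Real.sqrt 2 * (2 * e * sideLen β t) ≤ Real.sqrt 2 * (7 * e * sideLen β t) := by
          apply mul_le_mul_of_nonneg_left _ (by positivity)
          have : 0 ≤ e * sideLen β t := by positivity
          linarith
        constructor <;> linarith
      have h5 : e * sideLen β t ≤ ε / 100 * sideLen β t := by gcongr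
      have h6 : 0 < ε * sideLen β t := by positivity
      linarith

/-! ### Consequence for limiting shapes -/

lemma edist_ne_top {A B : Set Plane} (hA : A.Nonempty) (hB : B.Nonempty)
    (bA : Bornology.IsBounded A) (bB : Bornology.IsBounded B) :
    Metric.hausdorffEDist A B ≠ ⊤ :=
  Metric.hausdorffEDist_ne_top_of_nonempty_of_bounded hA hB bA bB

lemma bounded_unitSquare : Bornology.IsBounded unitSquare := by
  rw [Metric.isBounded_iff_subset_closedBall (0 : Plane)]
  refine ⟨Real.sqrt 2 * (1 / Real.sqrt 2), ?_⟩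
  intro p hp
  rw [Metric.mem_closedBall]
  apply plane_dist_le (by positivity)
  · rw [PiLp.zero_apply, sub_zero, abs_of_nonneg (hp 0).1]; exact (hp 0).2
  · rw [PiLp.zero_apply, sub_zero, abs_of_nonneg (hp 1).1]; exact (hp 1).2

lemma nonempty_unitSquare : unitSquare.Nonempty := by
  refine ⟨0, fun i => ?_⟩
  rw [PiLp.zero_apply]
  exact ⟨le_rfl, by positivity⟩

lemma isometry_add (z : Plane) : Isometry (fun p : Plane => z + p) :=
  Isometry.of_dist_eq (fun x y => dist_add_left z x y)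

/-- If limiting shapes exist, they converge to the square. -/
theorem shapes_converge (Ω : Type u) [MeasurableSpace Ω] (P : Measure Ω) (X : ℝ≥0 → Ω → Site)
    (hX : IsSRW P X) (S : ℝ → Set Plane) (β₁ : ℝ)
    (hS : ∀ β, β₁ ≤ β → (S β).Nonempty ∧ IsCompact (S β) ∧ ∀ ε > 0,
      Tendsto (fun t : ℝ≥0 => ProbabilityTheory.cond P (evt X β t)
        {ω | ε ≤ shapeDist (S β) X t ω}) atTop (𝓝 0)) :
    Tendsto (fun β => ⨅ z : Plane, Metric.hausdorffDist (S β) ((fun p => z + p) '' unitSquare))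
      atTop (𝓝 0) := by
  rw [Metric.tendsto_atTop]
  intro ε hε
  obtain ⟨β₀, hβ₀, hmain⟩ := main_theorem.{u} (ε / 4) (by linarith)
  refine ⟨max β₀ β₁, fun β hβ => ?_⟩
  obtain ⟨hne, hcomp, hsh⟩ := hS β ((le_max_right _ _).trans hβ)
  obtain ⟨hpos, hlim⟩ := hmain β ((le_max_left _ _).trans hβ) Ω P X hX
  have hP := hX.prob
  have hlim2 := hsh (ε / 4) (by linarith)
  have e1 := (ENNReal.tendsto_nhds_zero.1 hlim) (1 / 4) (by norm_num)
  have e2 := (ENNReal.tendsto_nhds_zero.1 hlim2) (1 / 4) (by norm_num)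
  obtain ⟨t, ht1, ht2, ht3⟩ := (hpos.and (e1.and e2)).exists
  have hcp : IsProbabilityMeasure (ProbabilityTheory.cond P (evt X β t)) :=
    cond_isProbabilityMeasure ht1
  -- a good sample point
  have hex : ∃ ω, shapeDist unitSquare X t ω < ε / 4 ∧ shapeDist (S β) X t ω < ε / 4 := by
    by_contra hcon
    push Not at hcon
    have hcov : (Set.univ : Set Ω) ⊆ {ω | ε / 4 ≤ shapeDist unitSquare X t ω ∨
          ε / 4 * (Real.pi ^ 2 * t / β) ^ ((1 : ℝ) / 3)
            ≤ |Metric.diam (toPlane '' rangeUpTo X t ω)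
              - Real.sqrt 2 * (Real.pi ^ 2 * t / β) ^ ((1 : ℝ) / 3)|} ∪
        {ω | ε / 4 ≤ shapeDist (S β) X t ω} := by
      intro ω _
      by_cases h : shapeDist unitSquare X t ω < ε / 4
      · right; exact hcon ω h
      · left; left; exact not_lt.1 h
    have h1 : (1 : ℝ≥0∞) ≤ 1 / 4 + 1 / 4 := by
      calc (1 : ℝ≥0∞) = ProbabilityTheory.cond P (evt X β t) Set.univ := measure_univ.symm
        _ ≤ _ := (measure_mono hcov).trans (measure_union_le _ _)
        _ ≤ 1 / 4 + 1 / 4 := add_le_add ht2 ht3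
    have h2 : (1 : ℝ≥0∞) / 4 + 1 / 4 < 1 := by
      have : (1 : ℝ≥0∞) / 4 + 1 / 4 = ENNReal.ofReal (1 / 4 + 1 / 4) := by
        rw [ENNReal.ofReal_add (by norm_num) (by norm_num)]
        rw [ENNReal.ofReal_div_of_pos (by norm_num)]
        simp
      rw [this]
      rw [← ENNReal.ofReal_one]
      apply (ENNReal.ofReal_lt_ofReal_iff (by norm_num)).2
      norm_num
    exact absurd h1 (not_le.2 h2)
  obtain ⟨ω, hω1, hω2⟩ := hex
  obtain ⟨z1, hz1⟩ := exists_lt_of_ciInf_lt hω1
  obtain ⟨z2, hz2⟩ := exists_lt_of_ciInf_lt hω2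
  set R := scaledRange X t ω with hR
  have hRfin : R.Finite := by
    rw [hR]
    unfold scaledRange
    rw [rangeUpTo_eq hX]
    exact ((Finset.finite_toSet _).image _).image _
  have hRne : R.Nonempty := by
    rw [hR]
    unfold scaledRange
    refine ⟨_, _, ⟨_, ⟨0, zero_le, rfl⟩, rfl⟩, rfl⟩
  have b1 : Bornology.IsBounded ((fun p : Plane => z1 + p) '' unitSquare) :=
    (isometry_add z1).lipschitz.isBounded_image bounded_unitSquare
  have b2 : Bornology.IsBounded ((fun p : Plane => z2 + p) '' S β) :=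
    (isometry_add z2).lipschitz.isBounded_image hcomp.isBounded
  have h3 : Metric.hausdorffDist ((fun p : Plane => z2 + p) '' S β)
      ((fun p : Plane => z1 + p) '' unitSquare) < ε / 2 := by
    have htri := Metric.hausdorffDist_triangle (s := (fun p : Plane => z2 + p) '' S β) (t := R)
      (u := (fun p : Plane => z1 + p) '' unitSquare)
      (edist_ne_top (hne.image _) hRne b2 hRfin.isBounded)
    rw [Metric.hausdorffDist_comm] at hz2
    linarith
  have h4 : Metric.hausdorffDist ((fun p : Plane => z2 + p) '' S β)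
      ((fun p : Plane => z1 + p) '' unitSquare)
      = Metric.hausdorffDist (S β) ((fun p : Plane => (z1 - z2) + p) '' unitSquare) := by
    have h5 : ((fun p : Plane => z1 + p) '' unitSquare)
        = (fun p : Plane => z2 + p) '' ((fun p : Plane => (z1 - z2) + p) '' unitSquare) := by
      rw [Set.image_image]
      congr 1
      funext p
      abel
    rw [h5]
    exact Metric.hausdorffDist_image (isometry_add z2)
  have hbdd : BddBelow (Set.range (fun z : Plane =>
      Metric.hausdorffDist (S β) ((fun p => z + p) '' unitSquare))) :=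
    ⟨0, by rintro _ ⟨z, rfl⟩; exact Metric.hausdorffDist_nonneg⟩
  have h6 : (⨅ z : Plane, Metric.hausdorffDist (S β) ((fun p => z + p) '' unitSquare)) ≤ ε / 2 := by
    refine (ciInf_le hbdd (z1 - z2)).trans ?_
    rw [← h4]
    exact h3.le
  have h7 : 0 ≤ ⨅ z : Plane, Metric.hausdorffDist (S β) ((fun p => z + p) '' unitSquare) :=
    Real.iInf_nonneg (fun z => Metric.hausdorffDist_nonneg)
  rw [Real.dist_eq, sub_zero, abs_of_nonneg h7]
  linarith

end Pool.Agent.LT
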