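import Pool.Agent.LT.Basic

/-!
# Step paths: range, shifts, stopping
-/

open MeasureTheory ProbabilityTheory Filter Topology
open scoped NNReal ENNReal

namespace Pool.Agent.LT

lemma units_neg {e : Site} (h : e ∈ units) : -e ∈ units := by
  simp only [units, Finset.mem_insert, Finset.mem_singleton] at h ⊢
  rcases h with h | h | h | h <;> subst h <;> simp

/-- Adjacency in the square lattice. -/
def Adj (x y : Site) : Prop := y - x ∈ units

lemma Adj.symm {x y : Site} (h : Adj x y) : Adj y x := by
  have := units_neg h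
  simpa [Adj] using this

instance (x y : Site) : Decidable (Adj x y) := by unfold Adj; infer_instance

namespace IsStepPath

variable {f : ℝ≥0 → Site}

lemma add_const (hf : IsStepPath f) (x : Site) : IsStepPath (fun u => x + f u) where
  right s := by
    obtain ⟨δ, hδ, h⟩ := hf.right s
    exact ⟨δ, hδ, fun u h1 h2 => by simp only [h u h1 h2]⟩
  left s hs := by
    obtain ⟨δ, hδ, y, h, hy⟩ := hf.left s hs
    refine ⟨δ, hδ, x + y, fun u h1 h2 => by simp only [h u h1 h2], ?_⟩
    rcases hy with hy | hy
    · left; simp only [hy]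
    · right; simpa using hy

lemma shift (hf : IsStepPath f) (s : ℝ≥0) : IsStepPath (fun u => f (s + u) - f s) where
  right u := by
    obtain ⟨δ, hδ, h⟩ := hf.right (s + u)
    refine ⟨δ, hδ, fun v h1 h2 => ?_⟩
    have : f (s + v) = f (s + u) := h (s + v) (by gcongr) (by rw [add_assoc]; gcongr)
    simp only [this]
  left u hu := by
    obtain ⟨δ, hδ, y, h, hy⟩ := hf.left (s + u) (by positivity)
    refine ⟨δ, hδ, y - f s, fun v h1 h2 => ?_, ?_⟩
    · have : f (s + v) = y := h (s + v) (by gcongr) (by rw [add_assoc]; gcongr)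
      simp only [this]
    · rcases hy with hy | hy
      · left; simp only [hy]
      · right; simpa using hy

lemma stop (hf : IsStepPath f) (s : ℝ≥0) : IsStepPath (fun u => f (min u s)) where
  right u := by
    by_cases hus : u < s
    · obtain ⟨δ, hδ, h⟩ := hf.right u
      refine ⟨min δ (s - u), lt_min hδ (tsub_pos_of_lt hus), fun v h1 h2 => ?_⟩
      have hv1 : v < u + δ := lt_of_lt_of_le h2 (by gcongr; exact min_le_left _ _)
      have hv2 : v < s := by
        have : v < u + (s - u) := lt_of_lt_of_le h2 (by gcongr; exact min_le_right _ _)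
        rwa [add_tsub_cancel_of_le hus.le] at this
      simp only [min_eq_left hv2.le, min_eq_left hus.le]
      exact h v h1 hv1
    · push Not at hus
      refine ⟨1, one_pos, fun v h1 h2 => ?_⟩
      simp only [min_eq_right hus, min_eq_right (hus.trans h1)]
  left u hu := by
    by_cases hus : u ≤ s
    · obtain ⟨δ, hδ, y, h, hy⟩ := hf.left u hu
      refine ⟨δ, hδ, y, fun v h1 h2 => ?_, ?_⟩
      · simp only [min_eq_left (h1.le.trans hus)]
        exact h v h1 h2
      · simpa only [min_eq_left hus] using hy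
    · push Not at hus
      refine ⟨u - s, tsub_pos_of_lt hus, f s, fun v h1 h2 => ?_, ?_⟩
      · have : s < v := by
          by_contra hcon
          push Not at hcon
          have : v + (u - s) ≤ u := by
            calc v + (u - s) ≤ s + (u - s) := by gcongr
              _ = u := add_tsub_cancel_of_le hus.le
          exact absurd h2 (not_lt.mpr this)
        simp only [min_eq_right this.le]
      · left; simp only [min_eq_right hus.le]

/-- Around each time the path takes the value at that time or the left limit, and the left limit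
is a value taken before. -/
lemma nhd (hf : IsStepPath f) (s : ℝ≥0) :
    ∃ O : Set ℝ≥0, IsOpen O ∧ s ∈ O ∧ ∃ x, (∀ u ∈ O, f u = f s ∨ f u = x) ∧
      ((∃ u, u ≤ s ∧ f u = x)) ∧ (f s = x ∨ Adj x (f s)) := by
  obtain ⟨δ, hδ, hr⟩ := hf.right s
  rcases eq_or_lt_of_le (show (0:ℝ≥0) ≤ s from zero_le) with h0 | h0
  · refine ⟨Set.Iio (s + δ), isOpen_Iio, by simp [hδ], f s, fun u hu => Or.inl ?_, ⟨s, le_rfl, rfl⟩,
      Or.inl rfl⟩
    exact hr u (by rw [← h0]; exact zero_le) hu
  · obtain ⟨η, hη, x, hl, hx⟩ := hf.left s h0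
    refine ⟨Set.Iio (s + δ) ∩ {u | s < u + η}, ?_, ⟨by simp [hδ], by simp [hη]⟩, x, ?_, ?_, ?_⟩
    · exact isOpen_Iio.inter (isOpen_lt continuous_const (by fun_prop))
    · rintro u ⟨h1, h2⟩
      rcases lt_or_ge u s with h | h
      · right; exact hl u h h2
      · left; exact hr u h h1
    · have h1 : s - min (s / 2) (η / 2) < s := by
        apply tsub_lt_self h0
        exact lt_min (by positivity) (by positivity)
      refine ⟨s - min (s / 2) (η / 2), h1.le, hl _ h1 ?_⟩
      calc s ≤ (s - min (s / 2) (η / 2)) + min (s / 2) (η / 2) := le_tsub_add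
        _ ≤ (s - min (s / 2) (η / 2)) + η / 2 := by gcongr; exact min_le_right _ _
        _ < (s - min (s / 2) (η / 2)) + η := by
          gcongr
          exact NNReal.half_lt_self hη.ne'
    · rcases hx with hx | hx
      · left; exact hx
      · right; exact hx

lemma finite_range (hf : IsStepPath f) (t : ℝ≥0) : {x | ∃ s, s ≤ t ∧ f s = x}.Finite := by
  choose O hO hsO x hx _ _ using hf.nhd
  have hc : IsCompact (Set.Icc (0 : ℝ≥0) t) := isCompact_Icc
  obtain ⟨T, hT⟩ := hc.elim_finite_subcover O hO (fun s _ => Set.mem_iUnion.2 ⟨s, hsO s⟩)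
  refine Set.Finite.subset ((T.image f ∪ T.image x).finite_toSet) ?_
  rintro y ⟨s, hs, rfl⟩
  have := hT ⟨zero_le, hs⟩
  simp only [Set.mem_iUnion] at this
  obtain ⟨i, hi, hsi⟩ := this
  rcases hx i s hsi with h | h
  · simp only [Finset.coe_union, Finset.coe_image, Set.mem_union, Set.mem_image, Finset.mem_coe]
    left; exact ⟨i, hi, h.symm⟩
  · simp only [Finset.coe_union, Finset.coe_image, Set.mem_union, Set.mem_image, Finset.mem_coe]
    right; exact ⟨i, hi, h.symm⟩

/-- A function on sites which agrees across the edges of the range is constant on the range. -/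
lemma range_connected (hf : IsStepPath f) (t : ℝ≥0) (g : Site → Bool)
    (hg : ∀ x y, (∃ s, s ≤ t ∧ f s = x) → (∃ s, s ≤ t ∧ f s = y) → Adj x y → g x = g y)
    {x y : Site} (hx : ∃ s, s ≤ t ∧ f s = x) (hy : ∃ s, s ≤ t ∧ f s = y) : g x = g y := by
  have hpre : IsPreconnected (Set.Icc (0 : ℝ≥0) t) := isPreconnected_Icc
  have hcont : ContinuousOn (fun s => g (f s)) (Set.Icc 0 t) := by
    intro s hs
    obtain ⟨O, hO, hsO, x, hx, ⟨u, hus, hux⟩, hadj⟩ := hf.nhd s
    have hO' : O ∈ 𝓝[Set.Icc 0 t] s := mem_nhdsWithin_of_mem_nhds (hO.mem_nhds hsO)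
    have hev : (fun s => g (f s)) =ᶠ[𝓝[Set.Icc 0 t] s] (fun _ => g (f s)) := ?_
    · exact (continuousWithinAt_const (b := g (f s))).congr_of_eventuallyEq hev rfl
    filter_upwards [hO'] with v hv
    rcases hx v hv with h | h
    · rw [h]
    · rw [h]
      rcases hadj with h' | h'
      · rw [h']
      · exact hg x (f s) ⟨u, hus.trans hs.2, hux⟩ ⟨s, hs.2, rfl⟩ h'
  obtain ⟨s, hs, rfl⟩ := hx
  obtain ⟨s', hs', rfl⟩ := hy
  exact hpre.constant hcont ⟨zero_le, hs⟩ ⟨zero_le, hs'⟩

end IsStepPath

/-- The space of step paths. -/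
abbrev WP : Type := {f : ℝ≥0 → Site // IsStepPath f}

/-- Increments after time `s`. -/
def shift (s : ℝ≥0) (f : WP) : WP := ⟨fun u => f.1 (s + u) - f.1 s, f.2.shift s⟩

/-- The path stopped at time `s`. -/
noncomputable def stop (s : ℝ≥0) (f : WP) : WP := ⟨fun u => f.1 (min u s), f.2.stop s⟩

lemma measurable_eval (s : ℝ≥0) : Measurable (fun f : WP => f.1 s) :=
  (measurable_pi_apply s).comp measurable_subtype_coe

lemma measurable_wp_iff {α : Type*} [MeasurableSpace α] {F : α → WP} :
    Measurable F ↔ ∀ s, Measurable (fun a => (F a).1 s) := by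
  constructor
  · intro h s
    exact (measurable_eval s).comp h
  · intro h
    exact Measurable.subtype_mk (measurable_pi_iff.2 h)

lemma measurable_shift (s : ℝ≥0) : Measurable (shift s) := by
  rw [measurable_wp_iff]
  intro u
  exact (measurable_eval (s + u)).sub (measurable_eval s)

lemma measurable_stop (s : ℝ≥0) : Measurable (stop s) := by
  rw [measurable_wp_iff]
  intro u
  exact measurable_eval (min u s)

end Pool.Agent.LT
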