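import Pool.Agent.LT.Cov

/-!
# Ground state transform: Poisson equation and exponential tails
-/

open MeasureTheory ProbabilityTheory Filter Topology
open scoped NNReal ENNReal

namespace Pool.Agent.LT

/-- Feynman-Kac with a terminal function. -/
lemma fk_mulVec {μ : Measure WP} (hμ : IsLaw μ) (A : Finset Site) (V : Site → ℝ) {C : ℝ}
    (hC : ∀ x, |V x| ≤ C) (s : ℝ≥0) (x : A) (H : Site → ℝ) :
    (NormedSpace.exp ((s : ℝ) • gen A V)).mulVec (fun y : A => H y.1) x
      = ∫ f, fkw A V s x.1 f * H (x.1 + f.1 s) ∂μ := by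
  have := hμ.prob
  rw [Matrix.mulVec, dotProduct]
  have h1 : ∀ y : A, NormedSpace.exp ((s : ℝ) • gen A V) x y * H y.1
      = ∫ f, fkw A V s x.1 f * (if x.1 + f.1 s = y.1 then 1 else 0) * H y.1 ∂μ := by
    intro y
    rw [← feynman_kac hμ A V hC s x y, integral_mul_const]
  simp only [h1]
  rw [← integral_finset_sum]
  · apply integral_congr_ae
    refine Eventually.of_forall (fun f => ?_)
    show ∑ y : A, fkw A V s x.1 f * (if x.1 + f.1 s = y.1 then 1 else 0) * H y.1
      = fkw A V s x.1 f * H (x.1 + f.1 s)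
    by_cases hst : stay x.1 A s f
    · have hmem : x.1 + f.1 s ∈ A := hst s le_rfl
      rw [Finset.sum_eq_single_of_mem (⟨x.1 + f.1 s, hmem⟩ : A) (Finset.mem_univ _)]
      · rw [if_pos rfl, mul_one]
      · intro y _ hy
        rw [if_neg]
        · ring
        · intro h; exact hy (Subtype.ext h.symm)
    · have h0 : fkw A V s x.1 f = 0 := by
        unfold fkw; exact Set.indicator_of_notMem (by exact hst) _
      rw [h0]
      simp
  · intro y _
    exact (integrable_fkw_ite (μ := μ) A V hC s x.1 y.1).mul_const _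

lemma integrable_fkw {μ : Measure WP} [IsFiniteMeasure μ] (A : Finset Site) (V : Site → ℝ) {C : ℝ}
    (hC : ∀ x, |V x| ≤ C) (s : ℝ≥0) (x : Site) : Integrable (fkw A V s x) μ := by
  apply integrable_of_bdd (measurable_fkw A V hC s x) (C := Real.exp (s * C))
  intro f
  rw [abs_of_nonneg (fkw_nonneg _ _ _ _ _)]
  exact fkw_le A V hC s x f

lemma measurable_of_site (s : ℝ≥0) (x : Site) (H : Site → ℝ) :
    Measurable (fun f : WP => H (x + f.1 s)) :=
  (Measurable.of_discrete (f := fun z => H (x + z))).comp (measurable_eval s)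

lemma occ_lin (s : ℝ≥0) {V v : Site → ℝ} {C C' : ℝ} (hC : ∀ x, |V x| ≤ C) (hC' : ∀ x, |v x| ≤ C')
    (a b : ℝ) (f : WP) :
    occ s (fun z => V z + a * v z + b) f = occ s V f + a * occ s v f + b * s := by
  unfold occ
  have i1 := intervalIntegrable_path f V hC 0 s
  have i2 := intervalIntegrable_path f v hC' 0 s
  rw [intervalIntegral.integral_add (i1.add (i2.const_mul a)) intervalIntegrable_const,
    intervalIntegral.integral_add i1 (i2.const_mul a), intervalIntegral.integral_const_mul,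
    intervalIntegral.integral_const]
  simp
  ring

lemma fkw_tilt (A : Finset Site) (s : ℝ≥0) {V v : Site → ℝ} {C C' : ℝ} (hC : ∀ x, |V x| ≤ C)
    (hC' : ∀ x, |v x| ≤ C') (a b : ℝ) (x : Site) (f : WP) :
    fkw A (fun z => V z + a * v z + b) s x f
      = fkw A V s x f * Real.exp (a * occ s (fun z => v (x + z)) f + b * s) := by
  unfold fkw
  by_cases hst : stay x A s f
  · rw [Set.indicator_of_mem (by exact hst), Set.indicator_of_mem (by exact hst), ← Real.exp_add]
    have := occ_lin s (V := fun z => V (x + z)) (v := fun z => v (x + z)) (fun z => hC _)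
      (fun z => hC' _) a b f
    rw [this]
    ring_nf
  · rw [Set.indicator_of_notMem (by exact hst), Set.indicator_of_notMem (by exact hst), zero_mul]

section Ground

variable (A : Finset Site) (ψ : Site → ℝ)

/-- The potential which makes `ψ` a ground state. -/
noncomputable def potl (z : Site) : ℝ := if z ∈ A then 4 - (∑ e ∈ units, ψ (z + e)) / ψ z else 0

lemma potl_bdd : ∃ C : ℝ, ∀ z, |potl A ψ z| ≤ C := by
  refine ⟨∑ z ∈ A, |potl A ψ z|, fun z => ?_⟩
  by_cases hz : z ∈ A
  · exact Finset.single_le_sum (f := fun z => |potl A ψ z|) (fun _ _ => abs_nonneg _) hz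
  · have : potl A ψ z = 0 := by unfold potl; rw [if_neg hz]
    rw [this, abs_zero]
    exact Finset.sum_nonneg (fun _ _ => abs_nonneg _)

variable {A ψ}

lemma ext0_psi (hψ0 : ∀ x, x ∉ A → ψ x = 0) (z : Site) : ext0 A (fun x : A => ψ x.1) z = ψ z := by
  by_cases hz : z ∈ A
  · exact ext0_mem A (fun x : A => ψ x.1) ⟨z, hz⟩
  · rw [ext0_not_mem _ _ hz, hψ0 z hz]

lemma gen_psi (hψ : ∀ x ∈ A, 0 < ψ x) (hψ0 : ∀ x, x ∉ A → ψ x = 0) :
    (gen A (potl A ψ)).mulVec (fun x : A => ψ x.1) = 0 := by
  funext x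
  rw [gen_mulVec]
  simp only [ext0_psi hψ0]
  unfold potl
  rw [if_pos x.2]
  have := hψ x.1 x.2
  show (4 - (∑ e ∈ units, ψ (x.1 + e)) / ψ x.1 - 4) * ψ x.1 + ∑ e ∈ units, ψ (x.1 + e) = 0
  field_simp
  ring

lemma gen_symm (V : Site → ℝ) (x y : A) : gen A V x y = gen A V y x := by
  unfold gen
  by_cases h : x = y
  · subst h; rfl
  · rw [if_neg h, if_neg (Ne.symm h)]
    have : Adj x.1 y.1 ↔ Adj y.1 x.1 := ⟨fun h => h.symm, fun h => h.symm⟩
    simp only [this]

lemma gen_dot (V : Site → ℝ) (u v : A → ℝ) :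
    ∑ x, u x * (gen A V).mulVec v x = ∑ x, (gen A V).mulVec u x * v x := by
  simp only [Matrix.mulVec, dotProduct, Finset.mul_sum, Finset.sum_mul]
  rw [Finset.sum_comm]
  apply Finset.sum_congr rfl
  intro x _
  apply Finset.sum_congr rfl
  intro y _
  rw [gen_symm V y x]
  ring

/-- The kernel of the generator is spanned by `ψ`. -/
lemma ker_gen (hA : ConnF (A : Set Site)) (hne : A.Nonempty) (hψ : ∀ x ∈ A, 0 < ψ x)
    (hψ0 : ∀ x, x ∉ A → ψ x = 0) (u : A → ℝ) (hu : (gen A (potl A ψ)).mulVec u = 0) :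
    ∃ c : ℝ, ∀ x, u x = c * ψ x.1 := by
  classical
  -- the ratio
  set w : Site → ℝ := fun z => ext0 A u z / ψ z with hw
  obtain ⟨x0, hx0, hmax⟩ := A.exists_max_image w hne
  have hnbr : ∀ x ∈ A, w x = w x0 → ∀ y ∈ A, Adj x y → w y = w x0 := by
    intro x hx hxw y hy hxy
    have h1 := congrFun hu ⟨x, hx⟩
    rw [gen_mulVec] at h1
    unfold potl at h1
    rw [if_pos (by exact hx)] at h1
    have hψx := hψ x hx
    have hux : u ⟨x, hx⟩ = w x0 * ψ x := by
      rw [← hxw, hw]
      have : ext0 A u x = u ⟨x, hx⟩ := ext0_mem A u ⟨x, hx⟩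
      simp only [this]
      field_simp
    rw [hux] at h1
    have h2 : ∑ e ∈ units, (w x0 * ψ (x + e) - ext0 A u (x + e)) = 0 := by
      rw [Finset.sum_sub_distrib, ← Finset.mul_sum]
      have h3 : (4 - (∑ e ∈ units, ψ (x + e)) / ψ x - 4) * (w x0 * ψ x)
          = -(w x0 * ∑ e ∈ units, ψ (x + e)) := by field_simp; ring
      have h1' : (4 - (∑ e ∈ units, ψ (x + e)) / ψ x - 4) * (w x0 * ψ x)
        + ∑ e ∈ units, ext0 A u (x + e) = 0 := h1
      rw [h3] at h1'
      linarith
    have h4 : ∀ e ∈ units, 0 ≤ w x0 * ψ (x + e) - ext0 A u (x + e) := by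
      intro e _
      by_cases hxe : x + e ∈ A
      · have h5 := hmax _ hxe
        have h6 := hψ _ hxe
        have h7 : ext0 A u (x + e) = w (x + e) * ψ (x + e) := by
          rw [hw]; field_simp
        rw [h7]
        nlinarith
      · rw [ext0_not_mem _ _ hxe, hψ0 _ hxe]
        simp
    have h5 := (Finset.sum_eq_zero_iff_of_nonneg h4).1 h2 (y - x) hxy
    have h6 : x + (y - x) = y := by abel
    rw [h6] at h5
    have h7 := hψ y hy
    rw [hw]
    simp only
    rw [div_eq_iff h7.ne']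
    linarith
  have hconst : ∀ x ∈ A, w x = w x0 := by
    intro x hx
    have h1 := hA (fun z => decide (w z = w x0)) (by
      intro p hp q hq hpq
      have : (w p = w x0) ↔ (w q = w x0) :=
        ⟨fun h => hnbr p hp h q hq hpq, fun h => hnbr q hq h p hp hpq.symm⟩
      simp only [this]) x hx x0 hx0
    simpa using h1
  refine ⟨w x0, fun x => ?_⟩
  have h1 := hconst x.1 x.2
  rw [← h1, hw]
  simp only [ext0_mem]
  have := hψ x.1 x.2
  field_simp

/-- Solvability of the Poisson equation. -/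
lemma poisson (hA : ConnF (A : Set Site)) (hne : A.Nonempty) (hψ : ∀ x ∈ A, 0 < ψ x)
    (hψ0 : ∀ x, x ∉ A → ψ x = 0) (b : A → ℝ) (hb : ∑ x, ψ x.1 * b x = 0) :
    ∃ g : A → ℝ, (gen A (potl A ψ)).mulVec g = b := by
  classical
  set M := gen A (potl A ψ) with hM
  set p : A → ℝ := fun x => ψ x.1 with hp
  have hMp : M.mulVec p = 0 := gen_psi hψ hψ0
  have hpp : 0 < ∑ x, p x * p x := by
    obtain ⟨x0, hx0⟩ := hne
    apply Finset.sum_pos
    · intro x _
      exact mul_pos (hψ x.1 x.2) (hψ x.1 x.2)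
    · exact ⟨⟨x0, hx0⟩, Finset.mem_univ _⟩
  set M' : Matrix A A ℝ := M - Matrix.vecMulVec p p with hM'
  have hM'v : ∀ u, M'.mulVec u = M.mulVec u - (∑ x, p x * u x) • p := by
    intro u
    rw [hM', Matrix.sub_mulVec]
    congr 1
    funext x
    simp only [Matrix.mulVec, dotProduct, Matrix.vecMulVec_apply, Pi.smul_apply, smul_eq_mul,
      Finset.sum_mul]
    apply Finset.sum_congr rfl
    intro y _
    ring
  have hdot : ∀ u, ∑ x, p x * M'.mulVec u x = -(∑ x, p x * u x) * ∑ x, p x * p x := by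
    intro u
    rw [hM'v]
    simp only [Pi.sub_apply, Pi.smul_apply, smul_eq_mul, mul_sub, Finset.sum_sub_distrib]
    rw [gen_dot, ← hM, hMp]
    simp only [Pi.zero_apply, zero_mul, Finset.sum_const_zero, zero_sub]
    rw [neg_mul, Finset.mul_sum]
    congr 1
    apply Finset.sum_congr rfl
    intro x _
    ring
  have hinj : Function.Injective M'.mulVec := by
    intro u v huv
    have h1 : M'.mulVec (u - v) = 0 := by
      rw [Matrix.mulVec_sub]
      have : M'.mulVec u = M'.mulVec v := huv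
      rw [this, sub_self]
    have h2 := hdot (u - v)
    rw [h1] at h2
    simp only [Pi.zero_apply, mul_zero, Finset.sum_const_zero] at h2
    have h3 : ∑ x, p x * (u - v) x = 0 := by
      have : (∑ x, p x * (u - v) x) * ∑ x, p x * p x = 0 := by linarith
      rcases mul_eq_zero.1 this with h | h
      · exact h
      · exact absurd h hpp.ne'
    have h4 := hM'v (u - v)
    rw [h1, h3, zero_smul, sub_zero] at h4
    obtain ⟨c, hc⟩ := ker_gen hA hne hψ hψ0 (u - v) h4.symm
    have h5 : c * ∑ x, p x * p x = 0 := by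
      rw [← h3, Finset.mul_sum]
      apply Finset.sum_congr rfl
      intro x _
      rw [hc x, hp]
      ring
    have h6 : c = 0 := by
      rcases mul_eq_zero.1 h5 with h | h
      · exact h
      · exact absurd h hpp.ne'
    funext x
    have := hc x
    rw [h6, zero_mul, Pi.sub_apply] at this
    linarith
  have hsurj : Function.Surjective M'.mulVec := by
    rw [Matrix.mulVec_surjective_iff_isUnit, ← Matrix.mulVec_injective_iff_isUnit]
    exact hinj
  obtain ⟨g, hg⟩ := hsurj b
  refine ⟨g, ?_⟩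
  have h1 := hdot g
  have hg' : M'.mulVec g = b := hg
  rw [hg', hb] at h1
  have h3 : ∑ x, p x * g x = 0 := by
    have : (∑ x, p x * g x) * ∑ x, p x * p x = 0 := by linarith
    rcases mul_eq_zero.1 this with h | h
    · exact h
    · exact absurd h hpp.ne'
  have h4 := hM'v g
  rw [h3, zero_smul, sub_zero, hg'] at h4
  exact h4.symm

/-- The mean of `v` under `ψ²`. -/
noncomputable def vbar (A : Finset Site) (ψ v : Site → ℝ) : ℝ :=
  (∑ x ∈ A, v x * ψ x ^ 2) / ∑ x ∈ A, ψ x ^ 2

/-- Exponential upper tails of additive functionals. -/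
theorem tail_bound (hA : ConnF (A : Set Site)) (hne : A.Nonempty) (hψ : ∀ x ∈ A, 0 < ψ x)
    (hψ0 : ∀ x, x ∉ A → ψ x = 0) {v : Site → ℝ} {Cv : ℝ} (hv : ∀ x, |v x| ≤ Cv) {δ : ℝ}
    (hδ : 0 < δ) :
    ∃ C c : ℝ, 0 < C ∧ 0 < c ∧ ∀ μ : Measure WP, IsLaw μ → ∀ s : ℝ≥0, ∀ x ∈ A,
      ∫ f, fkw A (potl A ψ) s x f *
        (if (vbar A ψ v + δ) * s ≤ occ s (fun z => v (x + z)) f then 1 else 0) ∂μ
        ≤ C * Real.exp (-(c * s)) := by
  classical
  obtain ⟨CV, hCV⟩ := potl_bdd A ψ
  obtain ⟨xm, hxm, hmin⟩ := A.exists_min_image ψ hne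
  obtain ⟨xM, hxM, hmax⟩ := A.exists_max_image ψ hne
  set m0 := ψ xm with hm0
  set m1 := ψ xM with hm1
  have hm0pos : 0 < m0 := hψ _ hxm
  have hm1pos : 0 < m1 := hψ _ hxM
  set vb := vbar A ψ v with hvb
  have hnorm : 0 < ∑ x ∈ A, ψ x ^ 2 := Finset.sum_pos (fun x hx => pow_pos (hψ x hx) 2) hne
  obtain ⟨g, hg⟩ := poisson hA hne hψ hψ0 (fun x => (vb - v x.1) * ψ x.1) (by
    have h1 : ∑ x : A, ψ x.1 * ((vb - v x.1) * ψ x.1) = ∑ x ∈ A, (vb - v x) * ψ x ^ 2 := by
      rw [← Finset.sum_coe_sort A]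
      apply Finset.sum_congr rfl
      intro x _
      ring
    rw [h1]
    simp only [sub_mul, Finset.sum_sub_distrib, ← Finset.mul_sum]
    rw [hvb, vbar, div_mul_cancel₀ _ hnorm.ne', sub_self])
  set G : ℝ := ∑ x, |g x| with hG
  have hG0 : 0 ≤ G := Finset.sum_nonneg (fun _ _ => abs_nonneg _)
  have hgG : ∀ x, |g x| ≤ G := fun x =>
    Finset.single_le_sum (f := fun x => |g x|) (fun _ _ => abs_nonneg _) (Finset.mem_univ x)
  have hCv0 : 0 ≤ Cv := (abs_nonneg _).trans (hv 0)
  set κ : ℝ := 2 * (Cv + |vb|) * G / m0 + 1 with hκ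
  have hκ0 : 0 < κ := by positivity
  set a : ℝ := min (m0 / (2 * (G + 1))) (δ / (2 * κ)) with ha
  have ha0 : 0 < a := by
    apply lt_min <;> positivity
  have haG : a * G ≤ m0 / 2 := by
    have h1 : a ≤ m0 / (2 * (G + 1)) := min_le_left _ _
    calc a * G ≤ m0 / (2 * (G + 1)) * (G + 1) := by
          apply mul_le_mul h1 (by linarith) hG0 (by positivity)
      _ = m0 / 2 := by field_simp
  have haκ : κ * a ≤ δ / 2 := by
    have h1 : a ≤ δ / (2 * κ) := min_le_right _ _
    calc κ * a ≤ κ * (δ / (2 * κ)) := by gcongr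
      _ = δ / 2 := by field_simp
  -- the supersolution
  set F : Site → ℝ := fun z => ψ z + a * ext0 A g z with hF
  have hFlow : ∀ x ∈ A, m0 / 2 ≤ F x := by
    intro x hx
    have h1 := hmin x hx
    have h2 := hgG ⟨x, hx⟩
    have h3 : ext0 A g x = g ⟨x, hx⟩ := ext0_mem A g ⟨x, hx⟩
    rw [hF]
    simp only [h3]
    have h4 := (abs_le.1 h2).1
    nlinarith
  have hFup : ∀ x ∈ A, F x ≤ 2 * m1 := by
    intro x hx
    have h1 := hmax x hx
    have h0 := hmin xM hxM
    have h2 := hgG ⟨x, hx⟩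
    have h3 : ext0 A g x = g ⟨x, hx⟩ := ext0_mem A g ⟨x, hx⟩
    rw [hF]
    simp only [h3]
    have h4 := (abs_le.1 h2).2
    nlinarith
  set b : ℝ := -(a * vb) - κ * a ^ 2 with hb
  set V' : Site → ℝ := fun z => potl A ψ z + a * v z + b with hV'
  have hV'b : ∀ z, |V' z| ≤ CV + a * Cv + |b| := by
    intro z
    rw [hV']
    calc |potl A ψ z + a * v z + b| ≤ |potl A ψ z| + |a * v z| + |b| := abs_add_three _ _ _
      _ ≤ CV + a * Cv + |b| := by
          rw [abs_mul, abs_of_pos ha0]
          gcongr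
          · exact hCV z
          · exact hv z
  have hsuper : ∀ x : A, (gen A V').mulVec (fun y : A => F y.1) x ≤ 0 * F x.1 := by
    intro x
    have h1 : (gen A V').mulVec (fun y : A => F y.1) x
        = (gen A (potl A ψ)).mulVec (fun y : A => F y.1) x + (a * v x.1 + b) * F x.1 := by
      rw [gen_mulVec, gen_mulVec, hV']
      ring
    have h2 : (fun y : A => F y.1) = (fun y : A => ψ y.1) + a • g := by
      funext y
      rw [hF]
      simp only [ext0_mem, Pi.add_apply, Pi.smul_apply, smul_eq_mul]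
    rw [h1, h2, Matrix.mulVec_add, Matrix.mulVec_smul, gen_psi hψ hψ0, hg, zero_add]
    simp only [Pi.smul_apply, smul_eq_mul]
    have h3 : F x.1 = ψ x.1 + a * g x := by rw [hF]; simp only [ext0_mem]
    have h4 : a * ((vb - v x.1) * ψ x.1) + (a * v x.1 + b) * F x.1
        = a ^ 2 * ((v x.1 - vb) * g x) - κ * a ^ 2 * F x.1 := by
      rw [h3, hb]; ring
    rw [h4, zero_mul]
    have h5 : (v x.1 - vb) * g x ≤ (Cv + |vb|) * G := by
      calc (v x.1 - vb) * g x ≤ |(v x.1 - vb) * g x| := le_abs_self _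
        _ = |v x.1 - vb| * |g x| := abs_mul _ _
        _ ≤ (Cv + |vb|) * G := by
            gcongr
            · exact (abs_sub _ _).trans (by gcongr; exact hv _)
            · exact hgG x
    have h6 := hFlow x.1 x.2
    have h7 : (Cv + |vb|) * G ≤ κ * F x.1 := by
      calc (Cv + |vb|) * G ≤ κ * (m0 / 2) := by
            rw [hκ]
            have : (2 * (Cv + |vb|) * G / m0 + 1) * (m0 / 2) = (Cv + |vb|) * G + m0 / 2 := by
              field_simp
            rw [this]; linarith
        _ ≤ κ * F x.1 := by gcongr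
    nlinarith [sq_nonneg a]
  refine ⟨4 * m1 / m0, a * δ / 2, by positivity, by positivity, ?_⟩
  intro μ hμ s x hx
  have := hμ.prob
  have hpos : ∀ r : ℝ, 0 ≤ r → ∀ x y, 0 ≤ NormedSpace.exp (r • gen A V') x y := by
    intro r hr x y
    have := kernel_nonneg hμ A V' hV'b r.toNNReal x y
    rwa [Real.coe_toNNReal _ hr] at this
  have h1 := exp_super (gen A V') hpos (fun y : A => F y.1) 0 hsuper (t := (s : ℝ)) s.coe_nonneg
    ⟨x, hx⟩
  rw [zero_mul, Real.exp_zero, one_mul, fk_mulVec hμ A V' hV'b s ⟨x, hx⟩ F] at h1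
  -- lower bound of the left-hand side
  have hint1 : Integrable (fun f : WP => fkw A V' s x f * F (x + f.1 s)) μ := by
    apply integrable_of_bdd ((measurable_fkw A V' hV'b s x).mul (measurable_of_site s x F))
      (C := Real.exp (s * (CV + a * Cv + |b|)) * (2 * m1))
    intro f
    rw [Pi.mul_apply, abs_mul, abs_of_nonneg (fkw_nonneg _ _ _ _ _)]
    by_cases hst : stay x A s f
    · have hmem : x + f.1 s ∈ A := hst s le_rfl
      have h2 := hFlow _ hmem
      have h3 := hFup _ hmem
      rw [abs_of_nonneg (by linarith : 0 ≤ F (x + f.1 s))]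
      apply mul_le_mul (fkw_le A V' hV'b s x f) h3 (by linarith) (Real.exp_pos _).le
    · have h0 : fkw A V' s x f = 0 := by
        unfold fkw; exact Set.indicator_of_notMem (by exact hst) _
      rw [h0, zero_mul]
      positivity
  have hmeas : Measurable (fun f : WP =>
      (if (vb + δ) * s ≤ occ s (fun z => v (x + z)) f then (1 : ℝ) else 0)) := by
    apply Measurable.ite _ measurable_const measurable_const
    exact measurableSet_le measurable_const (measurable_occ s _ (fun z => hv _))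
  have hint2 : Integrable (fun f : WP => fkw A (potl A ψ) s x f *
        (if (vb + δ) * s ≤ occ s (fun z => v (x + z)) f then (1 : ℝ) else 0)) μ := by
    apply integrable_of_bdd ((measurable_fkw A _ hCV s x).mul hmeas) (C := Real.exp (s * CV) * 1)
    intro f
    rw [Pi.mul_apply, abs_mul, abs_of_nonneg (fkw_nonneg _ _ _ _ _)]
    apply mul_le_mul (fkw_le A _ hCV s x f) _ (abs_nonneg _) (Real.exp_pos _).le
    split_ifs <;> simp
  have hpt : ∀ f : WP, fkw A (potl A ψ) s x f *
        (if (vb + δ) * s ≤ occ s (fun z => v (x + z)) f then (1 : ℝ) else 0)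
        ≤ (2 / m0 * Real.exp (-(a * δ / 2 * s))) * (fkw A V' s x f * F (x + f.1 s)) := by
    intro f
    by_cases hst : stay x A s f
    swap
    · have h0 : fkw A V' s x f = 0 := by
        unfold fkw; exact Set.indicator_of_notMem (by exact hst) _
      have h0' : fkw A (potl A ψ) s x f = 0 := by
        unfold fkw; exact Set.indicator_of_notMem (by exact hst) _
      rw [h0, h0']
      simp
    have hmem : x + f.1 s ∈ A := hst s le_rfl
    have hFm := hFlow _ hmem
    have hfk := fkw_nonneg A (potl A ψ) s x f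
    by_cases hoc : (vb + δ) * s ≤ occ s (fun z => v (x + z)) f
    · rw [if_pos hoc, mul_one]
      have h3 : fkw A V' s x f = fkw A (potl A ψ) s x f *
          Real.exp (a * occ s (fun z => v (x + z)) f + b * s) :=
        fkw_tilt A s hCV hv a b x f
      rw [h3]
      have h4 : Real.exp (a * δ / 2 * s) ≤ Real.exp (a * occ s (fun z => v (x + z)) f + b * s) := by
        apply Real.exp_le_exp.2
        rw [hb]
        have h5 := mul_le_mul_of_nonneg_left hoc ha0.le
        have hs0 : (0 : ℝ) ≤ s := s.coe_nonneg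
        have h6 : κ * a ^ 2 * s ≤ a * δ / 2 * s := by
          have : κ * a ^ 2 = a * (κ * a) := by ring
          rw [this]
          have : a * (κ * a) ≤ a * (δ / 2) := by gcongr
          have : a * (κ * a) ≤ a * δ / 2 := by linarith
          gcongr
        nlinarith
      calc fkw A (potl A ψ) s x f
          = (2 / m0 * Real.exp (-(a * δ / 2 * s))) *
            (fkw A (potl A ψ) s x f * Real.exp (a * δ / 2 * s) * (m0 / 2)) := by
            have : Real.exp (-(a * δ / 2 * s)) * Real.exp (a * δ / 2 * s) = 1 := by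
              rw [← Real.exp_add]; simp
            calc fkw A (potl A ψ) s x f = fkw A (potl A ψ) s x f *
                  (Real.exp (-(a * δ / 2 * s)) * Real.exp (a * δ / 2 * s)) := by rw [this, mul_one]
              _ = _ := by field_simp
        _ ≤ _ := by gcongr
    · rw [if_neg hoc, mul_zero]
      apply mul_nonneg (by positivity)
      apply mul_nonneg (fkw_nonneg _ _ _ _ _)
      linarith
  calc ∫ f, fkw A (potl A ψ) s x f *
        (if (vb + δ) * s ≤ occ s (fun z => v (x + z)) f then (1 : ℝ) else 0) ∂μ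
      ≤ ∫ f, (2 / m0 * Real.exp (-(a * δ / 2 * s))) * (fkw A V' s x f * F (x + f.1 s)) ∂μ :=
        integral_mono hint2 (hint1.const_mul _) hpt
    _ = (2 / m0 * Real.exp (-(a * δ / 2 * s))) * ∫ f, fkw A V' s x f * F (x + f.1 s) ∂μ :=
        integral_const_mul _ _
    _ ≤ (2 / m0 * Real.exp (-(a * δ / 2 * s))) * (2 * m1) := by
        gcongr
        exact h1.trans (hFup x hx)
    _ = 4 * m1 / m0 * Real.exp (-(a * δ / 2 * s)) := by ring

end Ground

end Pool.Agent.LT
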