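import Pool.Agent.LT.FK

/-!
# Upper bounds for confinement with large boundary local times
-/

open MeasureTheory ProbabilityTheory Filter Topology
open scoped NNReal ENNReal Matrix.Norms.Operator

namespace Pool.Agent.LT

/-- Number of neighbours of `x` outside `A`. -/
def kap (A : Finset Site) (x : Site) : ℕ := (units.filter (fun e => x + e ∉ A)).card

/-- Size of the edge boundary. -/
def bsize (A : Finset Site) : ℕ := ∑ x ∈ A, kap A x

lemma card_units : units.card = 4 := by decide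

lemma kap_le (A : Finset Site) (x : Site) : kap A x ≤ 4 := by
  unfold kap
  exact (Finset.card_filter_le _ _).trans (by rw [card_units])

/-- The form in the directions `U`. -/
noncomputable def dirform (A : Finset Site) (θ : ℝ) (U : Finset Site) (u : Site → ℝ) : ℝ :=
  ∑ x ∈ A, ∑ e ∈ U, ((if x + e ∈ A then 1 else θ) * u x ^ 2 - u x * u (x + e))

/-- The killing potential. -/
noncomputable def kpot (A : Finset Site) (θ : ℝ) (z : Site) : ℝ := (1 - θ) * kap A z

lemma kpot_bdd (A : Finset Site) {θ : ℝ} (h0 : 0 ≤ θ) (h1 : θ ≤ 1) (z : Site) :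
    |kpot A θ z| ≤ 4 := by
  unfold kpot
  have h2 : (kap A z : ℝ) ≤ 4 := by exact_mod_cast kap_le A z
  have h3 : (0 : ℝ) ≤ kap A z := Nat.cast_nonneg _
  rw [abs_of_nonneg (mul_nonneg (by linarith) h3)]
  nlinarith

lemma kap_sum (A : Finset Site) (x : Site) (θ : ℝ) :
    (1 - θ) * kap A x - 4 = - ∑ e ∈ units, (if x + e ∈ A then (1 : ℝ) else θ) := by
  have h1 : ∑ e ∈ units, (if x + e ∈ A then (1 : ℝ) else θ)
      = ∑ e ∈ units, (1 - (1 - θ) * (if x + e ∉ A then (1 : ℝ) else 0)) := by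
    apply Finset.sum_congr rfl
    intro e _
    by_cases h : x + e ∈ A <;> simp [h]
  rw [h1, Finset.sum_sub_distrib, ← Finset.mul_sum, Finset.sum_boole, Finset.sum_const, card_units]
  unfold kap
  simp

/-- extension by zero -/
noncomputable def ext0 (A : Finset Site) (u : A → ℝ) (z : Site) : ℝ :=
  if h : z ∈ A then u ⟨z, h⟩ else 0

lemma ext0_mem (A : Finset Site) (u : A → ℝ) (x : A) : ext0 A u x.1 = u x := by
  unfold ext0; rw [dif_pos x.2]

lemma ext0_not_mem (A : Finset Site) (u : A → ℝ) {z : Site} (h : z ∉ A) : ext0 A u z = 0 := by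
  unfold ext0; rw [dif_neg h]

lemma gen_mulVec (A : Finset Site) (V : Site → ℝ) (u : A → ℝ) (x : A) :
    (gen A V).mulVec u x = (V x.1 - 4) * u x + ∑ e ∈ units, ext0 A u (x.1 + e) := by
  have h1 : ∑ e ∈ units, ext0 A u (x.1 + e)
      = ∑ y : A, if Adj x.1 y.1 then u y else 0 := by
    rw [← Finset.sum_filter]
    have h2 : ∑ e ∈ units, ext0 A u (x.1 + e)
        = ∑ e ∈ units.filter (fun e => x.1 + e ∈ A), ext0 A u (x.1 + e) := by
      rw [Finset.sum_filter]
      apply Finset.sum_congr rfl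
      intro e _
      split_ifs with h
      · rfl
      · exact ext0_not_mem A u h
    rw [h2]
    refine Finset.sum_bij' (fun e he => (⟨x.1 + e, (Finset.mem_filter.1 he).2⟩ : A))
      (fun y _ => y.1 - x.1) ?_ ?_ ?_ ?_ ?_
    · intro e he
      rw [Finset.mem_filter]
      refine ⟨Finset.mem_univ _, ?_⟩
      simpa [Adj] using (Finset.mem_filter.1 he).1
    · intro y hy
      rw [Finset.mem_filter] at hy ⊢
      refine ⟨hy.2, ?_⟩
      simp
    · intro e he; simp
    · intro y hy; simp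
    · intro e he
      exact ext0_mem A u ⟨x.1 + e, (Finset.mem_filter.1 he).2⟩
  rw [h1, Matrix.mulVec, dotProduct]
  have h0 : (0 : Site) ∉ units := by decide
  have hx : ¬ Adj x.1 x.1 := by simp [Adj, h0]
  have h3 : ∀ y : A, gen A V x y * u y = (if y = x then (V x.1 - 4) * u x else 0)
      + (if Adj x.1 y.1 then u y else 0) := by
    intro y
    unfold gen
    by_cases hy : x = y
    · subst hy; simp [hx]
    · rw [if_neg hy, if_neg (Ne.symm hy)]
      split_ifs <;> ring
  simp only [h3]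
  rw [Finset.sum_add_distrib]
  simp

lemma gen_form (A : Finset Site) (θ : ℝ) (u : A → ℝ) :
    ∑ x, u x * (gen A (kpot A θ)).mulVec u x = - dirform A θ units (ext0 A u) := by
  unfold dirform
  rw [← Finset.sum_coe_sort A, ← Finset.sum_neg_distrib]
  apply Finset.sum_congr rfl
  intro x _
  rw [gen_mulVec, kpot, kap_sum, ext0_mem]
  rw [Finset.sum_sub_distrib, ← Finset.sum_mul, ← Finset.mul_sum]
  ring

lemma ext0_sq_sum (A : Finset Site) (u : A → ℝ) : ∑ x ∈ A, ext0 A u x ^ 2 = ∑ x, u x ^ 2 := by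
  rw [← Finset.sum_coe_sort A]
  apply Finset.sum_congr rfl
  intro x _
  rw [ext0_mem]

lemma picone (S U : Finset Site) (hU : ∀ e ∈ U, -e ∈ U) (φ u : Site → ℝ)
    (hφ : ∀ x ∈ S, 0 < φ x) :
    ∑ x ∈ S, ∑ e ∈ U.filter (fun e => x + e ∈ S), u x * u (x + e)
      ≤ ∑ x ∈ S, ∑ e ∈ U.filter (fun e => x + e ∈ S), u x ^ 2 * (φ (x + e) / φ x) := by
  have hswap : ∑ x ∈ S, ∑ e ∈ U.filter (fun e => x + e ∈ S), u (x + e) ^ 2 * (φ x / φ (x + e))
      = ∑ x ∈ S, ∑ e ∈ U.filter (fun e => x + e ∈ S), u x ^ 2 * (φ (x + e) / φ x) := by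
    rw [Finset.sum_sigma', Finset.sum_sigma']
    apply Finset.sum_bij' (i := fun (p : (_ : Site) × Site) _ => (⟨p.1 + p.2, -p.2⟩ : (_ : Site) × Site))
      (j := fun (p : (_ : Site) × Site) _ => (⟨p.1 + p.2, -p.2⟩ : (_ : Site) × Site))
    · rintro ⟨x, e⟩ h
      simp only [Finset.mem_sigma, Finset.mem_filter] at h ⊢
      exact ⟨h.2.2, hU e h.2.1, by simpa using h.1⟩
    · rintro ⟨x, e⟩ h
      simp only [Finset.mem_sigma, Finset.mem_filter] at h ⊢
      exact ⟨h.2.2, hU e h.2.1, by simpa using h.1⟩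
    · rintro ⟨x, e⟩ h; simp
    · rintro ⟨x, e⟩ h; simp
    · rintro ⟨x, e⟩ h; simp
  have h2 : ∑ x ∈ S, ∑ e ∈ U.filter (fun e => x + e ∈ S), u x * u (x + e)
      ≤ ∑ x ∈ S, ∑ e ∈ U.filter (fun e => x + e ∈ S),
        (1 / 2 * (u x ^ 2 * (φ (x + e) / φ x)) + 1 / 2 * (u (x + e) ^ 2 * (φ x / φ (x + e)))) := by
    apply Finset.sum_le_sum
    intro x hx
    apply Finset.sum_le_sum
    intro e he
    have ha := hφ x hx
    have hb := hφ (x + e) (Finset.mem_filter.1 he).2
    set a := φ x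
    set b := φ (x + e)
    set p := u x
    set q := u (x + e)
    have h3 : 1 / 2 * (p ^ 2 * (b / a)) + 1 / 2 * (q ^ 2 * (a / b)) - p * q
        = 1 / 2 * ((p * b - q * a) ^ 2 / (a * b)) := by
      field_simp
      ring
    have h4 : 0 ≤ 1 / 2 * ((p * b - q * a) ^ 2 / (a * b)) := by positivity
    linarith
  refine h2.trans (le_of_eq ?_)
  have h6 : ∀ (G H : Site → Site → ℝ), ∑ x ∈ S, ∑ e ∈ U.filter (fun e => x + e ∈ S),
      (1 / 2 * G x e + 1 / 2 * H x e)
      = 1 / 2 * (∑ x ∈ S, ∑ e ∈ U.filter (fun e => x + e ∈ S), G x e)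
        + 1 / 2 * (∑ x ∈ S, ∑ e ∈ U.filter (fun e => x + e ∈ S), H x e) := by
    intro G H
    simp only [Finset.sum_add_distrib, Finset.mul_sum]
  rw [h6 (fun x e => u x ^ 2 * (φ (x + e) / φ x)) (fun x e => u (x + e) ^ 2 * (φ x / φ (x + e))),
    hswap]
  ring

lemma dirform_ge (A S U : Finset Site) (hSA : S ⊆ A) (hU : ∀ e ∈ U, -e ∈ U) {θ : ℝ}
    (hθ1 : θ ≤ 1) (u φ : Site → ℝ) (hu : ∀ x, x ∉ S → u x = 0)
    (hφ : ∀ x ∈ S, 0 < φ x)
    (hrat : ∀ x ∈ S, ∀ e ∈ U, x + e ∉ S → (1 - θ) * φ x ≤ φ (x + e)) :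
    ∑ x ∈ S, u x ^ 2 * ∑ e ∈ U, (1 - φ (x + e) / φ x) ≤ dirform A θ U u := by
  have h1 : dirform A θ U u
      = ∑ x ∈ S, ∑ e ∈ U, ((if x + e ∈ A then 1 else θ) * u x ^ 2 - u x * u (x + e)) := by
    unfold dirform
    symm
    apply Finset.sum_subset hSA
    intro x _ hx
    rw [hu x hx]
    simp
  rw [h1]
  have hp := picone S U hU φ u hφ
  have h2 : ∀ x ∈ S, ∑ e ∈ U.filter (fun e => x + e ∉ S), (u x ^ 2 * (1 - φ (x + e) / φ x))
      ≤ ∑ e ∈ U.filter (fun e => x + e ∉ S),
        ((if x + e ∈ A then 1 else θ) * u x ^ 2 - u x * u (x + e)) := by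
    intro x hx
    apply Finset.sum_le_sum
    intro e he
    rw [Finset.mem_filter] at he
    rw [hu _ he.2, mul_zero, sub_zero, mul_comm]
    apply mul_le_mul_of_nonneg_right _ (sq_nonneg _)
    have h3 := hrat x hx e he.1 he.2
    have h4 := hφ x hx
    have h5 : 1 - θ ≤ φ (x + e) / φ x := by rw [le_div_iff₀ h4]; exact h3
    split_ifs <;> linarith
  have h3 : ∑ x ∈ S, ∑ e ∈ U.filter (fun e => x + e ∈ S), (u x ^ 2 * (1 - φ (x + e) / φ x))
      ≤ ∑ x ∈ S, ∑ e ∈ U.filter (fun e => x + e ∈ S),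
        ((if x + e ∈ A then 1 else θ) * u x ^ 2 - u x * u (x + e)) := by
    have h4 : ∀ x ∈ S, ∀ e ∈ U.filter (fun e => x + e ∈ S),
        ((if x + e ∈ A then 1 else θ) * u x ^ 2 - u x * u (x + e))
          = u x ^ 2 - u x * u (x + e) := by
      intro x _ e he
      rw [if_pos (hSA (Finset.mem_filter.1 he).2), one_mul]
    rw [Finset.sum_congr rfl (fun x hx => Finset.sum_congr rfl (h4 x hx))]
    simp only [mul_sub, mul_one, Finset.sum_sub_distrib]
    linarith
  have h5 : ∀ (G : Site → Site → ℝ), ∑ x ∈ S, ∑ e ∈ U, G x e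
      = ∑ x ∈ S, ∑ e ∈ U.filter (fun e => x + e ∈ S), G x e
        + ∑ x ∈ S, ∑ e ∈ U.filter (fun e => x + e ∉ S), G x e := by
    intro G
    rw [← Finset.sum_add_distrib]
    apply Finset.sum_congr rfl
    intro x _
    rw [Finset.sum_filter_add_sum_filter_not]
  simp only [Finset.mul_sum]
  rw [h5, h5]
  exact add_le_add h3 (Finset.sum_le_sum h2)

/-- The event that the path stays in `A` and has large local time at the boundary sites. -/
def bevt (A : Finset Site) (β : ℝ) (t : ℝ≥0) (x : Site) : Set WP :=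
  {f | stay x A t f ∧ ∀ z ∈ A, kap A z ≠ 0 →
    β ≤ occ t (fun w => if x + w = z then 1 else 0) f}

lemma ite_bdd (x z : Site) (w : Site) : |(fun w => if x + w = z then (1 : ℝ) else 0) w| ≤ 1 := by
  show |if x + w = z then (1 : ℝ) else 0| ≤ 1
  split_ifs <;> simp

lemma measurableSet_bevt (A : Finset Site) (β : ℝ) (t : ℝ≥0) (x : Site) :
    MeasurableSet (bevt A β t x) := by
  have h2 : MeasurableSet {f : WP | ∀ z ∈ A, kap A z ≠ 0 →
      β ≤ occ t (fun w => if x + w = z then 1 else 0) f} := by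
    simp only [Set.setOf_forall]
    refine MeasurableSet.iInter fun z => MeasurableSet.iInter fun _ =>
      MeasurableSet.iInter fun _ => ?_
    exact measurableSet_le measurable_const (measurable_occ t _ (ite_bdd x z))
  exact (measurableSet_stay x A t).inter h2

/-- On staying in `A`, a potential integrates to the sum of local times. -/
lemma occ_eq_sum {A : Finset Site} {t : ℝ≥0} {x : Site} {f : WP} (hf : stay x A t f) (V : Site → ℝ)
    : occ t (fun w => V (x + w)) f
      = ∑ z ∈ A, V z * occ t (fun w => if x + w = z then 1 else 0) f := by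
  have h1 : ∑ z ∈ A, V z * occ t (fun w => if x + w = z then 1 else 0) f
      = occ t (fun w => ∑ z ∈ A, V z * (if x + w = z then 1 else 0)) f := by
    unfold occ
    rw [intervalIntegral.integral_finset_sum]
    · apply Finset.sum_congr rfl
      intro z _
      rw [intervalIntegral.integral_const_mul]
    · intro z _
      exact (intervalIntegrable_path f _ (ite_bdd x z) _ _).const_mul (V z)
  rw [h1]
  unfold occ
  apply intervalIntegral.integral_congr
  intro u hu
  rw [Set.uIcc_of_le t.coe_nonneg] at hu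
  have hu' : u.toNNReal ≤ t := by
    rw [← NNReal.coe_le_coe, Real.coe_toNNReal _ hu.1]; exact hu.2
  have hmem := hf _ hu'
  show V (x + f.1 u.toNNReal) = ∑ z ∈ A, V z * (if x + f.1 u.toNNReal = z then 1 else 0)
  rw [Finset.sum_eq_single_of_mem _ hmem]
  · simp
  · intro b _ hb
    rw [if_neg (Ne.symm hb), mul_zero]

lemma integrable_fkw_ite {μ : Measure WP} [IsFiniteMeasure μ] (A : Finset Site) (V : Site → ℝ)
    {C : ℝ} (hC : ∀ x, |V x| ≤ C) (s : ℝ≥0) (x y : Site) :
    Integrable (fun f => fkw A V s x f * (if x + f.1 s = y then (1 : ℝ) else 0)) μ := by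
  refine integrable_of_bdd (C := Real.exp (s * C))
    ((measurable_fkw A V hC s x).mul (measurable_ite_eval s x y 1 0)) (fun f => ?_)
  show |fkw A V s x f * (if x + f.1 s = y then (1 : ℝ) else 0)| ≤ _
  rw [abs_mul, abs_of_nonneg (fkw_nonneg A V s x f)]
  calc _ ≤ Real.exp (s * C) * 1 := by
        apply mul_le_mul (fkw_le A V hC s x f) _ (abs_nonneg _) (by positivity)
        split_ifs <;> simp
    _ = _ := mul_one _

lemma bevt_le {μ : Measure WP} (hμ : IsLaw μ) (A : Finset Site) {β θ : ℝ}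
    (h0 : 0 ≤ θ) (h1 : θ ≤ 1) (t : ℝ≥0) (x : A) :
    μ.real (bevt A β t x.1) ≤ Real.exp (-((1 - θ) * β * bsize A)) *
      (NormedSpace.exp ((t : ℝ) • gen A (kpot A θ))).mulVec (fun _ => 1) x := by
  have := hμ.prob
  set V := kpot A θ with hV
  have hVb : ∀ z, |V z| ≤ 4 := kpot_bdd A h0 h1
  have hrhs : (NormedSpace.exp ((t : ℝ) • gen A V)).mulVec (fun _ => 1) x
      = ∫ f, ∑ y : A, fkw A V t x.1 f * (if x.1 + f.1 t = y.1 then 1 else 0) ∂μ := by
    rw [integral_finset_sum]
    · rw [Matrix.mulVec, dotProduct]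
      apply Finset.sum_congr rfl
      intro y _
      rw [mul_one, feynman_kac hμ A V hVb t x y]
    · intro y _
      exact integrable_fkw_ite A V hVb t x.1 y.1
  rw [hrhs, ← integral_const_mul, ← integral_indicator_one (measurableSet_bevt A β t x.1)]
  apply integral_mono
  · exact (integrable_const (1 : ℝ)).indicator (measurableSet_bevt A β t x.1)
  · apply Integrable.const_mul
    apply integrable_finset_sum
    intro y _
    exact integrable_fkw_ite A V hVb t x.1 y.1
  · intro f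
    by_cases hf : f ∈ bevt A β t x.1
    · rw [Set.indicator_of_mem hf]
      have hstay : stay x.1 A t f := hf.1
      have h2 : ∑ y : A, fkw A V t x.1 f * (if x.1 + f.1 t = y.1 then (1 : ℝ) else 0)
          = Real.exp (occ t (fun z => V (x.1 + z)) f) := by
        rw [← Finset.mul_sum]
        have h3 : ∑ y : A, (if x.1 + f.1 t = y.1 then (1 : ℝ) else 0) = 1 := by
          rw [Finset.sum_eq_single (⟨x.1 + f.1 t, hstay t le_rfl⟩ : A)]
          · simp
          · intro y _ hy
            rw [if_neg]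
            intro h; exact hy (Subtype.ext h.symm)
          · intro h; exact absurd (Finset.mem_univ _) h
        rw [h3, mul_one]
        unfold fkw
        exact Set.indicator_of_mem (by exact hstay) _
      show (1 : ℝ) ≤ Real.exp (-((1 - θ) * β * bsize A)) *
        ∑ y : A, fkw A V t x.1 f * (if x.1 + f.1 t = y.1 then (1 : ℝ) else 0)
      rw [h2]
      rw [← Real.exp_add]
      apply Real.one_le_exp
      rw [occ_eq_sum hstay V]
      have h4 : (1 - θ) * β * bsize A
          ≤ ∑ z ∈ A, V z * occ t (fun w => if x.1 + w = z then 1 else 0) f := by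
        unfold bsize
        push_cast
        rw [Finset.mul_sum]
        apply Finset.sum_le_sum
        intro z hz
        rw [hV, kpot]
        by_cases hk : kap A z = 0
        · rw [hk]; simp
        · have h5 := hf.2 z hz hk
          have h6 : (0 : ℝ) ≤ (1 - θ) * kap A z := by
            apply mul_nonneg (by linarith) (Nat.cast_nonneg _)
          calc (1 - θ) * β * (kap A z : ℝ) = (1 - θ) * kap A z * β := by ring
            _ ≤ _ := mul_le_mul_of_nonneg_left h5 h6
      linarith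
    · rw [Set.indicator_of_notMem hf]
      apply mul_nonneg (Real.exp_pos _).le
      apply Finset.sum_nonneg
      intro y _
      apply mul_nonneg (fkw_nonneg _ _ _ _ _)
      split_ifs <;> simp

/-- **Upper bound.** -/
theorem bevt_bound {μ : Measure WP} (hμ : IsLaw μ) (A : Finset Site) {β θ Λ : ℝ}
    (h0 : 0 ≤ θ) (h1 : θ ≤ 1) (t : ℝ≥0) (x : A)
    (hform : ∀ u : Site → ℝ, (∀ z, z ∉ A → u z = 0) →
      Λ * ∑ z ∈ A, u z ^ 2 ≤ dirform A θ units u) :
    μ.real (bevt A β t x.1) ≤ Real.exp (-((1 - θ) * β * bsize A)) *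
      (Real.sqrt A.card * Real.exp (-(Λ * t))) := by
  refine (bevt_le hμ A h0 h1 t x).trans ?_
  apply mul_le_mul_of_nonneg_left _ (Real.exp_pos _).le
  have hQ : ∀ u : A → ℝ, ∑ x, u x * (gen A (kpot A θ)).mulVec u x ≤ -Λ * ∑ x, u x ^ 2 := by
    intro u
    rw [gen_form, ← ext0_sq_sum]
    have := hform (ext0 A u) (fun z hz => ext0_not_mem A u hz)
    linarith
  have h2 := exp_l2_decay (gen A (kpot A θ)) Λ hQ (fun _ => 1) (t := t) t.coe_nonneg
  set u := (NormedSpace.exp ((t : ℝ) • gen A (kpot A θ))).mulVec (fun _ => 1) with hu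
  have h3 : (u x) ^ 2 ≤ ∑ y, (u y) ^ 2 :=
    Finset.single_le_sum (f := fun y => (u y) ^ 2) (fun y _ => sq_nonneg _) (Finset.mem_univ x)
  have h4 : (u x) ^ 2 ≤ (Real.sqrt A.card * Real.exp (-(Λ * t))) ^ 2 := by
    refine (h3.trans h2).trans (le_of_eq ?_)
    rw [mul_pow, Real.sq_sqrt (Nat.cast_nonneg _), ← Real.exp_nat_mul]
    simp
    ring_nf
  exact (abs_le_of_sq_le_sq' h4 (by positivity)).2

end Pool.Agent.LT
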